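import Mathlib

/-! H522: counting subsets of given size containing a given set. -/

set_option autoImplicit false

open Finset

namespace Pool.Agent.H522

variable {α : Type} [DecidableEq α]

theorem card_sup (V U : Finset α) (hU : U ⊆ V) (k : ℕ) (hk : U.card ≤ k) :
    ((V.powersetCard k).filter (fun W => U ⊆ W)).card = (V.card - U.card).choose (k - U.card) := by
  rw [← Finset.card_sdiff_of_subset hU, ← Finset.card_powersetCard]
  refine Finset.card_bij' (fun W _ => W \ U) (fun W _ => W ∪ U) ?_ ?_ ?_ ?_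
  · intro W hW
    rw [Finset.mem_filter, Finset.mem_powersetCard] at hW
    rw [Finset.mem_powersetCard]
    exact ⟨Finset.sdiff_subset_sdiff hW.1.1 (le_refl U), by
      rw [Finset.card_sdiff_of_subset hW.2, hW.1.2]⟩
  · intro W hW
    rw [Finset.mem_powersetCard] at hW
    rw [Finset.mem_filter, Finset.mem_powersetCard]
    have hd : Disjoint W U := Finset.disjoint_of_subset_left hW.1 Finset.sdiff_disjoint
    refine ⟨⟨Finset.union_subset (hW.1.trans Finset.sdiff_subset) hU, ?_⟩, Finset.subset_union_right⟩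
    rw [Finset.card_union_of_disjoint hd, hW.2]
    omega
  · intro W hW
    rw [Finset.mem_filter] at hW
    exact Finset.sdiff_union_of_subset hW.2
  · intro W hW
    rw [Finset.mem_powersetCard] at hW
    have hd : Disjoint W U := Finset.disjoint_of_subset_left hW.1 Finset.sdiff_disjoint
    exact Finset.union_sdiff_cancel_right hd

theorem card_sup_zero (V U : Finset α) (k : ℕ) (hk : k < U.card) :
    ((V.powersetCard k).filter (fun W => U ⊆ W)).card = 0 := by
  rw [Finset.card_eq_zero, Finset.filter_eq_empty_iff]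
  intro W hW hUW
  rw [Finset.mem_powersetCard] at hW
  have := Finset.card_le_card hUW
  omega

/-- `C(n - a, k - a) ≤ (k / n)^a C(n, k)` -/
theorem choose_ratio (n k : ℕ) (hkn : k ≤ n) : ∀ a, a ≤ k →
    (((n - a).choose (k - a) : ℕ) : ℝ) ≤ ((k : ℝ) / n) ^ a * (n.choose k : ℝ) := by
  intro a
  induction a with
  | zero => intro _; simp
  | succ a ih =>
    intro ha
    have h1 := ih (by omega)
    obtain ⟨n', hn'⟩ : ∃ n', n - a = n' + 1 := ⟨n - a - 1, by omega⟩
    obtain ⟨k', hk'⟩ : ∃ k', k - a = k' + 1 := ⟨k - a - 1, by omega⟩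
    have e1 : n - (a + 1) = n' := by omega
    have e2 : k - (a + 1) = k' := by omega
    rw [e1, e2]
    rw [hn', hk'] at h1
    have h2 : (n' + 1) * n'.choose k' = (n' + 1).choose (k' + 1) * (k' + 1) := Nat.add_one_mul_choose_eq n' k'
    have h3 : ((n' : ℝ) + 1) * (n'.choose k' : ℝ) = ((n' + 1).choose (k' + 1) : ℝ) * ((k' : ℝ) + 1) := by
      exact_mod_cast h2
    have hn0 : (0 : ℝ) < n := by
      have : 0 < n := by omega
      exact_mod_cast this
    have h4 : ((k' : ℝ) + 1) / ((n' : ℝ) + 1) ≤ (k : ℝ) / n := by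
      rw [div_le_div_iff₀ (by positivity) hn0]
      have e3 : (n' : ℝ) + 1 = n - a := by
        have : n = n' + 1 + a := by omega
        rw [this]; push_cast; ring
      have e4 : (k' : ℝ) + 1 = k - a := by
        have : k = k' + 1 + a := by omega
        rw [this]; push_cast; ring
      rw [e3, e4]
      have h5 : (k : ℝ) ≤ n := by exact_mod_cast hkn
      have h6 : (0 : ℝ) ≤ a := Nat.cast_nonneg _
      nlinarith
    have h5 : (n'.choose k' : ℝ) = ((k' : ℝ) + 1) / ((n' : ℝ) + 1) * ((n' + 1).choose (k' + 1) : ℝ) := by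
      field_simp
      linarith
    rw [h5, pow_succ]
    calc ((k' : ℝ) + 1) / ((n' : ℝ) + 1) * ((n' + 1).choose (k' + 1) : ℝ)
        ≤ (k : ℝ) / n * (((k : ℝ) / n) ^ a * (n.choose k : ℝ)) :=
          mul_le_mul h4 h1 (by positivity) (by positivity)
      _ = _ := by ring

theorem card_sup_le (V U : Finset α) (hU : U ⊆ V) (k : ℕ) (hk : k ≤ V.card) :
    (((V.powersetCard k).filter (fun W => U ⊆ W)).card : ℝ) ≤
      ((k : ℝ) / V.card) ^ U.card * (V.card.choose k : ℝ) := by
  rcases Nat.lt_or_ge k U.card with h | h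
  · rw [card_sup_zero V U k h]
    push_cast
    positivity
  · rw [card_sup V U hU k h]
    exact choose_ratio V.card k hk U.card h

theorem card_mem_eq (V : Finset α) (v : α) (hv : v ∈ V) (k : ℕ) (hk1 : 1 ≤ k) :
    (((V.powersetCard k).filter (fun W => v ∈ W)).card : ℝ) =
      ((k : ℝ) / V.card) * (V.card.choose k : ℝ) := by
  have h1 := card_sup V {v} (Finset.singleton_subset_iff.2 hv) k (by simpa using hk1)
  simp only [Finset.singleton_subset_iff, Finset.card_singleton] at h1
  rw [h1]
  have hV : 0 < V.card := Finset.card_pos.2 ⟨v, hv⟩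
  obtain ⟨n, hn⟩ : ∃ n, V.card = n + 1 := ⟨V.card - 1, by omega⟩
  obtain ⟨k', hk'⟩ : ∃ k', k = k' + 1 := ⟨k - 1, by omega⟩
  rw [hn, hk']
  simp only [Nat.add_sub_cancel]
  have h2 : (n + 1) * n.choose k' = (n + 1).choose (k' + 1) * (k' + 1) := Nat.add_one_mul_choose_eq n k'
  have h3 : ((n : ℝ) + 1) * (n.choose k' : ℝ) = ((n + 1).choose (k' + 1) : ℝ) * ((k' : ℝ) + 1) := by
    exact_mod_cast h2
  push_cast
  field_simp
  linarith

/-- double counting for a family of sets which is closed under taking subsets -/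
theorem double_count (bad : Finset α → Prop) [DecidablePred bad] (hbad : ∀ W W', W ⊆ W' → bad W' → bad W)
    (V : Finset α) (a b : ℕ) (M : ℝ)
    (hM : ∀ W₁ ∈ (V.powersetCard a).filter bad,
      ((((V \ W₁).powersetCard b).filter bad).card : ℝ) ≤ M) :
    (((V.powersetCard (a + b)).filter bad).card : ℝ) * ((a + b).choose a : ℝ) ≤
      (((V.powersetCard a).filter bad).card : ℝ) * M := by
  classical
  -- pairs `(W, W₁)`
  have h1 : (((V.powersetCard (a + b)).filter bad).card) * ((a + b).choose a) =
      (((V.powersetCard (a + b)).filter bad).sigma (fun W => W.powersetCard a)).card := by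
    rw [Finset.card_sigma, Finset.sum_const_nat]
    intro W hW
    rw [Finset.mem_filter, Finset.mem_powersetCard] at hW
    rw [Finset.card_powersetCard, hW.1.2]
  have h2 : (((V.powersetCard (a + b)).filter bad).sigma (fun W => W.powersetCard a)).card ≤
      (((V.powersetCard a).filter bad).sigma (fun W₁ => ((V \ W₁).powersetCard b).filter bad)).card := by
    refine Finset.card_le_card_of_injOn (fun p => (⟨p.2, p.1 \ p.2⟩ : (_ : Finset α) × Finset α)) ?_ ?_
    · rintro ⟨W, W₁⟩ h
      rw [Finset.mem_coe, Finset.mem_sigma, Finset.mem_filter, Finset.mem_powersetCard,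
        Finset.mem_powersetCard] at h
      obtain ⟨⟨⟨h3, h4⟩, h5⟩, h6, h7⟩ := h
      dsimp only at h3 h4 h5 h6 h7
      rw [Finset.mem_coe, Finset.mem_sigma, Finset.mem_filter, Finset.mem_powersetCard,
        Finset.mem_filter, Finset.mem_powersetCard]
      refine ⟨⟨⟨h6.trans h3, h7⟩, hbad _ _ h6 h5⟩, ⟨Finset.sdiff_subset_sdiff h3 (le_refl _), ?_⟩,
        hbad _ _ Finset.sdiff_subset h5⟩
      dsimp only
      rw [Finset.card_sdiff_of_subset h6, h4, h7]
      omega
    · rintro ⟨W, W₁⟩ h ⟨W', W₁'⟩ h' heq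
      rw [Finset.mem_coe, Finset.mem_sigma, Finset.mem_filter, Finset.mem_powersetCard,
        Finset.mem_powersetCard] at h h'
      dsimp only at h h'
      simp only [Sigma.mk.injEq, heq_eq_eq] at heq
      obtain ⟨e1, e2⟩ := heq
      have e3 : W = W' := by
        rw [← Finset.sdiff_union_of_subset h.2.1, ← Finset.sdiff_union_of_subset h'.2.1, e2, e1]
      rw [e1, e3]
  have h3 : ((((V.powersetCard a).filter bad).sigma
      (fun W₁ => ((V \ W₁).powersetCard b).filter bad)).card : ℝ) ≤
      (((V.powersetCard a).filter bad).card : ℝ) * M := by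
    rw [Finset.card_sigma]
    push_cast
    rw [← nsmul_eq_mul]
    exact Finset.sum_le_card_nsmul _ _ _ hM
  have h4 : (((V.powersetCard (a + b)).filter bad).card : ℝ) * ((a + b).choose a : ℝ) ≤
      ((((V.powersetCard a).filter bad).sigma
      (fun W₁ => ((V \ W₁).powersetCard b).filter bad)).card : ℝ) := by
    exact_mod_cast h1 ▸ h2
  exact h4.trans h3

end Pool.Agent.H522
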