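import Mathlib
import Pool.Agent.H522.Count

/-! H522: moments of spread measures. -/

set_option autoImplicit false

open Finset Filter

namespace Pool.Agent.H522

variable {α : Type} [DecidableEq α]

/-- a measure on the subsets of `V` with mean size at least `m` and spread -/
structure SM (m : ℕ) (V : Finset α) (lam : Finset α → ℝ) : Prop where
  m2 : 2 ≤ m
  Vpos : 0 < V.card
  nonneg : ∀ B, 0 ≤ lam B
  mass : ∑ B ∈ V.powerset, lam B ≤ 1
  one : ∀ v ∈ V, (m : ℝ) / V.card ≤ ∑ B ∈ V.powerset.filter (fun B => v ∈ B), lam B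
  sp : ∀ U : Finset α, U ⊆ V → U.Nonempty → ∑ B ∈ V.powerset.filter (fun B => U ⊆ B), lam B ≤
        (250 * U.card * m / V.card) ^ U.card

namespace SM

variable {m : ℕ} {V : Finset α} {lam : Finset α → ℝ}

theorem sum_card (V : Finset α) (lam : Finset α → ℝ) :
    ∑ B ∈ V.powerset, (B.card : ℝ) * lam B = ∑ v ∈ V, ∑ B ∈ V.powerset.filter (fun B => v ∈ B), lam B := by
  simp only [Finset.sum_filter]
  rw [Finset.sum_comm]
  refine Finset.sum_congr rfl fun B hB => ?_
  rw [Finset.mem_powerset] at hB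
  rw [← Finset.sum_filter, Finset.sum_const, nsmul_eq_mul, Finset.filter_mem_eq_inter,
    Finset.inter_eq_right.2 hB]

theorem E1 (h : SM m V lam) : (m : ℝ) ≤ ∑ B ∈ V.powerset, (B.card : ℝ) * lam B := by
  rw [sum_card]
  have hV : (0 : ℝ) < V.card := by exact_mod_cast h.Vpos
  calc (m : ℝ) = ∑ v ∈ V, (m : ℝ) / V.card := by
        rw [Finset.sum_const, nsmul_eq_mul]; field_simp
    _ ≤ _ := Finset.sum_le_sum fun v hv => h.one v hv

theorem E1_le (h : SM m V lam) : ∑ B ∈ V.powerset, (B.card : ℝ) * lam B ≤ 250 * m := by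
  rw [sum_card]
  have hV : (0 : ℝ) < V.card := by exact_mod_cast h.Vpos
  have h1 : ∀ v ∈ V, ∑ B ∈ V.powerset.filter (fun B => v ∈ B), lam B ≤ 250 * m / V.card := by
    intro v hv
    have h2 := h.sp {v} (Finset.singleton_subset_iff.2 hv) (Finset.singleton_nonempty v)
    simpa using h2
  refine (Finset.sum_le_sum h1).trans (le_of_eq ?_)
  rw [Finset.sum_const, nsmul_eq_mul]; field_simp

theorem E2_le (h : SM m V lam) :
    ∑ B ∈ V.powerset, (B.card : ℝ) ^ 2 * lam B ≤ 300000 * (m : ℝ) ^ 2 := by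
  have hm' : (2 : ℝ) ≤ m := by exact_mod_cast h.m2
  have hV : (0 : ℝ) < V.card := by exact_mod_cast h.Vpos
  have h1 : ∑ B ∈ V.powerset, (B.card : ℝ) ^ 2 * lam B =
      ∑ u ∈ V, ∑ v ∈ V, ∑ B ∈ V.powerset.filter (fun B => {u, v} ⊆ B), lam B := by
    have h2 : ∀ u ∈ V, ∀ v ∈ V, ∑ B ∈ V.powerset.filter (fun B => {u, v} ⊆ B), lam B =
        ∑ B ∈ V.powerset, if u ∈ B then (if v ∈ B then lam B else 0) else 0 := by
      intro u _ v _
      rw [Finset.sum_filter]
      refine Finset.sum_congr rfl fun B _ => ?_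
      by_cases hu : u ∈ B <;> by_cases hv : v ∈ B <;> simp [Finset.insert_subset_iff, hu, hv]
    rw [Finset.sum_congr rfl fun u hu => Finset.sum_congr rfl fun v hv => h2 u hu v hv]
    simp only [Finset.sum_comm (s := V) (t := V.powerset)]
    refine Finset.sum_congr rfl fun B hB => ?_
    rw [Finset.mem_powerset] at hB
    have h3 : ∀ u ∈ V, ∑ v ∈ V, (if u ∈ B then (if v ∈ B then lam B else 0) else 0) =
        if u ∈ B then (B.card : ℝ) * lam B else 0 := by
      intro u _
      split_ifs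
      · rw [← Finset.sum_filter, Finset.sum_const, nsmul_eq_mul, Finset.filter_mem_eq_inter,
          Finset.inter_eq_right.2 hB]
      · simp
    rw [Finset.sum_congr rfl h3, ← Finset.sum_filter, Finset.sum_const, nsmul_eq_mul,
      Finset.filter_mem_eq_inter, Finset.inter_eq_right.2 hB]
    ring
  rw [h1]
  have h2 : ∀ u ∈ V, ∀ v ∈ V, ∑ B ∈ V.powerset.filter (fun B => {u, v} ⊆ B), lam B ≤
      (if u = v then 250 * (m : ℝ) / (V.card : ℝ) else 0) + (500 * (m : ℝ) / (V.card : ℝ)) ^ 2 := by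
    intro u hu v hv
    by_cases huv : u = v
    · rw [if_pos huv, huv]
      have h3 := h.sp {v} (Finset.singleton_subset_iff.2 hv) (Finset.singleton_nonempty v)
      have h4 : ({v, v} : Finset α) = {v} := by simp
      rw [h4]
      have h5 : (0 : ℝ) ≤ (500 * m / V.card) ^ 2 := sq_nonneg _
      have h6 : (250 * (({v} : Finset α).card : ℝ) * m / V.card) ^ ({v} : Finset α).card =
          250 * m / V.card := by simp
      rw [h6] at h3
      linarith
    · rw [if_neg huv, zero_add]
      have h3 := h.sp {u, v} (by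
        intro x hx
        rw [Finset.mem_insert, Finset.mem_singleton] at hx
        rcases hx with rfl | rfl
        · exact hu
        · exact hv) (Finset.insert_nonempty u {v})
      rw [Finset.card_pair huv] at h3
      refine h3.trans (le_of_eq ?_)
      push_cast
      ring
  refine (Finset.sum_le_sum fun u hu => Finset.sum_le_sum fun v hv => h2 u hu v hv).trans ?_
  simp only [Finset.sum_add_distrib, Finset.sum_const, nsmul_eq_mul]
  have h3 : ∑ u ∈ V, ∑ v ∈ V, (if u = v then 250 * (m : ℝ) / V.card else 0) = 250 * m := by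
    have h4 : ∀ u ∈ V, ∑ v ∈ V, (if u = v then 250 * (m : ℝ) / V.card else 0) = 250 * (m : ℝ) / V.card := by
      intro u hu
      rw [Finset.sum_ite_eq, if_pos hu]
    rw [Finset.sum_congr rfl h4, Finset.sum_const, nsmul_eq_mul]
    field_simp
  rw [h3]
  have h4 : (V.card : ℝ) * ((V.card : ℝ) * (500 * (m : ℝ) / V.card) ^ 2) = 250000 * (m : ℝ) ^ 2 := by
    field_simp
    ring
  rw [h4]
  nlinarith

/-- the mass of the sets with at least `k` elements -/
theorem p_ge (h : SM m V lam) (k : ℕ) (hk1 : 1 ≤ k) (hkm : k ≤ m) :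
    ((m : ℝ) - k + 1) ^ 2 / (300000 * (m : ℝ) ^ 2) ≤
      ∑ B ∈ V.powerset.filter (fun B => k ≤ B.card), lam B := by
  have hm' : (2 : ℝ) ≤ m := by exact_mod_cast h.m2
  have hk' : (1 : ℝ) ≤ k := by exact_mod_cast hk1
  have hkm' : (k : ℝ) ≤ m := by exact_mod_cast hkm
  obtain ⟨p, hp⟩ : ∃ p : ℝ, p = ∑ B ∈ V.powerset.filter (fun B => k ≤ B.card), lam B := ⟨_, rfl⟩
  obtain ⟨S, hS⟩ : ∃ S : ℝ, S = ∑ B ∈ V.powerset.filter (fun B => k ≤ B.card), (B.card : ℝ) * lam B :=
    ⟨_, rfl⟩
  rw [← hp]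
  have hp0 : 0 ≤ p := by rw [hp]; exact Finset.sum_nonneg fun B _ => h.nonneg B
  have h1 : (m : ℝ) - k + 1 ≤ S := by
    have h2 := h.E1
    rw [← Finset.sum_filter_add_sum_filter_not V.powerset (fun B => k ≤ B.card)] at h2
    rw [← hS] at h2
    have h3 : ∑ B ∈ V.powerset.filter (fun B => ¬ k ≤ B.card), (B.card : ℝ) * lam B ≤
        ((k : ℝ) - 1) * 1 := by
      calc ∑ B ∈ V.powerset.filter (fun B => ¬ k ≤ B.card), (B.card : ℝ) * lam B
          ≤ ∑ B ∈ V.powerset.filter (fun B => ¬ k ≤ B.card), ((k : ℝ) - 1) * lam B := by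
            refine Finset.sum_le_sum fun B hB => ?_
            rw [Finset.mem_filter] at hB
            apply mul_le_mul_of_nonneg_right _ (h.nonneg B)
            have : B.card + 1 ≤ k := by omega
            have : (B.card : ℝ) + 1 ≤ k := by exact_mod_cast this
            linarith
        _ = ((k : ℝ) - 1) * ∑ B ∈ V.powerset.filter (fun B => ¬ k ≤ B.card), lam B := by
            rw [Finset.mul_sum]
        _ ≤ ((k : ℝ) - 1) * 1 := by
            apply mul_le_mul_of_nonneg_left _ (by linarith)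
            refine le_trans ?_ h.mass
            exact Finset.sum_le_sum_of_subset_of_nonneg (Finset.filter_subset _ _) fun B _ _ => h.nonneg B
    linarith
  have h2 : S ^ 2 ≤ p * (300000 * (m : ℝ) ^ 2) := by
    have h3 := Finset.sum_mul_sq_le_sq_mul_sq (V.powerset.filter (fun B => k ≤ B.card))
      (fun B => Real.sqrt (lam B)) (fun B => (B.card : ℝ) * Real.sqrt (lam B))
    have h4 : ∀ B : Finset α, Real.sqrt (lam B) * ((B.card : ℝ) * Real.sqrt (lam B)) = (B.card : ℝ) * lam B := by
      intro B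
      have := Real.mul_self_sqrt (h.nonneg B)
      linear_combination (B.card : ℝ) * this
    have h5 : ∀ B : Finset α, Real.sqrt (lam B) ^ 2 = lam B := fun B => Real.sq_sqrt (h.nonneg B)
    have h6 : ∀ B : Finset α, ((B.card : ℝ) * Real.sqrt (lam B)) ^ 2 = (B.card : ℝ) ^ 2 * lam B := by
      intro B
      rw [mul_pow, h5]
    simp only [h4, h5, h6] at h3
    rw [← hS, ← hp] at h3
    refine h3.trans ?_
    apply mul_le_mul_of_nonneg_left _ hp0
    refine le_trans ?_ h.E2_le
    exact Finset.sum_le_sum_of_subset_of_nonneg (Finset.filter_subset _ _) fun B _ _ =>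
      mul_nonneg (sq_nonneg _) (h.nonneg B)
  rw [div_le_iff₀ (by positivity)]
  refine le_trans ?_ h2
  exact pow_le_pow_left₀ (by linarith) h1 2

/-- the mass of the sets with more than `T` elements -/
theorem p_large (h : SM m V lam) (T : ℕ) (hT : 1 ≤ T) :
    ∑ B ∈ V.powerset.filter (fun B => T < B.card), lam B ≤ 300000 * (m : ℝ) ^ 2 / (T : ℝ) ^ 2 := by
  have hT' : (1 : ℝ) ≤ T := by exact_mod_cast hT
  rw [le_div_iff₀ (by positivity)]
  refine le_trans ?_ h.E2_le
  rw [Finset.sum_mul]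
  calc ∑ B ∈ V.powerset.filter (fun B => T < B.card), lam B * (T : ℝ) ^ 2
      ≤ ∑ B ∈ V.powerset.filter (fun B => T < B.card), (B.card : ℝ) ^ 2 * lam B := by
        refine Finset.sum_le_sum fun B hB => ?_
        rw [Finset.mem_filter] at hB
        rw [mul_comm]
        apply mul_le_mul_of_nonneg_right _ (h.nonneg B)
        apply pow_le_pow_left₀ (by linarith)
        exact_mod_cast hB.2.le
    _ ≤ _ := Finset.sum_le_sum_of_subset_of_nonneg (Finset.filter_subset _ _) fun B _ _ =>
      mul_nonneg (sq_nonneg _) (h.nonneg B)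

/-- a single set has small mass -/
theorem lam_le (h : SM m V lam) (k : ℕ) (hk : 1 ≤ k) (B : Finset α) (hB : B ⊆ V) (hkB : k ≤ B.card) :
    lam B ≤ (250 * k * m / V.card) ^ k := by
  obtain ⟨J, hJB, hJ⟩ := Finset.exists_subset_card_eq hkB
  have h1 := h.sp J (hJB.trans hB) (by rw [← Finset.card_pos]; omega)
  rw [hJ] at h1
  refine le_trans ?_ h1
  exact Finset.single_le_sum (f := lam) (fun B _ => h.nonneg B)
    (Finset.mem_filter.2 ⟨Finset.mem_powerset.2 hB, hJB⟩)

end SM

end Pool.Agent.H522
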