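import Mathlib
import Pool.Agent.H522.Moments

/-! H522: the second moment method for spread measures. -/

set_option autoImplicit false

open Finset Filter

namespace Pool.Agent.H522

/-- the probability that a random `t`-subset of a set with `n` elements contains given `s` elements -/
noncomputable def piP (n t s : ℕ) : ℝ := ∏ i ∈ range s, (((t : ℝ) - i) / ((n : ℝ) - i))

theorem piP_succ (n t s : ℕ) : piP n t (s + 1) = piP n t s * (((t : ℝ) - s) / ((n : ℝ) - s)) := by
  unfold piP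
  rw [Finset.prod_range_succ]

theorem piP_pos {n t : ℕ} (htn : t ≤ n) : ∀ s, s ≤ t → 0 < piP n t s := by
  intro s hs
  unfold piP
  apply Finset.prod_pos
  intro i hi
  rw [Finset.mem_range] at hi
  have h1 : (i : ℝ) < t := by exact_mod_cast (by omega : i < t)
  have h2 : (i : ℝ) < n := by exact_mod_cast (by omega : i < n)
  apply div_pos <;> linarith

theorem choose_pi {n t : ℕ} (htn : t ≤ n) : ∀ s, s ≤ t →
    (((n - s).choose (t - s) : ℕ) : ℝ) = (n.choose t : ℝ) * piP n t s := by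
  intro s
  induction s with
  | zero => intro _; simp [piP]
  | succ s ih =>
    intro hs
    have h1 := ih (by omega)
    obtain ⟨n', hn'⟩ : ∃ n', n - s = n' + 1 := ⟨n - s - 1, by omega⟩
    obtain ⟨t', ht'⟩ : ∃ t', t - s = t' + 1 := ⟨t - s - 1, by omega⟩
    have e1 : n - (s + 1) = n' := by omega
    have e2 : t - (s + 1) = t' := by omega
    rw [e1, e2, piP_succ, ← mul_assoc, ← h1, hn', ht']
    have h2 : (n' + 1) * n'.choose t' = (n' + 1).choose (t' + 1) * (t' + 1) :=
      Nat.add_one_mul_choose_eq n' t'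
    have h3 : ((n' : ℝ) + 1) * (n'.choose t' : ℝ) = ((n' + 1).choose (t' + 1) : ℝ) * ((t' : ℝ) + 1) := by
      exact_mod_cast h2
    have e3 : (n : ℝ) - s = (n' : ℝ) + 1 := by
      have : n = n' + 1 + s := by omega
      rw [this]; push_cast; ring
    have e4 : (t : ℝ) - s = (t' : ℝ) + 1 := by
      have : t = t' + 1 + s := by omega
      rw [this]; push_cast; ring
    rw [e3, e4]
    have hn0 : (0 : ℝ) < (n' : ℝ) + 1 := by positivity
    rw [mul_div_assoc', eq_div_iff hn0.ne']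
    linarith

theorem piP_add_le {n t : ℕ} (htn : t ≤ n) (a : ℕ) : ∀ b, a + b ≤ t →
    piP n t (a + b) ≤ piP n t a * piP n t b := by
  intro b
  induction b with
  | zero => intro _; simp [piP]
  | succ b ih =>
    intro hb
    have h1 := ih (by omega)
    rw [← Nat.add_assoc, piP_succ, piP_succ, ← mul_assoc]
    have ha' : (0 : ℝ) ≤ a := Nat.cast_nonneg _
    have hb' : (0 : ℝ) ≤ b := Nat.cast_nonneg _
    have h2 : (a : ℝ) + b + 1 ≤ t := by exact_mod_cast (by omega : a + b + 1 ≤ t)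
    have h3 : (t : ℝ) ≤ n := by exact_mod_cast htn
    apply mul_le_mul h1
    · push_cast
      rw [div_le_div_iff₀ (by linarith) (by linarith)]
      nlinarith
    · push_cast
      apply div_nonneg <;> linarith
    · exact (mul_pos (piP_pos htn a (by omega)) (piP_pos htn b (by omega))).le

theorem piP_add_ge {n t T : ℕ} (htn : t ≤ n) (hT : T < t) (b : ℕ) : ∀ j, b + j ≤ T →
    piP n t b ≤ ((n : ℝ) / ((t : ℝ) - T)) ^ j * piP n t (b + j) := by
  intro j
  induction j with
  | zero => intro _; simp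
  | succ j ih =>
    intro hj
    have h1 := ih (by omega)
    refine h1.trans ?_
    rw [← Nat.add_assoc, piP_succ, pow_succ]
    have hb' : (0 : ℝ) ≤ b := Nat.cast_nonneg _
    have hj' : (0 : ℝ) ≤ j := Nat.cast_nonneg _
    have h2 : (b : ℝ) + j + 1 ≤ T := by exact_mod_cast (by omega : b + j + 1 ≤ T)
    have h3 : (t : ℝ) ≤ n := by exact_mod_cast htn
    have h4 : (T : ℝ) < t := by exact_mod_cast hT
    have hp := piP_pos htn (b + j) (by omega)
    have h5 : 1 ≤ (n : ℝ) / ((t : ℝ) - T) * (((t : ℝ) - ((b + j : ℕ) : ℝ)) / ((n : ℝ) - ((b + j : ℕ) : ℝ))) := by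
      push_cast
      rw [div_mul_div_comm, one_le_div (by apply mul_pos <;> linarith)]
      nlinarith
    have h6 : 0 ≤ ((n : ℝ) / ((t : ℝ) - T)) ^ j := by
      apply pow_nonneg
      apply div_nonneg <;> linarith
    calc ((n : ℝ) / ((t : ℝ) - T)) ^ j * piP n t (b + j)
        = (((n : ℝ) / ((t : ℝ) - T)) ^ j * piP n t (b + j)) * 1 := (mul_one _).symm
      _ ≤ (((n : ℝ) / ((t : ℝ) - T)) ^ j * piP n t (b + j)) *
          ((n : ℝ) / ((t : ℝ) - T) * (((t : ℝ) - ((b + j : ℕ) : ℝ)) / ((n : ℝ) - ((b + j : ℕ) : ℝ)))) :=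
          mul_le_mul_of_nonneg_left h5 (mul_nonneg h6 hp.le)
      _ = _ := by ring

/-- `C(s, j) j^j ≤ (3 s)^j` -/
theorem choose_pow_le (s j : ℕ) : (s.choose j : ℝ) * (j : ℝ) ^ j ≤ (3 * (s : ℝ)) ^ j := by
  have h1 : (s.choose j : ℝ) * (j.factorial : ℝ) ≤ (s : ℝ) ^ j := by
    have h2 : s.choose j * j.factorial ≤ s ^ j := by
      rw [mul_comm, ← Nat.descFactorial_eq_factorial_mul_choose]
      exact Nat.descFactorial_le_pow s j
    exact_mod_cast h2
  have h3 : (j : ℝ) ^ j ≤ 3 ^ j * (j.factorial : ℝ) := by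
    have h4 := Real.pow_div_factorial_le_exp (j : ℝ) (Nat.cast_nonneg _) j
    have hf : (0 : ℝ) < j.factorial := by exact_mod_cast Nat.factorial_pos j
    rw [div_le_iff₀ hf] at h4
    refine h4.trans ?_
    apply mul_le_mul_of_nonneg_right _ hf.le
    have h5 : Real.exp (j : ℝ) = Real.exp 1 ^ j := by
      rw [← Real.exp_nat_mul]; simp
    rw [h5]
    apply pow_le_pow_left₀ (Real.exp_pos _).le
    have := Real.exp_one_lt_d9
    linarith
  calc (s.choose j : ℝ) * (j : ℝ) ^ j ≤ (s.choose j : ℝ) * (3 ^ j * (j.factorial : ℝ)) :=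
        mul_le_mul_of_nonneg_left h3 (Nat.cast_nonneg _)
    _ = 3 ^ j * ((s.choose j : ℝ) * (j.factorial : ℝ)) := by ring
    _ ≤ 3 ^ j * (s : ℝ) ^ j := mul_le_mul_of_nonneg_left h1 (by positivity)
    _ = _ := by rw [mul_pow]

theorem geom_half (n : ℕ) : ∑ j ∈ range n, (1 / 2 : ℝ) ^ j ≤ 2 := by
  have : ∑ j ∈ range n, (1 / 2 : ℝ) ^ j = 2 - 2 * (1 / 2) ^ n := by
    induction n with
    | zero => simp
    | succ n ih => rw [Finset.sum_range_succ, ih, pow_succ]; ring
  rw [this]
  have : (0 : ℝ) ≤ (1 / 2) ^ n := by positivity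
  linarith

variable {α : Type} [DecidableEq α]

namespace SM

variable {m : ℕ} {V : Finset α} {lam : Finset α → ℝ}

/-- the sum over the second set -/
theorem inner (h : SM m V lam) (B : Finset α) (T : ℕ) (t : ℝ) (hBV : B ⊆ V) (hBT : B.card ≤ T)
    (ht : 1500 * T * m ≤ t) (ht0 : 0 < t) (𝓑 : Finset (Finset α)) (h𝓑 : 𝓑 ⊆ V.powerset) :
    ∑ B' ∈ 𝓑, lam B' * ((V.card : ℝ) / t) ^ (B ∩ B').card ≤ 2 := by
  have hm' : (2 : ℝ) ≤ m := by exact_mod_cast h.m2
  have hV : (0 : ℝ) < V.card := by exact_mod_cast h.Vpos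
  obtain ⟨y, hy⟩ : ∃ y : ℝ, y = (V.card : ℝ) / t := ⟨_, rfl⟩
  have hy0 : 0 ≤ y := by rw [hy]; positivity
  rw [← hy]
  have h1 : ∀ B' ∈ 𝓑, lam B' * y ^ (B ∩ B').card ≤
      ∑ J ∈ B.powerset, (if J ⊆ B' then y ^ J.card * lam B' else 0) := by
    intro B' _
    have h2 : (if B ∩ B' ⊆ B' then y ^ (B ∩ B').card * lam B' else 0) ≤
        ∑ J ∈ B.powerset, (if J ⊆ B' then y ^ J.card * lam B' else 0) :=
      Finset.single_le_sum (f := fun J => if J ⊆ B' then y ^ J.card * lam B' else 0) (fun J _ => by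
        split_ifs
        · exact mul_nonneg (by positivity) (h.nonneg _)
        · exact le_rfl) (Finset.mem_powerset.2 Finset.inter_subset_left)
    rw [if_pos Finset.inter_subset_right] at h2
    linarith
  refine (Finset.sum_le_sum h1).trans ?_
  rw [Finset.sum_comm]
  have h2 : ∀ J ∈ B.powerset, ∑ B' ∈ 𝓑, (if J ⊆ B' then y ^ J.card * lam B' else 0) ≤
      (250 * (J.card : ℝ) * m / t) ^ J.card := by
    intro J hJ
    rw [Finset.mem_powerset] at hJ
    rw [← Finset.sum_filter, ← Finset.mul_sum]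
    rcases Finset.eq_empty_or_nonempty J with rfl | hJn
    · simp only [Finset.card_empty, pow_zero, one_mul]
      refine le_trans ?_ h.mass
      exact Finset.sum_le_sum_of_subset_of_nonneg ((Finset.filter_subset _ _).trans h𝓑)
        fun B _ _ => h.nonneg B
    · have h3 := h.sp J (hJ.trans hBV) hJn
      have h4 : ∑ B' ∈ 𝓑.filter (fun B' => J ⊆ B'), lam B' ≤
          (250 * (J.card : ℝ) * m / V.card) ^ J.card :=
        le_trans (Finset.sum_le_sum_of_subset_of_nonneg (Finset.filter_subset_filter _ h𝓑)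
          fun B _ _ => h.nonneg B) h3
      calc y ^ J.card * ∑ B' ∈ 𝓑.filter (fun B' => J ⊆ B'), lam B'
          ≤ y ^ J.card * (250 * (J.card : ℝ) * m / V.card) ^ J.card :=
            mul_le_mul_of_nonneg_left h4 (by positivity)
        _ = (y * (250 * (J.card : ℝ) * m / V.card)) ^ J.card := by rw [mul_pow]
        _ = _ := by
            congr 1
            rw [hy]
            field_simp
  refine (Finset.sum_le_sum h2).trans ?_
  rw [Finset.sum_powerset_apply_card (fun j => (250 * (j : ℝ) * m / t) ^ j)]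
  refine le_trans (Finset.sum_le_sum fun j _ => ?_) (geom_half (B.card + 1))
  rw [nsmul_eq_mul]
  have e1 : (250 * (j : ℝ) * m / t) ^ j = (j : ℝ) ^ j * (250 * m / t) ^ j := by
    rw [← mul_pow]; congr 1; ring
  rw [e1, ← mul_assoc]
  have h3 := choose_pow_le B.card j
  calc (B.card.choose j : ℝ) * (j : ℝ) ^ j * (250 * m / t) ^ j
      ≤ (3 * (B.card : ℝ)) ^ j * (250 * m / t) ^ j := mul_le_mul_of_nonneg_right h3 (by positivity)
    _ = (3 * (B.card : ℝ) * (250 * m / t)) ^ j := by rw [mul_pow (3 * (B.card : ℝ))]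
    _ ≤ (1 / 2) ^ j := by
        apply pow_le_pow_left₀ (by positivity)
        rw [mul_div_assoc', div_le_iff₀ ht0]
        have h4 : (B.card : ℝ) ≤ T := by exact_mod_cast hBT
        have h5 : (B.card : ℝ) * m ≤ T * m := mul_le_mul_of_nonneg_right h4 (by linarith)
        linarith

open Classical in
/-- a positive proportion of the `t`-subsets contain a set of the support -/
theorem good_frac (h : SM m V lam) (k T t : ℕ) (hT : 1 ≤ T) (ht : 1600 * T * m ≤ t) (htV : t ≤ V.card) :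
    (∑ B ∈ V.powerset.filter (fun B => k ≤ B.card ∧ B.card ≤ T), lam B) ^ 2 / 2 * (V.card.choose t : ℝ) ≤
      (((V.powersetCard t).filter (fun W => ∃ B, B ⊆ W ∧ k ≤ B.card ∧ lam B ≠ 0)).card : ℝ) := by
  have hm' : (2 : ℝ) ≤ m := by exact_mod_cast h.m2
  have hm2 := h.m2
  have hV : (0 : ℝ) < V.card := by exact_mod_cast h.Vpos
  obtain ⟨𝓑, h𝓑⟩ : ∃ 𝓑, 𝓑 = V.powerset.filter (fun B => k ≤ B.card ∧ B.card ≤ T) := ⟨_, rfl⟩
  have hmem : ∀ B ∈ 𝓑, B ⊆ V ∧ k ≤ B.card ∧ B.card ≤ T := by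
    intro B hB
    rw [h𝓑, Finset.mem_filter, Finset.mem_powerset] at hB
    exact hB
  obtain ⟨q, hq⟩ : ∃ q, q = ∑ B ∈ 𝓑, lam B := ⟨_, rfl⟩
  rw [← h𝓑, ← hq]
  have hq0 : 0 ≤ q := by rw [hq]; exact Finset.sum_nonneg fun B _ => h.nonneg B
  have hq1 : q ≤ 1 := by
    rw [hq]
    refine le_trans ?_ h.mass
    exact Finset.sum_le_sum_of_subset_of_nonneg (by rw [h𝓑]; exact Finset.filter_subset _ _)
      fun B _ _ => h.nonneg B
  have hTt : 3200 * T ≤ t := by
    calc 3200 * T = 1600 * T * 2 := by ring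
      _ ≤ 1600 * T * m := Nat.mul_le_mul_left _ hm2
      _ ≤ t := ht
  have hTlt : T < t := by omega
  obtain ⟨τ, hτ⟩ : ∃ τ : ℝ, τ = (t : ℝ) - T := ⟨_, rfl⟩
  have hτ0 : 0 < τ := by
    rw [hτ]
    have : (T : ℝ) < t := by exact_mod_cast hTlt
    linarith
  have hτ1 : 1500 * (T : ℝ) * m ≤ τ := by
    rw [hτ]
    have h1 : 1600 * (T : ℝ) * m ≤ t := by exact_mod_cast ht
    have h2 : (1 : ℝ) ≤ T := by exact_mod_cast hT
    nlinarith
  obtain ⟨C, hC⟩ : ∃ C : ℝ, C = (V.card.choose t : ℝ) := ⟨_, rfl⟩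
  have hC0 : 0 < C := by rw [hC]; exact_mod_cast Nat.choose_pos htV
  rw [← hC]
  obtain ⟨a, ha⟩ : ∃ a : Finset α → ℝ, ∀ B, a B = lam B / piP V.card t B.card := ⟨_, fun _ => rfl⟩
  have ha0 : ∀ B ∈ 𝓑, 0 ≤ a B := by
    intro B hB
    rw [ha]
    exact div_nonneg (h.nonneg B) (piP_pos htV _ (by have := (hmem B hB).2.2; omega)).le
  obtain ⟨X, hX⟩ : ∃ X : Finset α → ℝ, ∀ W, X W = ∑ B ∈ 𝓑, if B ⊆ W then a B else 0 := ⟨_, fun _ => rfl⟩
  have hcount : ∀ U : Finset α, U ⊆ V → U.card ≤ t →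
      (((V.powersetCard t).filter (fun W => U ⊆ W)).card : ℝ) = C * piP V.card t U.card := by
    intro U hU hUt
    rw [card_sup V U hU t hUt, hC]
    exact choose_pi htV U.card hUt
  -- the first moment
  have hS1 : ∑ W ∈ V.powersetCard t, X W = C * q := by
    simp only [hX]
    rw [Finset.sum_comm, hq, Finset.mul_sum]
    refine Finset.sum_congr rfl fun B hB => ?_
    obtain ⟨h1, h2, h3⟩ := hmem B hB
    rw [← Finset.sum_filter, Finset.sum_const, nsmul_eq_mul, hcount B h1 (by omega), ha]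
    have h4 := (piP_pos htV B.card (by omega)).ne'
    field_simp
  -- the second moment
  have hS2 : ∑ W ∈ V.powersetCard t, X W ^ 2 ≤ 2 * C := by
    have h1 : ∀ W, X W ^ 2 = ∑ B ∈ 𝓑, ∑ B' ∈ 𝓑, if B ∪ B' ⊆ W then a B * a B' else 0 := by
      intro W
      rw [pow_two, hX, Finset.sum_mul_sum]
      refine Finset.sum_congr rfl fun B _ => Finset.sum_congr rfl fun B' _ => ?_
      by_cases h1 : B ⊆ W <;> by_cases h2 : B' ⊆ W <;> simp [Finset.union_subset_iff, h1, h2]
    simp only [h1]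
    rw [Finset.sum_comm]
    have h2 : ∀ B ∈ 𝓑, ∑ W ∈ V.powersetCard t, ∑ B' ∈ 𝓑, (if B ∪ B' ⊆ W then a B * a B' else 0) ≤
        lam B * (2 * C) := by
      intro B hB
      obtain ⟨hB1, hB2, hB3⟩ := hmem B hB
      rw [Finset.sum_comm]
      have h3 : ∀ B' ∈ 𝓑, ∑ W ∈ V.powersetCard t, (if B ∪ B' ⊆ W then a B * a B' else 0) ≤
          lam B * C * (lam B' * ((V.card : ℝ) / τ) ^ (B ∩ B').card) := by
        intro B' hB'
        obtain ⟨hB'1, hB'2, hB'3⟩ := hmem B' hB'
        have hu : (B ∪ B').card ≤ t := by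
          have := Finset.card_union_le B B'
          omega
        rw [← Finset.sum_filter, Finset.sum_const, nsmul_eq_mul,
          hcount _ (Finset.union_subset hB1 hB'1) hu]
        have e1 : (B ∪ B').card = B.card + (B' \ B).card := by
          rw [Finset.union_comm, ← Finset.card_sdiff_add_card B' B, add_comm]
        have e2 : (B' \ B).card + (B ∩ B').card = B'.card := by
          rw [Finset.inter_comm]; exact Finset.card_sdiff_add_card_inter B' B
        have h4 := piP_add_le htV B.card (B' \ B).card (by rw [← e1]; exact hu)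
        have h5 := piP_add_ge htV hTlt (B' \ B).card (B ∩ B').card (by rw [e2]; exact hB'3)
        rw [e2, ← hτ] at h5
        rw [← e1] at h4
        have p1 := piP_pos htV B.card (by omega)
        have p2 := piP_pos htV B'.card (by omega)
        have l1 := h.nonneg B
        have l2 := h.nonneg B'
        rw [ha, ha]
        calc C * piP V.card t (B ∪ B').card * (lam B / piP V.card t B.card * (lam B' / piP V.card t B'.card))
            ≤ C * (piP V.card t B.card * (((V.card : ℝ) / τ) ^ (B ∩ B').card * piP V.card t B'.card)) *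
              (lam B / piP V.card t B.card * (lam B' / piP V.card t B'.card)) := by
              apply mul_le_mul_of_nonneg_right _ (by positivity)
              apply mul_le_mul_of_nonneg_left _ hC0.le
              exact h4.trans (mul_le_mul_of_nonneg_left h5 p1.le)
          _ = _ := by
              field_simp
      refine (Finset.sum_le_sum h3).trans ?_
      rw [← Finset.mul_sum]
      have h4 := h.inner B T τ hB1 hB3 hτ1 hτ0 𝓑 (by rw [h𝓑]; exact Finset.filter_subset _ _)
      calc lam B * C * ∑ B' ∈ 𝓑, lam B' * ((V.card : ℝ) / τ) ^ (B ∩ B').card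
          ≤ lam B * C * 2 := mul_le_mul_of_nonneg_left h4 (mul_nonneg (h.nonneg B) hC0.le)
        _ = _ := by ring
    refine (Finset.sum_le_sum h2).trans ?_
    rw [← Finset.sum_mul, ← hq]
    have : q * (2 * C) ≤ 1 * (2 * C) := mul_le_mul_of_nonneg_right hq1 (by positivity)
    linarith
  -- Cauchy-Schwarz
  obtain ⟨G, hG⟩ : ∃ G, G = (V.powersetCard t).filter (fun W => ∃ B, B ⊆ W ∧ k ≤ B.card ∧ lam B ≠ 0) :=
    ⟨_, rfl⟩
  rw [← hG]
  have hzero : ∀ W ∈ V.powersetCard t, W ∉ G → X W = 0 := by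
    intro W hW hWG
    rw [hX]
    apply Finset.sum_eq_zero
    intro B hB
    by_cases hBW : B ⊆ W
    · rw [if_pos hBW]
      have : lam B = 0 := by
        by_contra hne
        apply hWG
        rw [hG, Finset.mem_filter]
        exact ⟨hW, B, hBW, (hmem B hB).2.1, hne⟩
      rw [ha, this, zero_div]
    · rw [if_neg hBW]
  have hGsub : G ⊆ V.powersetCard t := by rw [hG]; exact Finset.filter_subset _ _
  have h3 : ∑ W ∈ G, X W = C * q := by
    rw [← hS1]
    exact Finset.sum_subset hGsub hzero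
  have h4 : ∑ W ∈ G, X W ^ 2 ≤ 2 * C :=
    (Finset.sum_le_sum_of_subset_of_nonneg hGsub fun W _ _ => sq_nonneg _).trans hS2
  have h5 := sq_sum_le_card_mul_sum_sq (s := G) (f := X)
  rw [h3] at h5
  have h6 : (C * q) ^ 2 ≤ (G.card : ℝ) * (2 * C) :=
    h5.trans (mul_le_mul_of_nonneg_left h4 (Nat.cast_nonneg _))
  have h7 : (q ^ 2 / 2 * C) * (2 * C) ≤ (G.card : ℝ) * (2 * C) := by
    refine le_trans (le_of_eq ?_) h6
    ring
  exact le_of_mul_le_mul_right h7 (by positivity)

end SM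

end Pool.Agent.H522
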