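import Mathlib
import Pool.Agent.H522.Second

/-! H522: almost all subsets contain large good sets; generic version. -/

set_option autoImplicit false

open Finset Filter

namespace Pool.Agent.H522

variable {α : Type} [DecidableEq α]

/-- the measure on a large set from the measures on the subsets of given size -/
theorem avg (m K1 : ℕ) (hK1pos : 1 ≤ K1) (V : Finset α) (hKV : K1 ≤ V.card) (P : Finset α → Prop)
    (hex : ∀ T ∈ V.powersetCard K1, ∃ lam : Finset α → ℝ, (∀ B, 0 ≤ lam B) ∧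
      (∀ B, lam B ≠ 0 → P B) ∧
      ∑ B ∈ T.powerset, lam B ≤ 1 ∧
      (∀ v ∈ T, (m : ℝ) / K1 ≤ ∑ B ∈ T.powerset.filter (fun B => v ∈ B), lam B) ∧
      ∀ U : Finset α, U ⊆ T → U.Nonempty → ∑ B ∈ T.powerset.filter (fun B => U ⊆ B), lam B ≤
        (250 * U.card * m / K1) ^ U.card) :
    ∃ lam : Finset α → ℝ, (∀ B, 0 ≤ lam B) ∧ (∀ B, lam B ≠ 0 → P B) ∧
      ∑ B ∈ V.powerset, lam B ≤ 1 ∧
      (∀ v ∈ V, (m : ℝ) / V.card ≤ ∑ B ∈ V.powerset.filter (fun B => v ∈ B), lam B) ∧
      ∀ U : Finset α, U ⊆ V → U.Nonempty → ∑ B ∈ V.powerset.filter (fun B => U ⊆ B), lam B ≤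
        (250 * U.card * m / V.card) ^ U.card := by
  classical
  choose! G hG0 hG1 hG2 hG3 hG4 using hex
  obtain ⟨C, hC⟩ : ∃ C : ℝ, C = (V.card.choose K1 : ℝ) := ⟨_, rfl⟩
  have hCpos : 0 < C := by
    rw [hC]; exact_mod_cast Nat.choose_pos hKV
  -- exchange of the sums
  have hswap : ∀ (q : Finset α → Prop) [DecidablePred q],
      ∑ B ∈ V.powerset.filter q, ∑ T ∈ V.powersetCard K1, (if B ⊆ T then G T B else 0) =
        ∑ T ∈ V.powersetCard K1, ∑ B ∈ T.powerset.filter q, G T B := by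
    intro q _
    rw [Finset.sum_comm]
    refine Finset.sum_congr rfl fun T hT => ?_
    rw [Finset.mem_powersetCard] at hT
    rw [← Finset.sum_filter]
    apply Finset.sum_congr _ fun _ _ => rfl
    ext B
    simp only [Finset.mem_filter, Finset.mem_powerset]
    constructor
    · rintro ⟨⟨_, h2⟩, h3⟩
      exact ⟨h3, h2⟩
    · rintro ⟨h1, h2⟩
      exact ⟨⟨h1.trans hT.1, h2⟩, h1⟩
  have hVpos : (0 : ℝ) < V.card := by exact_mod_cast (by omega : 0 < V.card)
  refine ⟨fun B => (∑ T ∈ V.powersetCard K1, (if B ⊆ T then G T B else 0)) / C, ?_, ?_, ?_, ?_, ?_⟩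
  · intro B
    apply div_nonneg _ hCpos.le
    apply Finset.sum_nonneg
    intro T hT
    split_ifs
    · exact hG0 T hT B
    · exact le_rfl
  · intro B hB
    have h1 : ∑ T ∈ V.powersetCard K1, (if B ⊆ T then G T B else 0) ≠ 0 := by
      intro h0
      apply hB
      dsimp only
      rw [h0, zero_div]
    obtain ⟨T, hT, hT2⟩ := Finset.exists_ne_zero_of_sum_ne_zero h1
    by_cases h2 : B ⊆ T
    · rw [if_pos h2] at hT2
      exact hG1 T hT B hT2
    · rw [if_neg h2] at hT2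
      exact absurd rfl hT2
  · rw [← Finset.sum_div, div_le_one hCpos]
    have h1 := hswap (fun _ => True)
    simp only [Finset.filter_true] at h1
    rw [h1]
    refine (Finset.sum_le_sum fun T hT => hG2 T hT).trans ?_
    rw [Finset.sum_const, Finset.card_powersetCard, nsmul_eq_mul, mul_one, hC]
  · intro v hv
    rw [← Finset.sum_div, le_div_iff₀ hCpos, hswap (fun B => v ∈ B)]
    have h1 : ∑ T ∈ (V.powersetCard K1).filter (fun T => v ∈ T), (m : ℝ) / K1 ≤
        ∑ T ∈ V.powersetCard K1, ∑ B ∈ T.powerset.filter (fun B => v ∈ B), G T B := by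
      refine (Finset.sum_le_sum fun T hT => ?_).trans
        (Finset.sum_le_sum_of_subset_of_nonneg (Finset.filter_subset _ _) fun T hT _ => ?_)
      · rw [Finset.mem_filter] at hT
        exact hG3 T hT.1 v hT.2
      · exact Finset.sum_nonneg fun B _ => hG0 T hT B
    refine le_trans ?_ h1
    rw [Finset.sum_const, nsmul_eq_mul, card_mem_eq V v hv K1 hK1pos, ← hC]
    have hK1r : (0 : ℝ) < K1 := by exact_mod_cast hK1pos
    refine le_of_eq ?_
    field_simp
  · intro U hUV hUn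
    rw [← Finset.sum_div, div_le_iff₀ hCpos, hswap (fun B => U ⊆ B)]
    have h1 : ∑ T ∈ V.powersetCard K1, ∑ B ∈ T.powerset.filter (fun B => U ⊆ B), G T B ≤
        ∑ T ∈ (V.powersetCard K1).filter (fun T => U ⊆ T), (250 * (U.card : ℝ) * m / K1) ^ U.card := by
      rw [Finset.sum_filter]
      refine Finset.sum_le_sum fun T hT => ?_
      split_ifs with h2
      · exact hG4 T hT U h2 hUn
      · apply le_of_eq
        apply Finset.sum_eq_zero
        intro B hB
        exfalso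
        rw [Finset.mem_filter, Finset.mem_powerset] at hB
        exact h2 (hB.2.trans hB.1)
    refine h1.trans ?_
    rw [Finset.sum_const, nsmul_eq_mul]
    have h2 := card_sup_le V U hUV K1 hKV
    rw [← hC] at h2
    have hK1r : (0 : ℝ) < K1 := by exact_mod_cast hK1pos
    calc (((V.powersetCard K1).filter (fun T => U ⊆ T)).card : ℝ) * (250 * (U.card : ℝ) * m / K1) ^ U.card
        ≤ (((K1 : ℝ) / V.card) ^ U.card * C) * (250 * (U.card : ℝ) * m / K1) ^ U.card :=
          mul_le_mul_of_nonneg_right h2 (by positivity)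
      _ = (((K1 : ℝ) / V.card) * (250 * (U.card : ℝ) * m / K1)) ^ U.card * C := by
          rw [mul_pow]; ring
      _ = _ := by
          congr 2
          field_simp


/-- the sets without good subsets -/
def BadG (G : Finset α → Prop) (k : ℕ) (W : Finset α) : Prop := ¬ ∃ B, B ⊆ W ∧ k ≤ B.card ∧ G B

theorem BadG.mono {G : Finset α → Prop} {k : ℕ} {W W' : Finset α} (h : W ⊆ W') (h' : BadG G k W') :
    BadG G k W := by
  rintro ⟨B, hB, h1, h2⟩
  exact h' ⟨B, hB.trans h, h1, h2⟩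

/-- the existence of spread measures -/
def HasSM (Ok G : Finset α → Prop) : Prop := (∀ V W, Ok V → W ⊆ V → Ok W) ∧
  ∀ (m : ℕ) (V : Finset α), 2 ≤ m → Ok V → 4 * (m : ℝ) + 29 / 50 ≤ Real.log V.card →
    ∃ lam : Finset α → ℝ, SM m V lam ∧ ∀ B, lam B ≠ 0 → G B

variable {Ok G : Finset α → Prop}

open Classical in
theorem baseG (hsp : HasSM Ok G) (m k A : ℕ) (hm : 2 ≤ m) (hk : 1 ≤ k) (hkm : k ≤ m) (hA : 1 ≤ A) (q0 : ℝ) (hq0 : 0 ≤ q0)
    (hq : q0 ≤ ((m : ℝ) - k + 1) ^ 2 / (300000 * (m : ℝ) ^ 2) - 300000 / (A : ℝ) ^ 2)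
    (V : Finset α) (hadm : Ok V) (hV : Real.exp (4 * (m : ℝ) + 29 / 50) ≤ V.card)
    (ht : 1600 * (A * m) * m ≤ V.card) :
    (((V.powersetCard (1600 * (A * m) * m)).filter (BadG G k)).card : ℝ) ≤
      (1 - q0 ^ 2 / 2) * (V.card.choose (1600 * (A * m) * m) : ℝ) := by
  have hm' : (2 : ℝ) ≤ m := by exact_mod_cast hm
  have hA' : (1 : ℝ) ≤ A := by exact_mod_cast hA
  have hVpos : (0 : ℝ) < V.card := lt_of_lt_of_le (Real.exp_pos _) hV
  obtain ⟨lam, hSM, hiso⟩ := hsp.2 m V hm hadm ((Real.le_log_iff_exp_le hVpos).2 hV)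
  have h1 := hSM.good_frac k (A * m) (1600 * (A * m) * m) (Nat.mul_pos hA (by omega)) le_rfl ht
  obtain ⟨q, hqdef⟩ : ∃ q : ℝ, q = ∑ B ∈ V.powerset.filter (fun B => k ≤ B.card ∧ B.card ≤ A * m), lam B :=
    ⟨_, rfl⟩
  rw [← hqdef] at h1
  have h2 : q0 ≤ q := by
    have h3 := hSM.p_ge k hk hkm
    have h4 := hSM.p_large (A * m) (Nat.mul_pos hA (by omega))
    have h5 : ∑ B ∈ V.powerset.filter (fun B => k ≤ B.card), lam B ≤
        q + ∑ B ∈ V.powerset.filter (fun B => A * m < B.card), lam B := by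
      rw [hqdef, Finset.sum_filter, Finset.sum_filter, Finset.sum_filter, ← Finset.sum_add_distrib]
      refine Finset.sum_le_sum fun B _ => ?_
      have h6 := hSM.nonneg B
      by_cases h7 : k ≤ B.card
      · rw [if_pos h7]
        by_cases h8 : B.card ≤ A * m
        · rw [if_pos ⟨h7, h8⟩, if_neg (by omega)]; linarith
        · rw [if_neg (fun h => h8 h.2), if_pos (by omega)]; linarith
      · rw [if_neg h7]
        apply add_nonneg <;> split_ifs <;> first | exact h6 | exact le_rfl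
    have h6 : 300000 * (m : ℝ) ^ 2 / ((A * m : ℕ) : ℝ) ^ 2 = 300000 / (A : ℝ) ^ 2 := by
      push_cast
      field_simp
    rw [h6] at h4
    linarith
  have h3 : q0 ^ 2 / 2 * (V.card.choose (1600 * (A * m) * m) : ℝ) ≤
      (((V.powersetCard (1600 * (A * m) * m)).filter (fun W => ¬ BadG G k W)).card : ℝ) := by
    refine le_trans ?_ (h1.trans ?_)
    · apply mul_le_mul_of_nonneg_right _ (Nat.cast_nonneg _)
      have := pow_le_pow_left₀ hq0 h2 2
      linarith
    · have h4 : ((V.powersetCard (1600 * (A * m) * m)).filter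
          (fun W => ∃ B, B ⊆ W ∧ k ≤ B.card ∧ lam B ≠ 0)) ⊆
          ((V.powersetCard (1600 * (A * m) * m)).filter (fun W => ¬ BadG G k W)) := by
        intro W hW
        rw [Finset.mem_filter] at hW ⊢
        obtain ⟨hW1, B, h5, h6, h7⟩ := hW
        refine ⟨hW1, ?_⟩
        unfold BadG
        rw [not_not]
        exact ⟨B, h5, h6, hiso B h7⟩
      exact_mod_cast Finset.card_le_card h4
  have h4 : ((((V.powersetCard (1600 * (A * m) * m)).filter (BadG G k)).card : ℝ)) +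
      (((V.powersetCard (1600 * (A * m) * m)).filter (fun W => ¬ BadG G k W)).card : ℝ) =
      (V.card.choose (1600 * (A * m) * m) : ℝ) := by
    rw [← Finset.card_powersetCard]
    exact_mod_cast Finset.card_filter_add_card_filter_not (s := V.powersetCard (1600 * (A * m) * m)) (BadG G k)
  linarith

open Classical in
/-- iteration -/
theorem iterG (hsp : HasSM Ok G) (m k A : ℕ) (hm : 2 ≤ m) (hk : 1 ≤ k) (hkm : k ≤ m) (hA : 1 ≤ A) (q0 : ℝ) (hq0 : 0 ≤ q0)
    (hq01 : q0 ≤ 1)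
    (hq : q0 ≤ ((m : ℝ) - k + 1) ^ 2 / (300000 * (m : ℝ) ^ 2) - 300000 / (A : ℝ) ^ 2) : ∀ (s : ℕ)
    (V : Finset α), Ok V → Real.exp (4 * (m : ℝ) + 29 / 50) + s * (1600 * (A * m) * m : ℕ) ≤ V.card →
    (((V.powersetCard (s * (1600 * (A * m) * m))).filter (BadG G k)).card : ℝ) ≤
      (1 - q0 ^ 2 / 2) ^ s * (V.card.choose (s * (1600 * (A * m) * m)) : ℝ) := by
  obtain ⟨t0, ht0⟩ : ∃ t0, t0 = 1600 * (A * m) * m := ⟨_, rfl⟩
  have hc0 : 0 ≤ 1 - q0 ^ 2 / 2 := by
    have : q0 ^ 2 ≤ 1 := pow_le_one₀ hq0 hq01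
    linarith
  rw [← ht0]
  intro s
  induction s with
  | zero =>
    intro V _ _
    simp only [Nat.zero_mul, pow_zero, one_mul, Nat.choose_zero_right, Nat.cast_one]
    have : ((V.powersetCard 0).filter (BadG G k)).card ≤ (V.powersetCard 0).card := Finset.card_filter_le _ _
    rw [Finset.card_powersetCard, Nat.choose_zero_right] at this
    exact_mod_cast this
  | succ s ih =>
    intro V hadm hV
    have hexp := Real.exp_pos (4 * (m : ℝ) + 29 / 50)
    have hst : (0 : ℝ) ≤ (s : ℝ) * t0 := by positivity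
    have ht0' : (0 : ℝ) ≤ t0 := Nat.cast_nonneg _
    push_cast at hV
    have h0 : t0 ≤ V.card := by
      have : (t0 : ℝ) ≤ V.card := by nlinarith
      exact_mod_cast this
    have h1 := baseG hsp m k A hm hk hkm hA q0 hq0 hq V hadm (by nlinarith) (by rw [← ht0]; exact h0)
    rw [← ht0] at h1
    have h2 := double_count (BadG G k) (fun W W' hW hW' => hW'.mono hW) V t0 (s * t0)
      ((1 - q0 ^ 2 / 2) ^ s * ((V.card - t0).choose (s * t0) : ℝ)) (by
        intro W hW
        rw [Finset.mem_filter, Finset.mem_powersetCard] at hW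
        have h3 : (V \ W).card = V.card - t0 := by
          rw [Finset.card_sdiff_of_subset hW.1.1, hW.1.2]
        have h4 := ih (V \ W) (hsp.1 _ _ hadm Finset.sdiff_subset) (by
          rw [h3, Nat.cast_sub h0]
          linarith)
        rwa [h3] at h4)
    have e1 : (s + 1) * t0 = t0 + s * t0 := by ring
    have hle : t0 + s * t0 ≤ V.card := by
      have : ((t0 + s * t0 : ℕ) : ℝ) ≤ V.card := by push_cast; linarith
      exact_mod_cast this
    have h3 : V.card.choose (t0 + s * t0) * (t0 + s * t0).choose t0 =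
        V.card.choose t0 * (V.card - t0).choose (s * t0) := by
      have := Nat.choose_mul (n := V.card) (k := t0 + s * t0) (s := t0) (by omega)
      rw [this, Nat.add_sub_cancel_left]
    have h3' : (V.card.choose (t0 + s * t0) : ℝ) * ((t0 + s * t0).choose t0 : ℝ) =
        (V.card.choose t0 : ℝ) * ((V.card - t0).choose (s * t0) : ℝ) := by exact_mod_cast h3
    rw [e1]
    have hpos : (0 : ℝ) < ((t0 + s * t0).choose t0 : ℝ) := by
      exact_mod_cast Nat.choose_pos (by omega)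
    have h4 : (((V.powersetCard (t0 + s * t0)).filter (BadG G k)).card : ℝ) * ((t0 + s * t0).choose t0 : ℝ) ≤
        ((1 - q0 ^ 2 / 2) ^ (s + 1) * (V.card.choose (t0 + s * t0) : ℝ)) * ((t0 + s * t0).choose t0 : ℝ) := by
      calc (((V.powersetCard (t0 + s * t0)).filter (BadG G k)).card : ℝ) * ((t0 + s * t0).choose t0 : ℝ)
          ≤ (((V.powersetCard t0).filter (BadG G k)).card : ℝ) *
            ((1 - q0 ^ 2 / 2) ^ s * ((V.card - t0).choose (s * t0) : ℝ)) := h2
        _ ≤ ((1 - q0 ^ 2 / 2) * (V.card.choose t0 : ℝ)) *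
            ((1 - q0 ^ 2 / 2) ^ s * ((V.card - t0).choose (s * t0) : ℝ)) :=
            mul_le_mul_of_nonneg_right h1 (by positivity)
        _ = (1 - q0 ^ 2 / 2) ^ (s + 1) * ((V.card.choose t0 : ℝ) * ((V.card - t0).choose (s * t0) : ℝ)) := by
            rw [pow_succ]; ring
        _ = _ := by rw [← h3']; ring
    exact le_of_mul_le_mul_right h4 hpos

open Classical in
/-- the general bound -/
theorem almost_allG (hsp : HasSM Ok G) (m k A : ℕ) (hm : 2 ≤ m) (hk : 1 ≤ k) (hkm : k ≤ m) (hA : 1 ≤ A) (q0 : ℝ) (hq0 : 0 ≤ q0)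
    (hq01 : q0 ≤ 1)
    (hq : q0 ≤ ((m : ℝ) - k + 1) ^ 2 / (300000 * (m : ℝ) ^ 2) - 300000 / (A : ℝ) ^ 2)
    (V : Finset α) (hadm : Ok V) (hV : 2 * Real.exp (4 * (m : ℝ) + 29 / 50) ≤ V.card)
    (t : ℕ) (ht : t ≤ V.card) :
    (((V.powersetCard t).filter (BadG G k)).card : ℝ) ≤
      2 * Real.exp (-(q0 ^ 2 / 2 * (t / (3200 * A * (m : ℝ) ^ 2)))) * (V.card.choose t : ℝ) := by
  have hm' : (2 : ℝ) ≤ m := by exact_mod_cast hm
  have hA' : (1 : ℝ) ≤ A := by exact_mod_cast hA
  obtain ⟨t0, ht0⟩ : ∃ t0, t0 = 1600 * (A * m) * m := ⟨_, rfl⟩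
  have ht0r : (t0 : ℝ) = 1600 * A * (m : ℝ) ^ 2 := by rw [ht0]; push_cast; ring
  have ht0pos : (0 : ℝ) < t0 := by rw [ht0r]; positivity
  have ht0pos' : 0 < t0 := by exact_mod_cast ht0pos
  obtain ⟨c, hc⟩ : ∃ c : ℝ, c = q0 ^ 2 / 2 := ⟨_, rfl⟩
  have hc0 : 0 ≤ c := by rw [hc]; positivity
  have hc1 : c ≤ 1 / 2 := by
    rw [hc]
    have : q0 ^ 2 ≤ 1 := pow_le_one₀ hq0 hq01
    linarith
  obtain ⟨s, hs⟩ : ∃ s : ℕ, s = t / (2 * t0) := ⟨_, rfl⟩
  have hs1 : s * (2 * t0) ≤ t := by rw [hs]; exact Nat.div_mul_le_self _ _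
  have hs2 : t < (s + 1) * (2 * t0) := by
    rw [hs]; have := Nat.lt_div_mul_add (a := t) (b := 2 * t0) (by omega); linarith [this]
  have hs3 : s * t0 ≤ t := by
    have : s * (2 * t0) = s * t0 + s * t0 := by ring
    omega
  have hs1r : (s : ℝ) * (2 * t0) ≤ t := by exact_mod_cast hs1
  have hs2r : (t : ℝ) < ((s : ℝ) + 1) * (2 * t0) := by exact_mod_cast hs2
  have htr : (t : ℝ) ≤ V.card := by exact_mod_cast ht
  have h1 := iterG hsp m k A hm hk hkm hA q0 hq0 hq01 hq s V hadm (by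
    rw [← ht0]; linarith)
  rw [← ht0, ← hc] at h1
  have h2 := double_count (BadG G k) (fun W W' hW hW' => hW'.mono hW) V (s * t0) (t - s * t0)
      ((V.card - s * t0).choose (t - s * t0) : ℝ) (by
        intro W hW
        rw [Finset.mem_filter, Finset.mem_powersetCard] at hW
        have h3 : (V \ W).card = V.card - s * t0 := by
          rw [Finset.card_sdiff_of_subset hW.1.1, hW.1.2]
        have h4 := Finset.card_filter_le ((V \ W).powersetCard (t - s * t0)) (BadG G k)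
        rw [Finset.card_powersetCard, h3] at h4
        exact_mod_cast h4)
  have e1 : s * t0 + (t - s * t0) = t := by omega
  rw [e1] at h2
  have h3 : V.card.choose t * t.choose (s * t0) =
      V.card.choose (s * t0) * (V.card - s * t0).choose (t - s * t0) :=
    Nat.choose_mul hs3
  have h3' : (V.card.choose t : ℝ) * (t.choose (s * t0) : ℝ) =
      (V.card.choose (s * t0) : ℝ) * ((V.card - s * t0).choose (t - s * t0) : ℝ) := by exact_mod_cast h3
  have hpos : (0 : ℝ) < (t.choose (s * t0) : ℝ) := by exact_mod_cast Nat.choose_pos hs3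
  have h4 : (((V.powersetCard t).filter (BadG G k)).card : ℝ) * (t.choose (s * t0) : ℝ) ≤
      ((1 - c) ^ s * (V.card.choose t : ℝ)) * (t.choose (s * t0) : ℝ) := by
    calc (((V.powersetCard t).filter (BadG G k)).card : ℝ) * (t.choose (s * t0) : ℝ)
        ≤ (((V.powersetCard (s * t0)).filter (BadG G k)).card : ℝ) *
          ((V.card - s * t0).choose (t - s * t0) : ℝ) := h2
      _ ≤ ((1 - c) ^ s * (V.card.choose (s * t0) : ℝ)) * ((V.card - s * t0).choose (t - s * t0) : ℝ) :=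
          mul_le_mul_of_nonneg_right h1 (by positivity)
      _ = (1 - c) ^ s * ((V.card.choose (s * t0) : ℝ) * ((V.card - s * t0).choose (t - s * t0) : ℝ)) := by
          ring
      _ = _ := by rw [← h3']; ring
  have h5 := le_of_mul_le_mul_right h4 hpos
  refine h5.trans ?_
  apply mul_le_mul_of_nonneg_right _ (Nat.cast_nonneg _)
  rw [← hc]
  calc (1 - c) ^ s ≤ (Real.exp (-c)) ^ s := by
        apply pow_le_pow_left₀ (by linarith)
        have := Real.add_one_le_exp (-c)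
        linarith
    _ = Real.exp (-(c * s)) := by rw [← Real.exp_nat_mul]; congr 1; ring
    _ ≤ Real.exp (c - c * (t / (3200 * A * (m : ℝ) ^ 2))) := by
        apply Real.exp_le_exp.2
        have h6 : (t : ℝ) / (3200 * A * (m : ℝ) ^ 2) ≤ s + 1 := by
          rw [div_le_iff₀ (by positivity)]
          have : ((s : ℝ) + 1) * (3200 * A * (m : ℝ) ^ 2) = ((s : ℝ) + 1) * (2 * t0) := by
            rw [ht0r]; ring
          rw [this]
          exact hs2r.le
        nlinarith
    _ = Real.exp c * Real.exp (-(c * (t / (3200 * A * (m : ℝ) ^ 2)))) := by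
        rw [← Real.exp_add]; congr 1
    _ ≤ 2 * Real.exp (-(c * (t / (3200 * A * (m : ℝ) ^ 2)))) := by
        apply mul_le_mul_of_nonneg_right _ (Real.exp_pos _).le
        have h7 : Real.exp c ≤ Real.exp (1 / 2) := Real.exp_le_exp.2 hc1
        have h8 : Real.exp (1 / 2 : ℝ) ≤ 2 := by
          have h9 : Real.exp (1 / 2 : ℝ) ^ 2 = Real.exp 1 := by
            rw [← Real.exp_nat_mul]; congr 1; norm_num
          have h10 := Real.exp_one_lt_d9
          nlinarith [Real.exp_pos (1 / 2 : ℝ)]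
        linarith

open Classical in
/-- the theorem with an arbitrary `δ` -/
theorem almost_all_deltaG (δ : ℝ) (hδ : 0 < δ) : ∃ C : ℝ, 0 < C ∧ ∀ (α : Type) [DecidableEq α]
    (Ok G : Finset α → Prop), HasSM Ok G → ∀ (k : ℕ) (V : Finset α), 1 ≤ k →
    Ok V → (4 + δ) * k + C ≤ Real.log V.card → ∀ t : ℕ, t ≤ V.card →
    (((V.powersetCard t).filter (BadG G k)).card : ℝ) ≤
      2 * Real.exp (-(t / (C * (k : ℝ) ^ 2))) * (V.card.choose t : ℝ) := by
  obtain ⟨d, hd0, hd1, hdδ⟩ : ∃ d : ℝ, 0 < d ∧ d ≤ 1 ∧ d ≤ δ :=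
    ⟨min 1 δ, lt_min one_pos hδ, min_le_left _ _, min_le_right _ _⟩
  obtain ⟨A, hA⟩ : ∃ A : ℕ, A = ⌈7000000 / d⌉₊ := ⟨_, rfl⟩
  have hAr : 7000000 / d ≤ A := by rw [hA]; exact Nat.le_ceil _
  have hA1 : (1 : ℝ) ≤ A := by
    refine le_trans ?_ hAr
    rw [le_div_iff₀ hd0]
    linarith
  have hA1' : 1 ≤ A := by exact_mod_cast hA1
  obtain ⟨q0, hq0⟩ : ∃ q0 : ℝ, q0 = d ^ 2 / 153600000 := ⟨_, rfl⟩
  have hq0pos : 0 < q0 := by rw [hq0]; positivity
  have hd2 : d ^ 2 ≤ 1 := pow_le_one₀ hd0.le hd1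
  have hq01 : q0 ≤ 1 := by rw [hq0]; linarith
  obtain ⟨C', hC'⟩ : ∃ C' : ℝ, C' = 80000 * A / (q0 ^ 2 / 2) := ⟨_, rfl⟩
  have hC'0 : 0 < C' := by rw [hC']; positivity
  refine ⟨C' + 14, by linarith, ?_⟩
  intro α _ Ok G hsp k V hk hadm hV t ht
  have hk' : (1 : ℝ) ≤ k := by exact_mod_cast hk
  obtain ⟨m, hm⟩ : ∃ m : ℕ, m = ⌈(1 + d / 8) * k⌉₊ + 2 := ⟨_, rfl⟩
  have hm2 : 2 ≤ m := by omega
  have hml : (1 + d / 8) * k + 2 ≤ m := by
    rw [hm]; push_cast
    have := Nat.le_ceil ((1 + d / 8) * (k : ℝ))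
    linarith
  have hmu : (m : ℝ) ≤ (1 + d / 8) * k + 3 := by
    rw [hm]; push_cast
    have := (Nat.ceil_lt_add_one (a := (1 + d / 8) * (k : ℝ)) (by positivity)).le
    linarith
  have hkm : k ≤ m := by
    have : (k : ℝ) ≤ m := by nlinarith
    exact_mod_cast this
  have hmpos : (0 : ℝ) < m := by
    have : (2 : ℝ) ≤ m := by exact_mod_cast hm2
    linarith
  have hVpos : (0 : ℝ) < V.card := by
    by_contra hcon
    have h0 : (V.card : ℝ) = 0 := le_antisymm (not_lt.1 hcon) (Nat.cast_nonneg _)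
    rw [h0, Real.log_zero] at hV
    nlinarith
  have hVexp : 2 * Real.exp (4 * (m : ℝ) + 29 / 50) ≤ V.card := by
    have h2 : (2 : ℝ) ≤ Real.exp 1 := by
      have := Real.add_one_le_exp (1 : ℝ)
      linarith
    calc 2 * Real.exp (4 * (m : ℝ) + 29 / 50) ≤ Real.exp 1 * Real.exp (4 * (m : ℝ) + 29 / 50) :=
          mul_le_mul_of_nonneg_right h2 (Real.exp_pos _).le
      _ = Real.exp (1 + (4 * (m : ℝ) + 29 / 50)) := by rw [← Real.exp_add]
      _ ≤ Real.exp (Real.log V.card) := by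
          apply Real.exp_le_exp.2
          refine le_trans ?_ hV
          nlinarith
      _ = V.card := Real.exp_log hVpos
  have hq : q0 ≤ ((m : ℝ) - k + 1) ^ 2 / (300000 * (m : ℝ) ^ 2) - 300000 / (A : ℝ) ^ 2 := by
    have h1 : d / 16 * m ≤ (m : ℝ) - k + 1 := by
      have e1 : (1 - d / 16) * ((1 + d / 8) * k + 2) ≤ (1 - d / 16) * m :=
        mul_le_mul_of_nonneg_left hml (by linarith)
      have e2 : 0 ≤ d * k := by positivity
      have e3 : 0 ≤ d * k * (1 - d) := mul_nonneg e2 (by linarith)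
      have e4 : (1 - d / 16) * ((1 + d / 8) * k + 2) = k + 2 - d / 8 + (d * k * (1 - d)) / 128 + 7 / 128 * (d * k) := by
        ring
      rw [e4] at e1
      linarith
    have h2 : d ^ 2 / 76800000 ≤ ((m : ℝ) - k + 1) ^ 2 / (300000 * (m : ℝ) ^ 2) := by
      rw [le_div_iff₀ (by positivity)]
      have h3 := pow_le_pow_left₀ (by positivity) h1 2
      have h4 : d ^ 2 / 76800000 * (300000 * (m : ℝ) ^ 2) = (d / 16 * m) ^ 2 := by ring
      rw [h4]
      exact h3
    have h3 : 300000 / (A : ℝ) ^ 2 ≤ d ^ 2 / 153600000 := by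
      rw [div_le_iff₀ (by positivity)]
      have h4 := pow_le_pow_left₀ (by positivity) hAr 2
      have h5 : d ^ 2 / 153600000 * (7000000 / d) ^ 2 = 49000000000000 / 153600000 := by
        field_simp
        norm_num
      have h6 : d ^ 2 / 153600000 * (7000000 / d) ^ 2 ≤ d ^ 2 / 153600000 * (A : ℝ) ^ 2 :=
        mul_le_mul_of_nonneg_left h4 (by positivity)
      rw [h5] at h6
      refine le_trans ?_ h6
      norm_num
    rw [hq0]
    linarith
  have hmain := almost_allG hsp m k A hm2 hk hkm hA1' q0 hq0pos.le hq01 hq V hadm hVexp t ht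
  refine hmain.trans ?_
  apply mul_le_mul_of_nonneg_right _ (Nat.cast_nonneg _)
  apply mul_le_mul_of_nonneg_left _ (by norm_num)
  apply Real.exp_le_exp.2
  apply neg_le_neg
  have hm5 : (m : ℝ) ≤ 5 * k := by nlinarith
  have h1 : 3200 * (A : ℝ) * (m : ℝ) ^ 2 ≤ 80000 * A * (k : ℝ) ^ 2 := by
    have h2 := pow_le_pow_left₀ hmpos.le hm5 2
    nlinarith
  have ht0 : (0 : ℝ) ≤ t := Nat.cast_nonneg _
  calc (t : ℝ) / ((C' + 14) * (k : ℝ) ^ 2) ≤ t / (C' * (k : ℝ) ^ 2) := by
        apply div_le_div_of_nonneg_left ht0 (by positivity)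
        apply mul_le_mul_of_nonneg_right _ (by positivity)
        linarith
    _ = q0 ^ 2 / 2 * (t / (80000 * A * (k : ℝ) ^ 2)) := by
        rw [hC']
        field_simp
    _ ≤ q0 ^ 2 / 2 * (t / (3200 * A * (m : ℝ) ^ 2)) := by
        apply mul_le_mul_of_nonneg_left _ (by positivity)
        exact div_le_div_of_nonneg_left ht0 (by positivity) h1

end Pool.Agent.H522
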