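import Mathlib
import Pool.Agent.H522.Second

/-! H522: the proportion of the `t`-subsets containing a good `k`-subset, for all `t ≥ k`. -/

set_option autoImplicit false

open Finset Filter

namespace Pool.Agent.H522

/-- going back from `k` to `k - i` -/
theorem piP_back {n t k : ℕ} (hk : 1 ≤ k) (hkt : k ≤ t) (htn : t ≤ n) : ∀ i, i ≤ k →
    piP n t (k - i) * (i.factorial : ℝ) ≤ ((n : ℝ) * k / t) ^ i * piP n t k := by
  have hk' : (1 : ℝ) ≤ k := by exact_mod_cast hk
  have hkt' : (k : ℝ) ≤ t := by exact_mod_cast hkt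
  have htn' : (t : ℝ) ≤ n := by exact_mod_cast htn
  have ht0 : (0 : ℝ) < t := by linarith
  intro i
  induction i with
  | zero => intro _; simp
  | succ i ih =>
    intro hi
    have h1 := ih (by omega)
    obtain ⟨l, hl⟩ : ∃ l, k - (i + 1) = l := ⟨_, rfl⟩
    have hl2 : k - i = l + 1 := by omega
    rw [hl]
    rw [hl2, piP_succ] at h1
    have hli : (l : ℝ) + (i + 1) = k := by
      have : l + (i + 1) = k := by omega
      exact_mod_cast this
    have hl0 : (0 : ℝ) ≤ l := Nat.cast_nonneg _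
    have hi0 : (0 : ℝ) ≤ i := Nat.cast_nonneg _
    have hlt : (l : ℝ) < t := by linarith
    have hln : (l : ℝ) < n := by linarith
    have hp := piP_pos htn l (by omega)
    have hpk := piP_pos htn k hkt
    -- `t - l ≥ (t / k) (k - l)`
    have h2 : (t : ℝ) * (i + 1) ≤ k * (t - l) := by
      have : (i : ℝ) + 1 = k - l := by linarith
      rw [this]
      nlinarith
    have hfi : (0 : ℝ) < (i.factorial : ℝ) := by exact_mod_cast Nat.factorial_pos i
    have h3 : piP n t l * ((i : ℝ) + 1) ≤ ((n : ℝ) * k / t) * (piP n t l * (((t : ℝ) - l) / ((n : ℝ) - l))) := by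
      have h4 : ((i : ℝ) + 1) ≤ ((n : ℝ) * k / t) * (((t : ℝ) - l) / ((n : ℝ) - l)) := by
        rw [div_mul_div_comm, le_div_iff₀ (by apply mul_pos <;> linarith)]
        have h5 : ((i : ℝ) + 1) * (t * (n - l)) ≤ (t * (i + 1)) * n := by
          have : 0 ≤ (t : ℝ) * (i + 1) * l := by positivity
          linarith
        refine h5.trans ?_
        have h6 := mul_le_mul_of_nonneg_right h2 (by linarith : (0 : ℝ) ≤ n)
        nlinarith
      calc piP n t l * ((i : ℝ) + 1) ≤ piP n t l * (((n : ℝ) * k / t) * (((t : ℝ) - l) / ((n : ℝ) - l))) :=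
            mul_le_mul_of_nonneg_left h4 hp.le
        _ = _ := by ring
    rw [Nat.factorial_succ]
    push_cast
    calc piP n t l * (((i : ℝ) + 1) * (i.factorial : ℝ)) = (piP n t l * ((i : ℝ) + 1)) * (i.factorial : ℝ) := by
          ring
      _ ≤ (((n : ℝ) * k / t) * (piP n t l * (((t : ℝ) - l) / ((n : ℝ) - l)))) * (i.factorial : ℝ) :=
          mul_le_mul_of_nonneg_right h3 hfi.le
      _ = ((n : ℝ) * k / t) * ((piP n t l * (((t : ℝ) - l) / ((n : ℝ) - l))) * (i.factorial : ℝ)) := by ring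
      _ ≤ ((n : ℝ) * k / t) * (((n : ℝ) * k / t) ^ i * piP n t k) :=
          mul_le_mul_of_nonneg_left h1 (by positivity)
      _ = _ := by rw [pow_succ]; ring

/-- the terms of the exponential series -/
theorem term_le (k i : ℕ) (hk : 1 ≤ k) (hik : i ≤ k) (y : ℝ) (hy : 0 ≤ y) :
    y ^ i / (i.factorial : ℝ) ≤ (3 + 3 * y / k) ^ k := by
  have hk' : (1 : ℝ) ≤ k := by exact_mod_cast hk
  have hfi : (0 : ℝ) < (i.factorial : ℝ) := by exact_mod_cast Nat.factorial_pos i
  have h1 : (k : ℝ) ^ i / (i.factorial : ℝ) ≤ 3 ^ k := by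
    refine (Real.pow_div_factorial_le_exp (k : ℝ) (by linarith) i).trans ?_
    have h5 : Real.exp (k : ℝ) = Real.exp 1 ^ k := by
      rw [← Real.exp_nat_mul]; simp
    rw [h5]
    apply pow_le_pow_left₀ (Real.exp_pos _).le
    have := Real.exp_one_lt_d9
    linarith
  have h2 : y ≤ k * (1 + y / k) := by
    have : (k : ℝ) * (1 + y / k) = k + y := by field_simp
    rw [this]; linarith
  have h3 : 1 ≤ 1 + y / k := by
    have : 0 ≤ y / k := by positivity
    linarith
  calc y ^ i / (i.factorial : ℝ) ≤ (k * (1 + y / k)) ^ i / (i.factorial : ℝ) :=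
        div_le_div_of_nonneg_right (pow_le_pow_left₀ hy h2 i) hfi.le
    _ = ((k : ℝ) ^ i / (i.factorial : ℝ)) * (1 + y / k) ^ i := by rw [mul_pow]; ring
    _ ≤ 3 ^ k * (1 + y / k) ^ k := by
        apply mul_le_mul h1 (pow_le_pow_right₀ h3 hik) (by positivity) (by positivity)
    _ = _ := by rw [← mul_pow]; congr 1; ring

variable {α : Type} [DecidableEq α]

namespace SM

variable {m : ℕ} {V : Finset α} {lam : Finset α → ℝ}

open Classical in
/-- the proportion of the `t`-subsets containing a good `k`-subset -/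
theorem interp (h : SM m V lam) (G : Finset α → Prop) (hG : ∀ S S', S ⊆ S' → G S' → G S)
    (hlam : ∀ B, lam B ≠ 0 → G B) (k t : ℕ) (hk : 1 ≤ k) (hkt : k ≤ t) (htV : t ≤ V.card) :
    (∑ B ∈ V.powerset.filter (fun B => k ≤ B.card), lam B) ^ 2 * (V.card.choose t : ℝ) ≤
      ((k : ℝ) + 1) * (3 + 2250 * k * m / t) ^ k *
      (((V.powersetCard t).filter (fun W => ∃ S, S ⊆ W ∧ S.card = k ∧ G S)).card : ℝ) := by
  have hm' : (2 : ℝ) ≤ m := by exact_mod_cast h.m2
  have hV : (0 : ℝ) < V.card := by exact_mod_cast h.Vpos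
  have hk' : (1 : ℝ) ≤ k := by exact_mod_cast hk
  have hkt' : (k : ℝ) ≤ t := by exact_mod_cast hkt
  have ht0 : (0 : ℝ) < t := by linarith
  obtain ⟨𝓑, h𝓑⟩ : ∃ 𝓑, 𝓑 = V.powerset.filter (fun B => k ≤ B.card) := ⟨_, rfl⟩
  have hmem : ∀ B ∈ 𝓑, B ⊆ V ∧ k ≤ B.card := by
    intro B hB
    rw [h𝓑, Finset.mem_filter, Finset.mem_powerset] at hB
    exact hB
  have hJ : ∀ B : Finset α, ∃ J : Finset α, k ≤ B.card → J ⊆ B ∧ J.card = k := by
    intro B
    by_cases hB : k ≤ B.card
    · obtain ⟨S, h1, h2⟩ := Finset.exists_subset_card_eq hB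
      exact ⟨S, fun _ => ⟨h1, h2⟩⟩
    · exact ⟨∅, fun h => absurd h hB⟩
  choose J hJ using hJ
  obtain ⟨q, hq⟩ : ∃ q, q = ∑ B ∈ 𝓑, lam B := ⟨_, rfl⟩
  rw [← h𝓑, ← hq]
  have hq0 : 0 ≤ q := by rw [hq]; exact Finset.sum_nonneg fun B _ => h.nonneg B
  have hq1 : q ≤ 1 := by
    rw [hq]
    refine le_trans ?_ h.mass
    exact Finset.sum_le_sum_of_subset_of_nonneg (by rw [h𝓑]; exact Finset.filter_subset _ _)
      fun B _ _ => h.nonneg B
  obtain ⟨C, hC⟩ : ∃ C : ℝ, C = (V.card.choose t : ℝ) := ⟨_, rfl⟩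
  have hC0 : 0 < C := by rw [hC]; exact_mod_cast Nat.choose_pos htV
  rw [← hC]
  obtain ⟨E, hE⟩ : ∃ E : ℝ, E = ((k : ℝ) + 1) * (3 + 2250 * k * m / t) ^ k := ⟨_, rfl⟩
  have hE0 : 0 < E := by rw [hE]; positivity
  rw [← hE]
  obtain ⟨π, hπ⟩ : ∃ π : ℝ, π = piP V.card t k := ⟨_, rfl⟩
  have hπ0 : 0 < π := by rw [hπ]; exact piP_pos htV k hkt
  obtain ⟨y, hy⟩ : ∃ y : ℝ, y = (V.card : ℝ) * k / t := ⟨_, rfl⟩
  have hy0 : 0 ≤ y := by rw [hy]; positivity
  obtain ⟨X, hX⟩ : ∃ X : Finset α → ℝ, ∀ W, X W = ∑ B ∈ 𝓑, if J B ⊆ W then lam B else 0 := ⟨_, fun _ => rfl⟩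
  have hcount : ∀ U : Finset α, U ⊆ V → U.card ≤ t →
      (((V.powersetCard t).filter (fun W => U ⊆ W)).card : ℝ) = C * piP V.card t U.card := by
    intro U hU hUt
    rw [card_sup V U hU t hUt, hC]
    exact choose_pi htV U.card hUt
  -- the first moment
  have hS1 : ∑ W ∈ V.powersetCard t, X W = C * π * q := by
    simp only [hX]
    rw [Finset.sum_comm, hq, Finset.mul_sum]
    refine Finset.sum_congr rfl fun B hB => ?_
    obtain ⟨h1, h2⟩ := hmem B hB
    obtain ⟨h3, h4⟩ := hJ B h2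
    rw [← Finset.sum_filter, Finset.sum_const, nsmul_eq_mul, hcount (J B) (h3.trans h1) (by omega), h4, hπ]
  -- the second moment
  have hpair : ∀ B ∈ 𝓑, ∀ B' ∈ 𝓑,
      (((V.powersetCard t).filter (fun W => J B ∪ J B' ⊆ W)).card : ℝ) ≤
        C * π ^ 2 * (y ^ (J B ∩ J B').card / ((J B ∩ J B').card.factorial : ℝ)) := by
    intro B hB B' hB'
    obtain ⟨hB1, hB2⟩ := hmem B hB
    obtain ⟨hB3, hB4⟩ := hJ B hB2
    obtain ⟨hB'1, hB'2⟩ := hmem B' hB'
    obtain ⟨hB'3, hB'4⟩ := hJ B' hB'2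
    have hi : (J B ∩ J B').card ≤ k := by
      rw [← hB4]; exact Finset.card_le_card Finset.inter_subset_left
    by_cases hu : (J B ∪ J B').card ≤ t
    · rw [hcount _ (Finset.union_subset (hB3.trans hB1) (hB'3.trans hB'1)) hu]
      have e1 : (J B ∪ J B').card = k + (k - (J B ∩ J B').card) := by
        have := Finset.card_union_add_card_inter (J B) (J B')
        omega
      rw [e1] at hu ⊢
      have h4 := piP_add_le htV k (k - (J B ∩ J B').card) hu
      have h5 := piP_back hk hkt htV (J B ∩ J B').card hi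
      rw [← hy, ← hπ] at h5
      rw [← hπ] at h4
      have hf : (0 : ℝ) < ((J B ∩ J B').card.factorial : ℝ) := by exact_mod_cast Nat.factorial_pos _
      have h6 : piP V.card t (k - (J B ∩ J B').card) ≤
          y ^ (J B ∩ J B').card * π / ((J B ∩ J B').card.factorial : ℝ) := by
        rw [le_div_iff₀ hf]; exact h5
      calc C * piP V.card t (k + (k - (J B ∩ J B').card))
          ≤ C * (π * (y ^ (J B ∩ J B').card * π / ((J B ∩ J B').card.factorial : ℝ))) := by
            apply mul_le_mul_of_nonneg_left _ hC0.le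
            exact h4.trans (mul_le_mul_of_nonneg_left h6 hπ0.le)
        _ = _ := by ring
    · rw [card_sup_zero V _ t (by omega)]
      push_cast
      positivity
  have hS2 : ∑ W ∈ V.powersetCard t, X W ^ 2 ≤ C * π ^ 2 * E := by
    have h1 : ∀ W, X W ^ 2 = ∑ B ∈ 𝓑, ∑ B' ∈ 𝓑, if J B ∪ J B' ⊆ W then lam B * lam B' else 0 := by
      intro W
      rw [pow_two, hX, Finset.sum_mul_sum]
      refine Finset.sum_congr rfl fun B _ => Finset.sum_congr rfl fun B' _ => ?_
      by_cases h1 : J B ⊆ W <;> by_cases h2 : J B' ⊆ W <;> simp [Finset.union_subset_iff, h1, h2]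
    simp only [h1]
    rw [Finset.sum_comm]
    have h2 : ∀ B ∈ 𝓑, ∑ W ∈ V.powersetCard t, ∑ B' ∈ 𝓑, (if J B ∪ J B' ⊆ W then lam B * lam B' else 0) ≤
        lam B * (C * π ^ 2 * E) := by
      intro B hB
      obtain ⟨hB1, hB2⟩ := hmem B hB
      obtain ⟨hB3, hB4⟩ := hJ B hB2
      rw [Finset.sum_comm]
      have h3 : ∀ B' ∈ 𝓑, ∑ W ∈ V.powersetCard t, (if J B ∪ J B' ⊆ W then lam B * lam B' else 0) ≤
          lam B * (C * π ^ 2) * (lam B' * (y ^ (J B ∩ J B').card / ((J B ∩ J B').card.factorial : ℝ))) := by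
        intro B' hB'
        rw [← Finset.sum_filter, Finset.sum_const, nsmul_eq_mul]
        have h4 := hpair B hB B' hB'
        calc (((V.powersetCard t).filter (fun W => J B ∪ J B' ⊆ W)).card : ℝ) * (lam B * lam B')
            ≤ (C * π ^ 2 * (y ^ (J B ∩ J B').card / ((J B ∩ J B').card.factorial : ℝ))) *
              (lam B * lam B') :=
              mul_le_mul_of_nonneg_right h4 (mul_nonneg (h.nonneg B) (h.nonneg B'))
          _ = _ := by ring
      refine (Finset.sum_le_sum h3).trans ?_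
      rw [← Finset.mul_sum, mul_assoc]
      apply mul_le_mul_of_nonneg_left _ (h.nonneg B)
      apply mul_le_mul_of_nonneg_left _ (by positivity)
      -- the sum over the second set
      have h4 : ∀ B' ∈ 𝓑, lam B' * (y ^ (J B ∩ J B').card / ((J B ∩ J B').card.factorial : ℝ)) ≤
          ∑ I ∈ (J B).powerset, (if I ⊆ B' then y ^ I.card / (I.card.factorial : ℝ) * lam B' else 0) := by
        intro B' hB'
        obtain ⟨hB'1, hB'2⟩ := hmem B' hB'
        obtain ⟨hB'3, hB'4⟩ := hJ B' hB'2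
        have h5 : (if J B ∩ J B' ⊆ B' then
            y ^ (J B ∩ J B').card / ((J B ∩ J B').card.factorial : ℝ) * lam B' else 0) ≤
            ∑ I ∈ (J B).powerset, (if I ⊆ B' then y ^ I.card / (I.card.factorial : ℝ) * lam B' else 0) :=
          Finset.single_le_sum (f := fun I => if I ⊆ B' then y ^ I.card / (I.card.factorial : ℝ) * lam B'
            else 0) (fun I _ => by
              split_ifs
              · exact mul_nonneg (by positivity) (h.nonneg _)
              · exact le_rfl) (Finset.mem_powerset.2 Finset.inter_subset_left)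
        rw [if_pos (Finset.inter_subset_right.trans hB'3)] at h5
        linarith
      refine (Finset.sum_le_sum h4).trans ?_
      rw [Finset.sum_comm]
      have h5 : ∀ I ∈ (J B).powerset, ∑ B' ∈ 𝓑, (if I ⊆ B' then y ^ I.card / (I.card.factorial : ℝ) * lam B'
          else 0) ≤ y ^ I.card / (I.card.factorial : ℝ) * (250 * (I.card : ℝ) * m / V.card) ^ I.card := by
        intro I hI
        rw [Finset.mem_powerset] at hI
        rw [← Finset.sum_filter, ← Finset.mul_sum]
        apply mul_le_mul_of_nonneg_left _ (by positivity)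
        have h𝓑s : 𝓑 ⊆ V.powerset := by rw [h𝓑]; exact Finset.filter_subset _ _
        rcases Finset.eq_empty_or_nonempty I with rfl | hIn
        · simp only [Finset.card_empty, pow_zero]
          refine le_trans ?_ h.mass
          exact Finset.sum_le_sum_of_subset_of_nonneg ((Finset.filter_subset _ _).trans h𝓑s)
            fun B _ _ => h.nonneg B
        · exact le_trans (Finset.sum_le_sum_of_subset_of_nonneg (Finset.filter_subset_filter _ h𝓑s)
            fun B _ _ => h.nonneg B) (h.sp I ((hI.trans hB3).trans hB1) hIn)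
      refine (Finset.sum_le_sum h5).trans ?_
      rw [Finset.sum_powerset_apply_card (fun i => y ^ i / (i.factorial : ℝ) *
        (250 * (i : ℝ) * m / V.card) ^ i), hB4]
      have h6 : ∀ i ∈ range (k + 1), k.choose i • (y ^ i / (i.factorial : ℝ) *
          (250 * (i : ℝ) * m / V.card) ^ i) ≤ (3 + 2250 * k * m / t) ^ k := by
        intro i hi
        rw [Finset.mem_range] at hi
        rw [nsmul_eq_mul]
        have e1 : (250 * (i : ℝ) * m / V.card) ^ i = (i : ℝ) ^ i * (250 * m / V.card) ^ i := by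
          rw [← mul_pow]; congr 1; ring
        have e2 : (k.choose i : ℝ) * (y ^ i / (i.factorial : ℝ) * (250 * (i : ℝ) * m / V.card) ^ i) =
            ((k.choose i : ℝ) * (i : ℝ) ^ i) * ((y * (250 * m / V.card)) ^ i / (i.factorial : ℝ)) := by
          rw [e1, mul_pow y]; ring
        rw [e2]
        have h7 := choose_pow_le k i
        calc ((k.choose i : ℝ) * (i : ℝ) ^ i) * ((y * (250 * m / V.card)) ^ i / (i.factorial : ℝ))
            ≤ (3 * (k : ℝ)) ^ i * ((y * (250 * m / V.card)) ^ i / (i.factorial : ℝ)) :=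
              mul_le_mul_of_nonneg_right h7 (by positivity)
          _ = (750 * (k : ℝ) ^ 2 * m / t) ^ i / (i.factorial : ℝ) := by
              rw [mul_div_assoc', ← mul_pow]
              congr 2
              rw [hy]
              field_simp
              ring
          _ ≤ (3 + 3 * (750 * (k : ℝ) ^ 2 * m / t) / k) ^ k :=
              term_le k i hk (by omega) _ (by positivity)
          _ = _ := by
              congr 2
              field_simp
              ring
      refine (Finset.sum_le_sum h6).trans ?_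
      rw [Finset.sum_const, Finset.card_range, nsmul_eq_mul, hE]
      push_cast
      exact le_rfl
    refine (Finset.sum_le_sum h2).trans ?_
    rw [← Finset.sum_mul, ← hq]
    have : q * (C * π ^ 2 * E) ≤ 1 * (C * π ^ 2 * E) := mul_le_mul_of_nonneg_right hq1 (by positivity)
    linarith
  -- Cauchy-Schwarz
  obtain ⟨G', hG'⟩ : ∃ G', G' = (V.powersetCard t).filter (fun W => ∃ S, S ⊆ W ∧ S.card = k ∧ G S) :=
    ⟨_, rfl⟩
  rw [← hG']
  have hzero : ∀ W ∈ V.powersetCard t, W ∉ G' → X W = 0 := by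
    intro W hW hWG
    rw [hX]
    apply Finset.sum_eq_zero
    intro B hB
    obtain ⟨hB1, hB2⟩ := hmem B hB
    obtain ⟨hB3, hB4⟩ := hJ B hB2
    by_cases hBW : J B ⊆ W
    · rw [if_pos hBW]
      by_contra hne
      apply hWG
      rw [hG', Finset.mem_filter]
      exact ⟨hW, J B, hBW, hB4, hG _ _ hB3 (hlam B hne)⟩
    · rw [if_neg hBW]
  have hGsub : G' ⊆ V.powersetCard t := by rw [hG']; exact Finset.filter_subset _ _
  have h3 : ∑ W ∈ G', X W = C * π * q := by
    rw [← hS1]
    exact Finset.sum_subset hGsub hzero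
  have h4 : ∑ W ∈ G', X W ^ 2 ≤ C * π ^ 2 * E :=
    (Finset.sum_le_sum_of_subset_of_nonneg hGsub fun W _ _ => sq_nonneg _).trans hS2
  have h5 := sq_sum_le_card_mul_sum_sq (s := G') (f := X)
  rw [h3] at h5
  have h6 : (C * π * q) ^ 2 ≤ (G'.card : ℝ) * (C * π ^ 2 * E) :=
    h5.trans (mul_le_mul_of_nonneg_left h4 (Nat.cast_nonneg _))
  have h7 : (q ^ 2 * C) * (C * π ^ 2) ≤ (E * (G'.card : ℝ)) * (C * π ^ 2) := by
    refine le_trans (le_of_eq ?_) (h6.trans (le_of_eq ?_)) <;> ring
  exact le_of_mul_le_mul_right h7 (by positivity)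

end SM

end Pool.Agent.H522
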