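import Mathlib
import Pool.Graph.R_seed8.H358R5.MainL

/-! H522: comparison of `D L n N` with `D L (n + j) N`. -/

set_option autoImplicit false

open Finset

namespace Pool.Agent.H522

open Pool.Agent.H358R5 Pool.Agent.H358R5.ZLCD

theorem D_mono_le (L n : ℕ) {x y : ℕ} (h : x ≤ y) : D L n x ≤ D L n y :=
  monotone_nat_of_le_succ (D_mono L n) h

theorem D_zero (L x : ℕ) : D L 0 x = 1 := by
  unfold D
  rw [Finset.sum_eq_single 0]
  · simp [Pool.Agent.H358R5.A]
  · intro b _ hb
    simp [Pool.Agent.H358R5.A, hb]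
  · intro h
    exact absurd (Finset.mem_range.2 (Nat.succ_pos x)) h

theorem g_anti (L : ℕ) (hL : 1 ≤ L) {c c' : ℕ} (h : c ≤ c') : g L c' ≤ g L c := by
  unfold g
  have h1 : (0 : ℝ) < (c : ℝ) + L := by
    have : (1 : ℝ) ≤ L := by exact_mod_cast hL
    have : (0 : ℝ) ≤ c := Nat.cast_nonneg _
    linarith
  apply one_div_le_one_div_of_le h1
  have : (c : ℝ) ≤ c' := by exact_mod_cast h
  linarith

/-- `D (n, x + R) ≤ (n + 1) D (n, x)` for `x ≥ n R` -/
theorem D_add (L : ℕ) (hL : 1 ≤ L) (R n : ℕ) : ∀ x, n * R ≤ x → D L n (x + R) ≤ (n + 1) * D L n x := by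
  induction n with
  | zero =>
    intro x _
    rw [D_zero, D_zero]
    simp
  | succ n ih =>
    intro x hx
    have hx' : n * R + R ≤ x := by
      have : (n + 1) * R = n * R + R := by ring
      omega
    rw [CONV1_proof L n (x + R)]
    have hsplit : ∑ c ∈ range (x + R), g L (c + 1) ^ 2 * D L n (x + R - 1 - c) =
        ∑ c ∈ range (x - n * R), g L (c + 1) ^ 2 * D L n (x + R - 1 - c) +
        ∑ c ∈ Ico (x - n * R) (x + R), g L (c + 1) ^ 2 * D L n (x + R - 1 - c) := by
      rw [Finset.range_eq_Ico, Finset.range_eq_Ico, Finset.sum_Ico_consecutive _ (by omega) (by omega)]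
    have h1 : ∑ c ∈ range (x - n * R), g L (c + 1) ^ 2 * D L n (x + R - 1 - c) ≤
        (n + 1) * D L (n + 1) x := by
      rw [CONV1_proof L n x, Finset.mul_sum]
      calc ∑ c ∈ range (x - n * R), g L (c + 1) ^ 2 * D L n (x + R - 1 - c)
          ≤ ∑ c ∈ range (x - n * R), ((n : ℝ) + 1) * (g L (c + 1) ^ 2 * D L n (x - 1 - c)) := by
            refine Finset.sum_le_sum fun c hc => ?_
            rw [Finset.mem_range] at hc
            have e1 : x + R - 1 - c = (x - 1 - c) + R := by omega
            rw [e1]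
            have h2 := ih (x - 1 - c) (by omega)
            have h3 : 0 ≤ g L (c + 1) ^ 2 := sq_nonneg _
            nlinarith
        _ ≤ _ := by
            apply Finset.sum_le_sum_of_subset_of_nonneg
            · intro c hc
              rw [Finset.mem_range] at hc ⊢
              omega
            · intro c _ _
              have := D_nonneg L n (x - 1 - c)
              positivity
    have h2 : ∑ c ∈ Ico (x - n * R) (x + R), g L (c + 1) ^ 2 * D L n (x + R - 1 - c) ≤
        D L (n + 1) x := by
      have e1 : Ico (x - n * R) (x + R) = Ico ((x - n * R - R) + R) (x + R) := by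
        congr 1
        omega
      rw [e1, ← Finset.sum_Ico_add' (fun c => g L (c + 1) ^ 2 * D L n (x + R - 1 - c)), CONV1_proof L n x]
      calc ∑ c ∈ Ico (x - n * R - R) x, g L (c + R + 1) ^ 2 * D L n (x + R - 1 - (c + R))
          ≤ ∑ c ∈ Ico (x - n * R - R) x, g L (c + 1) ^ 2 * D L n (x - 1 - c) := by
            refine Finset.sum_le_sum fun c hc => ?_
            have e2 : x + R - 1 - (c + R) = x - 1 - c := by omega
            rw [e2]
            apply mul_le_mul_of_nonneg_right _ (D_nonneg L n _)
            exact pow_le_pow_left₀ (g_pos L _ hL).le (g_anti L hL (by omega)) 2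
        _ ≤ _ := by
            apply Finset.sum_le_sum_of_subset_of_nonneg
            · intro c hc
              rw [Finset.mem_Ico] at hc
              rw [Finset.mem_range]
              omega
            · intro c _ _
              have := D_nonneg L n (x - 1 - c)
              positivity
    rw [hsplit]
    push_cast
    linarith

/-- iterated version -/
theorem D_iter (L : ℕ) (hL : 1 ≤ L) (R n N : ℕ) : ∀ i, (n + i) * R ≤ N →
    D L n N ≤ ((n : ℝ) + 1) ^ i * D L n (N - i * R) := by
  intro i
  induction i with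
  | zero => intro _; simp
  | succ i ih =>
    intro hi
    have e0 : (n + (i + 1)) * R = n * R + i * R + R := by ring
    have e1 : (n + i) * R = n * R + i * R := by ring
    have e2 : (i + 1) * R = i * R + R := by ring
    have h1 := ih (by omega)
    have h2 := D_add L hL R n (N - (i + 1) * R) (by omega)
    have e3 : N - (i + 1) * R + R = N - i * R := by omega
    rw [e3] at h2
    calc D L n N ≤ ((n : ℝ) + 1) ^ i * D L n (N - i * R) := h1
      _ ≤ ((n : ℝ) + 1) ^ i * (((n : ℝ) + 1) * D L n (N - (i + 1) * R)) :=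
        mul_le_mul_of_nonneg_left h2 (by positivity)
      _ = _ := by ring

/-- `D (n + j, x) ≥ (1 / (4 L)) ^ j D (n, x - j L)` -/
theorem D_low (L : ℕ) (hL : 1 ≤ L) (n : ℕ) : ∀ j x, j * L ≤ x →
    D L n (x - j * L) ≤ (4 * (L : ℝ)) ^ j * D L (n + j) x := by
  intro j
  induction j with
  | zero => intro x _; simp
  | succ j ih =>
    intro x hx
    have e0 : (j + 1) * L = j * L + L := by ring
    have hLr : (1 : ℝ) ≤ L := by exact_mod_cast hL
    have h1 : D L (n + j) (x - L) ≤ 4 * (L : ℝ) * D L (n + j + 1) x := by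
      rw [CONV1_proof L (n + j) x]
      have h2 : ∑ c ∈ range L, g L (c + 1) ^ 2 * D L (n + j) (x - L) ≤
          ∑ c ∈ range x, g L (c + 1) ^ 2 * D L (n + j) (x - 1 - c) := by
        calc ∑ c ∈ range L, g L (c + 1) ^ 2 * D L (n + j) (x - L)
            ≤ ∑ c ∈ range L, g L (c + 1) ^ 2 * D L (n + j) (x - 1 - c) := by
              refine Finset.sum_le_sum fun c hc => ?_
              rw [Finset.mem_range] at hc
              exact mul_le_mul_of_nonneg_left (D_mono_le L (n + j) (by omega)) (sq_nonneg _)
          _ ≤ _ := by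
              apply Finset.sum_le_sum_of_subset_of_nonneg
              · intro c hc
                rw [Finset.mem_range] at hc ⊢
                omega
              · intro c _ _
                have := D_nonneg L (n + j) (x - 1 - c)
                positivity
      have h3 : ∑ c ∈ range L, (1 / (2 * (L : ℝ))) ^ 2 * D L (n + j) (x - L) ≤
          ∑ c ∈ range L, g L (c + 1) ^ 2 * D L (n + j) (x - L) := by
        refine Finset.sum_le_sum fun c hc => ?_
        rw [Finset.mem_range] at hc
        apply mul_le_mul_of_nonneg_right _ (D_nonneg L _ _)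
        apply pow_le_pow_left₀ (by positivity)
        unfold g
        apply one_div_le_one_div_of_le (by positivity)
        have : ((c + 1 : ℕ) : ℝ) ≤ L := by exact_mod_cast hc
        linarith
      have h4 := h3.trans h2
      rw [Finset.sum_const, Finset.card_range, nsmul_eq_mul] at h4
      calc D L (n + j) (x - L) = 4 * (L : ℝ) * (L * ((1 / (2 * (L : ℝ))) ^ 2 * D L (n + j) (x - L))) := by
            field_simp
            ring
        _ ≤ _ := mul_le_mul_of_nonneg_left h4 (by positivity)
    have h5 := ih (x - L) (by omega)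
    have e1 : x - L - j * L = x - (j + 1) * L := by omega
    rw [e1] at h5
    calc D L n (x - (j + 1) * L) ≤ (4 * (L : ℝ)) ^ j * D L (n + j) (x - L) := h5
      _ ≤ (4 * (L : ℝ)) ^ j * (4 * (L : ℝ) * D L (n + j + 1) x) :=
        mul_le_mul_of_nonneg_left h1 (by positivity)
      _ = (4 * (L : ℝ)) ^ (j + 1) * D L (n + (j + 1)) x := by
        rw [pow_succ, ← Nat.add_assoc]; ring

/-- log-concavity with a shift -/
theorem D_lc (L : ℕ) (hL : 1 ≤ L) (n : ℕ) {y' y : ℕ} (hy : y' ≤ y) (hn : n ≤ y') : ∀ r,
    D L n y' * D L n (y + r) ≤ D L n y * D L n (y' + r) := by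
  intro r
  induction r with
  | zero => simp [mul_comm]
  | succ r ih =>
    have h1 := (LCD_full L n hL).2.2.2.2 (y' + r) (y + r) (by omega)
    have p1 : 0 < D L n (y' + r) := D_pos L n _ hL (by omega)
    have p2 : 0 < D L n (y + r) := D_pos L n _ hL (by omega)
    have p3 : 0 < D L n y' := D_pos L n _ hL hn
    have p4 : 0 < D L n y := D_pos L n _ hL (by omega)
    have p5 : 0 < D L n (y + r + 1) := D_pos L n _ hL (by omega)
    have p6 : 0 < D L n (y' + r + 1) := D_pos L n _ hL (by omega)
    -- multiply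
    have h2 : (D L n y' * D L n (y + r)) * (D L n (y' + r) * D L n (y + r + 1)) ≤
        (D L n y * D L n (y' + r)) * (D L n (y + r) * D L n (y' + r + 1)) :=
      mul_le_mul ih h1 (by positivity) (by positivity)
    have h3 : (D L n y' * D L n (y + (r + 1))) * (D L n (y + r) * D L n (y' + r)) ≤
        (D L n y * D L n (y' + (r + 1))) * (D L n (y + r) * D L n (y' + r)) := by
      have e1 : y + (r + 1) = y + r + 1 := by omega
      have e2 : y' + (r + 1) = y' + r + 1 := by omega
      rw [e1, e2]
      nlinarith [h2]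
    exact le_of_mul_le_mul_right h3 (by positivity)

theorem D_pow (L : ℕ) (hL : 1 ≤ L) (n N r : ℕ) : ∀ q, n + q * r ≤ N →
    D L n (N - q * r) * D L n N ^ q ≤ D L n (N - r) ^ q * D L n N := by
  intro q
  induction q with
  | zero => intro _; simp
  | succ q ih =>
    intro hq
    have e0 : (q + 1) * r = q * r + r := by ring
    have h1 := ih (by omega)
    have h2 := D_lc L hL n (y' := N - (q + 1) * r) (y := N - r) (by omega) (by omega) r
    have e1 : N - r + r = N := by omega
    have e2 : N - (q + 1) * r + r = N - q * r := by omega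
    rw [e1, e2] at h2
    have p1 := D_nonneg L n N
    have p2 := D_nonneg L n (N - r)
    calc D L n (N - (q + 1) * r) * D L n N ^ (q + 1)
        = (D L n (N - (q + 1) * r) * D L n N) * D L n N ^ q := by ring
      _ ≤ (D L n (N - r) * D L n (N - q * r)) * D L n N ^ q :=
        mul_le_mul_of_nonneg_right h2 (by positivity)
      _ = D L n (N - r) * (D L n (N - q * r) * D L n N ^ q) := by ring
      _ ≤ D L n (N - r) * (D L n (N - r) ^ q * D L n N) := mul_le_mul_of_nonneg_left h1 p2
      _ = _ := by ring

/-- the comparison -/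
theorem D_ratio (L : ℕ) (hL : 1 ≤ L) (q : ℕ) (hq : 1 ≤ q) (E : ℝ) (hE : 0 < E) (n j N : ℕ) (hj : 1 ≤ j)
    (hK : ((n + j : ℕ) : ℝ) ≤ E ^ q) (hN : q * L * (n + j) ≤ N) :
    D L n N ≤ (4 * L * E) ^ j * D L (n + j) N := by
  have hqL : 1 ≤ q * L := Nat.mul_pos hq hL
  have hsplit : q * L * (n + j) = q * L * n + q * (j * L) := by ring
  have hnn : n ≤ q * L * n := Nat.le_mul_of_pos_left n hqL
  have h1 := D_iter L hL (q * L) n N j (by rw [mul_comm]; exact hN)
  have h2 := D_pow L hL n N (j * L) q (by omega)
  have e1 : j * (q * L) = q * (j * L) := by ring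
  rw [e1] at h1
  have hn1 : ((n : ℝ) + 1) ≤ E ^ q := by
    refine le_trans ?_ hK
    push_cast
    have : (1 : ℝ) ≤ j := by exact_mod_cast hj
    linarith
  have p0 : 0 < D L n N := D_pos L n _ hL (by omega)
  have p1 : 0 < D L n (N - q * (j * L)) := D_pos L n _ hL (by omega)
  have p2 : 0 < D L n (N - j * L) := D_pos L n _ hL (by
    have : j * L ≤ q * (j * L) := Nat.le_mul_of_pos_left _ hq
    omega)
  have h3 : D L n N ≤ (E ^ j) ^ q * D L n (N - q * (j * L)) := by
    refine h1.trans ?_
    apply mul_le_mul_of_nonneg_right _ p1.le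
    calc ((n : ℝ) + 1) ^ j ≤ (E ^ q) ^ j := pow_le_pow_left₀ (by positivity) hn1 j
      _ = (E ^ j) ^ q := by rw [← pow_mul, ← pow_mul, mul_comm]
  have h4 : D L n N ^ q ≤ (E ^ j * D L n (N - j * L)) ^ q := by
    have h5 : D L n N * D L n N ^ q ≤ (E ^ j) ^ q * (D L n (N - j * L) ^ q * D L n N) := by
      calc D L n N * D L n N ^ q ≤ ((E ^ j) ^ q * D L n (N - q * (j * L))) * D L n N ^ q :=
            mul_le_mul_of_nonneg_right h3 (by positivity)
        _ = (E ^ j) ^ q * (D L n (N - q * (j * L)) * D L n N ^ q) := by ring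
        _ ≤ _ := mul_le_mul_of_nonneg_left h2 (by positivity)
    rw [mul_pow]
    have h6 : D L n N ^ q * D L n N ≤ ((E ^ j) ^ q * D L n (N - j * L) ^ q) * D L n N := by
      nlinarith [h5]
    exact le_of_mul_le_mul_right h6 p0
  have h5 : D L n N ≤ E ^ j * D L n (N - j * L) :=
    le_of_pow_le_pow_left₀ (by omega) (by positivity) h4
  have hjL : j * L ≤ N := by
    have : j * L ≤ q * (j * L) := Nat.le_mul_of_pos_left _ hq
    omega
  have h6 := D_low L hL n j N hjL
  calc D L n N ≤ E ^ j * D L n (N - j * L) := h5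
    _ ≤ E ^ j * ((4 * (L : ℝ)) ^ j * D L (n + j) N) := mul_le_mul_of_nonneg_left h6 (by positivity)
    _ = _ := by rw [mul_pow]; ring

end Pool.Agent.H522
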