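import Mathlib
import Pool.Agent.H522.DRatio

/-! H522: the weight `F` seen on the integers for which the forms of `U` are prime. -/

set_option autoImplicit false

open Finset

namespace Pool.Agent.H522

open Pool.Agent.H358R5 Pool.Agent.H358R5.ZLCD Pool.Agent.H95R2.BG

/-- transfer of the weight to the small cells in the coordinates of `U` -/
noncomputable def FU {K : ℕ} (U : Finset (Fin K)) (l M : ℕ) (F : (Fin K → ℕ) → ℝ) (c : Fin K → ℕ) : ℝ :=
  if ∀ u ∈ U, c u < l then
    (1 / (l : ℝ)) ^ U.card * ∑ d ∈ Fintype.piFinset (fun j => if j ∈ U then range M else {c j}), F d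
  else 0

theorem mem_piU {K : ℕ} (U : Finset (Fin K)) (M : ℕ) (c d : Fin K → ℕ) :
    d ∈ Fintype.piFinset (fun j => if j ∈ U then range M else {c j}) ↔
      (∀ j ∈ U, d j < M) ∧ ∀ j, j ∉ U → d j = c j := by
  rw [Fintype.mem_piFinset]
  constructor
  · intro h
    refine ⟨fun j hj => ?_, fun j hj => ?_⟩
    · have := h j
      rw [if_pos hj, Finset.mem_range] at this
      exact this
    · have := h j
      rw [if_neg hj, Finset.mem_singleton] at this
      exact this
  · rintro ⟨h1, h2⟩ j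
    by_cases hj : j ∈ U
    · rw [if_pos hj, Finset.mem_range]; exact h1 j hj
    · rw [if_neg hj, Finset.mem_singleton]; exact h2 j hj

theorem card_piU {K : ℕ} (U : Finset (Fin K)) (l : ℕ) (d : Fin K → ℕ) :
    (Fintype.piFinset (fun j => if j ∈ U then range l else {d j})).card = l ^ U.card := by
  classical
  rw [Fintype.card_piFinset]
  have : ∀ j, (if j ∈ U then range l else ({d j} : Finset ℕ)).card = if j ∈ U then l else 1 := by
    intro j
    split_ifs <;> simp
  simp only [this]
  rw [Finset.prod_ite_mem, Finset.univ_inter, Finset.prod_const]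

theorem FU_sum {K : ℕ} (U : Finset (Fin K)) (l M : ℕ) (hl : 1 ≤ l) (hlM : l ≤ M) (F : (Fin K → ℕ) → ℝ)
    (v : Fin K → ℕ → ℝ) (hv : ∀ u ∈ U, ∀ t, v u t = 1) :
    ∑ c ∈ Box K M, FU U l M F c * ∏ j, v j (c j) = ∑ d ∈ Box K M, F d * ∏ j, v j (d j) := by
  classical
  have hmem : ∀ c : Fin K → ℕ, c ∈ Box K M ↔ ∀ j, c j < M := by
    intro c; simp [Box, Fintype.mem_piFinset]
  have hA : ∀ c ∈ Box K M, FU U l M F c * ∏ j, v j (c j) =
      ∑ d ∈ Box K M, if (∀ u ∈ U, c u < l) ∧ (∀ j, j ∉ U → d j = c j) then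
        (1 / (l : ℝ)) ^ U.card * (F d * ∏ j, v j (d j)) else 0 := by
    intro c hc
    unfold FU
    by_cases h : ∀ u ∈ U, c u < l
    · rw [if_pos h, ← Finset.sum_filter]
      have e1 : (Box K M).filter (fun d => (∀ u ∈ U, c u < l) ∧ ∀ j, j ∉ U → d j = c j) =
          Fintype.piFinset (fun j => if j ∈ U then range M else {c j}) := by
        ext d
        rw [Finset.mem_filter, mem_piU, hmem]
        constructor
        · rintro ⟨h1, -, h2⟩
          exact ⟨fun j _ => h1 j, h2⟩
        · rintro ⟨h1, h2⟩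
          refine ⟨fun j => ?_, h, h2⟩
          by_cases hj : j ∈ U
          · exact h1 j hj
          · rw [h2 j hj]; exact (hmem c).1 hc j
      rw [e1, mul_assoc, Finset.sum_mul, Finset.mul_sum]
      refine Finset.sum_congr rfl fun d hd => ?_
      rw [mem_piU] at hd
      have e2 : ∏ j, v j (c j) = ∏ j, v j (d j) := by
        refine Finset.prod_congr rfl fun j _ => ?_
        by_cases hj : j ∈ U
        · rw [hv j hj, hv j hj]
        · rw [hd.2 j hj]
      rw [e2]
    · rw [if_neg h, zero_mul]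
      symm
      apply Finset.sum_eq_zero
      intro d _
      rw [if_neg (fun hh => h hh.1)]
  rw [Finset.sum_congr rfl hA, Finset.sum_comm]
  refine Finset.sum_congr rfl fun d hd => ?_
  rw [← Finset.sum_filter]
  have e1 : (Box K M).filter (fun c => (∀ u ∈ U, c u < l) ∧ ∀ j, j ∉ U → d j = c j) =
      Fintype.piFinset (fun j => if j ∈ U then range l else {d j}) := by
    ext c
    rw [Finset.mem_filter, mem_piU, hmem]
    constructor
    · rintro ⟨_, h1, h2⟩
      exact ⟨h1, fun j hj => (h2 j hj).symm⟩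
    · rintro ⟨h1, h2⟩
      refine ⟨fun j => ?_, h1, fun j hj => (h2 j hj).symm⟩
      by_cases hj : j ∈ U
      · exact (h1 j hj).trans_le hlM
      · rw [h2 j hj]; exact (hmem d).1 hd j
  rw [e1, Finset.sum_const, card_piU, nsmul_eq_mul, ← mul_assoc]
  have hl0 : (l : ℝ) ≠ 0 := by
    have : (1 : ℝ) ≤ l := by exact_mod_cast hl
    linarith
  have e2 : ((l ^ U.card : ℕ) : ℝ) * (1 / (l : ℝ)) ^ U.card = 1 := by
    push_cast
    rw [← mul_pow, mul_one_div_cancel hl0, one_pow]
  rw [e2, one_mul]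

/-- the support of `FU` -/
theorem FU_rad {K : ℕ} (U : Finset (Fin K)) (l M N : ℕ) (F : (Fin K → ℕ) → ℝ)
    (hF : ∀ c, F c ≠ 0 → rad c ≤ N) (c : Fin K → ℕ) (hc : FU U l M F c ≠ 0) :
    rad c ≤ N + U.card * l := by
  classical
  unfold FU at hc
  by_cases h : ∀ u ∈ U, c u < l
  · rw [if_pos h] at hc
    have h1 := right_ne_zero_of_mul hc
    obtain ⟨d, hd, hFd⟩ := Finset.exists_ne_zero_of_sum_ne_zero h1
    have h2 := hF d hFd
    rw [mem_piU] at hd
    unfold rad at h2 ⊢
    have h3 : ∑ j, (c j + 1) ≤ ∑ j, ((d j + 1) + if j ∈ U then l else 0) := by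
      refine Finset.sum_le_sum fun j _ => ?_
      by_cases hj : j ∈ U
      · rw [if_pos hj]
        have := h j hj
        omega
      · rw [if_neg hj, hd.2 j hj]
    have h4 : ∑ j, ((d j + 1) + if j ∈ U then l else 0) = ∑ j, (d j + 1) + U.card * l := by
      rw [Finset.sum_add_distrib, Finset.sum_ite_mem, Finset.univ_inter, Finset.sum_const, smul_eq_mul]
    omega
  · rw [if_neg h] at hc
    exact absurd rfl hc

/-! ### the energy -/

theorem Fw_nonneg (L N : ℕ) (hL : 1 ≤ L) {K : ℕ} (c : Fin K → ℕ) : 0 ≤ Fw L N c := by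
  unfold Fw
  split_ifs
  · exact Finset.prod_nonneg fun j _ => (g_pos L _ hL).le
  · exact le_rfl

/-- `D` as a sum over an arbitrary index type -/
theorem D_type (L N : ℕ) {ι : Type} [Fintype ι] [DecidableEq ι] :
    ∑ c ∈ Fintype.piFinset (fun _ : ι => range N),
      (if ∑ j, (c j + 1) ≤ N then ∏ j, g L (c j + 1) ^ 2 else 0) = D L (Fintype.card ι) N := by
  classical
  rw [← FSQ_proof BOX_proof L N (Fintype.card ι)]
  let e := Fintype.equivFin ι
  refine Finset.sum_equiv (Equiv.arrowCongr e (Equiv.refl ℕ)) ?_ ?_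
  · intro c
    simp only [Fintype.mem_piFinset, Equiv.arrowCongr_apply, Equiv.refl_apply, Function.comp]
    constructor
    · intro h i; exact h _
    · intro h i
      have := h (e i)
      simpa using this
  · intro c _
    have e1 : ∑ j, (Equiv.arrowCongr e (Equiv.refl ℕ) c j + 1) = ∑ j, (c j + 1) := by
      rw [← Equiv.sum_comp e]
      refine Finset.sum_congr rfl fun j _ => ?_
      simp [Equiv.arrowCongr]
    have e2 : ∏ j, g L (Equiv.arrowCongr e (Equiv.refl ℕ) c j + 1) = ∏ j, g L (c j + 1) := by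
      rw [← Equiv.prod_comp e]
      refine Finset.prod_congr rfl fun j _ => ?_
      simp [Equiv.arrowCongr]
    unfold Fw
    rw [e1, e2]
    split_ifs
    · rw [Finset.prod_pow]
    · simp

/-- splitting the coordinates -/
theorem sum_split {K : ℕ} (U : Finset (Fin K)) (l N : ℕ) (h : ({j : Fin K // ¬ j ∈ U} → ℕ) → ℝ) :
    ∑ c ∈ Fintype.piFinset (fun j => if j ∈ U then range l else range N), h (fun j => c j) =
      (l : ℝ) ^ U.card * ∑ c ∈ Fintype.piFinset (fun _ : {j : Fin K // ¬ j ∈ U} => range N), h c := by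
  classical
  have h1 : ∑ c ∈ Fintype.piFinset (fun j => if j ∈ U then range l else range N), h (fun j => c j) =
      ∑ p ∈ (Fintype.piFinset (fun _ : {j : Fin K // j ∈ U} => range l)) ×ˢ
        (Fintype.piFinset (fun _ : {j : Fin K // ¬ j ∈ U} => range N)), h p.2 := by
    refine Finset.sum_equiv (Equiv.piEquivPiSubtypeProd (fun j => j ∈ U) (fun _ => ℕ)) ?_ ?_
    · intro c
      rw [Finset.mem_product, Fintype.mem_piFinset, Fintype.mem_piFinset, Fintype.mem_piFinset]
      simp only [Equiv.piEquivPiSubtypeProd_apply]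
      constructor
      · intro hc
        refine ⟨fun j => ?_, fun j => ?_⟩
        · have := hc j
          rwa [if_pos j.2] at this
        · have := hc j
          rwa [if_neg j.2] at this
      · rintro ⟨h1, h2⟩ j
        by_cases hj : j ∈ U
        · rw [if_pos hj]; exact h1 ⟨j, hj⟩
        · rw [if_neg hj]; exact h2 ⟨j, hj⟩
    · intro c _
      rfl
  rw [h1, Finset.sum_product]
  simp only [Finset.sum_const, nsmul_eq_mul]
  congr 1
  rw [Fintype.card_piFinset]
  simp

theorem FU_le (L N : ℕ) (hL : 1 ≤ L) {K : ℕ} (U : Finset (Fin K)) (l : ℕ) (c : Fin K → ℕ) :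
    0 ≤ FU U l N (Fw L N) c ∧
    FU U l N (Fw L N) c ≤ if ∀ u ∈ U, c u < l then
      (1 / (l : ℝ)) ^ U.card * (Pool.Agent.H358R5.B L N ^ U.card *
        (if ∑ j : {j : Fin K // ¬ j ∈ U}, (c j + 1) ≤ N then
          ∏ j : {j : Fin K // ¬ j ∈ U}, g L (c j + 1) else 0)) else 0 := by
  classical
  unfold FU
  by_cases h : ∀ u ∈ U, c u < l
  · rw [if_pos h, if_pos h]
    refine ⟨mul_nonneg (by positivity) (Finset.sum_nonneg fun d _ => Fw_nonneg L N hL d), ?_⟩
    apply mul_le_mul_of_nonneg_left _ (by positivity)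
    have h1 : ∀ d ∈ Fintype.piFinset (fun j => if j ∈ U then range N else {c j}), Fw L N d ≤
        (∏ j, g L (d j + 1)) * (if ∑ j : {j : Fin K // ¬ j ∈ U}, (c j + 1) ≤ N then 1 else 0) := by
      intro d hd
      rw [mem_piU] at hd
      have hp : 0 ≤ ∏ j, g L (d j + 1) := Finset.prod_nonneg fun j _ => (g_pos L _ hL).le
      unfold Fw
      split_ifs with h2 h3
      · rw [mul_one]
      · exfalso
        apply h3
        refine le_trans ?_ h2
        have e1 : ∑ j : {j : Fin K // ¬ j ∈ U}, (c j + 1) = ∑ j : {j : Fin K // ¬ j ∈ U}, (d j + 1) :=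
          Finset.sum_congr rfl fun j _ => by rw [hd.2 j j.2]
        rw [e1, ← Fintype.sum_subtype_add_sum_subtype (fun j => ¬ j ∈ U) (fun j => d j + 1)]
        exact Nat.le_add_right _ _
      · rw [mul_one]; exact hp
      · rw [mul_zero]
    refine (Finset.sum_le_sum h1).trans ?_
    rw [← Finset.sum_mul, ← Finset.prod_univ_sum (fun j => if j ∈ U then range N else {c j})
      (fun _ t => g L (t + 1))]
    have h2 : ∏ j, ∑ t ∈ (if j ∈ U then range N else {c j}), g L (t + 1) =
        Pool.Agent.H358R5.B L N ^ U.card * ∏ j : {j : Fin K // ¬ j ∈ U}, g L (c j + 1) := by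
      rw [← Fintype.prod_subtype_mul_prod_subtype (fun j => j ∈ U)]
      congr 1
      · have : ∀ j : {j : Fin K // j ∈ U}, ∑ t ∈ (if (j : Fin K) ∈ U then range N else {c j}), g L (t + 1) =
            Pool.Agent.H358R5.B L N := by
          intro j
          rw [if_pos j.2]; rfl
        rw [Finset.prod_congr rfl fun j _ => this j, Finset.prod_const]
        congr 1
        have e3 : ∀ (inst : Fintype {j : Fin K // j ∈ U}), (@Finset.univ _ inst).card = U.card := by
          intro inst
          have e4 : (@Finset.univ _ inst : Finset {j : Fin K // j ∈ U}) = U.attach := by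
            ext x
            simp
          rw [e4, Finset.card_attach]
        exact e3 _
      · refine Finset.prod_congr rfl fun j _ => ?_
        rw [if_neg j.2, Finset.sum_singleton]
    rw [h2, mul_assoc]
    refine le_of_eq ?_
    split_ifs <;> ring
  · rw [if_neg h, if_neg h]
    exact ⟨le_rfl, le_rfl⟩

theorem B_nonneg (L N : ℕ) (hL : 1 ≤ L) : 0 ≤ Pool.Agent.H358R5.B L N :=
  Finset.sum_nonneg fun c _ => (g_pos L _ hL).le

set_option linter.unusedVariables false in
/-- the energy of `FU` -/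
theorem FU_energy (L N : ℕ) (hL : 1 ≤ L) {K : ℕ} (U : Finset (Fin K)) (l : ℕ) (hl : 1 ≤ l) :
    ∑ c ∈ Box K N, FU U l N (Fw L N) c ^ 2 ≤
      (Pool.Agent.H358R5.B L N ^ 2 / l) ^ U.card * D L (K - U.card) N := by
  classical
  have hl0 : (0 : ℝ) < l := by
    have : (1 : ℝ) ≤ l := by exact_mod_cast hl
    linarith
  have hB := B_nonneg L N hL
  set H : ({j : Fin K // ¬ j ∈ U} → ℕ) → ℝ := fun c =>
    if ∑ j, (c j + 1) ≤ N then ∏ j, g L (c j + 1) ^ 2 else 0 with hH
  have hH0 : ∀ c, 0 ≤ H c := by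
    intro c
    rw [hH]
    dsimp only
    split_ifs
    · exact Finset.prod_nonneg fun j _ => sq_nonneg _
    · exact le_rfl
  have h1 : ∀ c ∈ Box K N, FU U l N (Fw L N) c ^ 2 ≤
      if ∀ u ∈ U, c u < l then
        ((1 / (l : ℝ)) ^ U.card) ^ 2 * ((Pool.Agent.H358R5.B L N ^ U.card) ^ 2 * H (fun j => c j)) else 0 := by
    intro c _
    obtain ⟨h2, h3⟩ := FU_le L N hL U l c
    refine (pow_le_pow_left₀ h2 h3 2).trans (le_of_eq ?_)
    rw [hH]
    dsimp only
    split_ifs
    · rw [mul_pow, mul_pow, Finset.prod_pow]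
    · simp
    · simp
  refine (Finset.sum_le_sum h1).trans ?_
  rw [← Finset.sum_filter]
  have h4 : (Box K N).filter (fun c => ∀ u ∈ U, c u < l) ⊆
      Fintype.piFinset (fun j => if j ∈ U then range l else range N) := by
    intro c hc
    rw [Finset.mem_filter] at hc
    have h5 : ∀ j, c j < N := by
      have := hc.1
      simpa [Box, Fintype.mem_piFinset] using this
    rw [Fintype.mem_piFinset]
    intro j
    by_cases hj : j ∈ U
    · rw [if_pos hj, Finset.mem_range]; exact hc.2 j hj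
    · rw [if_neg hj, Finset.mem_range]; exact h5 j
  refine (Finset.sum_le_sum_of_subset_of_nonneg h4 fun c _ _ => ?_).trans ?_
  · exact mul_nonneg (sq_nonneg _) (mul_nonneg (sq_nonneg _) (hH0 _))
  rw [← Finset.mul_sum, ← Finset.mul_sum, sum_split U l N H]
  have h5 : ∑ c ∈ Fintype.piFinset (fun _ : {j : Fin K // ¬ j ∈ U} => range N), H c =
      D L (K - U.card) N := by
    rw [hH, D_type L N]
    congr 1
    rw [Fintype.card_subtype_compl, Fintype.card_fin]
    congr 1
    simp
  rw [h5]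
  refine le_of_eq ?_
  have h6 : (l : ℝ) ^ U.card ≠ 0 := (pow_pos hl0 _).ne'
  have h7 : (1 / (l : ℝ)) ^ U.card = ((l : ℝ) ^ U.card)⁻¹ := by rw [one_div, inv_pow]
  have h8 : (Pool.Agent.H358R5.B L N ^ 2 / (l : ℝ)) ^ U.card =
      (Pool.Agent.H358R5.B L N ^ U.card) ^ 2 * ((l : ℝ) ^ U.card)⁻¹ := by
    rw [div_pow, ← pow_mul, ← pow_mul, mul_comm 2 U.card, div_eq_mul_inv]
  rw [h7, h8]
  field_simp

end Pool.Agent.H522
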