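import Mathlib
import Pool.Agent.H522.Corr

/-! H522: numerical bounds for the energy of `FU`. -/

set_option autoImplicit false

open Finset

namespace Pool.Agent.H522

open Pool.Agent.H358R5 Pool.Agent.H358R5.ZLCD Pool.Agent.H95R2.BG

theorem B_le_log (L N : ℕ) (hL : 1 ≤ L) :
    Pool.Agent.H358R5.B L N ≤ Real.log ((N : ℝ) + L) - Real.log L := by
  induction N with
  | zero => simp [Pool.Agent.H358R5.B]
  | succ N ih =>
    unfold Pool.Agent.H358R5.B at ih ⊢
    rw [Finset.sum_range_succ]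
    have hL' : (1 : ℝ) ≤ L := by exact_mod_cast hL
    have hN' : (0 : ℝ) ≤ N := Nat.cast_nonneg _
    have h1 : (0 : ℝ) < (N : ℝ) + L := by linarith
    have h2 : (0 : ℝ) < ((N + 1 : ℕ) : ℝ) + L := by positivity
    have h3 := Real.one_sub_inv_le_log_of_pos (x := (((N + 1 : ℕ) : ℝ) + L) / ((N : ℝ) + L)) (by positivity)
    rw [Real.log_div h2.ne' h1.ne'] at h3
    have h4 : 1 - ((((N + 1 : ℕ) : ℝ) + L) / ((N : ℝ) + L))⁻¹ = g L (N + 1) := by
      unfold g
      rw [inv_div]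
      field_simp
      push_cast
      ring
    rw [h4] at h3
    linarith

theorem bm_le (m : ℕ) (hm : 2 ≤ m) : 4 * (m : ℝ) ≤ bm m ∧ bm m ≤ 4 * m + 1 := by
  have hm' : (2 : ℝ) ≤ m := by exact_mod_cast hm
  unfold bm
  have h0 : 0 ≤ 32 * (m : ℝ) ^ 2 * Real.exp (-(4 * m)) := by positivity
  refine ⟨by linarith, ?_⟩
  have h1 : (4 * (m : ℝ)) ^ 4 / 24 ≤ Real.exp (4 * m) := by
    have := Real.pow_div_factorial_le_exp (4 * (m : ℝ)) (by positivity) 4
    simpa [Nat.factorial] using this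
  have h2 : 32 * (m : ℝ) ^ 2 ≤ Real.exp (4 * m) := by
    refine le_trans ?_ h1
    have : 32 * (m : ℝ) ^ 2 * 24 ≤ (4 * (m : ℝ)) ^ 4 := by nlinarith [sq_nonneg ((m : ℝ) ^ 2), sq_nonneg (m : ℝ), mul_self_nonneg ((m : ℝ) - 2)]
    rw [le_div_iff₀ (by norm_num)]
    exact this
  rw [Real.exp_neg]
  have h3 : 32 * (m : ℝ) ^ 2 * (Real.exp (4 * m))⁻¹ ≤ 1 := by
    rw [← div_eq_mul_inv, div_le_one (Real.exp_pos _)]
    exact h2
  linarith

theorem log_num (m : ℕ) (hm : 2 ≤ m) : Real.log (4 * (m : ℝ) + 2) ≤ 2 * m := by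
  have hm' : (2 : ℝ) ≤ m := by exact_mod_cast hm
  rw [Real.log_le_iff_le_exp (by positivity)]
  have h1 := Real.quadratic_le_exp_of_nonneg (x := 2 * (m : ℝ)) (by positivity)
  nlinarith

/-- the parameters -/
structure Par (m K L N : ℕ) : Prop where
  m2 : 2 ≤ m
  K4 : 4 ≤ K
  hK : Real.log K ≤ 5 * m
  hL : L = 100 * K
  N1 : bm m * ((L : ℝ) * K) ≤ N
  N2 : (N : ℝ) ≤ bm m * ((L : ℝ) * K) + 1

theorem Par.B_le {m K L N : ℕ} (h : Par m K L N) : Pool.Agent.H358R5.B L N ≤ 7 * m := by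
  have hm' : (2 : ℝ) ≤ m := by exact_mod_cast h.m2
  have hK' : (4 : ℝ) ≤ K := by exact_mod_cast h.K4
  have hL1 : 1 ≤ L := by have := h.hL; have := h.K4; omega
  have hL' : (1 : ℝ) ≤ L := by exact_mod_cast hL1
  refine (B_le_log L N hL1).trans ?_
  have hN0 : (0 : ℝ) ≤ N := Nat.cast_nonneg _
  rw [← Real.log_div (by linarith) (by linarith)]
  have h1 : ((N : ℝ) + L) / L ≤ (4 * m + 2) * K := by
    rw [div_le_iff₀ (by linarith)]
    have h2 := h.N2
    have h3 := (bm_le m h.m2).2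
    have h4 : bm m * ((L : ℝ) * K) ≤ (4 * m + 1) * (L * K) := mul_le_mul_of_nonneg_right h3 (by positivity)
    have h5 : (4 : ℝ) * L ≤ L * K := by nlinarith
    nlinarith
  have h2 : (0 : ℝ) < ((N : ℝ) + L) / L := by positivity
  calc Real.log (((N : ℝ) + L) / L) ≤ Real.log ((4 * m + 2) * K) := Real.log_le_log h2 h1
    _ = Real.log (4 * m + 2) + Real.log K := Real.log_mul (by positivity) (by positivity)
    _ ≤ 2 * m + 5 * m := add_le_add (log_num m h.m2) h.hK
    _ = 7 * m := by ring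

theorem Par.N_ge {m K L N : ℕ} (h : Par m K L N) : 4 * m * L * K ≤ N := by
  have h1 := (bm_le m h.m2).1
  have h2 : 4 * (m : ℝ) * (L * K) ≤ N := (mul_le_mul_of_nonneg_right h1 (by positivity)).trans h.N1
  have h3 : ((4 * m * L * K : ℕ) : ℝ) ≤ N := by
    push_cast
    linarith
  exact_mod_cast h3

theorem Par.N_ge' {m K L N : ℕ} (h : Par m K L N) : 800 * K ≤ N := by
  have h1 := h.N_ge
  have h2 := h.K4
  have h3 := h.m2
  have h4 : 800 * K ≤ 4 * m * L * K := by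
    rw [h.hL]
    calc 800 * K = 4 * 2 * (100 * 1) * K := by ring
      _ ≤ 4 * m * (100 * K) * K := by gcongr; omega
  omega

theorem Par.l_num {m K L N : ℕ} (h : Par m K L N) (j : ℕ) (hj : 1 ≤ j) (hjK : j ≤ K) :
    1 ≤ (N - 2) / j ∧ (N - 2) / j ≤ N ∧ N + j * ((N - 2) / j) ≤ 2 * (N - 1) ∧
      99 / 100 * (N : ℝ) / j ≤ (((N - 2) / j : ℕ) : ℝ) := by
  have hN := h.N_ge'
  have hK := h.K4
  have h1 : j * ((N - 2) / j) ≤ N - 2 := Nat.mul_div_le _ _
  have h2 : N - 2 < j * ((N - 2) / j + 1) := Nat.lt_mul_div_succ _ hj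
  refine ⟨?_, ?_, ?_, ?_⟩
  · rw [Nat.le_div_iff_mul_le hj]; omega
  · exact (Nat.div_le_self _ _).trans (Nat.sub_le _ _)
  · omega
  · have hj0 : (0 : ℝ) < j := by exact_mod_cast hj
    rw [div_le_iff₀ hj0]
    have h3 : N - 2 + 1 ≤ j * ((N - 2) / j) + j := by
      have : j * ((N - 2) / j + 1) = j * ((N - 2) / j) + j := by ring
      omega
    have h4 : N ≤ j * ((N - 2) / j) + j + 1 := by omega
    have h5 : (N : ℝ) ≤ j * (((N - 2) / j : ℕ) : ℝ) + j + 1 := by exact_mod_cast h4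
    have h6 : (800 : ℝ) * K ≤ N := by exact_mod_cast hN
    have h7 : (j : ℝ) ≤ K := by exact_mod_cast hjK
    have h8 : (4 : ℝ) ≤ K := by exact_mod_cast hK
    nlinarith

theorem Par.energy {m K L N : ℕ} (h : Par m K L N) (U : Finset (Fin K)) (hU : U.Nonempty) :
    ∑ c ∈ Box K N, FU U ((N - 2) / U.card) N (Fw L N) c ^ 2 ≤
      (200 * U.card * m / (K : ℝ)) ^ U.card * D L K N := by
  have hm' : (2 : ℝ) ≤ m := by exact_mod_cast h.m2
  have hK' : (4 : ℝ) ≤ K := by exact_mod_cast h.K4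
  have hL1 : 1 ≤ L := by have := h.hL; have := h.K4; omega
  have hL' : (1 : ℝ) ≤ L := by exact_mod_cast hL1
  have hj : 1 ≤ U.card := hU.card_pos
  have hjK : U.card ≤ K := by
    have := Finset.card_le_univ U
    rwa [Fintype.card_fin] at this
  obtain ⟨l1, l2, l3, l4⟩ := h.l_num U.card hj hjK
  set l : ℕ := (N - 2) / U.card with hl
  have hl0 : (0 : ℝ) < l := by
    have : (1 : ℝ) ≤ l := by exact_mod_cast l1
    linarith
  have hjr : (1 : ℝ) ≤ U.card := by exact_mod_cast hj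
  refine (FU_energy L N hL1 U l l1).trans ?_
  have e1 : K - U.card + U.card = K := by omega
  have hE : ((K - U.card + U.card : ℕ) : ℝ) ≤ (4 : ℝ) ^ (4 * m) := by
    rw [e1]
    have h1 : Real.log K ≤ Real.log ((4 : ℝ) ^ (4 * m)) := by
      rw [Real.log_pow]
      have h2 : Real.log 4 = 2 * Real.log 2 := by
        rw [show (4 : ℝ) = 2 ^ 2 by norm_num, Real.log_pow]; norm_num
      have h3 := Real.log_two_gt_d9
      have h4 := h.hK
      rw [h2]
      push_cast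
      nlinarith
    rwa [Real.log_le_log_iff (by linarith) (by positivity)] at h1
  have hD := D_ratio L hL1 (4 * m) (by have := h.m2; omega) 4 (by norm_num) (K - U.card) U.card N hj hE
    (by rw [e1]; exact h.N_ge)
  rw [e1] at hD
  have hB0 := B_nonneg L N hL1
  have hB := h.B_le
  calc (Pool.Agent.H358R5.B L N ^ 2 / l) ^ U.card * D L (K - U.card) N
      ≤ (Pool.Agent.H358R5.B L N ^ 2 / l) ^ U.card * ((4 * L * 4) ^ U.card * D L K N) :=
        mul_le_mul_of_nonneg_left hD (by positivity)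
    _ = (Pool.Agent.H358R5.B L N ^ 2 / l * (4 * L * 4)) ^ U.card * D L K N := by
        rw [← mul_assoc, ← mul_pow]
    _ ≤ _ := by
        apply mul_le_mul_of_nonneg_right _ (D_nonneg L K N)
        apply pow_le_pow_left₀ (by positivity)
        have hNge : 4 * (m : ℝ) * L * K ≤ N := by exact_mod_cast h.N_ge
        have hB2 : Pool.Agent.H358R5.B L N ^ 2 ≤ (7 * m) ^ 2 := pow_le_pow_left₀ hB0 hB 2
        rw [div_mul_eq_mul_div, div_le_div_iff₀ hl0 (by linarith)]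
        rw [div_le_iff₀ (by linarith)] at l4
        have hm0 : (0 : ℝ) ≤ m := by linarith
        have hN0 : (0 : ℝ) ≤ N := Nat.cast_nonneg _
        have s1 : Pool.Agent.H358R5.B L N ^ 2 * (4 * (L : ℝ) * 4) * (K : ℝ) ≤
            (7 * (m : ℝ)) ^ 2 * (4 * (L : ℝ) * 4) * (K : ℝ) := by gcongr
        have s2 : (7 * (m : ℝ)) ^ 2 * (4 * (L : ℝ) * 4) * (K : ℝ) =
            196 * (m : ℝ) * (4 * (m : ℝ) * L * K) := by ring
        have s3 : 196 * (m : ℝ) * (4 * (m : ℝ) * L * K) ≤ 196 * (m : ℝ) * N := by gcongr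
        have s4 : 196 * (m : ℝ) * (N : ℝ) ≤ 200 * (m : ℝ) * (99 / 100 * (N : ℝ)) := by
          nlinarith [mul_nonneg hm0 hN0]
        have s5 : 200 * (m : ℝ) * (99 / 100 * (N : ℝ)) ≤ 200 * (m : ℝ) * ((l : ℝ) * U.card) := by
          apply mul_le_mul_of_nonneg_left l4 (by positivity)
        have s6 : 200 * (m : ℝ) * ((l : ℝ) * U.card) = 200 * (U.card : ℝ) * m * l := by ring
        linarith

end Pool.Agent.H522
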