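import Mathlib
import Pool.Agent.H522.Num

/-! H522: the Maynard–Tao measure with bounds for all correlations. -/

set_option autoImplicit false

open Finset Filter

namespace Pool.Agent.H522

open Pool.Agent.H378R2 Pool.Agent.H95R2.BG Pool.Agent.H95R2.BG.LF
open Pool.Agent.H358R5 (bm Fw FSQ_proof FUU_proof BOX_proof ASM_full LCD_full)

theorem par_exists (m K : ℕ) (hm : 2 ≤ m) (hK : 4 * (m : ℝ) + 29 / 50 ≤ Real.log (K : ℝ))
    (hK2 : Real.log (K : ℝ) ≤ 5 * m) : ∃ L N : ℕ, Par m K L N := by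
  have hm' : (2 : ℝ) ≤ m := by exact_mod_cast hm
  have hK4 : 4 ≤ K := by
    by_contra hcon
    push Not at hcon
    have h1 : (K : ℝ) ≤ 3 := by
      have : K ≤ 3 := by omega
      exact_mod_cast this
    have h2 : Real.log (K : ℝ) ≤ 3 := by
      rcases Nat.eq_zero_or_pos K with h0 | h0
      · rw [h0]; simp
      · have h3 : (0 : ℝ) < K := by exact_mod_cast h0
        have := Real.log_le_sub_one_of_pos h3
        linarith
    linarith
  refine ⟨100 * K, ⌈bm m * (((100 * K : ℕ) : ℝ) * K)⌉₊, hm, hK4, hK2, rfl, Nat.le_ceil _, ?_⟩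
  have h1 := (bm_le m hm).1
  exact (Nat.ceil_lt_add_one (mul_nonneg (by linarith) (by positivity))).le

/-- the elementary inequality behind the choice of the parameters -/
theorem par_ineq (N β : ℝ) (hN : 8 ≤ N) (hβ : β ≤ (1 + 1 / (8 * N)) * (N - 1)) :
    ((1 + 1 / (4 * N)) * (1 + 1 / (100 * N)) ^ 2 + 1 / (100 * N) / 10) * β ≤
      (1 - 4 * (1 / (100 * N))) * N := by
  obtain ⟨x, hx⟩ : ∃ x : ℝ, x = 1 / N := ⟨_, rfl⟩
  have hN0 : 0 < N := by linarith
  have hx0 : 0 < x := by rw [hx]; positivity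
  have hx8 : x ≤ 1 / 8 := by
    rw [hx]; exact one_div_le_one_div_of_le (by norm_num) hN
  have hxN : x * N = 1 := by rw [hx]; field_simp
  have e1 : 1 / (4 * N) = x / 4 := by rw [hx]; field_simp
  have e2 : 1 / (100 * N) = x / 100 := by rw [hx]; field_simp
  have e3 : 1 / (8 * N) = x / 8 := by rw [hx]; field_simp
  rw [e3] at hβ
  rw [e1, e2]
  have h1 : (1 + x / 4) * (1 + x / 100) ^ 2 + x / 100 / 10 ≤ 1 + 3 / 10 * x := by nlinarith [mul_pos hx0 hx0, mul_pos (mul_pos hx0 hx0) hx0]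
  have h2 : (1 + x / 8) * (N - 1) ≤ N - 7 / 8 := by
    have : (1 + x / 8) * (N - 1) = N - 1 + x * N / 8 - x / 8 := by ring
    rw [this, hxN]
    linarith
  have h3 : 0 ≤ (1 + x / 4) * (1 + x / 100) ^ 2 + x / 100 / 10 := by positivity
  calc ((1 + x / 4) * (1 + x / 100) ^ 2 + x / 100 / 10) * β
      ≤ ((1 + x / 4) * (1 + x / 100) ^ 2 + x / 100 / 10) * (N - 7 / 8) :=
        mul_le_mul_of_nonneg_left (hβ.trans h2) h3
    _ ≤ (1 + 3 / 10 * x) * (N - 7 / 8) := mul_le_mul_of_nonneg_right h1 (by linarith)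
    _ ≤ (1 - 4 * (x / 100)) * N := by
      have : (1 + 3 / 10 * x) * (N - 7 / 8) = N - 7 / 8 + 3 / 10 * (x * N) - 21 / 80 * x := by ring
      rw [this]
      have : (1 - 4 * (x / 100)) * N = N - 4 / 100 * (x * N) := by ring
      rw [this, hxN]
      linarith

/-- the measure -/
theorem master (m K0 : ℕ) (hm : 2 ≤ m) (hK : 4 * (m : ℝ) + 29 / 50 ≤ Real.log ((K0 : ℝ) + 1))
    (hK2 : Real.log ((K0 : ℝ) + 1) ≤ 5 * m) (A B : Fin (K0 + 1) → ℕ) (hadm : AdmissibleL A B) :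
    ∃ θ : ℝ, 0 < θ ∧ ∀ e : ℝ, 0 < e → ∀ᶠ X : ℝ in atTop, ∃ w : ℕ → ℝ,
      (∀ n, 0 ≤ w n) ∧ (∀ n, w n ≤ X ^ (-(1 - e))) ∧ ∑ n ∈ Icc 1 ⌊3 * X⌋₊, w n ≤ 1 ∧
      (∀ i, (1 + θ) * (m / ((K0 : ℝ) + 1)) ≤
        ∑ n ∈ (Icc 1 ⌊3 * X⌋₊).filter (fun n => (A i * n + B i).Prime), w n) ∧
      ∀ U : Finset (Fin (K0 + 1)), U.Nonempty →
        ∑ n ∈ (Icc 1 ⌊3 * X⌋₊).filter (fun n => ∀ i ∈ U, (A i * n + B i).Prime), w n ≤
          (250 * U.card * m / ((K0 : ℝ) + 1)) ^ U.card := by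
  classical
  have hm' : (2 : ℝ) ≤ m := by exact_mod_cast hm
  have hcast : ((K0 + 1 : ℕ) : ℝ) = (K0 : ℝ) + 1 := by push_cast; ring
  obtain ⟨L, N, hpar⟩ := par_exists m (K0 + 1) hm (by rw [hcast]; exact hK) (by rw [hcast]; exact hK2)
  have hNN := hpar.N_ge'
  have hK4 := hpar.K4
  have hK4' : (4 : ℝ) ≤ (K0 : ℝ) + 1 := by rw [← hcast]; exact_mod_cast hK4
  have hL1 : 1 ≤ L := by have := hpar.hL; omega
  have hNr : (3200 : ℝ) ≤ N := by
    have : 3200 ≤ N := by omega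
    exact_mod_cast this
  have key := ASM_full m L K0 N hm hK (by have := hpar.hL; omega)
    (by have := hpar.N1; rwa [hcast] at this) (by have := hpar.N2; rwa [hcast] at this)
  obtain ⟨K, hKdef⟩ : ∃ K : ℝ, K = (K0 : ℝ) + 1 := ⟨_, rfl⟩
  rw [← hKdef] at key hK4' ⊢
  obtain ⟨D', hD'⟩ : ∃ D' : ℝ, D' = Pool.Agent.H358R5.D L (K0 + 1) N := ⟨_, rfl⟩
  obtain ⟨SA, hSA⟩ : ∃ SA : ℝ, SA = ∑ s ∈ range (N + 1),
    Pool.Agent.H358R5.A L K0 s * Pool.Agent.H358R5.B L (N - s) ^ 2 := ⟨_, rfl⟩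
  rw [← hD', ← hSA] at key
  have hD0 : 0 < D' := by rw [hD']; exact (LCD_full L (K0 + 1) hL1).2.2.2.1 N (by omega)
  obtain ⟨f, β, hf, hβ⟩ := cells_exist (N - 1) N (by omega) (by omega) (1 / (8 * (N : ℝ))) (by positivity)
  obtain ⟨ψ, hψ⟩ := psis_exist (N - 1) (by omega) (1 / (8 * (N : ℝ))) (by positivity)
  have hβ0 : 0 < β := hf.pos
  have hcN : ((N - 1 : ℕ) : ℝ) = (N : ℝ) - 1 := by
    rw [Nat.cast_sub (by omega)]; simp
  rw [hcN] at hβ
  -- the weight
  obtain ⟨F, hFdef⟩ : ∃ F : (Fin (K0 + 1) → ℕ) → ℝ, F = Fw L N := ⟨_, rfl⟩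
  have hFrad : ∀ c, F c ≠ 0 → rad c ≤ N := by
    intro c hc
    rw [hFdef] at hc
    unfold Fw at hc
    have h1 : ∑ j, (c j + 1) ≤ N := by
      by_contra hcon
      rw [if_neg hcon] at hc
      exact hc rfl
    exact h1
  have hBox : ∀ k M : ℕ, Box k M = Fintype.piFinset (fun _ : Fin k => range M) := fun _ _ => rfl
  have hSF : ∑ c ∈ Box (K0 + 1) N, F c ^ 2 = D' := by
    rw [hBox, hFdef, hD']; exact FSQ_proof BOX_proof L N (K0 + 1)
  have hSU : ∀ i : Fin (K0 + 1), ∑ c ∈ Box K0 N, (1 : ℝ) * UU N F i c ^ 2 = SA := by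
    intro i
    rw [hSA, ← FUU_proof BOX_proof L N K0 i, hBox, hFdef]
    refine Finset.sum_congr rfl fun c _ => ?_
    simp [UU]
  -- small parameters
  obtain ⟨δ, hδdef⟩ : ∃ δ : ℝ, δ = 1 / (100 * (N : ℝ)) := ⟨_, rfl⟩
  have hδ : 0 < δ := by rw [hδdef]; positivity
  have hδ8 : δ < 1 / 8 := by
    rw [hδdef]
    apply one_div_lt_one_div_of_lt (by norm_num)
    linarith
  obtain ⟨Z0, hZ0⟩ : ∃ Z0 : ℝ, Z0 = β ^ (K0 + 1) * D' := ⟨_, rfl⟩
  have hZ00 : 0 < Z0 := by rw [hZ0]; positivity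
  obtain ⟨ε1, hε1⟩ : ∃ ε1 : ℝ, ε1 = Z0 * δ * (1 / K) ^ (K0 + 1) / 10 := ⟨_, rfl⟩
  have hK0 : 0 < K := by linarith
  have hε10 : 0 < ε1 := by rw [hε1]; positivity
  have hKp : (1 / K) ^ (K0 + 1) ≤ 1 / K := by
    have h1 : 1 / K ≤ 1 := by rw [div_le_one hK0]; linarith
    calc (1 / K) ^ (K0 + 1) = (1 / K) ^ K0 * (1 / K) := pow_succ _ _
      _ ≤ 1 * (1 / K) := mul_le_mul_of_nonneg_right (pow_le_one₀ (by positivity) h1) (by positivity)
      _ = 1 / K := one_mul _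
  have hKp0 : 0 < (1 / K) ^ (K0 + 1) := by positivity
  have hKp1 : (1 / K) ^ (K0 + 1) ≤ 1 := hKp.trans (by rw [div_le_one hK0]; linarith)
  have hε1a : ε1 ≤ δ * Z0 := by
    rw [hε1]
    have h1 : Z0 * δ * (1 / K) ^ (K0 + 1) ≤ Z0 * δ * 1 := mul_le_mul_of_nonneg_left hKp1 (by positivity)
    have h2 := mul_pos hZ00 hδ
    linarith
  have hε1b : ε1 ≤ (m / K * Z0) * (δ / 10) := by
    rw [hε1]
    have h1 : Z0 * δ * (1 / K) ^ (K0 + 1) ≤ Z0 * δ * (m / K) := by
      apply mul_le_mul_of_nonneg_left _ (by positivity)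
      refine hKp.trans ?_
      apply div_le_div_of_nonneg_right _ hK0.le
      linarith
    linarith
  have hε1c : ε1 ≤ Z0 * ((1 / K) ^ (K0 + 1) / 10) := by
    rw [hε1]
    have h1 : Z0 * δ * (1 / K) ^ (K0 + 1) ≤ Z0 * 1 * (1 / K) ^ (K0 + 1) := by
      apply mul_le_mul_of_nonneg_right _ hKp0.le
      apply mul_le_mul_of_nonneg_left _ hZ00.le
      linarith
    linarith
  obtain ⟨Z, hZ⟩ : ∃ Z : ℝ, Z = Z0 * (1 + δ) := ⟨_, rfl⟩
  have hZpos : 0 < Z := by rw [hZ]; positivity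
  obtain ⟨θ, hθ⟩ : ∃ θ : ℝ, θ = 1 / (4 * (N : ℝ)) := ⟨_, rfl⟩
  have hθ0 : 0 < θ := by rw [hθ]; positivity
  -- the main numerical inequality
  have hnum : (1 + θ) * (m / K) * ((1 + δ) * Z) ≤ (1 / 4 - δ) * (β ^ K0 * SA) - ε1 := by
    obtain ⟨P, hP⟩ : ∃ P : ℝ, P = β ^ K0 * D' * (m / K) := ⟨_, rfl⟩
    have hP0 : 0 < P := by rw [hP]; positivity
    have h1 : m / K * Z0 = β * P := by rw [hZ0, hP, pow_succ]; ring
    have h2 := par_ineq N β (by linarith) hβ
    rw [← hδdef, ← hθ] at h2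
    have h3 : 4 * N * P ≤ β ^ K0 * SA := by
      have h4 : 4 * (m : ℝ) * N * D' / K ≤ SA := by
        rw [div_le_iff₀ hK0]; linarith
      have h5 := mul_le_mul_of_nonneg_left h4 (pow_nonneg hβ0.le K0)
      refine le_trans (le_of_eq ?_) h5
      rw [hP]; ring
    have h6 : (1 / 4 - δ) * (4 * N * P) ≤ (1 / 4 - δ) * (β ^ K0 * SA) :=
      mul_le_mul_of_nonneg_left h3 (by linarith)
    rw [h1] at hε1b
    have h7 := mul_le_mul_of_nonneg_right h2 hP0.le
    have e1 : (1 + θ) * (m / K) * ((1 + δ) * Z) = (1 + θ) * (1 + δ) ^ 2 * (m / K * Z0) := by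
      rw [hZ]; ring
    rw [e1, h1]
    linarith [h6, h7, hε1b]
  refine ⟨θ, hθ0, ?_⟩
  intro e he
  -- choice of D
  obtain ⟨D1, hD1⟩ := lim_wwL (R := N - 1) (by omega) (by omega) (by omega) hf F
    (fun c hc => (hFrad c hc).trans (by omega)) δ hδ hδ8 ε1 hε10
  obtain ⟨D2, hD2⟩ := lim_qqL (R := N - 1) (by omega) (by omega) (by omega) hf F
    (fun c hc => (hFrad c hc).trans (by omega)) (fun _ _ => 1) (fun s s' hs hs' hss => by omega)
    δ hδ hδ8 ε1 hε10
  have hU : ∀ U : Finset (Fin (K0 + 1)), ∃ DU : ℕ, U.Nonempty → ∀ D : ℕ, DU ≤ D →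
      ∀ A B : Fin (K0 + 1) → ℕ, SepL D A B → ∀ a : ℕ, ∀ᶠ X : ℝ in atTop,
      ∑ n ∈ Icc 1 ⌊3 * X⌋₊, nu X (WD D) a n *
          ww δ D X f N (FU U ((N - 2) / U.card) N F) A B n ^ 2 ≤
        NN δ D X (K0 + 1) * (β ^ (K0 + 1) *
          ∑ c ∈ Box (K0 + 1) N, FU U ((N - 2) / U.card) N F c ^ 2 + ε1) := by
    intro U
    by_cases hUn : U.Nonempty
    · obtain ⟨l1, l2, l3, -⟩ := hpar.l_num U.card hUn.card_pos (by
        have := Finset.card_le_univ U
        rwa [Fintype.card_fin] at this)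
      obtain ⟨DU, hDU⟩ := lim_wwL (R := 2 * (N - 1) - 1) (by omega) (by omega) (by omega) hf
        (FU U ((N - 2) / U.card) N F)
        (fun c hc => (FU_rad U _ N N F hFrad c hc).trans (by omega)) δ hδ hδ8 ε1 hε10
      exact ⟨DU, fun _ => hDU⟩
    · exact ⟨0, fun h => absurd h hUn⟩
  choose DU hDU using hU
  obtain ⟨D, hD⟩ : ∃ D, D = D1 + D2 + ∑ U, DU U + (∑ i, ∑ j, A i * B j + ∑ i, A i) := ⟨_, rfl⟩
  have hDUl : ∀ U, DU U ≤ D := by
    intro U
    have : DU U ≤ ∑ U, DU U := Finset.single_le_sum (f := DU) (fun _ _ => Nat.zero_le _) (mem_univ U)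
    omega
  have hsep : SepL D A B := critL_sep A B hadm.1 hadm.2.1 D (by omega)
  obtain ⟨a, ha⟩ := critL_class A B hadm.2.2 D
  obtain ⟨a0, ha0⟩ : ∃ a0 : ℕ, a0 = ∑ i, A i := ⟨_, rfl⟩
  have hAa0 : ∀ i, A i ≤ a0 := fun i => by
    rw [ha0]; exact Finset.single_le_sum (f := A) (fun _ _ => Nat.zero_le _) (mem_univ i)
  have ha01 : 1 ≤ a0 := (hadm.1 0).trans (hAa0 0)
  have ha01' : (1 : ℝ) ≤ a0 := by exact_mod_cast ha01
  have evP := pointwiseL (R := N - 1) (by omega) (by omega) (by omega) hf hψ F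
    (fun c hc => (hFrad c hc).trans (by omega)) 0 (fun _ => 0) (fun _ => le_rfl) (fun _ _ => 0)
    (fun _ _ => 1) (by
      intro Y
      simp only [one_mul, Finset.univ_eq_empty, Finset.sum_empty, add_zero]
      rw [pow_two, Finset.sum_mul_sum]) δ hδ hδ8 D A B hadm.1 a0 hAa0
  have evW := hD1 D (by omega) A B hsep a
  have evU : ∀ᶠ X : ℝ in atTop, ∀ U : Finset (Fin (K0 + 1)), U.Nonempty →
      ∑ n ∈ Icc 1 ⌊3 * X⌋₊, nu X (WD D) a n *
          ww δ D X f N (FU U ((N - 2) / U.card) N F) A B n ^ 2 ≤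
        NN δ D X (K0 + 1) * (β ^ (K0 + 1) *
          ∑ c ∈ Box (K0 + 1) N, FU U ((N - 2) / U.card) N F c ^ 2 + ε1) := by
    rw [eventually_all]
    intro U
    by_cases hUn : U.Nonempty
    · filter_upwards [hDU U hUn D (hDUl U) A B hsep a] with X hX _ using hX
    · exact Filter.Eventually.of_forall fun X h => absurd h hUn
  have evQ : ∀ᶠ X : ℝ in atTop, ∀ i, _ :=
    eventually_all.2 fun i => hD2 D (by omega) A B hsep i a (ha i)
  have evN := NN_pos δ (by linarith) D (K0 + 1)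
  have evN2 := NN_geL δ (by linarith) D (K0 + 1) (e / 4) (by positivity)
  have evL := critL_log a0 ha01 δ hδ
  have evB := wwL_le hf F δ D A B hadm.1 (e / 4) (by positivity)
  have evX : ∀ᶠ X : ℝ in atTop, ((∑ i, B i : ℕ) : ℝ) + 3 ≤ X := eventually_ge_atTop _
  have evZ : ∀ᶠ X : ℝ in atTop, 1 / Z ≤ X ^ (e / 2) :=
    (tendsto_rpow_atTop (by positivity : 0 < e / 2)).eventually_ge_atTop _
  filter_upwards [evP, evW, evU, evQ, evN, evN2, evL, evB, evX, evZ] with X hP hW hUU hQ hN hN2 hL hB hX hXZ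
  have hB0' : (0 : ℝ) ≤ ((∑ i, B i : ℕ) : ℝ) := Nat.cast_nonneg _
  have hX3 : (3 : ℝ) ≤ X := by linarith
  have hX0 : 0 < X := by linarith
  have hlogX : 0 < Real.log X := Real.log_pos (by linarith)
  have h4X : (1 : ℝ) ≤ 4 * a0 * X := by
    have t1 := mul_le_mul ha01' hX3 (by norm_num) (by linarith : (0 : ℝ) ≤ a0)
    linarith
  have hlog4 : 0 ≤ Real.log (4 * a0 * X) := Real.log_nonneg h4X
  obtain ⟨LG, hLG⟩ : ∃ LG : ℝ, LG = Real.log (4 * a0 * X) := ⟨_, rfl⟩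
  rw [← hLG] at hlog4 hL
  obtain ⟨NX, hNX⟩ : ∃ NX : ℝ, NX = NN δ D X (K0 + 1) := ⟨_, rfl⟩
  rw [← hNX] at hN hN2
  have hNZ : 0 < NX * Z := mul_pos hN hZpos
  -- nu vanishes for n ≤ X
  have hnu0 : ∀ n : ℕ, (n : ℝ) ≤ X → nu X (WD D) a n = 0 := by
    intro n hnX
    unfold nu
    split_ifs
    · apply Phi_eq_zero_of_le (by positivity)
      rw [div_le_one hX0]; exact hnX
    · rfl
  have hnu1 : ∀ n : ℕ, nu X (WD D) a n ≤ 1 := by
    intro n
    unfold nu
    split_ifs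
    · exact Phi_le_one _
    · exact zero_le_one
  have hn3 : ∀ n ∈ Icc 1 ⌊3 * X⌋₊, 1 ≤ n ∧ (n : ℝ) ≤ 3 * X := by
    intro n hn
    have h1 := Finset.mem_Icc.1 hn
    exact ⟨h1.1, (Nat.le_floor_iff (by linarith)).1 h1.2⟩
  obtain ⟨v, hv⟩ : ∃ v : ℕ → ℝ, ∀ n, v n = nu X (WD D) a n * ww δ D X f N F A B n ^ 2 :=
    ⟨_, fun _ => rfl⟩
  have hv0 : ∀ n, 0 ≤ v n := fun n => by rw [hv]; exact mul_nonneg (nu_nonneg _ _ _ _) (sq_nonneg _)
  refine ⟨fun n => if n ∈ Icc 1 ⌊3 * X⌋₊ then v n / (NX * Z) else 0, ?_, ?_, ?_, ?_, ?_⟩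
  · intro n
    dsimp only
    split_ifs
    · exact div_nonneg (hv0 n) hNZ.le
    · exact le_rfl
  · intro n
    dsimp only
    split_ifs with hn
    · obtain ⟨h1, h2⟩ := hn3 n hn
      have h3 : v n ≤ X ^ (e / 4) := by
        rw [hv]
        calc nu X (WD D) a n * ww δ D X f N F A B n ^ 2 ≤ 1 * ww δ D X f N F A B n ^ 2 :=
              mul_le_mul_of_nonneg_right (hnu1 n) (sq_nonneg _)
          _ = ww δ D X f N F A B n ^ 2 := one_mul _
          _ ≤ _ := hB n h1 h2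
      rw [div_le_iff₀ hNZ]
      refine h3.trans ?_
      have h4 : 1 ≤ X ^ (e / 2) * Z := by
        rwa [div_le_iff₀ hZpos] at hXZ
      have h5 : X ^ (e / 4) = X ^ (-(1 - e)) * (X ^ (1 - e / 4) * X ^ (-(e / 2))) := by
        rw [← Real.rpow_add hX0, ← Real.rpow_add hX0]
        congr 1
        ring
      rw [h5]
      apply mul_le_mul_of_nonneg_left _ (by positivity)
      have h6 : X ^ (-(e / 2)) ≤ Z := by
        rw [Real.rpow_neg hX0.le, inv_le_iff_one_le_mul₀ (by positivity)]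
        rw [mul_comm]; exact h4
      exact mul_le_mul hN2 h6 (by positivity) hN.le
    · positivity
  · rw [Finset.sum_ite_mem, Finset.inter_self, ← Finset.sum_div, div_le_one hNZ]
    rw [hSF, ← hNX] at hW
    refine le_trans (Finset.sum_le_sum fun n _ => (hv n).le) (hW.trans ?_)
    apply mul_le_mul_of_nonneg_left _ hN.le
    rw [hZ, ← hZ0]
    linarith
  · intro i
    have e1 : ∑ n ∈ (Icc 1 ⌊3 * X⌋₊).filter (fun n => (A i * n + B i).Prime),
        (if n ∈ Icc 1 ⌊3 * X⌋₊ then v n / (NX * Z) else 0) =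
        (∑ n ∈ (Icc 1 ⌊3 * X⌋₊).filter (fun n => (A i * n + B i).Prime), v n) / (NX * Z) := by
      rw [Finset.sum_div]
      refine Finset.sum_congr rfl fun n hn => ?_
      rw [if_pos (Finset.mem_filter.1 hn).1]
    rw [e1, le_div_iff₀ hNZ]
    obtain ⟨Si, hSi⟩ : ∃ Si : ℝ, Si = ∑ n ∈ (Icc 1 ⌊3 * X⌋₊).filter (fun n => (A i * n + B i).Prime), v n :=
      ⟨_, rfl⟩
    rw [← hSi]
    have hSi0 : 0 ≤ Si := by rw [hSi]; exact Finset.sum_nonneg fun n _ => hv0 n
    have h1 : ∑ n ∈ Icc 1 ⌊3 * X⌋₊, nu X (WD D) a n *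
        (th (A i * n + B i) * qq δ D X f N F A B i (fun _ _ => 1) n) ≤ LG * Si := by
      rw [hSi, Finset.mul_sum, Finset.sum_filter]
      refine Finset.sum_le_sum fun n hn => ?_
      obtain ⟨hn1, hn3'⟩ := hn3 n hn
      by_cases hnX : (n : ℝ) ≤ X
      · rw [hnu0 n hnX, zero_mul]
        split_ifs
        · exact mul_nonneg hlog4 (hv0 n)
        · exact le_rfl
      · push Not at hnX
        by_cases hp : (A i * n + B i).Prime
        · rw [if_pos hp, hv]
          have h2 := hP n hnX hn3' i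
          simp only [Finset.univ_eq_empty, Finset.sum_empty, mul_zero, sub_zero] at h2
          have hth : th (A i * n + B i) ≤ LG := by
            unfold th
            rw [if_pos hp, hLG]
            apply Real.log_le_log
            · exact_mod_cast hp.pos
            · have h1 : B i ≤ ∑ i, B i :=
                Finset.single_le_sum (f := B) (fun _ _ => Nat.zero_le _) (mem_univ i)
              have h2 : (B i : ℝ) ≤ ((∑ i, B i : ℕ) : ℝ) := by exact_mod_cast h1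
              have h3 : (A i : ℝ) ≤ a0 := by exact_mod_cast hAa0 i
              have h5 : (A i : ℝ) * n ≤ a0 * (3 * X) :=
                mul_le_mul h3 hn3' (Nat.cast_nonneg _) (Nat.cast_nonneg _)
              have h6 : 1 * X ≤ (a0 : ℝ) * X := mul_le_mul_of_nonneg_right ha01' hX0.le
              have h7 : ((A i * n + B i : ℕ) : ℝ) = (A i : ℝ) * n + B i := by push_cast; ring
              rw [h7]
              linarith
          calc nu X (WD D) a n * (th (A i * n + B i) * qq δ D X f N F A B i (fun _ _ => 1) n)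
              ≤ nu X (WD D) a n * (th (A i * n + B i) * ww δ D X f N F A B n ^ 2) :=
                mul_le_mul_of_nonneg_left h2 (nu_nonneg _ _ _ _)
            _ ≤ nu X (WD D) a n * (LG * ww δ D X f N F A B n ^ 2) :=
                mul_le_mul_of_nonneg_left (mul_le_mul_of_nonneg_right hth (sq_nonneg _)) (nu_nonneg _ _ _ _)
            _ = _ := by ring
        · rw [if_neg hp]
          have : th (A i * n + B i) = 0 := by unfold th; rw [if_neg hp]
          rw [this]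
          simp
    have h2 := (hQ i).trans h1
    rw [hSU i, ← hNX] at h2
    have h3 : NX * Real.log X * ((1 / 4 - δ) * (β ^ K0 * SA) - ε1) ≤ (1 + δ) * Real.log X * Si :=
      h2.trans (mul_le_mul_of_nonneg_right hL hSi0)
    have h4 : NX * ((1 + θ) * (m / K) * ((1 + δ) * Z)) ≤ (1 + δ) * Si := by
      have h5 : NX * ((1 / 4 - δ) * (β ^ K0 * SA) - ε1) * Real.log X ≤ (1 + δ) * Si * Real.log X := by
        linarith
      have h6 := le_of_mul_le_mul_right h5 hlogX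
      exact (mul_le_mul_of_nonneg_left hnum hN.le).trans h6
    have h7 : ((1 + θ) * (m / K) * (NX * Z)) * (1 + δ) ≤ Si * (1 + δ) := by linarith
    exact le_of_mul_le_mul_right h7 (by linarith)
  · intro U hUn
    have hcard : U.card ≤ K0 + 1 := by
      have := Finset.card_le_univ U
      rwa [Fintype.card_fin] at this
    obtain ⟨l1, l2, l3, -⟩ := hpar.l_num U.card hUn.card_pos hcard
    have e1 : ∑ n ∈ (Icc 1 ⌊3 * X⌋₊).filter (fun n => ∀ i ∈ U, (A i * n + B i).Prime),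
        (if n ∈ Icc 1 ⌊3 * X⌋₊ then v n / (NX * Z) else 0) =
        (∑ n ∈ (Icc 1 ⌊3 * X⌋₊).filter (fun n => ∀ i ∈ U, (A i * n + B i).Prime), v n) / (NX * Z) := by
      rw [Finset.sum_div]
      refine Finset.sum_congr rfl fun n hn => ?_
      rw [if_pos (Finset.mem_filter.1 hn).1]
    rw [e1, div_le_iff₀ hNZ]
    have h1 : ∑ n ∈ (Icc 1 ⌊3 * X⌋₊).filter (fun n => ∀ i ∈ U, (A i * n + B i).Prime), v n ≤
        ∑ n ∈ Icc 1 ⌊3 * X⌋₊, nu X (WD D) a n *
          ww δ D X f N (FU U ((N - 2) / U.card) N F) A B n ^ 2 := by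
      rw [Finset.sum_filter]
      refine Finset.sum_le_sum fun n hn => ?_
      have hnn : 0 ≤ nu X (WD D) a n * ww δ D X f N (FU U ((N - 2) / U.card) N F) A B n ^ 2 :=
        mul_nonneg (nu_nonneg _ _ _ _) (sq_nonneg _)
      obtain ⟨hn1, hn3'⟩ := hn3 n hn
      split_ifs with hp
      · rw [hv]
        by_cases hnX : (n : ℝ) ≤ X
        · rw [hnu0 n hnX, zero_mul, zero_mul]
        · push Not at hnX
          have hR1 : 1 ≤ Rt δ X := C1_Rt_pos δ hδ8 X (by linarith)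
          have hw : ww δ D X f N (FU U ((N - 2) / U.card) N F) A B n = ww δ D X f N F A B n := by
            unfold Pool.Agent.H95R2.BG.LF.ww Pool.Agent.H95R2.BG.LF.prodv
            apply FU_sum U _ N l1 l2 F (fun j t => vv δ D X (f t) ((A j : ℤ) * n + B j))
            intro u hu t
            have hRlt : Rt δ X < A u * n + B u := by
              have h1 := C1_Rt_lt δ hδ X (by linarith)
              have h2 : (Rt δ X : ℝ) < (n : ℝ) := by linarith
              have h3 : Rt δ X < n := by exact_mod_cast h2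
              have h4 : n ≤ A u * n := Nat.le_mul_of_pos_left n (hadm.1 u)
              omega
            have h5 : ((A u : ℤ) * (n : ℤ) + (B u : ℤ)) = ((A u * n + B u : ℕ) : ℤ) := by push_cast; ring
            unfold vv
            rw [h5, VV_prime _ _ hR1 _ _ _ (hp u hu) hRlt]
            exact hf.one t
          rw [hw]
      · exact hnn
    have h2 := hUU U hUn
    rw [← hNX] at h2
    refine (h1.trans h2).trans ?_
    have h3 := hpar.energy U hUn
    rw [← hFdef, ← hD', hcast, ← hKdef] at h3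
    obtain ⟨j, hj⟩ : ∃ j : ℕ, j = U.card := ⟨_, rfl⟩
    have hj1 : 1 ≤ j := by rw [hj]; exact hUn.card_pos
    have hjK : j ≤ K0 + 1 := by rw [hj]; exact hcard
    have hjr : (1 : ℝ) ≤ j := by exact_mod_cast hj1
    rw [← hj] at h3 ⊢
    obtain ⟨aj, haj⟩ : ∃ aj : ℝ, aj = (250 * (j : ℝ) * m / K) ^ j := ⟨_, rfl⟩
    rw [← haj]
    have h4 : (200 * (j : ℝ) * m / K) ^ j ≤ 4 / 5 * aj := by
      have e2 : 200 * (j : ℝ) * m / K = 4 / 5 * (250 * (j : ℝ) * m / K) := by ring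
      rw [e2, mul_pow, haj]
      apply mul_le_mul_of_nonneg_right _ (by positivity)
      calc (4 / 5 : ℝ) ^ j ≤ (4 / 5) ^ 1 := pow_le_pow_of_le_one (by norm_num) (by norm_num) hj1
        _ = 4 / 5 := pow_one _
    have h5 : (1 / K) ^ (K0 + 1) ≤ aj := by
      rw [haj]
      have h1K : 1 / K ≤ 1 := by rw [div_le_one hK0]; linarith
      calc (1 / K) ^ (K0 + 1) ≤ (1 / K) ^ j := pow_le_pow_of_le_one (by positivity) h1K hjK
        _ ≤ _ := by
          apply pow_le_pow_left₀ (by positivity)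
          apply div_le_div_of_nonneg_right _ hK0.le
          have t1 := mul_le_mul hjr hm' (by norm_num) (by linarith : (0 : ℝ) ≤ j)
          linarith
    have hβp : 0 < β ^ (K0 + 1) := by positivity
    calc NX * (β ^ (K0 + 1) * ∑ c ∈ Box (K0 + 1) N, FU U ((N - 2) / j) N F c ^ 2 + ε1)
        ≤ NX * (β ^ (K0 + 1) * (4 / 5 * aj * D') + Z0 * (aj / 10)) := by
          apply mul_le_mul_of_nonneg_left _ hN.le
          apply add_le_add
          · apply mul_le_mul_of_nonneg_left _ hβp.le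
            exact h3.trans (mul_le_mul_of_nonneg_right h4 hD0.le)
          · refine hε1c.trans ?_
            apply mul_le_mul_of_nonneg_left _ hZ00.le
            linarith
      _ = NX * (Z0 * (9 / 10 * aj)) := by rw [hZ0]; ring
      _ ≤ aj * (NX * Z) := by
          rw [hZ]
          have haj0 : 0 < aj := lt_of_lt_of_le hKp0 h5
          have : Z0 * (9 / 10 * aj) ≤ Z0 * (1 + δ) * aj := by
            have t1 := mul_pos hZ00 haj0
            have t2 := mul_pos t1 hδ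
            linarith
          have t3 := mul_le_mul_of_nonneg_left this hN.le
          linarith

end Pool.Agent.H522
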