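import Mathlib
import Pool.Agent.H522.Spread0
import Pool.Agent.H522.Count

/-! H522: the measure on the isolated prime patterns of a large admissible set. -/

set_option autoImplicit false

open Finset Filter

namespace Pool.Agent.H522

/-- a set with fewer than `p` elements misses a class mod `p` -/
theorem adm_of_card (T : Finset ℤ) (p : ℕ) (hp : p.Prime) (h : T.card < p) :
    ∃ r : ℤ, ∀ s ∈ T, ¬ (p : ℤ) ∣ r + s := by
  classical
  by_contra hcon
  push Not at hcon
  have hp0 : (p : ℤ) ≠ 0 := by exact_mod_cast hp.ne_zero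
  have h1 : (range p).card ≤ (T.image (fun s => ((-s) % (p : ℤ)).toNat)).card := by
    apply Finset.card_le_card
    intro a ha
    rw [Finset.mem_range] at ha
    obtain ⟨s, hs, hd⟩ := hcon (a : ℤ)
    rw [Finset.mem_image]
    refine ⟨s, hs, ?_⟩
    have h2 : (-s) % (p : ℤ) = (a : ℤ) % p := by
      apply Int.emod_emod_of_dvd _ (dvd_refl _) |>.symm.trans
      rw [Int.emod_emod_of_dvd _ (dvd_refl _)]
      apply Int.ModEq.eq
      rw [Int.modEq_iff_dvd]
      simpa using hd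
    rw [h2, Int.emod_eq_of_lt (by positivity) (by exact_mod_cast ha)]
    simp
  have h2 := (h1.trans Finset.card_image_le)
  rw [Finset.card_range] at h2
  omega

theorem K1_prop (m : ℕ) (hm : 2 ≤ m) :
    4 * (m : ℝ) + 29 / 50 ≤ Real.log (⌈Real.exp (4 * (m : ℝ) + 29 / 50)⌉₊ : ℝ) ∧
    Real.log (⌈Real.exp (4 * (m : ℝ) + 29 / 50)⌉₊ : ℝ) ≤ 5 * m ∧
    (⌈Real.exp (4 * (m : ℝ) + 29 / 50)⌉₊ : ℝ) ≤ Real.exp (4 * (m : ℝ) + 29 / 50) + 1 := by
  have hm' : (2 : ℝ) ≤ m := by exact_mod_cast hm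
  set x := Real.exp (4 * (m : ℝ) + 29 / 50) with hx
  have hx0 : 0 < x := Real.exp_pos _
  have h1 : x ≤ ⌈x⌉₊ := Nat.le_ceil x
  have h2 : (⌈x⌉₊ : ℝ) ≤ x + 1 := (Nat.ceil_lt_add_one hx0.le).le
  have hc : (0 : ℝ) < ⌈x⌉₊ := by linarith
  refine ⟨?_, ?_, h2⟩
  · rw [Real.le_log_iff_exp_le hc]
    exact h1
  · rw [Real.log_le_iff_le_exp hc]
    refine h2.trans ?_
    have h3 : Real.exp (5 * (m : ℝ)) = x * Real.exp (m - 29 / 50) := by
      rw [hx, ← Real.exp_add]; congr 1; ring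
    rw [h3]
    have h4 : (m : ℝ) - 29 / 50 + 1 ≤ Real.exp (m - 29 / 50) := Real.add_one_le_exp _
    have h5 : 1 ≤ x := by
      rw [hx]; exact Real.one_le_exp (by positivity)
    nlinarith

/-- the measure on the isolated patterns of a large admissible set -/
theorem spread (m : ℕ) (hm : 2 ≤ m) (V : Finset ℤ) (hV : 4 * (m : ℝ) + 29 / 50 ≤ Real.log V.card)
    (hadm : ∀ p : ℕ, p.Prime → (p : ℝ) ≤ Real.exp (4 * (m : ℝ) + 29 / 50) + 1 →
      ∃ r : ℤ, ∀ s ∈ V, ¬ (p : ℤ) ∣ r + s) :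
    ∃ lam : Finset ℤ → ℝ, (∀ B, 0 ≤ lam B) ∧ (∀ B, lam B ≠ 0 → Isolated B) ∧
      ∑ B ∈ V.powerset, lam B ≤ 1 ∧
      (∀ v ∈ V, (m : ℝ) / V.card ≤ ∑ B ∈ V.powerset.filter (fun B => v ∈ B), lam B) ∧
      ∀ U : Finset ℤ, U ⊆ V → U.Nonempty → ∑ B ∈ V.powerset.filter (fun B => U ⊆ B), lam B ≤
        (250 * U.card * m / V.card) ^ U.card := by
  classical
  have hm' : (2 : ℝ) ≤ m := by exact_mod_cast hm
  obtain ⟨hK1, hK2, hK3⟩ := K1_prop m hm
  obtain ⟨K1, hK1def⟩ : ∃ K1 : ℕ, K1 = ⌈Real.exp (4 * (m : ℝ) + 29 / 50)⌉₊ := ⟨_, rfl⟩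
  rw [← hK1def] at hK1 hK2 hK3
  have hVpos : (0 : ℝ) < V.card := by
    by_contra hcon
    have h0 : (V.card : ℝ) = 0 := le_antisymm (not_lt.1 hcon) (Nat.cast_nonneg _)
    rw [h0, Real.log_zero] at hV
    linarith
  have hKV : K1 ≤ V.card := by
    rw [hK1def, Nat.ceil_le, ← Real.le_log_iff_exp_le hVpos]
    exact hV
  have hK1pos : 1 ≤ K1 := by
    rw [hK1def, Nat.one_le_ceil_iff]; exact Real.exp_pos _
  have hex : ∀ T ∈ V.powersetCard K1, ∃ lam : Finset ℤ → ℝ, (∀ B, 0 ≤ lam B) ∧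
      (∀ B, lam B ≠ 0 → Isolated B) ∧
      ∑ B ∈ T.powerset, lam B ≤ 1 ∧
      (∀ v ∈ T, (m : ℝ) / K1 ≤ ∑ B ∈ T.powerset.filter (fun B => v ∈ B), lam B) ∧
      ∀ U : Finset ℤ, U ⊆ T → U.Nonempty → ∑ B ∈ T.powerset.filter (fun B => U ⊆ B), lam B ≤
        (250 * U.card * m / K1) ^ U.card := by
    intro T hT
    rw [Finset.mem_powersetCard] at hT
    have h1 := spread0 m hm T (by rw [hT.2]; exact hK1) (by rw [hT.2]; exact hK2) ?_
    · rw [hT.2] at h1; exact h1
    · intro p hp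
      by_cases hpl : (p : ℝ) ≤ Real.exp (4 * (m : ℝ) + 29 / 50) + 1
      · obtain ⟨r, hr⟩ := hadm p hp hpl
        exact ⟨r, fun s hs => hr s (hT.1 hs)⟩
      · apply adm_of_card T p hp
        rw [hT.2]
        push Not at hpl
        have : (K1 : ℝ) < p := lt_of_le_of_lt hK3 hpl
        exact_mod_cast this
  choose! G hG0 hG1 hG2 hG3 hG4 using hex
  obtain ⟨C, hC⟩ : ∃ C : ℝ, C = (V.card.choose K1 : ℝ) := ⟨_, rfl⟩
  have hCpos : 0 < C := by
    rw [hC]; exact_mod_cast Nat.choose_pos hKV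
  -- exchange of the sums
  have hswap : ∀ (q : Finset ℤ → Prop) [DecidablePred q],
      ∑ B ∈ V.powerset.filter q, ∑ T ∈ V.powersetCard K1, (if B ⊆ T then G T B else 0) =
        ∑ T ∈ V.powersetCard K1, ∑ B ∈ T.powerset.filter q, G T B := by
    intro q _
    rw [Finset.sum_comm]
    refine Finset.sum_congr rfl fun T hT => ?_
    rw [Finset.mem_powersetCard] at hT
    rw [← Finset.sum_filter]
    apply Finset.sum_congr _ fun _ _ => rfl
    ext B
    simp only [Finset.mem_filter, Finset.mem_powerset]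
    constructor
    · rintro ⟨⟨_, h2⟩, h3⟩
      exact ⟨h3, h2⟩
    · rintro ⟨h1, h2⟩
      exact ⟨⟨h1.trans hT.1, h2⟩, h1⟩
  refine ⟨fun B => (∑ T ∈ V.powersetCard K1, (if B ⊆ T then G T B else 0)) / C, ?_, ?_, ?_, ?_, ?_⟩
  · intro B
    apply div_nonneg _ hCpos.le
    apply Finset.sum_nonneg
    intro T hT
    split_ifs
    · exact hG0 T hT B
    · exact le_rfl
  · intro B hB
    have h1 : ∑ T ∈ V.powersetCard K1, (if B ⊆ T then G T B else 0) ≠ 0 := by
      intro h0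
      apply hB
      dsimp only
      rw [h0, zero_div]
    obtain ⟨T, hT, hT2⟩ := Finset.exists_ne_zero_of_sum_ne_zero h1
    by_cases h2 : B ⊆ T
    · rw [if_pos h2] at hT2
      exact hG1 T hT B hT2
    · rw [if_neg h2] at hT2
      exact absurd rfl hT2
  · rw [← Finset.sum_div, div_le_one hCpos]
    have h1 := hswap (fun _ => True)
    simp only [Finset.filter_true] at h1
    rw [h1]
    refine (Finset.sum_le_sum fun T hT => hG2 T hT).trans ?_
    rw [Finset.sum_const, Finset.card_powersetCard, nsmul_eq_mul, mul_one, hC]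
  · intro v hv
    rw [← Finset.sum_div, le_div_iff₀ hCpos, hswap (fun B => v ∈ B)]
    have h1 : ∑ T ∈ (V.powersetCard K1).filter (fun T => v ∈ T), (m : ℝ) / K1 ≤
        ∑ T ∈ V.powersetCard K1, ∑ B ∈ T.powerset.filter (fun B => v ∈ B), G T B := by
      refine (Finset.sum_le_sum fun T hT => ?_).trans
        (Finset.sum_le_sum_of_subset_of_nonneg (Finset.filter_subset _ _) fun T hT _ => ?_)
      · rw [Finset.mem_filter] at hT
        exact hG3 T hT.1 v hT.2
      · exact Finset.sum_nonneg fun B _ => hG0 T hT B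
    refine le_trans ?_ h1
    rw [Finset.sum_const, nsmul_eq_mul, card_mem_eq V v hv K1 hK1pos, ← hC]
    have hK1r : (0 : ℝ) < K1 := by exact_mod_cast hK1pos
    refine le_of_eq ?_
    field_simp
  · intro U hUV hUn
    rw [← Finset.sum_div, div_le_iff₀ hCpos, hswap (fun B => U ⊆ B)]
    have h1 : ∑ T ∈ V.powersetCard K1, ∑ B ∈ T.powerset.filter (fun B => U ⊆ B), G T B ≤
        ∑ T ∈ (V.powersetCard K1).filter (fun T => U ⊆ T), (250 * (U.card : ℝ) * m / K1) ^ U.card := by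
      rw [Finset.sum_filter]
      refine Finset.sum_le_sum fun T hT => ?_
      split_ifs with h2
      · exact hG4 T hT U h2 hUn
      · apply le_of_eq
        apply Finset.sum_eq_zero
        intro B hB
        exfalso
        rw [Finset.mem_filter, Finset.mem_powerset] at hB
        exact h2 (hB.2.trans hB.1)
    refine h1.trans ?_
    rw [Finset.sum_const, nsmul_eq_mul]
    have h2 := card_sup_le V U hUV K1 hKV
    rw [← hC] at h2
    have hK1r : (0 : ℝ) < K1 := by exact_mod_cast hK1pos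
    calc (((V.powersetCard K1).filter (fun T => U ⊆ T)).card : ℝ) * (250 * (U.card : ℝ) * m / K1) ^ U.card
        ≤ (((K1 : ℝ) / V.card) ^ U.card * C) * (250 * (U.card : ℝ) * m / K1) ^ U.card :=
          mul_le_mul_of_nonneg_right h2 (by positivity)
      _ = (((K1 : ℝ) / V.card) * (250 * (U.card : ℝ) * m / K1)) ^ U.card * C := by
          rw [mul_pow]; ring
      _ = _ := by
          congr 2
          field_simp

end Pool.Agent.H522
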