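import Mathlib
import Pool.Agent.H522.Master
import Pool.Agent.H522.Gen
import Pool.Agent.H522.Spread
import Pool.Agent.H522.Interp

/-! H522: spread measures for families of linear forms. -/

set_option autoImplicit false

open Finset Filter

namespace Pool.Agent.H522

open Pool.Agent.H95R2.BG.LF

variable {ι : Type} [DecidableEq ι]

/-- admissible families -/
def OkL (A B : ι → ℕ) (V : Finset ι) : Prop := (∀ i ∈ V, 0 < A i) ∧
  (∀ i ∈ V, ∀ j ∈ V, i ≠ j → A i * B j ≠ A j * B i) ∧
  ∀ p : ℕ, p.Prime → ∃ n : ℕ, ∀ i ∈ V, ¬ p ∣ A i * n + B i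

/-- families of forms which are often simultaneously prime -/
def OftenL (A B : ι → ℕ) (S : Finset ι) : Prop := ∀ ε : ℝ, 0 < ε → ∃ᶠ x : ℝ in atTop,
  x ^ (1 - ε) ≤ (Set.ncard {n : ℕ | (n : ℝ) ≤ x ∧ ∀ i ∈ S, (A i * n + B i).Prime} : ℝ)

omit [DecidableEq ι] in
theorem OftenL.mono {A B : ι → ℕ} {S S' : Finset ι} (h : S ⊆ S') (h' : OftenL A B S') : OftenL A B S := by
  intro ε hε
  refine (h' ε hε).mono fun x hx => hx.trans ?_
  have h2 : {n : ℕ | (n : ℝ) ≤ x ∧ ∀ i ∈ S, (A i * n + B i).Prime}.Finite := by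
    apply (Set.finite_Iic ⌊x⌋₊).subset
    intro n hn
    exact Nat.le_floor hn.1
  have h3 : {n : ℕ | (n : ℝ) ≤ x ∧ ∀ i ∈ S', (A i * n + B i).Prime} ⊆
      {n : ℕ | (n : ℝ) ≤ x ∧ ∀ i ∈ S, (A i * n + B i).Prime} :=
    fun n hn => ⟨hn.1, fun i hi => hn.2 i (h hi)⟩
  exact_mod_cast Set.ncard_le_ncard h3 h2

omit [DecidableEq ι] in
theorem OkL.mono {A B : ι → ℕ} {V W : Finset ι} (h : OkL A B V) (hW : W ⊆ V) : OkL A B W :=
  ⟨fun i hi => h.1 i (hW hi), fun i hi j hj => h.2.1 i (hW hi) j (hW hj), fun p hp => by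
    obtain ⟨n, hn⟩ := h.2.2 p hp
    exact ⟨n, fun i hi => hn i (hW hi)⟩⟩

/-- the measure for a family of bounded size -/
theorem spread0L (m : ℕ) (hm : 2 ≤ m) (A B : ι → ℕ) (T : Finset ι)
    (hT1 : 4 * (m : ℝ) + 29 / 50 ≤ Real.log T.card) (hT2 : Real.log T.card ≤ 5 * m) (hok : OkL A B T) :
    ∃ lam : Finset ι → ℝ, (∀ S, 0 ≤ lam S) ∧ (∀ S, lam S ≠ 0 → OftenL A B S) ∧
      ∑ S ∈ T.powerset, lam S ≤ 1 ∧
      (∀ v ∈ T, (m : ℝ) / T.card ≤ ∑ S ∈ T.powerset.filter (fun S => v ∈ S), lam S) ∧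
      ∀ U : Finset ι, U ⊆ T → U.Nonempty → ∑ S ∈ T.powerset.filter (fun S => U ⊆ S), lam S ≤
        (250 * U.card * m / T.card) ^ U.card := by
  classical
  have hm' : (2 : ℝ) ≤ m := by exact_mod_cast hm
  obtain ⟨K0, hT⟩ : ∃ K0, T.card = K0 + 1 := by
    refine ⟨T.card - 1, ?_⟩
    have : T.card ≠ 0 := by
      intro h0
      rw [h0] at hT1
      simp at hT1
      linarith
    omega
  have hTc : (T.card : ℝ) = (K0 : ℝ) + 1 := by rw [hT]; push_cast; ring
  -- the enumeration
  obtain ⟨f, hfinj, hmem, hsurj⟩ : ∃ f : Fin (K0 + 1) → ι, Function.Injective f ∧ (∀ i, f i ∈ T) ∧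
      ∀ t ∈ T, ∃ i, f i = t := by
    refine ⟨fun i => ((T.equivFinOfCardEq hT).symm i : ι), ?_, fun i => ((T.equivFinOfCardEq hT).symm i).2, ?_⟩
    · intro i j hij
      exact (T.equivFinOfCardEq hT).symm.injective (Subtype.ext hij)
    · intro t ht
      exact ⟨T.equivFinOfCardEq hT ⟨t, ht⟩, by simp⟩
  have hadmL : AdmissibleL (fun i => A (f i)) (fun i => B (f i)) := by
    refine ⟨fun i => hok.1 _ (hmem i), fun i j hij => hok.2.1 _ (hmem i) _ (hmem j) (fun h => hij (hfinj h)), ?_⟩
    intro p hp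
    obtain ⟨n, hn⟩ := hok.2.2 p hp
    exact ⟨n, fun i => hn _ (hmem i)⟩
  -- the constants of the bad sets
  have hbad : ∀ S : Finset ι, ∃ ε : ℝ, 0 < ε ∧ (¬ OftenL A B S →
      ∀ᶠ x : ℝ in atTop, ((Set.ncard {n : ℕ | (n : ℝ) ≤ x ∧ ∀ i ∈ S, (A i * n + B i).Prime} : ℝ)) <
        x ^ (1 - ε)) := by
    intro S
    by_cases h : OftenL A B S
    · exact ⟨1, one_pos, fun h' => absurd h h'⟩
    · unfold OftenL at h
      push Not at h
      obtain ⟨ε, hε, h2⟩ := h
      exact ⟨ε, hε, fun _ => h2⟩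
  choose ef he hf using hbad
  obtain ⟨B0, hB0, hmin⟩ := Finset.exists_min_image T.powerset ef ⟨∅, Finset.empty_mem_powerset _⟩
  rw [hTc] at hT1 hT2
  obtain ⟨θ, hθ, hmaster⟩ := master m K0 hm hT1 hT2 _ _ hadmL
  have hall : ∀ᶠ x : ℝ in atTop, ∀ S ∈ T.powerset, ¬ OftenL A B S →
      ((Set.ncard {n : ℕ | (n : ℝ) ≤ x ∧ ∀ i ∈ S, (A i * n + B i).Prime} : ℝ)) < x ^ (1 - ef S) := by
    rw [Filter.eventually_all_finset]
    intro S _
    by_cases h : OftenL A B S
    · exact Filter.Eventually.of_forall fun x h' => absurd h h'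
    · filter_upwards [hf S h] with x hx _ using hx
  have htend : Tendsto (fun X : ℝ => 3 * X) atTop atTop :=
    tendsto_id.const_mul_atTop (by positivity)
  obtain ⟨e, he'⟩ : ∃ e : ℝ, e = ef B0 / 2 := ⟨_, rfl⟩
  have he0 : 0 < e := by rw [he']; have := he B0; positivity
  obtain ⟨C, hC⟩ : ∃ C : ℝ, C = 2 ^ (K0 + 1) * (3 : ℝ) ^ (1 - 2 * e) := ⟨_, rfl⟩
  have hsmall : ∀ᶠ X : ℝ in atTop, C * X ^ (-e) ≤ θ * (m / ((K0 : ℝ) + 1)) := by
    have t1 : Tendsto (fun x : ℝ => C * x ^ (-e)) atTop (nhds 0) := by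
      simpa using (tendsto_rpow_neg_atTop he0).const_mul C
    have hp : 0 < θ * (m / ((K0 : ℝ) + 1)) := by positivity
    exact (t1.eventually (gt_mem_nhds hp)).mono fun x hx => hx.le
  obtain ⟨X, ⟨w, hw0, hw1, hwsum, hwi, hwU⟩, hX2, hX3, hX5⟩ := ((hmaster e he0).and
    ((htend.eventually hall).and (hsmall.and (eventually_ge_atTop (1 : ℝ))))).exists
  have hX0 : 0 < X := by linarith
  -- the pattern of `n`
  set Bn : ℕ → Finset ι := fun n => T.filter (fun i => (A i * n + B i).Prime) with hBn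
  have hBi : ∀ (n : ℕ) (i : Fin (K0 + 1)), f i ∈ Bn n ↔ (A (f i) * n + B (f i)).Prime := by
    intro n i
    rw [hBn]
    simp only [Finset.mem_filter]
    exact ⟨fun h => h.2, fun h => ⟨hmem i, h⟩⟩
  have hBT : ∀ n, Bn n ∈ T.powerset := fun n => Finset.mem_powerset.2 (Finset.filter_subset _ _)
  set I : Finset ℕ := Icc 1 ⌊3 * X⌋₊ with hI
  refine ⟨fun S => if OftenL A B S then ∑ n ∈ I.filter (fun n => Bn n = S), w n else 0, ?_, ?_, ?_, ?_, ?_⟩
  · intro S
    dsimp only
    split_ifs
    · exact Finset.sum_nonneg fun n _ => hw0 n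
    · exact le_rfl
  · intro S hS
    by_contra hcon
    apply hS
    dsimp only
    rw [if_neg hcon]
  · refine le_trans ?_ hwsum
    rw [← Finset.sum_fiberwise_of_maps_to (s := I) (t := T.powerset) (g := Bn) (fun n _ => hBT n)]
    refine Finset.sum_le_sum fun S _ => ?_
    split_ifs
    · exact le_rfl
    · exact Finset.sum_nonneg fun n _ => hw0 n
  · intro v hv
    obtain ⟨i, hi⟩ := hsurj v hv
    -- the contribution of the bad patterns
    have hnon : ∑ n ∈ I.filter (fun n => ¬ OftenL A B (Bn n)), w n ≤ θ * (m / ((K0 : ℝ) + 1)) := by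
      refine le_trans ?_ hX3
      have h1 : ∑ n ∈ I.filter (fun n => ¬ OftenL A B (Bn n)), w n =
          ∑ S ∈ T.powerset, ∑ n ∈ (I.filter (fun n => ¬ OftenL A B (Bn n))).filter (fun n => Bn n = S), w n :=
        (Finset.sum_fiberwise_of_maps_to (fun n _ => hBT n) _).symm
      rw [h1]
      have h2 : ∀ S ∈ T.powerset,
          ∑ n ∈ (I.filter (fun n => ¬ OftenL A B (Bn n))).filter (fun n => Bn n = S), w n ≤
          (3 : ℝ) ^ (1 - 2 * e) * X ^ (-e) := by
        intro S hS
        by_cases hiso : OftenL A B S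
        · have : (I.filter (fun n => ¬ OftenL A B (Bn n))).filter (fun n => Bn n = S) = ∅ := by
            apply Finset.filter_eq_empty_iff.2
            intro n hn hnB
            rw [Finset.mem_filter] at hn
            rw [hnB] at hn
            exact hn.2 hiso
          rw [this, Finset.sum_empty]
          positivity
        · have h3 : ((I.filter (fun n => ¬ OftenL A B (Bn n))).filter (fun n => Bn n = S)).card ≤
              (Set.ncard {n : ℕ | (n : ℝ) ≤ 3 * X ∧ ∀ i ∈ S, (A i * n + B i).Prime}) := by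
            rw [← Set.ncard_coe_finset]
            refine Set.ncard_le_ncard ?_ ?_
            · intro n hn
              rw [Finset.mem_coe, Finset.mem_filter, Finset.mem_filter, hI, Finset.mem_Icc] at hn
              obtain ⟨⟨⟨hn1, hn2⟩, -⟩, hnB⟩ := hn
              refine ⟨(Nat.le_floor_iff (by linarith)).1 hn2, fun i hi => ?_⟩
              rw [← hnB] at hi
              exact (Finset.mem_filter.1 hi).2
            · apply (Set.finite_Iic ⌊3 * X⌋₊).subset
              intro n hn
              exact Nat.le_floor hn.1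
          have h4 := hX2 S hS hiso
          have h5 : (((I.filter (fun n => ¬ OftenL A B (Bn n))).filter (fun n => Bn n = S)).card : ℝ) ≤
              (3 * X) ^ (1 - 2 * e) := by
            have h6 : (((I.filter (fun n => ¬ OftenL A B (Bn n))).filter (fun n => Bn n = S)).card : ℝ) ≤
                (Set.ncard {n : ℕ | (n : ℝ) ≤ 3 * X ∧ ∀ i ∈ S, (A i * n + B i).Prime} : ℝ) := by
              exact_mod_cast h3
            refine h6.trans (h4.le.trans ?_)
            apply Real.rpow_le_rpow_of_exponent_le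
            · linarith
            · have := hmin S hS
              rw [he']
              linarith
          calc ∑ n ∈ (I.filter (fun n => ¬ OftenL A B (Bn n))).filter (fun n => Bn n = S), w n
              ≤ ∑ n ∈ (I.filter (fun n => ¬ OftenL A B (Bn n))).filter (fun n => Bn n = S), X ^ (-(1 - e)) :=
                Finset.sum_le_sum fun n _ => hw1 n
            _ = (((I.filter (fun n => ¬ OftenL A B (Bn n))).filter (fun n => Bn n = S)).card : ℝ) *
                X ^ (-(1 - e)) := by rw [Finset.sum_const, nsmul_eq_mul]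
            _ ≤ (3 * X) ^ (1 - 2 * e) * X ^ (-(1 - e)) :=
                mul_le_mul_of_nonneg_right h5 (by positivity)
            _ = (3 : ℝ) ^ (1 - 2 * e) * X ^ (-e) := by
                rw [Real.mul_rpow (by positivity) hX0.le, mul_assoc, ← Real.rpow_add hX0]
                congr 2
                ring
      refine (Finset.sum_le_sum h2).trans ?_
      rw [Finset.sum_const, Finset.card_powerset, hT, nsmul_eq_mul, hC]
      push_cast
      rw [mul_assoc]
    have hmain := hwi i
    have h1 : ∑ n ∈ I.filter (fun n => (A (f i) * n + B (f i)).Prime), w n ≤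
        ∑ n ∈ I.filter (fun n => OftenL A B (Bn n) ∧ v ∈ Bn n), w n +
        ∑ n ∈ I.filter (fun n => ¬ OftenL A B (Bn n)), w n := by
      rw [Finset.sum_filter, Finset.sum_filter, Finset.sum_filter, ← Finset.sum_add_distrib]
      refine Finset.sum_le_sum fun n _ => ?_
      have h2 : (A (f i) * n + B (f i)).Prime ↔ v ∈ Bn n := by rw [← hBi n i, hi]
      have h3 := hw0 n
      by_cases h4 : v ∈ Bn n
      · rw [if_pos (h2.2 h4)]
        by_cases h5 : OftenL A B (Bn n)
        · rw [if_pos ⟨h5, h4⟩, if_neg (by push Not; exact h5)]; linarith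
        · rw [if_neg (fun h => h5 h.1), if_pos h5]; linarith
      · rw [if_neg (fun h => h4 (h2.1 h))]
        apply add_nonneg
        · split_ifs <;> first | exact h3 | exact le_rfl
        · split_ifs <;> first | exact h3 | exact le_rfl
    have h2 : ∑ n ∈ I.filter (fun n => OftenL A B (Bn n) ∧ v ∈ Bn n), w n =
        ∑ S ∈ T.powerset.filter (fun S => v ∈ S),
          (if OftenL A B S then ∑ n ∈ I.filter (fun n => Bn n = S), w n else 0) := by
      rw [← Finset.sum_fiberwise_of_maps_to (s := I.filter (fun n => OftenL A B (Bn n) ∧ v ∈ Bn n))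
        (t := T.powerset.filter (fun S => v ∈ S)) (g := Bn) (fun n hn =>
          Finset.mem_filter.2 ⟨hBT n, (Finset.mem_filter.1 hn).2.2⟩)]
      refine Finset.sum_congr rfl fun S hS => ?_
      rw [Finset.mem_filter] at hS
      by_cases h3 : OftenL A B S
      · rw [if_pos h3]
        apply Finset.sum_congr _ fun _ _ => rfl
        ext n
        simp only [Finset.mem_filter]
        constructor
        · rintro ⟨⟨h4, _⟩, h5⟩
          exact ⟨h4, h5⟩
        · rintro ⟨h4, h5⟩
          rw [h5]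
          exact ⟨⟨h4, h3, hS.2⟩, rfl⟩
      · rw [if_neg h3]
        apply Finset.sum_eq_zero
        intro n hn
        exfalso
        rw [Finset.mem_filter, Finset.mem_filter] at hn
        rw [hn.2] at hn
        exact h3 hn.1.2.1
    rw [← h2, hTc]
    have h3 : (1 + θ) * (m / ((K0 : ℝ) + 1)) = m / ((K0 : ℝ) + 1) + θ * (m / ((K0 : ℝ) + 1)) := by ring
    rw [h3] at hmain
    linarith
  · intro U hUT hUn
    obtain ⟨U', hU'⟩ : ∃ U' : Finset (Fin (K0 + 1)), U' = univ.filter (fun i => f i ∈ U) := ⟨_, rfl⟩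
    have hUimg : U'.image f = U := by
      ext x
      rw [Finset.mem_image]
      constructor
      · rintro ⟨i, hi, rfl⟩
        rw [hU', Finset.mem_filter] at hi
        exact hi.2
      · intro hx
        obtain ⟨i, hi⟩ := hsurj x (hUT hx)
        exact ⟨i, by rw [hU', Finset.mem_filter]; exact ⟨mem_univ _, by rw [hi]; exact hx⟩, hi⟩
    have hUcard : U'.card = U.card := by
      rw [← hUimg, Finset.card_image_of_injective _ hfinj]
    have hU'n : U'.Nonempty := by
      rw [← Finset.card_pos, hUcard]; exact hUn.card_pos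
    have h1 := hwU U' hU'n
    rw [hUcard] at h1
    rw [hTc]
    refine le_trans ?_ h1
    have h2 : I.filter (fun n => ∀ i ∈ U', (A (f i) * n + B (f i)).Prime) =
        I.filter (fun n => U ⊆ Bn n) := by
      apply Finset.filter_congr
      intro n _
      constructor
      · intro h x hx
        obtain ⟨i, hi⟩ := hsurj x (hUT hx)
        rw [← hi, hBi]
        apply h
        rw [hU', Finset.mem_filter, hi]
        exact ⟨mem_univ _, hx⟩
      · intro h i hi
        rw [← hBi]
        apply h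
        rw [hU', Finset.mem_filter] at hi
        exact hi.2
    rw [h2, ← Finset.sum_fiberwise_of_maps_to (s := I.filter (fun n => U ⊆ Bn n))
        (t := T.powerset.filter (fun S => U ⊆ S)) (g := Bn) (fun n hn =>
          Finset.mem_filter.2 ⟨hBT n, (Finset.mem_filter.1 hn).2⟩)]
    refine Finset.sum_le_sum fun S hS => ?_
    rw [Finset.mem_filter] at hS
    by_cases h3 : OftenL A B S
    · rw [if_pos h3]
      apply Finset.sum_le_sum_of_subset_of_nonneg
      · intro n hn
        rw [Finset.mem_filter] at hn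
        rw [Finset.mem_filter, Finset.mem_filter, hn.2]
        exact ⟨⟨hn.1, hS.2⟩, rfl⟩
      · intro n _ _; exact hw0 n
    · rw [if_neg h3]
      exact Finset.sum_nonneg fun n _ => hw0 n

/-- the measures for large families -/
theorem hasSM_L (A B : ι → ℕ) : HasSM (OkL A B) (OftenL A B) := by
  classical
  refine ⟨fun V W h hW => h.mono hW, ?_⟩
  intro m V hm hok hV
  have hm' : (2 : ℝ) ≤ m := by exact_mod_cast hm
  obtain ⟨hK1, hK2, hK3⟩ := K1_prop m hm
  obtain ⟨K1, hK1def⟩ : ∃ K1 : ℕ, K1 = ⌈Real.exp (4 * (m : ℝ) + 29 / 50)⌉₊ := ⟨_, rfl⟩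
  rw [← hK1def] at hK1 hK2 hK3
  have hVpos : (0 : ℝ) < V.card := by
    by_contra hcon
    have h0 : (V.card : ℝ) = 0 := le_antisymm (not_lt.1 hcon) (Nat.cast_nonneg _)
    rw [h0, Real.log_zero] at hV
    linarith
  have hKV : K1 ≤ V.card := by
    rw [hK1def, Nat.ceil_le, ← Real.le_log_iff_exp_le hVpos]
    exact hV
  have hK1pos : 1 ≤ K1 := by
    rw [hK1def, Nat.one_le_ceil_iff]; exact Real.exp_pos _
  obtain ⟨lam, h0, h1, h2, h3, h4⟩ := avg m K1 hK1pos V hKV (OftenL A B) (by
    intro T hT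
    rw [Finset.mem_powersetCard] at hT
    have h1 := spread0L m hm A B T (by rw [hT.2]; exact hK1) (by rw [hT.2]; exact hK2) (hok.mono hT.1)
    rw [hT.2] at h1
    exact h1)
  refine ⟨lam, ⟨hm, by exact_mod_cast hVpos, h0, h2, h3, ?_⟩, h1⟩
  intro U hU hUn
  convert h4 U hU hUn

end Pool.Agent.H522
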