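import Mathlib
import Pool.Agent.H522.Forms

/-! H522: spread measures on the exact patterns of families of linear forms. -/

set_option autoImplicit false

open Finset Filter

namespace Pool.Agent.H522

open Pool.Agent.H95R2.BG.LF

variable {ι : Type} [DecidableEq ι]

/-- admissible families in a system of pairwise non-proportional forms -/
def OkE (A B : ι → ℕ) (V : Finset ι) : Prop := (∀ i, 0 < A i) ∧
  (∀ i j, i ≠ j → A i * B j ≠ A j * B i) ∧
  ∀ p : ℕ, p.Prime → ∃ n : ℕ, ∀ i ∈ V, ¬ p ∣ A i * n + B i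

/-- `S` is the exact set of the indices of the forms with prime values, inside every finite set of forms, for
many `n` -/
def ExactL (A B : ι → ℕ) (S : Finset ι) : Prop := ∀ (F : Finset ι) (ε : ℝ), 0 < ε → ∃ᶠ x : ℝ in atTop,
  x ^ (1 - ε) ≤ (Set.ncard {n : ℕ | (n : ℝ) ≤ x ∧ ∀ i ∈ F, ((A i * n + B i).Prime ↔ i ∈ S)} : ℝ)

omit [DecidableEq ι] in
theorem OkE.mono {A B : ι → ℕ} {V W : Finset ι} (h : OkE A B V) (hW : W ⊆ V) : OkE A B W :=
  ⟨h.1, h.2.1, fun p hp => by
    obtain ⟨n, hn⟩ := h.2.2 p hp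
    exact ⟨n, fun i hi => hn i (hW hi)⟩⟩

/-- one more composite value -/
theorem compose_step (A B : ι → ℕ) (T : Finset ι) (hA : ∀ i, 0 < A i) (hd : ∀ i j, i ≠ j → A i * B j ≠ A j * B i)
    (Q c : ℕ) (hQ : 0 < Q) (hadm : ∀ p : ℕ, p.Prime → ∃ n : ℕ, ∀ i ∈ T, ¬ p ∣ A i * (Q * n + c) + B i)
    (t : ι) (ht : t ∉ T) : ∃ q j : ℕ, 0 < q ∧
      (∀ p : ℕ, p.Prime → ∃ n : ℕ, ∀ i ∈ T, ¬ p ∣ A i * (Q * (q * n + j) + c) + B i) ∧
      ∀ n : ℕ, 1 ≤ n → ¬ (A t * (Q * (q * n + j) + c) + B t).Prime := by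
  classical
  -- a large prime
  obtain ⟨M, hM⟩ : ∃ M : ℕ, A t * Q ≤ M ∧ ∀ i ∈ T, Q * (A i * B t) + Q * (A t * B i) ≤ M := by
    refine ⟨A t * Q + ∑ i ∈ T, (Q * (A i * B t) + Q * (A t * B i)), by omega, fun i hi => ?_⟩
    have := Finset.single_le_sum (f := fun i => Q * (A i * B t) + Q * (A t * B i)) (fun _ _ => Nat.zero_le _) hi
    omega
  obtain ⟨q, hqM, hq⟩ := Nat.exists_infinite_primes (M + 1)
  have hAQ : 0 < A t * Q := Nat.mul_pos (hA t) hQ
  have hcop : Nat.Coprime (A t * Q) q := by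
    rw [Nat.coprime_comm, hq.coprime_iff_not_dvd]
    intro h
    have := Nat.le_of_dvd hAQ h
    omega
  -- the class
  obtain ⟨j, hj⟩ : ∃ j : ℕ, q ∣ A t * (Q * j + c) + B t := by
    have h1 : IsCoprime ((A t * Q : ℕ) : ℤ) (q : ℤ) := Nat.isCoprime_iff_coprime.2 hcop
    obtain ⟨u, v, huv⟩ := h1
    have hq0 : (q : ℤ) ≠ 0 := by exact_mod_cast hq.ne_zero
    refine ⟨((u * (-((A t * c + B t : ℕ) : ℤ))) % q).toNat, ?_⟩
    have h2 : ((((u * (-((A t * c + B t : ℕ) : ℤ))) % q).toNat : ℕ) : ℤ) = (u * (-((A t * c + B t : ℕ) : ℤ))) % q :=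
      Int.toNat_of_nonneg (Int.emod_nonneg _ hq0)
    have h3 : ((q : ℕ) : ℤ) ∣ ((A t * (Q * ((u * (-((A t * c + B t : ℕ) : ℤ))) % q).toNat + c) + B t : ℕ) : ℤ) := by
      push_cast at h2 ⊢
      rw [h2, Int.emod_def]
      push_cast at huv
      obtain ⟨w, hw⟩ : ∃ w : ℤ, w = (u * (-((A t : ℤ) * c + B t))) / q := ⟨_, rfl⟩
      rw [← hw]
      refine ⟨v * ((A t : ℤ) * c + B t) - A t * Q * w, ?_⟩
      linear_combination ((A t : ℤ) * c + B t) * (-huv)
    exact_mod_cast h3
  refine ⟨q * q, j, Nat.mul_pos hq.pos hq.pos, ?_, ?_⟩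
  · intro p hp
    by_cases hpq : p = q
    · subst hpq
      refine ⟨0, fun i hi h => ?_⟩
      have hit : i ≠ t := fun h => ht (h ▸ hi)
      rw [Nat.mul_zero, Nat.zero_add] at h
      -- the determinant
      have h1 : (p : ℤ) ∣ (Q : ℤ) * (A i * B t) - Q * (A t * B i) := by
        have e1 : (p : ℤ) ∣ ((A i * (Q * j + c) + B i : ℕ) : ℤ) := by exact_mod_cast h
        have e2 : (p : ℤ) ∣ ((A t * (Q * j + c) + B t : ℕ) : ℤ) := by exact_mod_cast hj
        push_cast at e1 e2
        have e3 : (Q : ℤ) * (A i * B t) - Q * (A t * B i) =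
            (A i * Q) * ((A t : ℤ) * (Q * j + c) + B t) - (A t * Q) * ((A i : ℤ) * (Q * j + c) + B i) := by ring
        rw [e3]
        exact dvd_sub (Dvd.dvd.mul_left e2 _) (Dvd.dvd.mul_left e1 _)
      have h2 : (Q : ℤ) * (A i * B t) - Q * (A t * B i) ≠ 0 := by
        have := hd i t hit
        intro h0
        have h3 : (Q : ℤ) * ((A i * B t : ℕ) - (A t * B i : ℕ) : ℤ) = 0 := by push_cast; linarith
        rcases mul_eq_zero.1 h3 with h4 | h4
        · have : Q = 0 := by exact_mod_cast h4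
          omega
        · apply this
          have h5 : ((A i * B t : ℕ) : ℤ) = ((A t * B i : ℕ) : ℤ) := by linarith
          exact_mod_cast h5
      have h3 := Int.le_of_dvd (abs_pos.2 h2) ((dvd_abs _ _).2 h1)
      have h4 : |(Q : ℤ) * (A i * B t) - Q * (A t * B i)| ≤ (M : ℤ) := by
        have h5 := hM.2 i hi
        have h6 : ((Q * (A i * B t) + Q * (A t * B i) : ℕ) : ℤ) ≤ (M : ℤ) := by exact_mod_cast h5
        push_cast at h6
        have h7 : (0 : ℤ) ≤ (Q : ℤ) * (A i * B t) := by positivity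
        have h8 : (0 : ℤ) ≤ (Q : ℤ) * (A t * B i) := by positivity
        rw [abs_le]
        constructor <;> linarith
      have h5 : ((M + 1 : ℕ) : ℤ) ≤ (p : ℤ) := by exact_mod_cast hqM
      push_cast at h5
      linarith
    · obtain ⟨n0, hn0⟩ := hadm p hp
      have hcop2 : IsCoprime ((q * q : ℕ) : ℤ) (p : ℤ) := by
        rw [Nat.isCoprime_iff_coprime]
        have : Nat.Coprime q p := (Nat.coprime_primes hq hp).2 (Ne.symm hpq)
        exact Nat.Coprime.mul_left this this
      obtain ⟨u, v, huv⟩ := hcop2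
      have hp0 : (p : ℤ) ≠ 0 := by exact_mod_cast hp.ne_zero
      refine ⟨((u * ((n0 : ℤ) - j)) % p).toNat, fun i hi h => hn0 i hi ?_⟩
      have h2 : (((u * ((n0 : ℤ) - j)) % p).toNat : ℤ) = (u * ((n0 : ℤ) - j)) % p :=
        Int.toNat_of_nonneg (Int.emod_nonneg _ hp0)
      have h3 : (p : ℤ) ∣ ((A i * (Q * (q * q * ((u * ((n0 : ℤ) - j)) % p).toNat + j) + c) + B i : ℕ) : ℤ) := by
        exact_mod_cast h
      have h4 : (p : ℤ) ∣ ((A i * (Q * n0 + c) + B i : ℕ) : ℤ) := by
        push_cast at h3 ⊢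
        rw [h2, Int.emod_def] at h3
        push_cast at huv
        obtain ⟨w, hw⟩ : ∃ w : ℤ, w = (u * ((n0 : ℤ) - j)) / p := ⟨_, rfl⟩
        rw [← hw] at h3
        have h5 : (A i : ℤ) * (Q * n0 + c) + B i =
            ((A i : ℤ) * (Q * ((q : ℤ) * q * (u * ((n0 : ℤ) - j) - p * w) + j) + c) + B i) +
            p * (A i * Q * (v * ((n0 : ℤ) - j) + q * q * w)) := by
          linear_combination (-(A i : ℤ) * Q * ((n0 : ℤ) - j)) * huv
        rw [h5]
        exact dvd_add h3 (dvd_mul_right _ _)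
      exact_mod_cast h4
  · intro n hn hprime
    have h1 : q ∣ A t * (Q * (q * q * n + j) + c) + B t := by
      have : A t * (Q * (q * q * n + j) + c) + B t = (A t * (Q * j + c) + B t) + q * (A t * Q * q * n) := by ring
      rw [this]
      exact dvd_add hj (dvd_mul_right _ _)
    have h2 := (Nat.prime_dvd_prime_iff_eq hq hprime).1 h1
    have h3 : q * q ≤ A t * (Q * (q * q * n + j) + c) + B t := by
      have h4 : 1 * (q * q * 1) ≤ (A t * Q) * (q * q * n) :=
        Nat.mul_le_mul hAQ (Nat.mul_le_mul_left _ hn)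
      have h5 : A t * (Q * (q * q * n + j) + c) + B t = (A t * Q) * (q * q * n) + (A t * (Q * j + c) + B t) := by
        ring
      omega
    have h4 := hq.two_le
    have h5 : q * 2 ≤ q * q := Nat.mul_le_mul_left _ h4
    omega

/-- the values at all other forms are composite along a progression -/
theorem compose_all (A B : ι → ℕ) (T : Finset ι) (hok : OkE A B T) (G : Finset ι) (hG : Disjoint G T) :
    ∃ Q c : ℕ, 0 < Q ∧ (∀ p : ℕ, p.Prime → ∃ n : ℕ, ∀ i ∈ T, ¬ p ∣ A i * (Q * n + c) + B i) ∧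
      ∀ t ∈ G, ∀ n : ℕ, 1 ≤ n → ¬ (A t * (Q * n + c) + B t).Prime := by
  classical
  induction G using Finset.induction_on with
  | empty => exact ⟨1, 0, one_pos, fun p hp => by simpa using hok.2.2 p hp, by simp⟩
  | insert t G htG ih =>
    rw [Finset.disjoint_insert_left] at hG
    obtain ⟨Q, c, hQ, h1, h2⟩ := ih hG.2
    obtain ⟨q, j, hq, h3, h4⟩ := compose_step A B T hok.1 hok.2.1 Q c hQ h1 t hG.1
    refine ⟨Q * q, Q * j + c, Nat.mul_pos hQ hq, fun p hp => ?_, fun s hs n hn => ?_⟩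
    · obtain ⟨n, hn⟩ := h3 p hp
      refine ⟨n, fun i hi => ?_⟩
      have : A i * (Q * q * n + (Q * j + c)) + B i = A i * (Q * (q * n + j) + c) + B i := by ring
      rw [this]
      exact hn i hi
    · have e : A s * (Q * q * n + (Q * j + c)) + B s = A s * (Q * (q * n + j) + c) + B s := by ring
      rw [e]
      rcases Finset.mem_insert.1 hs with rfl | hs
      · exact h4 n hn
      · refine h2 s hs (q * n + j) ?_
        have : 1 * 1 ≤ q * n := Nat.mul_le_mul hq hn
        omega

theorem exactSet_finite (A B : ι → ℕ) (S F : Finset ι) (x : ℝ) :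
    {n : ℕ | (n : ℝ) ≤ x ∧ ∀ i ∈ F, ((A i * n + B i).Prime ↔ i ∈ S)}.Finite := by
  apply (Set.finite_Iic ⌊x⌋₊).subset
  intro n hn
  exact Nat.le_floor hn.1

/-- the measure for a family of bounded size -/
theorem spread0E (m : ℕ) (hm : 2 ≤ m) (A B : ι → ℕ) (T : Finset ι)
    (hT1 : 4 * (m : ℝ) + 29 / 50 ≤ Real.log T.card) (hT2 : Real.log T.card ≤ 5 * m) (hok : OkE A B T) :
    ∃ lam : Finset ι → ℝ, (∀ S, 0 ≤ lam S) ∧ (∀ S, lam S ≠ 0 → ExactL A B S) ∧
      ∑ S ∈ T.powerset, lam S ≤ 1 ∧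
      (∀ v ∈ T, (m : ℝ) / T.card ≤ ∑ S ∈ T.powerset.filter (fun S => v ∈ S), lam S) ∧
      ∀ U : Finset ι, U ⊆ T → U.Nonempty → ∑ S ∈ T.powerset.filter (fun S => U ⊆ S), lam S ≤
        (250 * U.card * m / T.card) ^ U.card := by
  classical
  have hm' : (2 : ℝ) ≤ m := by exact_mod_cast hm
  obtain ⟨K0, hT⟩ : ∃ K0, T.card = K0 + 1 := by
    refine ⟨T.card - 1, ?_⟩
    have : T.card ≠ 0 := by
      intro h0
      rw [h0] at hT1
      simp at hT1
      linarith
    omega
  have hTc : (T.card : ℝ) = (K0 : ℝ) + 1 := by rw [hT]; push_cast; ring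
  -- the constants of the bad sets
  have hbad : ∀ S : Finset ι, ∃ (F : Finset ι) (ε : ℝ), 0 < ε ∧ (¬ ExactL A B S →
      ∀ᶠ x : ℝ in atTop, ((Set.ncard {n : ℕ | (n : ℝ) ≤ x ∧ ∀ i ∈ F, ((A i * n + B i).Prime ↔ i ∈ S)} : ℝ)) <
        x ^ (1 - ε)) := by
    intro S
    by_cases h : ExactL A B S
    · exact ⟨∅, 1, one_pos, fun h' => absurd h h'⟩
    · unfold ExactL at h
      push Not at h
      obtain ⟨F, ε, hε, h2⟩ := h
      exact ⟨F, ε, hε, fun _ => h2⟩
  choose Ff ef he hf using hbad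
  obtain ⟨B0, hB0, hmin⟩ := Finset.exists_min_image T.powerset ef ⟨∅, Finset.empty_mem_powerset _⟩
  -- the progression
  obtain ⟨Q, c, hQ0, hadmQ, hcomp⟩ := compose_all A B T hok ((T.powerset.biUnion Ff) \ T)
    (Finset.sdiff_disjoint)
  -- the enumeration
  obtain ⟨f, hfinj, hmem, hsurj⟩ : ∃ f : Fin (K0 + 1) → ι, Function.Injective f ∧ (∀ i, f i ∈ T) ∧
      ∀ t ∈ T, ∃ i, f i = t := by
    refine ⟨fun i => ((T.equivFinOfCardEq hT).symm i : ι), ?_, fun i => ((T.equivFinOfCardEq hT).symm i).2, ?_⟩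
    · intro i j hij
      exact (T.equivFinOfCardEq hT).symm.injective (Subtype.ext hij)
    · intro t ht
      exact ⟨T.equivFinOfCardEq hT ⟨t, ht⟩, by simp⟩
  have hform : ∀ (i : ι) (n : ℕ), A i * (Q * n + c) + B i = A i * Q * n + (A i * c + B i) := by
    intro i n; ring
  have hadmL : AdmissibleL (fun i => A (f i) * Q) (fun i => A (f i) * c + B (f i)) := by
    refine ⟨fun i => Nat.mul_pos (hok.1 _) hQ0, fun i j hij => ?_, ?_⟩
    · intro h
      apply hok.2.1 _ _ (fun h => hij (hfinj h) : f i ≠ f j)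
      have h2 : A (f i) * Q * (A (f j) * c + B (f j)) = A (f j) * Q * (A (f i) * c + B (f i)) := h
      have h3 : Q * (A (f i) * B (f j)) = Q * (A (f j) * B (f i)) := by nlinarith
      exact Nat.eq_of_mul_eq_mul_left hQ0 h3
    · intro p hp
      obtain ⟨n, hn⟩ := hadmQ p hp
      refine ⟨n, fun i => ?_⟩
      have := hn _ (hmem i)
      rwa [hform] at this
  rw [hTc] at hT1 hT2
  obtain ⟨θ, hθ, hmaster⟩ := master m K0 hm hT1 hT2 _ _ hadmL
  have hQr : (0 : ℝ) < Q := by exact_mod_cast hQ0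
  have hQ1 : (1 : ℝ) ≤ Q := by exact_mod_cast hQ0
  have hall : ∀ᶠ x : ℝ in atTop, ∀ S ∈ T.powerset, ¬ ExactL A B S →
      ((Set.ncard {n : ℕ | (n : ℝ) ≤ x ∧ ∀ i ∈ Ff S, ((A i * n + B i).Prime ↔ i ∈ S)} : ℝ)) < x ^ (1 - ef S) := by
    rw [Filter.eventually_all_finset]
    intro S _
    by_cases h : ExactL A B S
    · exact Filter.Eventually.of_forall fun x h' => absurd h h'
    · filter_upwards [hf S h] with x hx _ using hx
  have htend : Tendsto (fun X : ℝ => 4 * Q * X) atTop atTop :=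
    tendsto_id.const_mul_atTop (by positivity)
  obtain ⟨e, he'⟩ : ∃ e : ℝ, e = ef B0 / 2 := ⟨_, rfl⟩
  have he0 : 0 < e := by rw [he']; have := he B0; positivity
  obtain ⟨C, hC⟩ : ∃ C : ℝ, C = 2 ^ (K0 + 1) * (4 * (Q : ℝ)) ^ (1 - 2 * e) := ⟨_, rfl⟩
  have hsmall : ∀ᶠ X : ℝ in atTop, C * X ^ (-e) ≤ θ * (m / ((K0 : ℝ) + 1)) := by
    have t1 : Tendsto (fun x : ℝ => C * x ^ (-e)) atTop (nhds 0) := by
      simpa using (tendsto_rpow_neg_atTop he0).const_mul C
    have hp : 0 < θ * (m / ((K0 : ℝ) + 1)) := by positivity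
    exact (t1.eventually (gt_mem_nhds hp)).mono fun x hx => hx.le
  obtain ⟨X, ⟨w, hw0, hw1, hwsum, hwi, hwU⟩, hX2, hX3, hX4, hX5⟩ := ((hmaster e he0).and
    ((htend.eventually hall).and (hsmall.and ((eventually_ge_atTop (c : ℝ)).and
      (eventually_ge_atTop (1 : ℝ)))))).exists
  have hX0 : 0 < X := by linarith
  -- the pattern of `n`
  set Bn : ℕ → Finset ι := fun n => T.filter (fun i => (A i * Q * n + (A i * c + B i)).Prime) with hBn
  have hBi : ∀ (n : ℕ) (i : Fin (K0 + 1)), f i ∈ Bn n ↔ (A (f i) * Q * n + (A (f i) * c + B (f i))).Prime := by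
    intro n i
    rw [hBn]
    simp only [Finset.mem_filter]
    exact ⟨fun h => h.2, fun h => ⟨hmem i, h⟩⟩
  have hBT : ∀ n, Bn n ∈ T.powerset := fun n => Finset.mem_powerset.2 (Finset.filter_subset _ _)
  set I : Finset ℕ := Icc 1 ⌊3 * X⌋₊ with hI
  refine ⟨fun S => if ExactL A B S then ∑ n ∈ I.filter (fun n => Bn n = S), w n else 0, ?_, ?_, ?_, ?_, ?_⟩
  · intro S
    dsimp only
    split_ifs
    · exact Finset.sum_nonneg fun n _ => hw0 n
    · exact le_rfl
  · intro S hS
    by_contra hcon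
    apply hS
    dsimp only
    rw [if_neg hcon]
  · refine le_trans ?_ hwsum
    rw [← Finset.sum_fiberwise_of_maps_to (s := I) (t := T.powerset) (g := Bn) (fun n _ => hBT n)]
    refine Finset.sum_le_sum fun S _ => ?_
    split_ifs
    · exact le_rfl
    · exact Finset.sum_nonneg fun n _ => hw0 n
  · intro v hv
    obtain ⟨i, hi⟩ := hsurj v hv
    -- the contribution of the bad patterns
    have hnon : ∑ n ∈ I.filter (fun n => ¬ ExactL A B (Bn n)), w n ≤ θ * (m / ((K0 : ℝ) + 1)) := by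
      refine le_trans ?_ hX3
      have h1 : ∑ n ∈ I.filter (fun n => ¬ ExactL A B (Bn n)), w n =
          ∑ S ∈ T.powerset, ∑ n ∈ (I.filter (fun n => ¬ ExactL A B (Bn n))).filter (fun n => Bn n = S), w n :=
        (Finset.sum_fiberwise_of_maps_to (fun n _ => hBT n) _).symm
      rw [h1]
      have h2 : ∀ S ∈ T.powerset,
          ∑ n ∈ (I.filter (fun n => ¬ ExactL A B (Bn n))).filter (fun n => Bn n = S), w n ≤
          (4 * (Q : ℝ)) ^ (1 - 2 * e) * X ^ (-e) := by
        intro S hS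
        by_cases hiso : ExactL A B S
        · have : (I.filter (fun n => ¬ ExactL A B (Bn n))).filter (fun n => Bn n = S) = ∅ := by
            apply Finset.filter_eq_empty_iff.2
            intro n hn hnB
            rw [Finset.mem_filter] at hn
            rw [hnB] at hn
            exact hn.2 hiso
          rw [this, Finset.sum_empty]
          positivity
        · have h3 : ((I.filter (fun n => ¬ ExactL A B (Bn n))).filter (fun n => Bn n = S)).card ≤
              (Set.ncard {n : ℕ | (n : ℝ) ≤ 4 * Q * X ∧ ∀ i ∈ Ff S, ((A i * n + B i).Prime ↔ i ∈ S)}) := by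
            rw [← Set.ncard_coe_finset]
            refine Set.ncard_le_ncard_of_injOn (fun n => Q * n + c) ?_ ?_ (exactSet_finite A B S (Ff S) _)
            · intro n hn
              rw [Finset.mem_coe, Finset.mem_filter, Finset.mem_filter, hI, Finset.mem_Icc] at hn
              obtain ⟨⟨⟨hn1, hn2⟩, -⟩, hnB⟩ := hn
              refine ⟨?_, fun i hi => ?_⟩
              · have h4 : (n : ℝ) ≤ 3 * X := (Nat.le_floor_iff (by linarith)).1 hn2
                push_cast
                have h5 : (Q : ℝ) * n ≤ Q * (3 * X) := mul_le_mul_of_nonneg_left h4 hQr.le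
                have h6 : 1 * X ≤ (Q : ℝ) * X := mul_le_mul_of_nonneg_right hQ1 hX0.le
                linarith
              · by_cases hiT : i ∈ T
                · rw [← hnB, hBn]
                  simp only [Finset.mem_filter]
                  rw [hform]
                  exact ⟨fun h => ⟨hiT, h⟩, fun h => h.2⟩
                · have h7 : i ∉ S := fun h => hiT (Finset.mem_powerset.1 hS h)
                  have h8 : ¬ (A i * (Q * n + c) + B i).Prime :=
                    hcomp i (Finset.mem_sdiff.2 ⟨Finset.mem_biUnion.2 ⟨S, hS, hi⟩, hiT⟩) n hn1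
                  exact ⟨fun h => absurd h h8, fun h => absurd h h7⟩
            · intro n _ n' _ h
              have h4 : Q * n + c = Q * n' + c := h
              exact Nat.eq_of_mul_eq_mul_left hQ0 (by omega)
          have h4 := hX2 S hS hiso
          have h5 : (((I.filter (fun n => ¬ ExactL A B (Bn n))).filter (fun n => Bn n = S)).card : ℝ) ≤
              (4 * Q * X) ^ (1 - 2 * e) := by
            have h6 : (((I.filter (fun n => ¬ ExactL A B (Bn n))).filter (fun n => Bn n = S)).card : ℝ) ≤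
                (Set.ncard {n : ℕ | (n : ℝ) ≤ 4 * Q * X ∧ ∀ i ∈ Ff S, ((A i * n + B i).Prime ↔ i ∈ S)} : ℝ) := by
              exact_mod_cast h3
            refine h6.trans (h4.le.trans ?_)
            apply Real.rpow_le_rpow_of_exponent_le
            · have := mul_le_mul hQ1 hX5 (by norm_num) hQr.le
              linarith
            · have := hmin S hS
              rw [he']
              linarith
          calc ∑ n ∈ (I.filter (fun n => ¬ ExactL A B (Bn n))).filter (fun n => Bn n = S), w n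
              ≤ ∑ n ∈ (I.filter (fun n => ¬ ExactL A B (Bn n))).filter (fun n => Bn n = S), X ^ (-(1 - e)) :=
                Finset.sum_le_sum fun n _ => hw1 n
            _ = (((I.filter (fun n => ¬ ExactL A B (Bn n))).filter (fun n => Bn n = S)).card : ℝ) *
                X ^ (-(1 - e)) := by rw [Finset.sum_const, nsmul_eq_mul]
            _ ≤ (4 * Q * X) ^ (1 - 2 * e) * X ^ (-(1 - e)) :=
                mul_le_mul_of_nonneg_right h5 (by positivity)
            _ = (4 * (Q : ℝ)) ^ (1 - 2 * e) * X ^ (-e) := by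
                rw [Real.mul_rpow (by positivity) hX0.le, mul_assoc, ← Real.rpow_add hX0]
                congr 2
                ring
      refine (Finset.sum_le_sum h2).trans ?_
      rw [Finset.sum_const, Finset.card_powerset, hT, nsmul_eq_mul, hC]
      push_cast
      rw [mul_assoc]
    have hmain := hwi i
    have h1 : ∑ n ∈ I.filter (fun n => (A (f i) * Q * n + (A (f i) * c + B (f i))).Prime), w n ≤
        ∑ n ∈ I.filter (fun n => ExactL A B (Bn n) ∧ v ∈ Bn n), w n +
        ∑ n ∈ I.filter (fun n => ¬ ExactL A B (Bn n)), w n := by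
      rw [Finset.sum_filter, Finset.sum_filter, Finset.sum_filter, ← Finset.sum_add_distrib]
      refine Finset.sum_le_sum fun n _ => ?_
      have h2 : (A (f i) * Q * n + (A (f i) * c + B (f i))).Prime ↔ v ∈ Bn n := by rw [← hBi n i, hi]
      have h3 := hw0 n
      by_cases h4 : v ∈ Bn n
      · rw [if_pos (h2.2 h4)]
        by_cases h5 : ExactL A B (Bn n)
        · rw [if_pos ⟨h5, h4⟩, if_neg (by push Not; exact h5)]; linarith
        · rw [if_neg (fun h => h5 h.1), if_pos h5]; linarith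
      · rw [if_neg (fun h => h4 (h2.1 h))]
        apply add_nonneg
        · split_ifs <;> first | exact h3 | exact le_rfl
        · split_ifs <;> first | exact h3 | exact le_rfl
    have h2 : ∑ n ∈ I.filter (fun n => ExactL A B (Bn n) ∧ v ∈ Bn n), w n =
        ∑ S ∈ T.powerset.filter (fun S => v ∈ S),
          (if ExactL A B S then ∑ n ∈ I.filter (fun n => Bn n = S), w n else 0) := by
      rw [← Finset.sum_fiberwise_of_maps_to (s := I.filter (fun n => ExactL A B (Bn n) ∧ v ∈ Bn n))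
        (t := T.powerset.filter (fun S => v ∈ S)) (g := Bn) (fun n hn =>
          Finset.mem_filter.2 ⟨hBT n, (Finset.mem_filter.1 hn).2.2⟩)]
      refine Finset.sum_congr rfl fun S hS => ?_
      rw [Finset.mem_filter] at hS
      by_cases h3 : ExactL A B S
      · rw [if_pos h3]
        apply Finset.sum_congr _ fun _ _ => rfl
        ext n
        simp only [Finset.mem_filter]
        constructor
        · rintro ⟨⟨h4, _⟩, h5⟩
          exact ⟨h4, h5⟩
        · rintro ⟨h4, h5⟩
          rw [h5]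
          exact ⟨⟨h4, h3, hS.2⟩, rfl⟩
      · rw [if_neg h3]
        apply Finset.sum_eq_zero
        intro n hn
        exfalso
        rw [Finset.mem_filter, Finset.mem_filter] at hn
        rw [hn.2] at hn
        exact h3 hn.1.2.1
    rw [← h2, hTc]
    have h3 : (1 + θ) * (m / ((K0 : ℝ) + 1)) = m / ((K0 : ℝ) + 1) + θ * (m / ((K0 : ℝ) + 1)) := by ring
    rw [h3] at hmain
    linarith
  · intro U hUT hUn
    obtain ⟨U', hU'⟩ : ∃ U' : Finset (Fin (K0 + 1)), U' = univ.filter (fun i => f i ∈ U) := ⟨_, rfl⟩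
    have hUimg : U'.image f = U := by
      ext x
      rw [Finset.mem_image]
      constructor
      · rintro ⟨i, hi, rfl⟩
        rw [hU', Finset.mem_filter] at hi
        exact hi.2
      · intro hx
        obtain ⟨i, hi⟩ := hsurj x (hUT hx)
        exact ⟨i, by rw [hU', Finset.mem_filter]; exact ⟨mem_univ _, by rw [hi]; exact hx⟩, hi⟩
    have hUcard : U'.card = U.card := by
      rw [← hUimg, Finset.card_image_of_injective _ hfinj]
    have hU'n : U'.Nonempty := by
      rw [← Finset.card_pos, hUcard]; exact hUn.card_pos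
    have h1 := hwU U' hU'n
    rw [hUcard] at h1
    rw [hTc]
    refine le_trans ?_ h1
    have h2 : I.filter (fun n => ∀ i ∈ U', (A (f i) * Q * n + (A (f i) * c + B (f i))).Prime) =
        I.filter (fun n => U ⊆ Bn n) := by
      apply Finset.filter_congr
      intro n _
      constructor
      · intro h x hx
        obtain ⟨i, hi⟩ := hsurj x (hUT hx)
        rw [← hi, hBi]
        apply h
        rw [hU', Finset.mem_filter, hi]
        exact ⟨mem_univ _, hx⟩
      · intro h i hi
        rw [← hBi]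
        apply h
        rw [hU', Finset.mem_filter] at hi
        exact hi.2
    rw [h2, ← Finset.sum_fiberwise_of_maps_to (s := I.filter (fun n => U ⊆ Bn n))
        (t := T.powerset.filter (fun S => U ⊆ S)) (g := Bn) (fun n hn =>
          Finset.mem_filter.2 ⟨hBT n, (Finset.mem_filter.1 hn).2⟩)]
    refine Finset.sum_le_sum fun S hS => ?_
    rw [Finset.mem_filter] at hS
    by_cases h3 : ExactL A B S
    · rw [if_pos h3]
      apply Finset.sum_le_sum_of_subset_of_nonneg
      · intro n hn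
        rw [Finset.mem_filter] at hn
        rw [Finset.mem_filter, Finset.mem_filter, hn.2]
        exact ⟨⟨hn.1, hS.2⟩, rfl⟩
      · intro n _ _; exact hw0 n
    · rw [if_neg h3]
      exact Finset.sum_nonneg fun n _ => hw0 n

/-- the measures for large families -/
theorem hasSM_E (A B : ι → ℕ) : HasSM (OkE A B) (ExactL A B) := by
  classical
  refine ⟨fun V W h hW => h.mono hW, ?_⟩
  intro m V hm hok hV
  have hm' : (2 : ℝ) ≤ m := by exact_mod_cast hm
  obtain ⟨hK1, hK2, hK3⟩ := K1_prop m hm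
  obtain ⟨K1, hK1def⟩ : ∃ K1 : ℕ, K1 = ⌈Real.exp (4 * (m : ℝ) + 29 / 50)⌉₊ := ⟨_, rfl⟩
  rw [← hK1def] at hK1 hK2 hK3
  have hVpos : (0 : ℝ) < V.card := by
    by_contra hcon
    have h0 : (V.card : ℝ) = 0 := le_antisymm (not_lt.1 hcon) (Nat.cast_nonneg _)
    rw [h0, Real.log_zero] at hV
    linarith
  have hKV : K1 ≤ V.card := by
    rw [hK1def, Nat.ceil_le, ← Real.le_log_iff_exp_le hVpos]
    exact hV
  have hK1pos : 1 ≤ K1 := by
    rw [hK1def, Nat.one_le_ceil_iff]; exact Real.exp_pos _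
  obtain ⟨lam, h0, h1, h2, h3, h4⟩ := avg m K1 hK1pos V hKV (ExactL A B) (by
    intro T hT
    rw [Finset.mem_powersetCard] at hT
    have h1 := spread0E m hm A B T (by rw [hT.2]; exact hK1) (by rw [hT.2]; exact hK2) (hok.mono hT.1)
    rw [hT.2] at h1
    exact h1)
  refine ⟨lam, ⟨hm, by exact_mod_cast hVpos, h0, h2, h3, ?_⟩, h1⟩
  intro U hU hUn
  convert h4 U hU hUn

end Pool.Agent.H522
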