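import Mathlib
import Pool.Agent.H522.Moments

/-! H522: sets of the support of a spread measure which contain no member of a family. -/

set_option autoImplicit false

open Finset Filter

namespace Pool.Agent.H522

variable {α : Type} [DecidableEq α]

/-- the alteration -/
theorem alter (B : Finset α) (𝓔 : Finset (Finset α)) (hne : ∀ E ∈ 𝓔, E.Nonempty) :
    ∃ B' ⊆ B, B.card ≤ B'.card + (𝓔.filter (fun E => E ⊆ B)).card ∧ ∀ E ∈ 𝓔, ¬ E ⊆ B' := by
  classical
  have hpick : ∀ E : Finset α, ∃ x : Option α, E.Nonempty → ∃ y, x = some y ∧ y ∈ E := by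
    intro E
    by_cases h : E.Nonempty
    · obtain ⟨y, hy⟩ := h
      exact ⟨some y, fun _ => ⟨y, rfl, hy⟩⟩
    · exact ⟨none, fun h' => absurd h' h⟩
  choose f hf using hpick
  set Q : Finset (Option α) := (𝓔.filter (fun E => E ⊆ B)).image f with hQ
  refine ⟨B.filter (fun b => some b ∉ Q), Finset.filter_subset _ _, ?_, ?_⟩
  · have h1 : (B.filter (fun b => some b ∈ Q)).card ≤ Q.card := by
      refine Finset.card_le_card_of_injOn (fun b => some b) ?_ (fun a _ b _ h => Option.some_injective _ h)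
      intro b hb
      rw [Finset.mem_coe, Finset.mem_filter] at hb
      exact hb.2
    have h2 : Q.card ≤ (𝓔.filter (fun E => E ⊆ B)).card := Finset.card_image_le
    have h3 := Finset.card_filter_add_card_filter_not (s := B) (fun b => some b ∈ Q)
    omega
  · intro E hE hEB
    have hEB' : E ⊆ B := hEB.trans (Finset.filter_subset _ _)
    obtain ⟨y, hy1, hy2⟩ := hf E (hne E hE)
    have h4 := (Finset.mem_filter.1 (hEB hy2)).2
    apply h4
    rw [hQ, Finset.mem_image]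
    exact ⟨E, Finset.mem_filter.2 ⟨hE, hEB'⟩, hy1⟩

namespace SM

variable {m : ℕ} {V : Finset α} {lam : Finset α → ℝ}

/-- the expected number of forbidden configurations -/
theorem exp_edges (h : SM m V lam) (𝓔 : Finset (Finset α)) (hne : ∀ E ∈ 𝓔, E.Nonempty) :
    ∑ B ∈ V.powerset, lam B * ((𝓔.filter (fun E => E ⊆ B)).card : ℝ) ≤
      ∑ E ∈ 𝓔, (250 * (E.card : ℝ) * m / V.card) ^ E.card := by
  have h1 : ∀ B : Finset α, lam B * ((𝓔.filter (fun E => E ⊆ B)).card : ℝ) =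
      ∑ E ∈ 𝓔, if E ⊆ B then lam B else 0 := by
    intro B
    rw [← Finset.sum_filter, Finset.sum_const, nsmul_eq_mul, mul_comm]
  simp only [h1]
  rw [Finset.sum_comm]
  refine Finset.sum_le_sum fun E hE => ?_
  rw [← Finset.sum_filter]
  by_cases hEV : E ⊆ V
  · exact h.sp E hEV (hne E hE)
  · have h2 : V.powerset.filter (fun B => E ⊆ B) = ∅ := by
      apply Finset.filter_eq_empty_iff.2
      intro B hB hEB
      rw [Finset.mem_powerset] at hB
      exact hEV (hEB.trans hB)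
    rw [h2, Finset.sum_empty]
    positivity

/-- independent subsets of the sets of the support -/
theorem indep_tuple (h : SM m V lam) (k : ℕ) (hk : 1 ≤ k) (𝓔 : Finset (Finset α))
    (hne : ∀ E ∈ 𝓔, E.Nonempty)
    (hsum : ∑ E ∈ 𝓔, (250 * (E.card : ℝ) * m / V.card) ^ E.card ≤ (m : ℝ) - k) :
    ∃ B B' : Finset α, lam B ≠ 0 ∧ B ⊆ V ∧ B' ⊆ B ∧ B'.card = k ∧ ∀ E ∈ 𝓔, ¬ E ⊆ B' := by
  by_contra hcon
  have h1 : ∀ B ∈ V.powerset, (B.card : ℝ) * lam B ≤
      ((k : ℝ) - 1) * lam B + lam B * ((𝓔.filter (fun E => E ⊆ B)).card : ℝ) := by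
    intro B hB
    rw [Finset.mem_powerset] at hB
    by_cases hl : lam B = 0
    · rw [hl]; simp
    · obtain ⟨B', hB', hc, hE⟩ := alter B 𝓔 hne
      have h2 : B'.card < k := by
        by_contra h3
        push Not at h3
        obtain ⟨B'', hB'', hc''⟩ := Finset.exists_subset_card_eq h3
        exact hcon ⟨B, B'', hl, hB, hB''.trans hB', hc'', fun E hE' hEB => hE E hE' (hEB.trans hB'')⟩
      have h3 : (B.card : ℝ) ≤ (k : ℝ) - 1 + ((𝓔.filter (fun E => E ⊆ B)).card : ℝ) := by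
        have : B.card + 1 ≤ k + (𝓔.filter (fun E => E ⊆ B)).card := by omega
        have : (B.card : ℝ) + 1 ≤ k + ((𝓔.filter (fun E => E ⊆ B)).card : ℝ) := by exact_mod_cast this
        linarith
      have := mul_le_mul_of_nonneg_right h3 (h.nonneg B)
      linarith
  have h2 := Finset.sum_le_sum h1
  rw [Finset.sum_add_distrib, ← Finset.mul_sum] at h2
  have h3 := h.E1
  have h4 := h.exp_edges 𝓔 hne
  have h5 : ((k : ℝ) - 1) * ∑ B ∈ V.powerset, lam B ≤ ((k : ℝ) - 1) * 1 := by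
    apply mul_le_mul_of_nonneg_left h.mass
    have : (1 : ℝ) ≤ k := by exact_mod_cast hk
    linarith
  linarith

/-- independent sets of the support -/
theorem indep_iso (h : SM m V lam) (k : ℕ) (hk : 1 ≤ k) (hkm : k ≤ m) (𝓔 : Finset (Finset α))
    (hne : ∀ E ∈ 𝓔, E.Nonempty)
    (hsum : ∑ E ∈ 𝓔, (250 * (E.card : ℝ) * m / V.card) ^ E.card <
      ((m : ℝ) - k + 1) ^ 2 / (300000 * (m : ℝ) ^ 2)) :
    ∃ B : Finset α, lam B ≠ 0 ∧ B ⊆ V ∧ k ≤ B.card ∧ ∀ E ∈ 𝓔, ¬ E ⊆ B := by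
  by_contra hcon
  have h1 : ∀ B ∈ V.powerset.filter (fun B => k ≤ B.card), lam B ≤
      lam B * ((𝓔.filter (fun E => E ⊆ B)).card : ℝ) := by
    intro B hB
    rw [Finset.mem_filter, Finset.mem_powerset] at hB
    by_cases hl : lam B = 0
    · rw [hl]; simp
    · have h2 : 1 ≤ (𝓔.filter (fun E => E ⊆ B)).card := by
        rw [Nat.one_le_iff_ne_zero]
        intro h3
        rw [Finset.card_eq_zero, Finset.filter_eq_empty_iff] at h3
        exact hcon ⟨B, hl, hB.1, hB.2, fun E hE => h3 hE⟩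
      have h3 : (1 : ℝ) ≤ ((𝓔.filter (fun E => E ⊆ B)).card : ℝ) := by exact_mod_cast h2
      have := mul_le_mul_of_nonneg_left h3 (h.nonneg B)
      linarith
  have h2 := Finset.sum_le_sum h1
  have h3 : ∑ B ∈ V.powerset.filter (fun B => k ≤ B.card), lam B * ((𝓔.filter (fun E => E ⊆ B)).card : ℝ) ≤
      ∑ B ∈ V.powerset, lam B * ((𝓔.filter (fun E => E ⊆ B)).card : ℝ) :=
    Finset.sum_le_sum_of_subset_of_nonneg (Finset.filter_subset _ _) fun B _ _ =>
      mul_nonneg (h.nonneg B) (Nat.cast_nonneg _)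
  have h4 := h.exp_edges 𝓔 hne
  have h5 := h.p_ge k hk hkm
  linarith

end SM

/-- the choice of the parameters -/
theorem params (δ : ℝ) (hδ : 0 < δ) : ∃ d : ℝ, 0 < d ∧ d ≤ 1 ∧ ∀ k : ℕ, 1 ≤ k → ∃ m : ℕ, 2 ≤ m ∧ k ≤ m ∧
    (m : ℝ) ≤ 5 * k ∧ d / 8 * k ≤ (m : ℝ) - k ∧ d / 16 * m ≤ (m : ℝ) - k + 1 ∧
    4 * (m : ℝ) + 29 / 50 + 1 ≤ (4 + δ) * k + 14 := by
  obtain ⟨d, hd0, hd1, hdδ⟩ : ∃ d : ℝ, 0 < d ∧ d ≤ 1 ∧ d ≤ δ :=
    ⟨min 1 δ, lt_min one_pos hδ, min_le_left _ _, min_le_right _ _⟩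
  refine ⟨d, hd0, hd1, fun k hk => ?_⟩
  have hk' : (1 : ℝ) ≤ k := by exact_mod_cast hk
  obtain ⟨m, hm⟩ : ∃ m : ℕ, m = ⌈(1 + d / 8) * k⌉₊ + 2 := ⟨_, rfl⟩
  have hml : (1 + d / 8) * k + 2 ≤ m := by
    rw [hm]; push_cast
    have := Nat.le_ceil ((1 + d / 8) * (k : ℝ))
    linarith
  have hmu : (m : ℝ) ≤ (1 + d / 8) * k + 3 := by
    rw [hm]; push_cast
    have := (Nat.ceil_lt_add_one (a := (1 + d / 8) * (k : ℝ)) (by positivity)).le
    linarith
  have hdk : 0 ≤ d * k := by positivity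
  refine ⟨m, by omega, ?_, by nlinarith, by linarith, ?_, by nlinarith⟩
  · have : (k : ℝ) ≤ m := by nlinarith
    exact_mod_cast this
  · have e1 : (1 - d / 16) * ((1 + d / 8) * k + 2) ≤ (1 - d / 16) * m :=
      mul_le_mul_of_nonneg_left hml (by linarith)
    have e3 : 0 ≤ d * k * (1 - d) := mul_nonneg hdk (by linarith)
    have e4 : (1 - d / 16) * ((1 + d / 8) * k + 2) = k + 2 - d / 8 + (d * k * (1 - d)) / 128 + 7 / 128 * (d * k) := by
      ring
    rw [e4] at e1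
    linarith

/-- comparison of the weights -/
theorem weight_le (C : ℝ) (k m : ℕ) (n : ℝ) (hn : 0 < n) (hmk : (m : ℝ) ≤ 5 * k) (c : ℝ) (hc1 : c ≤ 1)
    (hC0 : 0 < C) (hC : 1250 / C ≤ c) (𝓔 : Finset (Finset α)) (hne : ∀ E ∈ 𝓔, E.Nonempty) :
    ∑ E ∈ 𝓔, (250 * (E.card : ℝ) * m / n) ^ E.card ≤ c * ∑ E ∈ 𝓔, (C * (E.card : ℝ) * k / n) ^ E.card := by
  rw [Finset.mul_sum]
  refine Finset.sum_le_sum fun E hE => ?_
  have hcard : E.card ≠ 0 := (hne E hE).card_pos.ne'
  have hc0 : 0 < 1250 / C := by positivity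
  calc (250 * (E.card : ℝ) * m / n) ^ E.card
      ≤ (1250 / C * (C * (E.card : ℝ) * k / n)) ^ E.card := by
        apply pow_le_pow_left₀ (by positivity)
        have e1 : 1250 / C * (C * (E.card : ℝ) * k / n) = 250 * (E.card : ℝ) * (5 * k) / n := by
          field_simp
          ring
        rw [e1]
        apply div_le_div_of_nonneg_right _ hn.le
        exact mul_le_mul_of_nonneg_left hmk (by positivity)
    _ = (1250 / C) ^ E.card * (C * (E.card : ℝ) * k / n) ^ E.card := mul_pow _ _ _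
    _ ≤ c * (C * (E.card : ℝ) * k / n) ^ E.card := by
        apply mul_le_mul_of_nonneg_right _ (by positivity)
        calc (1250 / C) ^ E.card ≤ c ^ E.card := pow_le_pow_left₀ hc0.le hC _
          _ ≤ c := pow_le_of_le_one (hc0.le.trans hC) hc1 hcard

end Pool.Agent.H522
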