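import Mathlib
import Pool.Agent.H522.AlmostAll
import Pool.Graph.R_seed8.H358R5.PAT

/-! H522: supersaturation: many subsets of an admissible set are realised by consecutive primes. -/

set_option autoImplicit false

open Finset Filter

namespace Pool.Agent.H522

/-- for every `ε > 0` there are arbitrarily large `x` such that for at least `x ^ (1 - ε)` of the `n ≤ x` the
numbers `n + h`, `h ∈ H`, are consecutive primes -/
def Realised (H : Finset ℤ) : Prop := ∀ ε : ℝ, 0 < ε → ∃ᶠ x : ℝ in atTop,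
  x ^ (1 - ε) ≤ (Set.ncard {n : ℕ | (n : ℝ) ≤ x ∧ (∀ s ∈ H, ∃ p : ℕ, p.Prime ∧ (p : ℤ) = n + s) ∧
      ∀ p : ℕ, p.Prime → (∃ s ∈ H, ∃ t ∈ H, (n : ℤ) + s ≤ p ∧ (p : ℤ) ≤ n + t) →
        ∃ s ∈ H, (p : ℤ) = n + s} : ℝ)

/-- an interval of an isolated pattern is realised -/
theorem Isolated.realised {B H : Finset ℤ} (hB : Isolated B) (hHB : H ⊆ B)
    (hH : ∀ b ∈ B, ∀ s ∈ H, ∀ t ∈ H, s ≤ b → b ≤ t → b ∈ H) : Realised H := by
  classical
  intro ε hε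
  obtain ⟨R, hR⟩ : ∃ R : ℕ, ∀ s ∈ H, |s| ≤ R := by
    refine ⟨H.sup (fun s => s.natAbs), fun s hs => ?_⟩
    rw [Int.abs_eq_natAbs]
    exact_mod_cast Finset.le_sup (f := fun s : ℤ => s.natAbs) hs
  refine (hB R ε hε).mono fun x hx => hx.trans ?_
  have h1 : {n : ℕ | (n : ℝ) ≤ x ∧
      ∀ y : ℤ, |y| ≤ R → ((∃ p : ℕ, p.Prime ∧ (p : ℤ) = n + y) ↔ y ∈ B)} ⊆
      {n : ℕ | (n : ℝ) ≤ x ∧ (∀ s ∈ H, ∃ p : ℕ, p.Prime ∧ (p : ℤ) = n + s) ∧
      ∀ p : ℕ, p.Prime → (∃ s ∈ H, ∃ t ∈ H, (n : ℤ) + s ≤ p ∧ (p : ℤ) ≤ n + t) →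
        ∃ s ∈ H, (p : ℤ) = n + s} := by
    rintro n ⟨hn, h2⟩
    refine ⟨hn, fun s hs => (h2 s (hR s hs)).2 (hHB hs), ?_⟩
    rintro p hp ⟨s, hs, t, ht, h3, h4⟩
    have h5 : |(p : ℤ) - n| ≤ R := by
      have h6 := abs_le.1 (hR s hs)
      have h7 := abs_le.1 (hR t ht)
      rw [abs_le]
      constructor <;> linarith
    have h6 : (p : ℤ) - n ∈ B := (h2 _ h5).1 ⟨p, hp, by ring⟩
    exact ⟨(p : ℤ) - n, hH _ h6 s hs t ht (by linarith) (by linarith), by ring⟩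
  have h2 : {n : ℕ | (n : ℝ) ≤ x ∧ (∀ s ∈ H, ∃ p : ℕ, p.Prime ∧ (p : ℤ) = n + s) ∧
      ∀ p : ℕ, p.Prime → (∃ s ∈ H, ∃ t ∈ H, (n : ℤ) + s ≤ p ∧ (p : ℤ) ≤ n + t) →
        ∃ s ∈ H, (p : ℤ) = n + s}.Finite := by
    apply (Set.finite_Iic ⌊x⌋₊).subset
    intro n hn
    exact Nat.le_floor hn.1
  exact_mod_cast Set.ncard_le_ncard h1 h2

theorem p_m (m : ℕ) (V : Finset ℤ) (lam : Finset ℤ → ℝ) (h : SM m V lam) :
    1 / (300000 * (m : ℝ) ^ 2) ≤ ∑ B ∈ V.powerset.filter (fun B => m ≤ B.card), lam B := by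
  have h1 := h.p_ge m (by have := h.m2; omega) le_rfl
  have h2 : ((m : ℝ) - m + 1) ^ 2 = 1 := by ring
  rwa [h2] at h1

theorem pow_const (m : ℕ) (hm : 2 ≤ m) : 300000 * (m : ℝ) ^ 2 ≤ 1200 ^ m := by
  induction m, hm using Nat.le_induction with
  | base => norm_num
  | succ n hn ih =>
    have hn' : (2 : ℝ) ≤ n := by exact_mod_cast hn
    rw [pow_succ (1200 : ℝ) n]
    push_cast
    have h1 : 300000 * ((n : ℝ) + 1) ^ 2 ≤ 300000 * (n : ℝ) ^ 2 * 1200 := by nlinarith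
    have h2 : 300000 * (n : ℝ) ^ 2 * 1200 ≤ 1200 ^ n * 1200 := mul_le_mul_of_nonneg_right ih (by norm_num)
    exact h1.trans h2

open Classical in
/-- many `m`-subsets are realised -/
theorem super (m : ℕ) (hm : 2 ≤ m) (V : Finset ℤ) (hV : 4 * (m : ℝ) + 29 / 50 ≤ Real.log V.card)
    (hadm : ∀ p : ℕ, p.Prime → (p : ℝ) ≤ Real.exp (4 * (m : ℝ) + 29 / 50) + 1 →
      ∃ r : ℤ, ∀ s ∈ V, ¬ (p : ℤ) ∣ r + s) :
    ((V.card : ℝ) / (300000 * (m : ℝ) ^ 2)) ^ m ≤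
      (((V.powersetCard m).filter Realised).card : ℝ) := by
  have hm' : (2 : ℝ) ≤ m := by exact_mod_cast hm
  obtain ⟨lam, hSM, hiso⟩ := spread_SM m hm V hV hadm
  have hVr : (0 : ℝ) < V.card := by exact_mod_cast hSM.Vpos
  have hL : ∀ B : Finset ℤ, ∃ S : Finset ℤ, m ≤ B.card → S ⊆ B ∧ S.card = m ∧
      ∀ h ∈ B, ∀ t ∈ S, h ≤ t → h ∈ S := by
    intro B
    by_cases hB : m ≤ B.card
    · obtain ⟨S, h1, h2, h3⟩ := Pool.Agent.H358R5.PAT_lower B m hB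
      exact ⟨S, fun _ => ⟨h1, h2, h3⟩⟩
    · exact ⟨∅, fun h => absurd h hB⟩
  choose Lo hLo using hL
  obtain ⟨𝓗, h𝓗⟩ : ∃ 𝓗, 𝓗 = (V.powersetCard m).filter Realised := ⟨_, rfl⟩
  rw [← h𝓗]
  have h1 := p_m m V lam hSM
  have h2 : ∑ B ∈ V.powerset.filter (fun B => m ≤ B.card), lam B =
      ∑ B ∈ V.powerset.filter (fun B => m ≤ B.card ∧ lam B ≠ 0), lam B := by
    rw [Finset.sum_filter, Finset.sum_filter]
    refine Finset.sum_congr rfl fun B _ => ?_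
    by_cases h3 : m ≤ B.card
    · by_cases h4 : lam B = 0
      · rw [if_pos h3, if_neg (fun h => h.2 h4), h4]
      · rw [if_pos h3, if_pos ⟨h3, h4⟩]
    · rw [if_neg h3, if_neg (fun h => h3 h.1)]
  have hmaps : ∀ B ∈ V.powerset.filter (fun B => m ≤ B.card ∧ lam B ≠ 0), Lo B ∈ 𝓗 := by
    intro B hB
    rw [Finset.mem_filter, Finset.mem_powerset] at hB
    obtain ⟨h3, h4, h5⟩ := hB
    obtain ⟨h6, h7, h8⟩ := hLo B h4
    rw [h𝓗, Finset.mem_filter, Finset.mem_powersetCard]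
    exact ⟨⟨h6.trans h3, h7⟩, (hiso B h5).realised h6 fun b hb s _ t ht _ hbt => h8 b hb t ht hbt⟩
  have h3 : ∑ B ∈ V.powerset.filter (fun B => m ≤ B.card), lam B ≤
      (𝓗.card : ℝ) * (250 * m * m / V.card) ^ m := by
    rw [h2, ← Finset.sum_fiberwise_of_maps_to hmaps, ← nsmul_eq_mul]
    apply Finset.sum_le_card_nsmul
    intro H hH
    rw [h𝓗, Finset.mem_filter, Finset.mem_powersetCard] at hH
    obtain ⟨⟨h4, h5⟩, _⟩ := hH
    have h6 := hSM.sp H h4 (by rw [← Finset.card_pos]; omega)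
    rw [h5] at h6
    refine le_trans ?_ h6
    apply Finset.sum_le_sum_of_subset_of_nonneg
    · intro B hB
      rw [Finset.mem_filter, Finset.mem_filter] at hB
      rw [Finset.mem_filter]
      exact ⟨hB.1.1, by rw [← hB.2]; exact (hLo B hB.1.2.1).1⟩
    · intro B _ _
      exact hSM.nonneg B
  have h4 : 1 / (300000 * (m : ℝ) ^ 2) ≤ (𝓗.card : ℝ) * (250 * m * m / V.card) ^ m := h1.trans h3
  have h5 := pow_const m hm
  have h6 : ((V.card : ℝ) / (300000 * (m : ℝ) ^ 2)) ^ m * (1200 ^ m * (250 * m * m / V.card) ^ m) = 1 := by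
    rw [← mul_pow, ← mul_pow]
    have : (V.card : ℝ) / (300000 * (m : ℝ) ^ 2) * (1200 * (250 * m * m / V.card)) = 1 := by
      field_simp
      norm_num
    rw [this, one_pow]
  have h7 : 1 ≤ 1200 ^ m * (𝓗.card * (250 * (m : ℝ) * m / V.card) ^ m) := by
    have h8 : (0 : ℝ) < 300000 * (m : ℝ) ^ 2 := by positivity
    rw [div_le_iff₀ h8] at h4
    have h9 : 0 ≤ (𝓗.card : ℝ) * (250 * m * m / V.card) ^ m := by positivity
    calc 1 ≤ (𝓗.card : ℝ) * (250 * m * m / V.card) ^ m * (300000 * (m : ℝ) ^ 2) := h4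
      _ ≤ (𝓗.card : ℝ) * (250 * m * m / V.card) ^ m * 1200 ^ m := mul_le_mul_of_nonneg_left h5 h9
      _ = _ := by ring
  have hX : 0 ≤ ((V.card : ℝ) / (300000 * (m : ℝ) ^ 2)) ^ m := by positivity
  calc ((V.card : ℝ) / (300000 * (m : ℝ) ^ 2)) ^ m
      = ((V.card : ℝ) / (300000 * (m : ℝ) ^ 2)) ^ m * 1 := (mul_one _).symm
    _ ≤ ((V.card : ℝ) / (300000 * (m : ℝ) ^ 2)) ^ m *
        (1200 ^ m * (𝓗.card * (250 * (m : ℝ) * m / V.card) ^ m)) := mul_le_mul_of_nonneg_left h7 hX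
    _ = (𝓗.card : ℝ) * (((V.card : ℝ) / (300000 * (m : ℝ) ^ 2)) ^ m *
        (1200 ^ m * (250 * (m : ℝ) * m / V.card) ^ m)) := by ring
    _ = 𝓗.card := by rw [h6, mul_one]

/-- in terms of the proportion -/
theorem super_prop (m : ℕ) (hm : 2 ≤ m) (V : Finset ℤ) (hV : 4 * (m : ℝ) + 29 / 50 ≤ Real.log V.card)
    (N : ℝ) (hN : ((V.card : ℝ) / (300000 * (m : ℝ) ^ 2)) ^ m ≤ N) :
    (V.card.choose m : ℝ) ≤ (1000000 * (m : ℝ)) ^ m * N := by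
  have hm' : (2 : ℝ) ≤ m := by exact_mod_cast hm
  have h1 := choose_pow_le V.card m
  have hmm : (0 : ℝ) < (m : ℝ) ^ m := by positivity
  have h2 : (V.card.choose m : ℝ) ≤ (3 * (V.card : ℝ) / m) ^ m := by
    rw [div_pow, le_div_iff₀ hmm]
    exact h1
  refine h2.trans ?_
  calc (3 * (V.card : ℝ) / m) ^ m = (900000 * (m : ℝ)) ^ m * ((V.card : ℝ) / (300000 * (m : ℝ) ^ 2)) ^ m := by
        rw [← mul_pow]
        congr 1
        field_simp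
        ring
    _ ≤ (1000000 * (m : ℝ)) ^ m * ((V.card : ℝ) / (300000 * (m : ℝ) ^ 2)) ^ m := by
        apply mul_le_mul_of_nonneg_right _ (by positivity)
        apply pow_le_pow_left₀ (by positivity)
        linarith
    _ ≤ _ := mul_le_mul_of_nonneg_left hN (by positivity)

open Classical in
/-- many isolated patterns -/
theorem super_iso (m : ℕ) (hm : 2 ≤ m) (V : Finset ℤ) (hV : 4 * (m : ℝ) + 29 / 50 ≤ Real.log V.card)
    (hadm : ∀ p : ℕ, p.Prime → (p : ℝ) ≤ Real.exp (4 * (m : ℝ) + 29 / 50) + 1 →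
      ∃ r : ℤ, ∀ s ∈ V, ¬ (p : ℤ) ∣ r + s) :
    ((V.card : ℝ) / (300000 * (m : ℝ) ^ 2)) ^ m ≤
      ((V.powerset.filter (fun B => m ≤ B.card ∧ Isolated B)).card : ℝ) := by
  have hm' : (2 : ℝ) ≤ m := by exact_mod_cast hm
  obtain ⟨lam, hSM, hiso⟩ := spread_SM m hm V hV hadm
  have hVr : (0 : ℝ) < V.card := by exact_mod_cast hSM.Vpos
  obtain ⟨𝓗, h𝓗⟩ : ∃ 𝓗, 𝓗 = V.powerset.filter (fun B => m ≤ B.card ∧ Isolated B) := ⟨_, rfl⟩
  rw [← h𝓗]
  have h1 := p_m m V lam hSM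
  have h3 : ∑ B ∈ V.powerset.filter (fun B => m ≤ B.card), lam B ≤
      (𝓗.card : ℝ) * (250 * m * m / V.card) ^ m := by
    have h2 : ∑ B ∈ V.powerset.filter (fun B => m ≤ B.card), lam B ≤ ∑ B ∈ 𝓗, lam B := by
      rw [h𝓗, Finset.sum_filter, Finset.sum_filter]
      refine Finset.sum_le_sum fun B _ => ?_
      by_cases h3 : m ≤ B.card
      · by_cases h4 : lam B = 0
        · rw [if_pos h3, h4]; split_ifs <;> exact le_rfl
        · rw [if_pos h3, if_pos ⟨h3, hiso B h4⟩]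
      · rw [if_neg h3, if_neg (fun h => h3 h.1)]
    refine h2.trans ?_
    rw [← nsmul_eq_mul]
    apply Finset.sum_le_card_nsmul
    intro B hB
    rw [h𝓗, Finset.mem_filter, Finset.mem_powerset] at hB
    exact hSM.lam_le m (by omega) B hB.1 hB.2.1
  have h4 : 1 / (300000 * (m : ℝ) ^ 2) ≤ (𝓗.card : ℝ) * (250 * m * m / V.card) ^ m := h1.trans h3
  have h5 := pow_const m hm
  have h6 : ((V.card : ℝ) / (300000 * (m : ℝ) ^ 2)) ^ m * (1200 ^ m * (250 * m * m / V.card) ^ m) = 1 := by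
    rw [← mul_pow, ← mul_pow]
    have : (V.card : ℝ) / (300000 * (m : ℝ) ^ 2) * (1200 * (250 * m * m / V.card)) = 1 := by
      field_simp
      norm_num
    rw [this, one_pow]
  have h7 : 1 ≤ 1200 ^ m * (𝓗.card * (250 * (m : ℝ) * m / V.card) ^ m) := by
    have h8 : (0 : ℝ) < 300000 * (m : ℝ) ^ 2 := by positivity
    rw [div_le_iff₀ h8] at h4
    have h9 : 0 ≤ (𝓗.card : ℝ) * (250 * m * m / V.card) ^ m := by positivity
    calc 1 ≤ (𝓗.card : ℝ) * (250 * m * m / V.card) ^ m * (300000 * (m : ℝ) ^ 2) := h4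
      _ ≤ (𝓗.card : ℝ) * (250 * m * m / V.card) ^ m * 1200 ^ m := mul_le_mul_of_nonneg_left h5 h9
      _ = _ := by ring
  have hX : 0 ≤ ((V.card : ℝ) / (300000 * (m : ℝ) ^ 2)) ^ m := by positivity
  calc ((V.card : ℝ) / (300000 * (m : ℝ) ^ 2)) ^ m
      = ((V.card : ℝ) / (300000 * (m : ℝ) ^ 2)) ^ m * 1 := (mul_one _).symm
    _ ≤ ((V.card : ℝ) / (300000 * (m : ℝ) ^ 2)) ^ m *
        (1200 ^ m * (𝓗.card * (250 * (m : ℝ) * m / V.card) ^ m)) := mul_le_mul_of_nonneg_left h7 hX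
    _ = (𝓗.card : ℝ) * (((V.card : ℝ) / (300000 * (m : ℝ) ^ 2)) ^ m *
        (1200 ^ m * (250 * (m : ℝ) * m / V.card) ^ m)) := by ring
    _ = 𝓗.card := by rw [h6, mul_one]

end Pool.Agent.H522
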