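import Mathlib
import Pool.Agent.H522.ExactForms
import Pool.Agent.H522.Super
import Pool.Agent.H522.Indep

/-! H522: counting the good sets of a system with spread measures. -/

set_option autoImplicit false

open Finset Filter

namespace Pool.Agent.H522

variable {α : Type} [DecidableEq α]

theorem p_mG (m : ℕ) (V : Finset α) (lam : Finset α → ℝ) (h : SM m V lam) :
    1 / (300000 * (m : ℝ) ^ 2) ≤ ∑ B ∈ V.powerset.filter (fun B => m ≤ B.card), lam B := by
  have h1 := h.p_ge m (by have := h.m2; omega) le_rfl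
  have h2 : ((m : ℝ) - m + 1) ^ 2 = 1 := by ring
  rwa [h2] at h1

theorem pow_id (m : ℕ) (v : ℝ) (hv : 0 < v) (hm : 0 < (m : ℝ)) (N : ℝ) (hm2 : 2 ≤ m) (hN : 0 ≤ N)
    (h4 : 1 / (300000 * (m : ℝ) ^ 2) ≤ N * (250 * m * m / v) ^ m) :
    (v / (300000 * (m : ℝ) ^ 2)) ^ m ≤ N := by
  have h5 := pow_const m hm2
  have h6 : (v / (300000 * (m : ℝ) ^ 2)) ^ m * (1200 ^ m * (250 * m * m / v) ^ m) = 1 := by
    rw [← mul_pow, ← mul_pow]
    have : v / (300000 * (m : ℝ) ^ 2) * (1200 * (250 * m * m / v)) = 1 := by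
      field_simp
      norm_num
    rw [this, one_pow]
  have h7 : 1 ≤ 1200 ^ m * (N * (250 * (m : ℝ) * m / v) ^ m) := by
    have h8 : (0 : ℝ) < 300000 * (m : ℝ) ^ 2 := by positivity
    rw [div_le_iff₀ h8] at h4
    have h9 : 0 ≤ N * (250 * m * m / v) ^ m := by positivity
    calc 1 ≤ N * (250 * m * m / v) ^ m * (300000 * (m : ℝ) ^ 2) := h4
      _ ≤ N * (250 * m * m / v) ^ m * 1200 ^ m := mul_le_mul_of_nonneg_left h5 h9
      _ = _ := by ring
  have hX : 0 ≤ (v / (300000 * (m : ℝ) ^ 2)) ^ m := by positivity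
  calc (v / (300000 * (m : ℝ) ^ 2)) ^ m
      = (v / (300000 * (m : ℝ) ^ 2)) ^ m * 1 := (mul_one _).symm
    _ ≤ (v / (300000 * (m : ℝ) ^ 2)) ^ m *
        (1200 ^ m * (N * (250 * (m : ℝ) * m / v) ^ m)) := mul_le_mul_of_nonneg_left h7 hX
    _ = N * ((v / (300000 * (m : ℝ) ^ 2)) ^ m *
        (1200 ^ m * (250 * (m : ℝ) * m / v) ^ m)) := by ring
    _ = N := by rw [h6, mul_one]

open Classical in
/-- many good sets with at least `m` elements -/
theorem super_isoG {Ok G : Finset α → Prop} (hsp : HasSM Ok G) (m : ℕ) (hm : 2 ≤ m) (V : Finset α)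
    (hok : Ok V) (hV : 4 * (m : ℝ) + 29 / 50 ≤ Real.log V.card) :
    ((V.card : ℝ) / (300000 * (m : ℝ) ^ 2)) ^ m ≤
      ((V.powerset.filter (fun B => m ≤ B.card ∧ G B)).card : ℝ) := by
  have hm' : (2 : ℝ) ≤ m := by exact_mod_cast hm
  obtain ⟨lam, hSM, hiso⟩ := hsp.2 m V hm hok hV
  have hVr : (0 : ℝ) < V.card := by exact_mod_cast hSM.Vpos
  obtain ⟨𝓗, h𝓗⟩ : ∃ 𝓗, 𝓗 = V.powerset.filter (fun B => m ≤ B.card ∧ G B) := ⟨_, rfl⟩
  rw [← h𝓗]
  have h1 := p_mG m V lam hSM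
  have h3 : ∑ B ∈ V.powerset.filter (fun B => m ≤ B.card), lam B ≤
      (𝓗.card : ℝ) * (250 * m * m / V.card) ^ m := by
    have h2 : ∑ B ∈ V.powerset.filter (fun B => m ≤ B.card), lam B ≤ ∑ B ∈ 𝓗, lam B := by
      rw [h𝓗, Finset.sum_filter, Finset.sum_filter]
      refine Finset.sum_le_sum fun B _ => ?_
      by_cases h3 : m ≤ B.card
      · by_cases h4 : lam B = 0
        · rw [if_pos h3, h4]; split_ifs <;> exact le_rfl
        · rw [if_pos h3, if_pos ⟨h3, hiso B h4⟩]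
      · rw [if_neg h3, if_neg (fun h => h3 h.1)]
    refine h2.trans ?_
    rw [← nsmul_eq_mul]
    apply Finset.sum_le_card_nsmul
    intro B hB
    rw [h𝓗, Finset.mem_filter, Finset.mem_powerset] at hB
    exact hSM.lam_le m (by omega) B hB.1 hB.2.1
  exact pow_id m _ hVr (by linarith) _ hm (Nat.cast_nonneg _) (h1.trans h3)

/-- the initial segments of a finite set of natural numbers -/
theorem initSeg (m : ℕ) (B : Finset ℕ) (h : m ≤ B.card) : ∃ S : Finset ℕ, S ⊆ B ∧ S.card = m ∧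
    ∀ b ∈ B, ∀ s ∈ S, b ≤ s → b ∈ S := by
  classical
  have hex : ∃ r : ℕ, m ≤ (B.filter (· < r)).card := by
    refine ⟨B.sup id + 1, ?_⟩
    have : B.filter (· < B.sup id + 1) = B := by
      apply Finset.filter_true_of_mem
      intro b hb
      have := Finset.le_sup (f := id) hb
      simp only [id] at this
      omega
    rw [this]
    exact h
  obtain ⟨r, hr, hmin⟩ : ∃ r, m ≤ (B.filter (· < r)).card ∧ ∀ r' < r, ¬ m ≤ (B.filter (· < r')).card :=
    ⟨Nat.find hex, Nat.find_spec hex, fun r' hr' => Nat.find_min hex hr'⟩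
  refine ⟨B.filter (· < r), Finset.filter_subset _ _, le_antisymm ?_ hr, ?_⟩
  · rcases Nat.eq_zero_or_pos r with rfl | hr0
    · simp
    · have h1 := hmin (r - 1) (by omega)
      have h2 : B.filter (· < r) ⊆ insert (r - 1) (B.filter (· < r - 1)) := by
        intro b hb
        rw [Finset.mem_filter] at hb
        rw [Finset.mem_insert, Finset.mem_filter]
        by_cases hb2 : b = r - 1
        · exact Or.inl hb2
        · exact Or.inr ⟨hb.1, by omega⟩
      have h3 := (Finset.card_le_card h2).trans (Finset.card_insert_le _ _)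
      omega
  · intro b hb s hs hbs
    rw [Finset.mem_filter] at hs ⊢
    exact ⟨hb, by omega⟩

open Classical in
/-- many sets of `m` elements which are initial segments of good sets -/
theorem super_initG {Ok G : Finset ℕ → Prop} (hsp : HasSM Ok G) (m : ℕ) (hm : 2 ≤ m) (V : Finset ℕ)
    (hok : Ok V) (hV : 4 * (m : ℝ) + 29 / 50 ≤ Real.log V.card) :
    ((V.card : ℝ) / (300000 * (m : ℝ) ^ 2)) ^ m ≤
      (((V.powersetCard m).filter (fun H => ∃ B, G B ∧ H ⊆ B ∧ ∀ b ∈ B, ∀ s ∈ H, b ≤ s → b ∈ H)).card : ℝ) := by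
  have hm' : (2 : ℝ) ≤ m := by exact_mod_cast hm
  obtain ⟨lam, hSM, hiso⟩ := hsp.2 m V hm hok hV
  have hVr : (0 : ℝ) < V.card := by exact_mod_cast hSM.Vpos
  have hL : ∀ B : Finset ℕ, ∃ S : Finset ℕ, m ≤ B.card → S ⊆ B ∧ S.card = m ∧
      ∀ b ∈ B, ∀ s ∈ S, b ≤ s → b ∈ S := by
    intro B
    by_cases hB : m ≤ B.card
    · obtain ⟨S, hS⟩ := initSeg m B hB
      exact ⟨S, fun _ => hS⟩
    · exact ⟨∅, fun h => absurd h hB⟩
  choose Lo hLo using hL
  obtain ⟨𝓗, h𝓗⟩ : ∃ 𝓗, 𝓗 = (V.powersetCard m).filter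
    (fun H => ∃ B, G B ∧ H ⊆ B ∧ ∀ b ∈ B, ∀ s ∈ H, b ≤ s → b ∈ H) := ⟨_, rfl⟩
  rw [← h𝓗]
  have h1 := p_mG m V lam hSM
  have h2 : ∑ B ∈ V.powerset.filter (fun B => m ≤ B.card), lam B =
      ∑ B ∈ V.powerset.filter (fun B => m ≤ B.card ∧ lam B ≠ 0), lam B := by
    rw [Finset.sum_filter, Finset.sum_filter]
    refine Finset.sum_congr rfl fun B _ => ?_
    by_cases h3 : m ≤ B.card
    · by_cases h4 : lam B = 0
      · rw [if_pos h3, if_neg (fun h => h.2 h4), h4]
      · rw [if_pos h3, if_pos ⟨h3, h4⟩]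
    · rw [if_neg h3, if_neg (fun h => h3 h.1)]
  have hmaps : ∀ B ∈ V.powerset.filter (fun B => m ≤ B.card ∧ lam B ≠ 0), Lo B ∈ 𝓗 := by
    intro B hB
    rw [Finset.mem_filter, Finset.mem_powerset] at hB
    obtain ⟨h3, h4, h5⟩ := hB
    obtain ⟨h6, h7, h8⟩ := hLo B h4
    rw [h𝓗, Finset.mem_filter, Finset.mem_powersetCard]
    exact ⟨⟨h6.trans h3, h7⟩, B, hiso B h5, h6, h8⟩
  have h3 : ∑ B ∈ V.powerset.filter (fun B => m ≤ B.card), lam B ≤
      (𝓗.card : ℝ) * (250 * m * m / V.card) ^ m := by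
    rw [h2, ← Finset.sum_fiberwise_of_maps_to hmaps, ← nsmul_eq_mul]
    apply Finset.sum_le_card_nsmul
    intro H hH
    rw [h𝓗, Finset.mem_filter, Finset.mem_powersetCard] at hH
    obtain ⟨⟨h4, h5⟩, _⟩ := hH
    have h6 := hSM.sp H h4 (by rw [← Finset.card_pos]; omega)
    rw [h5] at h6
    refine le_trans ?_ h6
    apply Finset.sum_le_sum_of_subset_of_nonneg
    · intro B hB
      rw [Finset.mem_filter, Finset.mem_filter] at hB
      rw [Finset.mem_filter]
      exact ⟨hB.1.1, by rw [← hB.2]; exact (hLo B hB.1.2.1).1⟩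
    · intro B _ _
      exact hSM.nonneg B
  exact pow_id m _ hVr (by linarith) _ hm (Nat.cast_nonneg _) (h1.trans h3)

/-- in terms of the proportion -/
theorem super_propG (m : ℕ) (hm : 2 ≤ m) (V : Finset α)
    (N : ℝ) (hN : ((V.card : ℝ) / (300000 * (m : ℝ) ^ 2)) ^ m ≤ N) :
    (V.card.choose m : ℝ) ≤ (1000000 * (m : ℝ)) ^ m * N := by
  have hm' : (2 : ℝ) ≤ m := by exact_mod_cast hm
  have h1 := choose_pow_le V.card m
  have hmm : (0 : ℝ) < (m : ℝ) ^ m := by positivity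
  have h2 : (V.card.choose m : ℝ) ≤ (3 * (V.card : ℝ) / m) ^ m := by
    rw [div_pow, le_div_iff₀ hmm]
    exact h1
  refine h2.trans ?_
  calc (3 * (V.card : ℝ) / m) ^ m = (900000 * (m : ℝ)) ^ m * ((V.card : ℝ) / (300000 * (m : ℝ) ^ 2)) ^ m := by
        rw [← mul_pow]
        congr 1
        field_simp
        ring
    _ ≤ (1000000 * (m : ℝ)) ^ m * ((V.card : ℝ) / (300000 * (m : ℝ) ^ 2)) ^ m := by
        apply mul_le_mul_of_nonneg_right _ (by positivity)
        apply pow_le_pow_left₀ (by positivity)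
        linarith
    _ ≤ _ := mul_le_mul_of_nonneg_left hN (by positivity)

/-- the number of the patterns is `exp (c log² L)` for every `c < 1/4` -/
theorem log_sq (c : ℝ) (hc : c < 1 / 4) : ∃ L₀ : ℕ, ∀ L : ℕ, L₀ ≤ L → ∃ m : ℕ, 2 ≤ m ∧
    4 * (m : ℝ) + 29 / 50 ≤ Real.log L ∧ Real.exp (c * Real.log L ^ 2) ≤ ((L : ℝ) / (300000 * (m : ℝ) ^ 2)) ^ m := by
  -- `m = ⌊(log L - 1) / 4⌋`
  have hc' : 0 < 1 / 4 - c := by linarith
  -- the analytic inequality
  have hlim : ∀ᶠ y : ℝ in atTop, 12 ≤ y ∧ 0 < y - (13 + 2 * Real.log y) ∧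
      c * y ^ 2 ≤ ((y - 5) / 4) * (y - (13 + 2 * Real.log y)) := by
    have h1 : Tendsto (fun y : ℝ => Real.log y / y) atTop (nhds 0) := by
      have := Real.isLittleO_log_id_atTop
      exact this.tendsto_div_nhds_zero
    have h2 : Tendsto (fun y : ℝ => (1 / 4) * (1 - 5 / y) * (1 - (13 / y + 2 * (Real.log y / y)))) atTop
        (nhds ((1 / 4) * (1 - 0) * (1 - (0 + 2 * 0)))) := by
      have e1 : Tendsto (fun y : ℝ => 5 / y) atTop (nhds 0) := tendsto_const_nhds.div_atTop tendsto_id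
      have e2 : Tendsto (fun y : ℝ => 13 / y) atTop (nhds 0) := tendsto_const_nhds.div_atTop tendsto_id
      exact (tendsto_const_nhds.mul (tendsto_const_nhds.sub e1)).mul
        (tendsto_const_nhds.sub (e2.add (h1.const_mul 2)))
    have h3 : c < (1 / 4) * (1 - 0) * (1 - (0 + 2 * 0)) := by norm_num; linarith
    have h4 : Tendsto (fun y : ℝ => 1 - (13 / y + 2 * (Real.log y / y))) atTop (nhds (1 - (0 + 2 * 0))) := by
      have e2 : Tendsto (fun y : ℝ => 13 / y) atTop (nhds 0) := tendsto_const_nhds.div_atTop tendsto_id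
      exact tendsto_const_nhds.sub (e2.add (h1.const_mul 2))
    filter_upwards [h2.eventually (lt_mem_nhds h3), h4.eventually (lt_mem_nhds (show (0 : ℝ) < 1 - (0 + 2 * 0) by norm_num)),
      eventually_ge_atTop (12 : ℝ)] with y hy1 hy2 hy3
    have hy0 : 0 < y := by linarith
    refine ⟨hy3, ?_, ?_⟩
    · have : y - (13 + 2 * Real.log y) = y * (1 - (13 / y + 2 * (Real.log y / y))) := by
        field_simp
      rw [this]
      exact mul_pos hy0 hy2
    · have e1 : ((y - 5) / 4) * (y - (13 + 2 * Real.log y)) =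
          ((1 / 4) * (1 - 5 / y) * (1 - (13 / y + 2 * (Real.log y / y)))) * y ^ 2 := by
        field_simp
      rw [e1]
      exact mul_le_mul_of_nonneg_right hy1.le (by positivity)
  have hL : ∀ᶠ L : ℕ in atTop, 12 ≤ Real.log L ∧ 0 < Real.log L - (13 + 2 * Real.log (Real.log L)) ∧
      c * Real.log L ^ 2 ≤ ((Real.log L - 5) / 4) * (Real.log L - (13 + 2 * Real.log (Real.log L))) :=
    (Real.tendsto_log_atTop.comp tendsto_natCast_atTop_atTop).eventually hlim
  obtain ⟨L₀, hL₀⟩ := Filter.eventually_atTop.1 hL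
  refine ⟨L₀, fun L hLL => ?_⟩
  obtain ⟨h1, h2, h3⟩ := hL₀ L hLL
  obtain ⟨y, hy⟩ : ∃ y : ℝ, y = Real.log L := ⟨_, rfl⟩
  rw [← hy] at h1 h2 h3 ⊢
  obtain ⟨m, hm⟩ : ∃ m : ℕ, m = ⌊(y - 1) / 4⌋₊ := ⟨_, rfl⟩
  have hm1 : (m : ℝ) ≤ (y - 1) / 4 := by rw [hm]; exact Nat.floor_le (by linarith)
  have hm2 : (y - 1) / 4 < m + 1 := by rw [hm]; exact Nat.lt_floor_add_one _
  have hm3 : 2 ≤ m := by
    rw [hm]
    apply Nat.le_floor
    push_cast
    linarith
  have hm3' : (2 : ℝ) ≤ m := by exact_mod_cast hm3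
  refine ⟨m, hm3, by linarith, ?_⟩
  have hLpos : (0 : ℝ) < L := by
    by_contra hcon
    have : (L : ℝ) = 0 := le_antisymm (not_lt.1 hcon) (Nat.cast_nonneg _)
    rw [this, Real.log_zero] at hy
    linarith
  have hm0 : (0 : ℝ) < m := by linarith
  -- the logarithm of the right hand side
  have h5 : y - (13 + 2 * Real.log y) ≤ Real.log ((L : ℝ) / (300000 * (m : ℝ) ^ 2)) := by
    rw [Real.log_div hLpos.ne' (by positivity), Real.log_mul (by norm_num) (by positivity), Real.log_pow, ← hy]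
    have e1 : Real.log m ≤ Real.log y := Real.log_le_log hm0 (by linarith)
    have e2 : Real.log 300000 ≤ 13 := by
      rw [Real.log_le_iff_le_exp (by norm_num)]
      have h6 : (2.7 : ℝ) ^ 13 ≤ Real.exp 1 ^ 13 :=
        pow_le_pow_left₀ (by norm_num) (by have := Real.exp_one_gt_d9; linarith) 13
      have h7 : Real.exp 1 ^ 13 = Real.exp 13 := by
        rw [← Real.exp_nat_mul]; norm_num
      rw [h7] at h6
      refine le_trans ?_ h6
      norm_num
    push_cast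
    linarith
  calc Real.exp (c * y ^ 2) ≤ Real.exp (m * Real.log ((L : ℝ) / (300000 * (m : ℝ) ^ 2))) := by
        apply Real.exp_le_exp.2
        refine h3.trans ?_
        exact mul_le_mul (by linarith) h5 h2.le hm0.le
    _ = ((L : ℝ) / (300000 * (m : ℝ) ^ 2)) ^ m := by
        rw [mul_comm, Real.exp_mul, Real.exp_log (by positivity), Real.rpow_natCast]

end Pool.Agent.H522
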