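import Mathlib
import Pool.Agent.H522.ExactCount

/-! H522: exact patterns of primes in orbits of affine maps. -/

set_option autoImplicit false

open Finset Filter

namespace Pool.Agent.H522

/-- `P n` holds for at least `x ^ (1 - η)` of the `n ≤ x`, for arbitrarily large `x` and all `η > 0` -/
def OftenP (P : ℕ → Prop) : Prop := ∀ η : ℝ, 0 < η → ∃ᶠ x : ℝ in atTop,
  x ^ (1 - η) ≤ (Set.ncard {n : ℕ | (n : ℝ) ≤ x ∧ P n} : ℝ)

theorem finite_le (P : ℕ → Prop) (x : ℝ) : {n : ℕ | (n : ℝ) ≤ x ∧ P n}.Finite := by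
  apply (Set.finite_Iic ⌊x⌋₊).subset
  intro n hn
  exact Nat.le_floor hn.1

theorem OftenP.mono {P Q : ℕ → Prop} (h : ∀ n, P n → Q n) (hP : OftenP P) : OftenP Q := by
  intro η hη
  refine (hP η hη).mono fun x hx => hx.trans ?_
  have h1 : {n : ℕ | (n : ℝ) ≤ x ∧ P n} ⊆ {n : ℕ | (n : ℝ) ≤ x ∧ Q n} := fun n hn => ⟨hn.1, h n hn.2⟩
  exact_mod_cast Set.ncard_le_ncard h1 (finite_le Q x)

theorem OftenP.map {P Q : ℕ → Prop} (a b : ℕ) (ha : 0 < a) (h : ∀ n, P n → Q (a * n + b)) (hP : OftenP P) :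
    OftenP Q := by
  intro η hη
  obtain ⟨e, he⟩ : ∃ e : ℝ, e = min η 1 := ⟨_, rfl⟩
  have he0 : 0 < e := by rw [he]; exact lt_min hη one_pos
  have he1 : e ≤ 1 := by rw [he]; exact min_le_right _ _
  have heη : e ≤ η := by rw [he]; exact min_le_left _ _
  have ha' : (1 : ℝ) ≤ a := by exact_mod_cast ha
  have htend : Tendsto (fun x : ℝ => (a : ℝ) * x + b) atTop atTop :=
    tendsto_atTop_add_const_right _ _ (tendsto_id.const_mul_atTop (by linarith))
  refine htend.frequently ?_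
  -- large `x`
  have h1 : ∀ᶠ x : ℝ in atTop, ((a : ℝ) + b) ^ (1 - e) ≤ x ^ (e / 2) :=
    (tendsto_rpow_atTop (by positivity)).eventually (eventually_ge_atTop _)
  refine ((hP (e / 2) (by positivity)).and_eventually (h1.and (eventually_ge_atTop (1 : ℝ)))).mono ?_
  rintro x ⟨hx, hx1, hx2⟩
  have hx0 : 0 < x := by linarith
  have hb0 : (0 : ℝ) ≤ b := Nat.cast_nonneg _
  have h2 : (a : ℝ) * x + b ≤ (a + b) * x := by nlinarith
  have h3 : (1 : ℝ) ≤ a * x + b := by nlinarith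
  calc ((a : ℝ) * x + b) ^ (1 - η) ≤ ((a : ℝ) * x + b) ^ (1 - e) :=
        Real.rpow_le_rpow_of_exponent_le h3 (by linarith)
    _ ≤ (((a : ℝ) + b) * x) ^ (1 - e) := Real.rpow_le_rpow (by linarith) h2 (by linarith)
    _ = ((a : ℝ) + b) ^ (1 - e) * x ^ (1 - e) := Real.mul_rpow (by positivity) hx0.le
    _ ≤ x ^ (e / 2) * x ^ (1 - e) := mul_le_mul_of_nonneg_right hx1 (by positivity)
    _ = x ^ (1 - e / 2) := by rw [← Real.rpow_add hx0]; congr 1; ring
    _ ≤ _ := hx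
    _ ≤ _ := by
      have h4 : (Set.ncard {n : ℕ | (n : ℝ) ≤ x ∧ P n}) ≤ Set.ncard {n : ℕ | (n : ℝ) ≤ (a : ℝ) * x + b ∧ Q n} := by
        refine Set.ncard_le_ncard_of_injOn (fun n => a * n + b) ?_ ?_ (finite_le Q _)
        · rintro n ⟨hn1, hn2⟩
          refine ⟨?_, h n hn2⟩
          push_cast
          have := mul_le_mul_of_nonneg_left hn1 (by linarith : (0 : ℝ) ≤ a)
          linarith
        · intro n _ n' _ hnn
          have h5 : a * n + b = a * n' + b := hnn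
          exact Nat.eq_of_mul_eq_mul_left ha (by omega)
      exact_mod_cast h4

/-- the forms of the orbits of `x ↦ 2 x - 1`, started at `n + 1` -/
theorem okE_second (V : Finset ℕ) : OkE (fun t : ℕ => 2 ^ t) (fun _ => 1) V := by
  refine ⟨fun i => by positivity, fun i j hij h => hij ?_, fun p hp => ⟨0, fun i _ h => ?_⟩⟩
  · have h2 : 2 ^ i = 2 ^ j := by simpa using h
    exact Nat.pow_right_injective le_rfl h2
  · have h2 : p ∣ 1 := by simpa using h
    exact hp.one_lt.ne' (Nat.dvd_one.1 h2)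

/-- the forms of the orbits of `x ↦ 2 x + 1`, started at `n` -/
theorem okE_first (V : Finset ℕ) : OkE (fun t : ℕ => 2 ^ t) (fun t => 2 ^ t - 1) V := by
  have hpos : ∀ i : ℕ, 1 ≤ 2 ^ i := fun i => Nat.one_le_two_pow
  refine ⟨fun i => by positivity, fun i j hij h => hij ?_, fun p hp => ⟨p - 1, fun i _ h => ?_⟩⟩
  · have h2 : 2 ^ i * (2 ^ j - 1) = 2 ^ j * (2 ^ i - 1) := h
    have h3 := hpos i
    have h4 := hpos j
    have h5 : 2 ^ i * (2 ^ j - 1) + 2 ^ i = 2 ^ i * 2 ^ j := by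
      rw [← Nat.mul_succ]; congr 1; omega
    have h6 : 2 ^ j * (2 ^ i - 1) + 2 ^ j = 2 ^ j * 2 ^ i := by
      rw [← Nat.mul_succ]; congr 1; omega
    have h7 : 2 ^ i = 2 ^ j := by
      have : 2 ^ i * 2 ^ j = 2 ^ j * 2 ^ i := Nat.mul_comm _ _
      omega
    exact Nat.pow_right_injective le_rfl h7
  · have h2 : p ∣ 2 ^ i * (p - 1) + (2 ^ i - 1) := h
    have h3 : 2 ^ i * (p - 1) + (2 ^ i - 1) + 1 = 2 ^ i * p := by
      have h4 := hpos i
      have h5 : 2 ^ i * (p - 1) + 2 ^ i = 2 ^ i * p := by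
        rw [← Nat.mul_succ]; congr 1; have := hp.one_lt; omega
      omega
    have h4 : p ∣ 1 := by
      rw [← Nat.dvd_add_right h2, h3]
      exact dvd_mul_left _ _
    exact hp.one_lt.ne' (Nat.dvd_one.1 h4)

end Pool.Agent.H522
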