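import Mathlib
import Pool.Agent.H522.ExactOrbits

/-! H522: exact patterns of primes in orbits of affine maps `x ↦ a x + b`. -/

set_option autoImplicit false

open Finset Filter

namespace Pool.Agent.H522

/-- the map `x ↦ a x + b` -/
def aff (a b : ℤ) : ℤ → ℤ := fun x => a * x + b

theorem aff_iter (a b : ℤ) (t : ℕ) (x : ℤ) : (aff a b)^[t] x = a ^ t * x + b * ∑ i ∈ range t, a ^ i := by
  induction t with
  | zero => simp
  | succ t ih =>
    rw [Function.iterate_succ_apply', ih, Finset.sum_range_succ']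
    simp only [aff, pow_zero]
    have h1 : ∑ i ∈ range t, a ^ (i + 1) = a * ∑ i ∈ range t, a ^ i := by
      rw [Finset.mul_sum]
      exact Finset.sum_congr rfl fun i _ => by ring
    rw [h1]
    ring

theorem geom_id (a : ℤ) (t : ℕ) : (a - 1) * ∑ i ∈ range t, a ^ i = a ^ t - 1 := by
  rw [mul_comm]; exact geom_sum_mul a t

theorem aff_conj (a b : ℤ) (t : ℕ) (x : ℤ) : (a - 1) * (aff a b)^[t] x + b = a ^ t * ((a - 1) * x + b) := by
  rw [aff_iter]
  have h := geom_id a t
  linear_combination b * h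

theorem aff_ge (a : ℤ) (ha : 2 ≤ a) (t : ℕ) : 1 ≤ a ^ t ∧ ∑ i ∈ range t, a ^ i ≤ a ^ t - 1 ∧
    0 ≤ ∑ i ∈ range t, a ^ i := by
  have h1 : 1 ≤ a ^ t := one_le_pow₀ (by linarith)
  have h3 : 0 ≤ ∑ i ∈ range t, a ^ i := Finset.sum_nonneg fun i _ => by positivity
  refine ⟨h1, ?_, h3⟩
  have h2 := geom_id a t
  nlinarith

/-- the coefficients of the iterates at `n + |b|` -/
def affA (a : ℤ) (t : ℕ) : ℕ := (a ^ t).toNat
def affB (a b : ℤ) (t : ℕ) : ℕ := (a ^ t * (b.natAbs : ℤ) + b * ∑ i ∈ range t, a ^ i).toNat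

theorem affB_nonneg (a b : ℤ) (ha : 2 ≤ a) (t : ℕ) :
    0 ≤ a ^ t * (b.natAbs : ℤ) + b * ∑ i ∈ range t, a ^ i := by
  obtain ⟨h1, h2, h3⟩ := aff_ge a ha t
  have h4 : -(b.natAbs : ℤ) ≤ b := by
    rw [← Int.abs_eq_natAbs]; exact neg_abs_le b
  have h5 : (0 : ℤ) ≤ (b.natAbs : ℤ) := by positivity
  nlinarith

theorem aff_val (a b : ℤ) (ha : 2 ≤ a) (t n : ℕ) :
    (aff a b)^[t] ((n + b.natAbs : ℕ) : ℤ) = ((affA a t * n + affB a b t : ℕ) : ℤ) := by
  have h1 : ((affA a t : ℕ) : ℤ) = a ^ t := Int.toNat_of_nonneg (by positivity)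
  have h2 : ((affB a b t : ℕ) : ℤ) = a ^ t * (b.natAbs : ℤ) + b * ∑ i ∈ range t, a ^ i :=
    Int.toNat_of_nonneg (affB_nonneg a b ha t)
  rw [aff_iter]
  push_cast
  rw [h1, h2]
  push_cast
  ring

theorem okE_aff (a b : ℤ) (ha : 2 ≤ a) (hb : b ≠ 0) (hab : IsCoprime a b) (T : Finset ℕ)
    (hT : ∀ t ∈ T, (a - 1) ∣ (t : ℤ)) : OkE (affA a) (affB a b) T := by
  have hA : ∀ t, ((affA a t : ℕ) : ℤ) = a ^ t := fun t => Int.toNat_of_nonneg (by positivity)
  have hB : ∀ t, ((affB a b t : ℕ) : ℤ) = a ^ t * (b.natAbs : ℤ) + b * ∑ i ∈ range t, a ^ i :=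
    fun t => Int.toNat_of_nonneg (affB_nonneg a b ha t)
  refine ⟨fun t => ?_, fun i j hij h => ?_, fun p hp => ?_⟩
  · have h1 := hA t
    have h2 : 0 < a ^ t := by positivity
    omega
  · have h1 : (a ^ i) * (a ^ j * (b.natAbs : ℤ) + b * ∑ i ∈ range j, a ^ i) =
        (a ^ j) * (a ^ i * (b.natAbs : ℤ) + b * ∑ k ∈ range i, a ^ k) := by
      have h0 : ((affA a i : ℕ) : ℤ) * ((affB a b j : ℕ) : ℤ) = ((affA a j : ℕ) : ℤ) * ((affB a b i : ℕ) : ℤ) := by
        exact_mod_cast h
      rw [hA, hA, hB, hB] at h0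
      exact h0
    have h2 := geom_id a i
    have h3 := geom_id a j
    have h4 : b * (a ^ j - a ^ i) = 0 := by
      linear_combination (a - 1) * h1 + b * a ^ j * h2 - b * a ^ i * h3
    rcases mul_eq_zero.1 h4 with h5 | h5
    · exact hb h5
    · apply hij
      have h6 : a ^ i = a ^ j := by linarith
      have h7 : (a.toNat) ^ i = (a.toNat) ^ j := by
        have e1 : ((a.toNat : ℕ) : ℤ) = a := Int.toNat_of_nonneg (by linarith)
        have : (((a.toNat) ^ i : ℕ) : ℤ) = (((a.toNat) ^ j : ℕ) : ℤ) := by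
          push_cast
          rw [e1]
          exact h6
        exact_mod_cast this
      exact Nat.pow_right_injective (by omega) h7
  · have hpZ : Prime (p : ℤ) := Nat.prime_iff_prime_int.1 hp
    -- reduction to a statement on the orbit
    suffices h : ∃ n : ℕ, ∀ t ∈ T, ¬ (p : ℤ) ∣ (aff a b)^[t] ((n + b.natAbs : ℕ) : ℤ) by
      obtain ⟨n, hn⟩ := h
      refine ⟨n, fun t ht hd => hn t ht ?_⟩
      rw [aff_val a b ha]
      exact_mod_cast hd
    by_cases hpa : (p : ℤ) ∣ a
    · have hpb : ¬ (p : ℤ) ∣ b := fun h => hpZ.not_isUnit (hab.isUnit_of_dvd' hpa h)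
      refine ⟨1 + (p - 1) * b.natAbs, fun t _ hd => ?_⟩
      have hx : ((1 + (p - 1) * b.natAbs + b.natAbs : ℕ) : ℤ) = 1 + p * b.natAbs := by
        have : 1 + (p - 1) * b.natAbs + b.natAbs = 1 + p * b.natAbs := by
          have h1 := hp.one_lt
          obtain ⟨q, rfl⟩ : ∃ q, p = q + 1 := ⟨p - 1, by omega⟩
          simp only [Nat.add_sub_cancel]
          ring
        rw [this]; push_cast; ring
      rw [hx] at hd
      rcases Nat.eq_zero_or_pos t with rfl | ht
      · simp only [Function.iterate_zero, id] at hd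
        have h1 : (p : ℤ) ∣ 1 := by
          have := dvd_sub hd (dvd_mul_right (p : ℤ) (b.natAbs : ℤ))
          simpa using this
        exact hpZ.not_isUnit (isUnit_of_dvd_one h1)
      · obtain ⟨s, rfl⟩ : ∃ s, t = s + 1 := ⟨t - 1, by omega⟩
        rw [Function.iterate_succ_apply'] at hd
        simp only [aff] at hd
        apply hpb
        have := dvd_sub hd (Dvd.dvd.mul_right hpa ((aff a b)^[s] (1 + p * (b.natAbs : ℤ))))
        simpa [aff] using this
    · by_cases hpb : (p : ℤ) ∣ b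
      · refine ⟨1 + (p - 1) * b.natAbs, fun t _ hd => ?_⟩
        have hx : ((1 + (p - 1) * b.natAbs + b.natAbs : ℕ) : ℤ) = 1 + p * b.natAbs := by
          have : 1 + (p - 1) * b.natAbs + b.natAbs = 1 + p * b.natAbs := by
            have h1 := hp.one_lt
            obtain ⟨q, rfl⟩ : ∃ q, p = q + 1 := ⟨p - 1, by omega⟩
            simp only [Nat.add_sub_cancel]
            ring
          rw [this]; push_cast; ring
        rw [hx, aff_iter] at hd
        have h1 : (p : ℤ) ∣ a ^ t := by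
          have h2 : a ^ t = (a ^ t * (1 + p * (b.natAbs : ℤ)) + b * ∑ i ∈ range t, a ^ i) -
              (p * (a ^ t * b.natAbs) + b * ∑ i ∈ range t, a ^ i) := by ring
          rw [h2]
          exact dvd_sub hd (dvd_add (dvd_mul_right _ _) (Dvd.dvd.mul_right hpb _))
        exact hpa (hpZ.dvd_of_dvd_pow h1)
      · by_cases hp1 : (p : ℤ) ∣ a - 1
        · refine ⟨1 + (p - 1) * b.natAbs, fun t ht hd => ?_⟩
          have hx : ((1 + (p - 1) * b.natAbs + b.natAbs : ℕ) : ℤ) = 1 + p * b.natAbs := by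
            have : 1 + (p - 1) * b.natAbs + b.natAbs = 1 + p * b.natAbs := by
              have h1 := hp.one_lt
              obtain ⟨q, rfl⟩ : ∃ q, p = q + 1 := ⟨p - 1, by omega⟩
              simp only [Nat.add_sub_cancel]
              ring
            rw [this]; push_cast; ring
          rw [hx, aff_iter] at hd
          -- modulo `p`: `a = 1`
          have h2 : (p : ℤ) ∣ a ^ t - 1 := by
            rw [← geom_id a t]
            exact Dvd.dvd.mul_right hp1 _
          have h3 : (p : ℤ) ∣ (∑ i ∈ range t, a ^ i) - t := by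
            have h4 : (∑ i ∈ range t, a ^ i) - (t : ℤ) = ∑ i ∈ range t, (a ^ i - 1) := by
              rw [Finset.sum_sub_distrib]; simp
            rw [h4]
            apply Finset.dvd_sum
            intro i _
            rw [← geom_id a i]
            exact Dvd.dvd.mul_right hp1 _
          have h5 : (p : ℤ) ∣ (t : ℤ) := hp1.trans (hT t ht)
          have h6 : (p : ℤ) ∣ ∑ i ∈ range t, a ^ i := by
            have := dvd_add h3 h5
            simpa using this
          have h7 : (1 : ℤ) = (a ^ t * (1 + p * (b.natAbs : ℤ)) + b * ∑ i ∈ range t, a ^ i) -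
              ((a ^ t - 1) + p * (a ^ t * b.natAbs) + b * ∑ i ∈ range t, a ^ i) := by ring
          have h8 : (p : ℤ) ∣ 1 := by
            rw [h7]
            exact dvd_sub hd (dvd_add (dvd_add h2 (dvd_mul_right _ _)) (Dvd.dvd.mul_left h6 _))
          exact hpZ.not_isUnit (isUnit_of_dvd_one h8)
        · -- the fixed point
          have hcop : IsCoprime (a - 1) (p : ℤ) := (hpZ.coprime_iff_not_dvd.2 hp1).symm
          obtain ⟨u, v, huv⟩ := hcop
          have hp0 : (p : ℤ) ≠ 0 := hpZ.ne_zero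
          refine ⟨((u * (-b - (a - 1) * b.natAbs)) % p).toNat, fun t _ hd => ?_⟩
          obtain ⟨w, hw⟩ : ∃ w : ℤ, w = (u * (-b - (a - 1) * b.natAbs)) / p := ⟨_, rfl⟩
          have h2 : ((((u * (-b - (a - 1) * b.natAbs)) % p).toNat : ℕ) : ℤ) =
              u * (-b - (a - 1) * b.natAbs) - p * w := by
            rw [Int.toNat_of_nonneg (Int.emod_nonneg _ hp0), Int.emod_def, hw]
          have h3 := aff_conj a b t ((((u * (-b - (a - 1) * b.natAbs)) % p).toNat + b.natAbs : ℕ) : ℤ)
          have h4 : (p : ℤ) ∣ (a - 1) * ((((u * (-b - (a - 1) * b.natAbs)) % p).toNat + b.natAbs : ℕ) : ℤ) + b := by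
            rw [Nat.cast_add, h2]
            refine ⟨-v * (-b - (a - 1) * b.natAbs) - (a - 1) * w, ?_⟩
            linear_combination (-b - (a - 1) * (b.natAbs : ℤ)) * huv
          apply hpb
          have h5 : b = ((a - 1) * (aff a b)^[t] ((((u * (-b - (a - 1) * b.natAbs)) % p).toNat + b.natAbs : ℕ) : ℤ) + b) -
              (a - 1) * (aff a b)^[t] ((((u * (-b - (a - 1) * b.natAbs)) % p).toNat + b.natAbs : ℕ) : ℤ) := by ring
          rw [h5, h3]
          exact dvd_sub (Dvd.dvd.mul_left h4 _) (Dvd.dvd.mul_left hd _)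

end Pool.Agent.H522
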