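import Mathlib
import Pool.Agent.H522.ExactCount
import Pool.Agent.H522.Gen

/-! H522: sets on which every pattern is realised (shattered sets). -/

set_option autoImplicit false

open Finset Filter

namespace Pool.Agent.H522

variable {α : Type} [DecidableEq α]

/-- every subset of `D ⊆ W` is the trace on `D` of a good subset of `W` -/
def ShatIn (G : Finset α → Prop) (W D : Finset α) : Prop :=
  D ⊆ W ∧ ∀ E, E ⊆ D → ∃ B, B ⊆ W ∧ G B ∧ B ∩ D = E

theorem ShatIn.mono {G : Finset α → Prop} {W D D' : Finset α} (h : ShatIn G W D) (h' : D' ⊆ D) :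
    ShatIn G W D' := by
  refine ⟨h'.trans h.1, fun E hE => ?_⟩
  obtain ⟨B, h1, h2, h3⟩ := h.2 E (hE.trans h')
  refine ⟨B, h1, h2, ?_⟩
  have h4 : B ∩ D' = (B ∩ D) ∩ D' := by
    rw [Finset.inter_assoc, Finset.inter_eq_right.2 h']
  rw [h4, h3, Finset.inter_eq_left.2 hE]

/-- the number of the small subsets -/
theorem card_small (W : Finset α) (k : ℕ) (hk : 1 ≤ k) (hW : 1 ≤ W.card) :
    (W.powerset.filter (fun D => D.card < k)).card ≤ k * W.card ^ (k - 1) := by
  classical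
  have h1 : W.powerset.filter (fun D => D.card < k) = (range k).biUnion (fun i => W.powersetCard i) := by
    ext D
    simp only [Finset.mem_filter, Finset.mem_powerset, Finset.mem_biUnion, Finset.mem_range,
      Finset.mem_powersetCard]
    constructor
    · rintro ⟨h1, h2⟩; exact ⟨D.card, h2, h1, rfl⟩
    · rintro ⟨i, h1, h2, h3⟩; exact ⟨h2, by omega⟩
  rw [h1]
  refine Finset.card_biUnion_le.trans ?_
  have h2 : ∀ i ∈ range k, (W.powersetCard i).card ≤ W.card ^ (k - 1) := by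
    intro i hi
    rw [Finset.mem_range] at hi
    rw [Finset.card_powersetCard]
    exact (Nat.choose_le_pow _ _).trans (Nat.pow_le_pow_right hW (by omega))
  refine (Finset.sum_le_card_nsmul _ _ _ h2).trans ?_
  rw [Finset.card_range, smul_eq_mul]

open Classical in
/-- Pajor's lemma for the good sets -/
theorem card_shat (G : Finset α → Prop) (W : Finset α) (k : ℕ) (hk : 1 ≤ k) (hW : 1 ≤ W.card) :
    (W.powerset.filter (fun B => k ≤ B.card ∧ G B)).card ≤
      (W.powerset.filter (fun D => k ≤ D.card ∧ ShatIn G W D)).card + k * W.card ^ (k - 1) := by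
  obtain ⟨𝓕, h𝓕⟩ : ∃ 𝓕, 𝓕 = W.powerset.filter (fun B => k ≤ B.card ∧ G B) := ⟨_, rfl⟩
  rw [← h𝓕]
  have h1 := Finset.card_le_card_shatterer 𝓕
  have h2 : 𝓕.shatterer ⊆ (W.powerset.filter (fun D => k ≤ D.card ∧ ShatIn G W D)) ∪
      (W.powerset.filter (fun D => D.card < k)) := by
    intro D hD
    rw [Finset.mem_shatterer] at hD
    have hDW : D ⊆ W := by
      obtain ⟨u, hu, hDu⟩ := hD.exists_superset
      rw [h𝓕, Finset.mem_filter, Finset.mem_powerset] at hu
      exact hDu.trans hu.1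
    have hS : ShatIn G W D := by
      refine ⟨hDW, fun E hE => ?_⟩
      obtain ⟨u, hu, hu2⟩ := hD hE
      rw [h𝓕, Finset.mem_filter, Finset.mem_powerset] at hu
      exact ⟨u, hu.1, hu.2.2, by rw [Finset.inter_comm]; exact hu2⟩
    rw [Finset.mem_union, Finset.mem_filter, Finset.mem_filter, Finset.mem_powerset]
    by_cases h3 : k ≤ D.card
    · exact Or.inl ⟨hDW, h3, hS⟩
    · exact Or.inr ⟨hDW, by omega⟩
  have h3 := (Finset.card_le_card h2).trans (Finset.card_union_le _ _)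
  have h4 := card_small W k hk hW
  omega

/-- a numerical inequality -/
theorem exp_ge_cube (d : ℝ) (hd0 : 0 < d) (hd1 : d ≤ 1) (k c1 m : ℕ) (hc1 : 20 / d ≤ c1)
    (h1 : (k : ℝ) + d / 8 * k + c1 ≤ m) (h2 : (m : ℝ) ≤ k + d / 8 * k + 1 + c1) :
    600000 * (m : ℝ) ^ 3 ≤ Real.exp (4 * ((m : ℝ) - k + 1)) := by
  have hc20 : (20 : ℝ) ≤ c1 := by
    refine le_trans ?_ hc1
    rw [le_div_iff₀ hd0]; linarith
  have hk0 : (0 : ℝ) ≤ k := Nat.cast_nonneg _
  have hm0 : (0 : ℝ) < m := by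
    have : 0 ≤ d / 8 * k := by positivity
    linarith
  have hlog : Real.log m ≤ Real.log (c1 + 2) + 2 * k / (c1 + 2) := by
    have h3 : (m : ℝ) ≤ (c1 + 2) * (1 + 2 * k / (c1 + 2)) := by
      have : (c1 + 2 : ℝ) * (1 + 2 * k / (c1 + 2)) = c1 + 2 + 2 * k := by field_simp
      rw [this]
      nlinarith
    calc Real.log m ≤ Real.log ((c1 + 2) * (1 + 2 * k / (c1 + 2))) := Real.log_le_log hm0 h3
      _ = Real.log (c1 + 2) + Real.log (1 + 2 * k / (c1 + 2)) := by
        rw [Real.log_mul (by positivity) (by positivity)]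
      _ ≤ _ := by
        have := Real.log_le_sub_one_of_pos (show (0 : ℝ) < 1 + 2 * k / (c1 + 2) by positivity)
        linarith
  have hlog2 : Real.log ((c1 : ℝ) + 2) ≤ (c1 + 2) / 2 := by
    have h3 := Real.log_le_sub_one_of_pos (show (0 : ℝ) < (c1 + 2) / 2 by positivity)
    rw [Real.log_div (by positivity) (by norm_num)] at h3
    have := Real.log_two_lt_d9
    linarith
  have hk2 : 2 * (k : ℝ) / (c1 + 2) ≤ d / 10 * k := by
    rw [div_le_iff₀ (by positivity)]
    have h3 : 20 ≤ c1 * d := by rwa [div_le_iff₀ hd0] at hc1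
    nlinarith [mul_nonneg hk0 hd0.le]
  have h14 : Real.log 600000 ≤ 14 := by
    rw [Real.log_le_iff_le_exp (by norm_num)]
    have h6 : (2.7 : ℝ) ^ 14 ≤ Real.exp 1 ^ 14 :=
      pow_le_pow_left₀ (by norm_num) (by have := Real.exp_one_gt_d9; linarith) 14
    have h7 : Real.exp 1 ^ 14 = Real.exp 14 := by
      rw [← Real.exp_nat_mul]; norm_num
    rw [h7] at h6
    refine le_trans ?_ h6
    norm_num
  have h5 : Real.log (600000 * (m : ℝ) ^ 3) ≤ 4 * ((m : ℝ) - k + 1) := by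
    rw [Real.log_mul (by norm_num) (by positivity), Real.log_pow]
    push_cast
    nlinarith [mul_nonneg hk0 hd0.le]
  rwa [Real.log_le_iff_le_exp (by positivity)] at h5

open Classical in
/-- many shattered sets -/
theorem shat_count (δ : ℝ) (hδ : 0 < δ) : ∃ C : ℝ, 0 < C ∧ ∀ (α : Type) [DecidableEq α]
    (Ok G : Finset α → Prop), HasSM Ok G → ∀ (k : ℕ) (V : Finset α), 1 ≤ k →
    Ok V → (4 + δ) * k + C ≤ Real.log V.card →
    ((V.card : ℝ) / (C * (k : ℝ) ^ 2)) ^ k ≤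
      ((V.powerset.filter (fun D => k ≤ D.card ∧ ShatIn G V D)).card : ℝ) := by
  obtain ⟨d, hd0, hd1, hdδ⟩ : ∃ d : ℝ, 0 < d ∧ d ≤ 1 ∧ d ≤ δ :=
    ⟨min 1 δ, lt_min one_pos hδ, min_le_left _ _, min_le_right _ _⟩
  obtain ⟨c1, hc1⟩ : ∃ c1 : ℕ, c1 = ⌈20 / d⌉₊ := ⟨_, rfl⟩
  have hc1' : 20 / d ≤ c1 := by rw [hc1]; exact Nat.le_ceil _
  have hc20 : (20 : ℝ) ≤ c1 := by
    refine le_trans ?_ hc1'
    rw [le_div_iff₀ hd0]; linarith
  refine ⟨300000 * ((c1 : ℝ) + 3) ^ 2, by positivity, ?_⟩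
  intro α _ Ok G hsp k V hk hok hV
  have hk' : (1 : ℝ) ≤ k := by exact_mod_cast hk
  obtain ⟨m, hm⟩ : ∃ m : ℕ, m = k + ⌈d / 8 * k⌉₊ + c1 := ⟨_, rfl⟩
  have hm1 : (k : ℝ) + d / 8 * k + c1 ≤ m := by
    rw [hm]; push_cast
    have := Nat.le_ceil (d / 8 * (k : ℝ))
    linarith
  have hm2 : (m : ℝ) ≤ k + d / 8 * k + 1 + c1 := by
    rw [hm]; push_cast
    have := (Nat.ceil_lt_add_one (a := d / 8 * (k : ℝ)) (by positivity)).le
    linarith
  have hkm : k < m := by
    have : 20 ≤ c1 := by exact_mod_cast hc20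
    omega
  have hm20 : 2 ≤ m := by omega
  have hmr : (0 : ℝ) < m := by exact_mod_cast (by omega : 0 < m)
  have hVm : 4 * (m : ℝ) + 29 / 50 ≤ Real.log V.card := by
    refine le_trans ?_ hV
    nlinarith
  have hVpos : (0 : ℝ) < V.card := by
    by_contra hcon
    have h0 : (V.card : ℝ) = 0 := le_antisymm (not_lt.1 hcon) (Nat.cast_nonneg _)
    rw [h0, Real.log_zero] at hVm
    linarith
  have hV1 : 1 ≤ V.card := by
    have : 0 < V.card := by exact_mod_cast hVpos
    omega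
  have hVexp : Real.exp (4 * (m : ℝ)) ≤ V.card := by
    calc Real.exp (4 * (m : ℝ)) ≤ Real.exp (Real.log V.card) := Real.exp_le_exp.2 (by linarith)
      _ = V.card := Real.exp_log hVpos
  have hcube := exp_ge_cube d hd0 hd1 k c1 m hc1' hm1 hm2
  have h1 := super_isoG hsp m hm20 V hok hVm
  have h2 : ((V.powerset.filter (fun B => m ≤ B.card ∧ G B)).card : ℝ) ≤
      ((V.powerset.filter (fun B => k ≤ B.card ∧ G B)).card : ℝ) := by
    have : (V.powerset.filter (fun B => m ≤ B.card ∧ G B)) ⊆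
        (V.powerset.filter (fun B => k ≤ B.card ∧ G B)) := by
      intro B hB
      rw [Finset.mem_filter] at hB ⊢
      exact ⟨hB.1, by omega, hB.2.2⟩
    exact_mod_cast Finset.card_le_card this
  have h3 : ((V.powerset.filter (fun B => k ≤ B.card ∧ G B)).card : ℝ) ≤
      ((V.powerset.filter (fun D => k ≤ D.card ∧ ShatIn G V D)).card : ℝ) + k * (V.card : ℝ) ^ (k - 1) := by
    exact_mod_cast card_shat G V k hk hV1
  -- the small sets are few
  obtain ⟨b, hb⟩ : ∃ b : ℝ, b = (V.card : ℝ) / (300000 * (m : ℝ) ^ 2) := ⟨_, rfl⟩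
  rw [← hb] at h1
  have hbm : 2 * (m : ℝ) ≤ b := by
    rw [hb, le_div_iff₀ (by positivity)]
    refine le_trans ?_ hVexp
    calc 2 * (m : ℝ) * (300000 * (m : ℝ) ^ 2) = 600000 * (m : ℝ) ^ 3 := by ring
      _ ≤ Real.exp (4 * ((m : ℝ) - k + 1)) := hcube
      _ ≤ _ := Real.exp_le_exp.2 (by linarith)
  have hm1r : (1 : ℝ) ≤ m := by exact_mod_cast (by omega : 1 ≤ m)
  have hb0 : 0 < b := by linarith
  have h4 : 2 * ((k : ℝ) * (V.card : ℝ) ^ (k - 1)) ≤ b ^ m := by
    have e1 : b ^ m = (V.card : ℝ) ^ m / (300000 * (m : ℝ) ^ 2) ^ m := by rw [hb, div_pow]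
    rw [e1, le_div_iff₀ (by positivity)]
    have e2 : m = (k - 1) + (m - k + 1) := by omega
    have e3 : (V.card : ℝ) ^ m = (V.card : ℝ) ^ (k - 1) * (V.card : ℝ) ^ (m - k + 1) := by
      rw [← pow_add, ← e2]
    rw [e3]
    have e4 : (600000 * (m : ℝ) ^ 3) ^ m ≤ (V.card : ℝ) ^ (m - k + 1) := by
      calc (600000 * (m : ℝ) ^ 3) ^ m ≤ (Real.exp (4 * ((m : ℝ) - k + 1))) ^ m :=
            pow_le_pow_left₀ (by positivity) hcube m
        _ = (Real.exp (4 * (m : ℝ))) ^ (m - k + 1) := by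
            rw [← Real.exp_nat_mul, ← Real.exp_nat_mul]
            congr 1
            have : ((m - k + 1 : ℕ) : ℝ) = (m : ℝ) - k + 1 := by
              rw [Nat.cast_add, Nat.cast_sub hkm.le]; simp
            rw [this]; ring
        _ ≤ _ := pow_le_pow_left₀ (Real.exp_pos _).le hVexp _
    have e5 : 2 * (k : ℝ) * (300000 * (m : ℝ) ^ 2) ^ m ≤ (600000 * (m : ℝ) ^ 3) ^ m := by
      have e6 : 2 * (k : ℝ) ≤ (2 * m) ^ m := by
        have e7 : (2 * (m : ℝ)) ^ 1 ≤ (2 * m) ^ m :=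
          pow_le_pow_right₀ (by linarith) (by omega)
        have e8 : (k : ℝ) ≤ m := by exact_mod_cast hkm.le
        rw [pow_one] at e7
        linarith
      calc 2 * (k : ℝ) * (300000 * (m : ℝ) ^ 2) ^ m ≤ (2 * m) ^ m * (300000 * (m : ℝ) ^ 2) ^ m :=
            mul_le_mul_of_nonneg_right e6 (by positivity)
        _ = _ := by rw [← mul_pow]; congr 1; ring
    calc 2 * ((k : ℝ) * (V.card : ℝ) ^ (k - 1)) * (300000 * (m : ℝ) ^ 2) ^ m
        = (V.card : ℝ) ^ (k - 1) * (2 * (k : ℝ) * (300000 * (m : ℝ) ^ 2) ^ m) := by ring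
      _ ≤ (V.card : ℝ) ^ (k - 1) * (V.card : ℝ) ^ (m - k + 1) :=
        mul_le_mul_of_nonneg_left (e5.trans e4) (pow_nonneg hVpos.le _)
  have h5 : 2 * b ^ k ≤ b ^ m := by
    have e1 : m = k + (m - k) := by omega
    calc 2 * b ^ k ≤ b ^ (m - k) * b ^ k := by
          apply mul_le_mul_of_nonneg_right _ (by positivity)
          calc (2 : ℝ) ≤ b := by linarith
            _ = b ^ 1 := (pow_one b).symm
            _ ≤ b ^ (m - k) := pow_le_pow_right₀ (by linarith) (by omega)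
      _ = b ^ m := by rw [← pow_add]; congr 1; omega
  have h6 : ((V.card : ℝ) / (300000 * ((c1 : ℝ) + 3) ^ 2 * (k : ℝ) ^ 2)) ^ k ≤ b ^ k := by
    apply pow_le_pow_left₀ (by positivity)
    rw [hb]
    apply div_le_div_of_nonneg_left hVpos.le (by positivity)
    have e1 : (m : ℝ) ≤ (c1 + 3) * k := by nlinarith
    have e2 := pow_le_pow_left₀ hmr.le e1 2
    rw [mul_pow] at e2
    nlinarith
  linarith

end Pool.Agent.H522
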