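import Mathlib
import Pool.Agent.H522.Count
import Pool.Agent.H522.Shatter

/-! H522: from one good set inside every set of `K` elements to many good sets and to many shattered sets. -/

set_option autoImplicit false

open Finset Filter

namespace Pool.Agent.H522

variable {α : Type} [DecidableEq α]

/-- averaging over the subsets with `N` elements -/
theorem avg_count {T : Finset α} {N m : ℕ} (hN : 1 ≤ N) (hNT : N ≤ #T) (𝓓 : Finset (Finset α))
    (h𝓓 : ∀ D ∈ 𝓓, D ⊆ T ∧ m ≤ #D) (h : ∀ W ∈ T.powersetCard N, ∃ D ∈ 𝓓, D ⊆ W) :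
    ((#T : ℝ) / N) ^ m ≤ #𝓓 := by
  classical
  have hTpos : (0 : ℝ) < #T := by
    have : 0 < #T := by omega
    exact_mod_cast this
  have hKpos : (0 : ℝ) < N := by exact_mod_cast hN
  have hCpos : (0 : ℝ) < ((#T).choose N : ℝ) := by exact_mod_cast Nat.choose_pos hNT
  have hKT1 : (N : ℝ) / #T ≤ 1 := by
    rw [div_le_one hTpos]; exact_mod_cast hNT
  have h1 : T.powersetCard N ⊆ 𝓓.biUnion (fun F => (T.powersetCard N).filter (fun W => F ⊆ W)) := by
    intro W hW
    obtain ⟨F, hF, hFW⟩ := h W hW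
    rw [Finset.mem_biUnion]
    exact ⟨F, hF, Finset.mem_filter.2 ⟨hW, hFW⟩⟩
  have h2 : ((#T).choose N : ℝ) ≤ ∑ F ∈ 𝓓, (#((T.powersetCard N).filter (fun W => F ⊆ W)) : ℝ) := by
    have h3 := (Finset.card_le_card h1).trans Finset.card_biUnion_le
    rw [Finset.card_powersetCard] at h3
    exact_mod_cast h3
  have h3 : ∀ F ∈ 𝓓, (#((T.powersetCard N).filter (fun W => F ⊆ W)) : ℝ) ≤
      ((N : ℝ) / #T) ^ m * ((#T).choose N : ℝ) := by
    intro F hF
    obtain ⟨hF1, hF2⟩ := h𝓓 F hF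
    refine (Pool.Agent.H522.card_sup_le T F hF1 N hNT).trans ?_
    apply mul_le_mul_of_nonneg_right _ hCpos.le
    exact pow_le_pow_of_le_one (by positivity) hKT1 hF2
  have h4 := h2.trans (Finset.sum_le_sum h3)
  rw [Finset.sum_const, nsmul_eq_mul] at h4
  have h5 : 1 ≤ (#𝓓 : ℝ) * ((N : ℝ) / #T) ^ m := by
    by_contra hcon
    push Not at hcon
    have h6 : (#𝓓 : ℝ) * (((N : ℝ) / #T) ^ m * ((#T).choose N : ℝ)) < ((#T).choose N : ℝ) := by
      have := mul_lt_mul_of_pos_right hcon hCpos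
      linarith
    linarith
  have h6 : (0 : ℝ) < ((N : ℝ) / #T) ^ m := by positivity
  have h7 : ((#T : ℝ) / N) ^ m * ((N : ℝ) / #T) ^ m = 1 := by
    rw [← mul_pow]
    have : (#T : ℝ) / N * (N / #T) = 1 := by field_simp
    rw [this, one_pow]
  rw [← h7] at h5
  exact le_of_mul_le_mul_right h5 h6

open Classical in
/-- If every `K`-element subset of `E` contains a good set with at least `2 m` elements, there are many good sets, and
many `m`-element sets on which all patterns are traces of good sets. -/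
theorem indep_of_local (G : Finset α → Prop) (E : Finset α) (m K N : ℕ) (hm : 1 ≤ m) (hK : 1 ≤ K)
    (hN : N = m * K ^ 2 + K) (h : ∀ W ⊆ E, #W = K → ∃ F ⊆ W, 2 * m ≤ #F ∧ G F) (hE : N ≤ #E) :
    ((#E : ℝ) / N) ^ m ≤ #(E.powerset.filter (fun F => m ≤ #F ∧ #F ≤ K ∧ G F)) ∧
    ((#E : ℝ) / N) ^ m ≤
      #(E.powerset.filter (fun D => #D = m ∧ ∀ S ⊆ D, ∃ F ⊆ E, F ∩ D = S ∧ m ≤ #F ∧ #F ≤ K ∧ G F)) := by
  have hKN : K ≤ N := by rw [hN]; exact Nat.le_add_left _ _
  have hN1 : 1 ≤ N := hK.trans hKN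
  have hKpos : (0 : ℝ) < K := by exact_mod_cast hK
  have hNpos : (0 : ℝ) < N := by exact_mod_cast hN1
  -- the number of the good sets
  have hcount : ∀ W ⊆ E, K ≤ #W → ((#W : ℝ) / K) ^ (2 * m) ≤
      #(W.powerset.filter (fun F => 2 * m ≤ #F ∧ #F ≤ K ∧ G F)) := by
    intro W hW hKW
    apply avg_count hK hKW
    · intro D hD
      rw [Finset.mem_filter, Finset.mem_powerset] at hD
      exact ⟨hD.1, hD.2.1⟩
    · intro W' hW'
      have hW'' := Finset.mem_powersetCard.1 hW'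
      obtain ⟨F, hF1, hF2, hF3⟩ := h W' (hW''.1.trans hW) hW''.2
      refine ⟨F, ?_, hF1⟩
      rw [Finset.mem_filter, Finset.mem_powerset]
      exact ⟨hF1.trans hW''.1, hF2, (Finset.card_le_card hF1).trans hW''.2.le, hF3⟩
  constructor
  · have h1 := hcount E (Finset.Subset.refl _) (hKN.trans hE)
    have hTK : 1 ≤ (#E : ℝ) / K := by
      rw [one_le_div hKpos]
      exact_mod_cast hKN.trans hE
    calc ((#E : ℝ) / N) ^ m ≤ ((#E : ℝ) / K) ^ m := by
          apply pow_le_pow_left₀ (by positivity)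
          exact div_le_div_of_nonneg_left (by positivity) hKpos (by exact_mod_cast hKN)
      _ ≤ ((#E : ℝ) / K) ^ (2 * m) := pow_le_pow_right₀ hTK (by omega)
      _ ≤ _ := h1
      _ ≤ _ := by
        have hsub : E.powerset.filter (fun F => 2 * m ≤ #F ∧ #F ≤ K ∧ G F) ⊆
            E.powerset.filter (fun F => m ≤ #F ∧ #F ≤ K ∧ G F) := by
          intro F hF
          rw [Finset.mem_filter] at hF ⊢
          exact ⟨hF.1, by omega, hF.2.2.1, hF.2.2.2⟩
        exact_mod_cast Finset.card_le_card hsub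
  · apply avg_count hN1 hE
    · intro D hD
      rw [Finset.mem_filter, Finset.mem_powerset] at hD
      exact ⟨hD.1, hD.2.1.ge⟩
    · intro W hW
      have hW' := Finset.mem_powersetCard.1 hW
      have h1 := hcount W hW'.1 (by rw [hW'.2]; exact hKN)
      rw [hW'.2] at h1
      have h2 := card_shat (fun F => 2 * m ≤ #F ∧ #F ≤ K ∧ G F) W m hm (by rw [hW'.2]; exact hN1)
      rw [hW'.2] at h2
      have h3 : #(W.powerset.filter (fun F => 2 * m ≤ #F ∧ #F ≤ K ∧ G F)) ≤
          #(W.powerset.filter (fun B => m ≤ #B ∧ (2 * m ≤ #B ∧ #B ≤ K ∧ G B))) := by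
        apply Finset.card_le_card
        intro F hF
        rw [Finset.mem_filter] at hF ⊢
        exact ⟨hF.1, by omega, hF.2⟩
      have h4 : (m : ℝ) * (N : ℝ) ^ (m - 1) < ((N : ℝ) / K) ^ (2 * m) := by
        rw [div_pow, lt_div_iff₀ (by positivity)]
        have e1 : (N : ℝ) ^ (2 * m) = (N : ℝ) ^ (m - 1) * ((N : ℝ) * (N : ℝ) ^ m) := by
          rw [← pow_succ', ← pow_add]
          congr 1
          omega
        have e2 : (m : ℝ) * (K : ℝ) ^ (2 * m) < (N : ℝ) * (N : ℝ) ^ m := by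
          have hNr : (N : ℝ) = m * K ^ 2 + K := by rw [hN]; push_cast; ring
          have hm1 : (1 : ℝ) ≤ m := by exact_mod_cast hm
          have hK1 : (1 : ℝ) ≤ K := by exact_mod_cast hK
          have e3 : (m : ℝ) < N := by
            rw [hNr]
            nlinarith [one_le_pow₀ hK1 (n := 2)]
          have e4 : (K : ℝ) ^ (2 * m) ≤ (N : ℝ) ^ m := by
            rw [pow_mul]
            apply pow_le_pow_left₀ (by positivity)
            rw [hNr]
            nlinarith [one_le_pow₀ hK1 (n := 2)]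
          have e5 : (0 : ℝ) < (K : ℝ) ^ (2 * m) := by positivity
          calc (m : ℝ) * (K : ℝ) ^ (2 * m) < (N : ℝ) * (K : ℝ) ^ (2 * m) :=
                mul_lt_mul_of_pos_right e3 e5
            _ ≤ _ := mul_le_mul_of_nonneg_left e4 hNpos.le
        rw [e1]
        calc (m : ℝ) * (N : ℝ) ^ (m - 1) * (K : ℝ) ^ (2 * m)
            = (N : ℝ) ^ (m - 1) * ((m : ℝ) * (K : ℝ) ^ (2 * m)) := by ring
          _ < _ := mul_lt_mul_of_pos_left e2 (by positivity)
      have h5 : 0 < #(W.powerset.filter (fun D => m ≤ #D ∧ ShatIn (fun F => 2 * m ≤ #F ∧ #F ≤ K ∧ G F) W D)) := by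
        by_contra hcon
        have h6 : #(W.powerset.filter (fun D => m ≤ #D ∧ ShatIn (fun F => 2 * m ≤ #F ∧ #F ≤ K ∧ G F) W D)) = 0 := by
          omega
        rw [h6, zero_add] at h2
        have h8 : #(W.powerset.filter (fun F => 2 * m ≤ #F ∧ #F ≤ K ∧ G F)) ≤ m * N ^ (m - 1) := by
          refine h3.trans (le_trans (le_of_eq ?_) h2)
          congr
        have h7 : ((#(W.powerset.filter (fun F => 2 * m ≤ #F ∧ #F ≤ K ∧ G F)) : ℕ) : ℝ) ≤
          (m : ℝ) * (N : ℝ) ^ (m - 1) := by exact_mod_cast h8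
        linarith
      obtain ⟨D, hD⟩ := Finset.card_pos.1 h5
      rw [Finset.mem_filter, Finset.mem_powerset] at hD
      obtain ⟨hDW, hmD, hsh⟩ := hD
      obtain ⟨D', hD'D, hD'c⟩ := Finset.exists_subset_card_eq hmD
      have hsh' := hsh.mono hD'D
      refine ⟨D', ?_, hD'D.trans hDW⟩
      rw [Finset.mem_filter, Finset.mem_powerset]
      refine ⟨(hD'D.trans hDW).trans hW'.1, hD'c, fun S hS => ?_⟩
      obtain ⟨F, hF1, ⟨hF2, hF2', hF2''⟩, hF3⟩ := hsh'.2 S hS
      exact ⟨F, hF1.trans hW'.1, hF3, by omega, hF2', hF2''⟩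

end Pool.Agent.H522
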