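import Mathlib
import Pool.Agent.H522.Spread
import Pool.Agent.H522.Gen

/-! H522: the measure on the isolated prime patterns of an admissible set, for `n` in a residue class. -/

set_option autoImplicit false

open Finset Filter

namespace Pool.Agent.H522

open Pool.Agent.H95R2.BG.LF Pool.Agent.Y826.ZC

/-- `B` is an isolated prime pattern of integers `n ≡ a (mod q)` -/
def IsoIn (q : ℕ) (a : ℤ) (B : Finset ℤ) : Prop := ∀ (R : ℕ) (ε : ℝ), 0 < ε → ∃ᶠ x : ℝ in atTop,
  x ^ (1 - ε) ≤ ((Pat q a B R x).ncard : ℝ)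

theorem modC {q Q c : ℕ} {a : ℤ} (hqQ : q ∣ Q) (hcr : (c : ℤ) ≡ a [ZMOD q]) (n : ℕ) :
    ((Q * n + c : ℕ) : ℤ) ≡ a [ZMOD q] := by
  push_cast
  have h1 : (Q : ℤ) * n ≡ 0 [ZMOD q] := by
    rw [Int.modEq_zero_iff_dvd]
    exact (Int.natCast_dvd_natCast.2 hqQ).mul_right _
  simpa using h1.add hcr

/-- the measure on the isolated patterns -/
theorem spread0C (q : ℕ) (hq : 0 < q) (a : ℤ) (m : ℕ) (hm : 2 ≤ m) (T : Finset ℤ) (hTq : ∀ s ∈ T, IsCoprime (a + s) (q : ℤ)) (hT1 : 4 * (m : ℝ) + 29 / 50 ≤ Real.log T.card)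
    (hT2 : Real.log T.card ≤ 5 * m)
    (hadm : ∀ p : ℕ, p.Prime → ∃ r : ℤ, ∀ s ∈ T, ¬ (p : ℤ) ∣ r + s) :
    ∃ lam : Finset ℤ → ℝ, (∀ B, 0 ≤ lam B) ∧ (∀ B, lam B ≠ 0 → IsoIn q a B) ∧
      ∑ B ∈ T.powerset, lam B ≤ 1 ∧
      (∀ v ∈ T, (m : ℝ) / T.card ≤ ∑ B ∈ T.powerset.filter (fun B => v ∈ B), lam B) ∧
      ∀ U : Finset ℤ, U ⊆ T → U.Nonempty → ∑ B ∈ T.powerset.filter (fun B => U ⊆ B), lam B ≤
        (250 * U.card * m / T.card) ^ U.card := by
  classical
  have hm' : (2 : ℝ) ≤ m := by exact_mod_cast hm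
  obtain ⟨K0, hT⟩ : ∃ K0, T.card = K0 + 1 := by
    refine ⟨T.card - 1, ?_⟩
    have : T.card ≠ 0 := by
      intro h0
      rw [h0] at hT1
      simp at hT1
      linarith
    omega
  have hTc : (T.card : ℝ) = (K0 : ℝ) + 1 := by rw [hT]; push_cast; ring
  -- the constants of the non isolated patterns
  have hbad : ∀ B : Finset ℤ, ∃ (R : ℕ) (ε : ℝ), 0 < ε ∧ (¬ IsoIn q a B →
      ∀ᶠ x : ℝ in atTop, ((Pat q a B R x).ncard : ℝ) < x ^ (1 - ε)) := by
    intro B
    by_cases h : IsoIn q a B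
    · exact ⟨0, 1, one_pos, fun h' => absurd h h'⟩
    · unfold IsoIn at h
      push Not at h
      obtain ⟨R, ε, hε, h2⟩ := h
      refine ⟨R, ε, hε, fun _ => ?_⟩
      filter_upwards [h2] with x hx
      exact hx
  choose Rf ef he hf using hbad
  obtain ⟨R0, hR0⟩ : ∃ R0 : ℕ, ∀ s ∈ T, |s| ≤ R0 := by
    refine ⟨T.sup (fun s => s.natAbs), fun s hs => ?_⟩
    rw [Int.abs_eq_natAbs]
    exact_mod_cast Finset.le_sup (f := fun s : ℤ => s.natAbs) hs
  obtain ⟨R, hR1, hR2⟩ : ∃ R : ℕ, R0 ≤ R ∧ ∀ B ∈ T.powerset, Rf B ≤ R :=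
    ⟨R0 + T.powerset.sup Rf, by omega, fun B hB => (Finset.le_sup (f := Rf) hB).trans (by omega)⟩
  obtain ⟨B0, hB0, hmin⟩ := Finset.exists_min_image T.powerset ef ⟨∅, Finset.empty_mem_powerset _⟩
  obtain ⟨Q, c, hQ0, hcR, hcr, hqQ, hpr, hcomp⟩ := exact_forms T q a hq hTq R
    (fun s hs => (hR0 s hs).trans (by exact_mod_cast hR1))
  have hTR : ∀ s ∈ T, |s| ≤ R := fun s hs => (hR0 s hs).trans (by exact_mod_cast hR1)
  have hpos : ∀ s ∈ T, 0 ≤ (c : ℤ) + s := by
    intro s hs
    have h1 := (abs_le.1 (hTR s hs)).1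
    omega
  have hadmL := forms_adm T K0 hT hadm Q c hQ0 hpr hpos
  set f := T.orderEmbOfFin hT with hfdef
  have hmem : ∀ i, f i ∈ T := fun i => Finset.orderEmbOfFin_mem T hT i
  have hsurj : ∀ t ∈ T, ∃ i, f i = t := by
    intro t ht
    have : t ∈ Set.range (T.orderEmbOfFin hT) := by
      rw [Finset.range_orderEmbOfFin]; exact ht
    obtain ⟨i, hi⟩ := this
    exact ⟨i, hi⟩
  have hcast : ∀ i, ((((c : ℤ) + f i).toNat : ℕ) : ℤ) = c + f i := fun i =>
    Int.toNat_of_nonneg (hpos _ (hmem i))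
  rw [hTc] at hT1 hT2
  obtain ⟨θ, hθ, hmaster⟩ := master m K0 hm hT1 hT2 _ _ hadmL
  -- large x
  have hQr : (0 : ℝ) < Q := by exact_mod_cast hQ0
  have hall : ∀ᶠ x : ℝ in atTop, ∀ B ∈ T.powerset, ¬ IsoIn q a B →
      ((Pat q a B (Rf B) x).ncard : ℝ) < x ^ (1 - ef B) := by
    rw [Filter.eventually_all_finset]
    intro B _
    by_cases h : IsoIn q a B
    · exact Filter.Eventually.of_forall fun x h' => absurd h h'
    · filter_upwards [hf B h] with x hx _ using hx
  have htend : Tendsto (fun X : ℝ => 4 * Q * X) atTop atTop :=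
    tendsto_id.const_mul_atTop (by positivity)
  obtain ⟨e, he'⟩ : ∃ e : ℝ, e = ef B0 / 2 := ⟨_, rfl⟩
  have he0 : 0 < e := by rw [he']; have := he B0; positivity
  obtain ⟨C, hC⟩ : ∃ C : ℝ, C = 2 ^ (K0 + 1) * (4 * (Q : ℝ)) ^ (1 - 2 * e) := ⟨_, rfl⟩
  have hsmall : ∀ᶠ X : ℝ in atTop, C * X ^ (-e) ≤ θ * (m / ((K0 : ℝ) + 1)) := by
    have t1 : Tendsto (fun x : ℝ => C * x ^ (-e)) atTop (nhds 0) := by
      simpa using (tendsto_rpow_neg_atTop he0).const_mul C
    have hp : 0 < θ * (m / ((K0 : ℝ) + 1)) := by positivity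
    exact (t1.eventually (gt_mem_nhds hp)).mono fun x hx => hx.le
  obtain ⟨X, ⟨w, hw0, hw1, hwsum, hwi, hwU⟩, hX2, hX3, hX4, hX5⟩ := ((hmaster e he0).and
    ((htend.eventually hall).and (hsmall.and ((eventually_ge_atTop (c : ℝ)).and
      (eventually_ge_atTop (1 : ℝ)))))).exists
  have hX0 : 0 < X := by linarith
  -- the pattern of `n`
  set Bn : ℕ → Finset ℤ := fun n =>
    T.filter (fun s => ∃ p : ℕ, p.Prime ∧ (p : ℤ) = ((Q * n + c : ℕ) : ℤ) + s) with hBn
  have hsum : ∀ (n : ℕ) (i : Fin (K0 + 1)), ((Q * n + ((c : ℤ) + f i).toNat : ℕ) : ℤ) =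
      ((Q * n + c : ℕ) : ℤ) + f i := by
    intro n i
    have h1 := hcast i
    push_cast at h1 ⊢
    rw [h1]
    ring
  have hBi : ∀ (n : ℕ) (i : Fin (K0 + 1)), f i ∈ Bn n ↔ (Q * n + ((c : ℤ) + f i).toNat).Prime := by
    intro n i
    rw [hBn]
    simp only [Finset.mem_filter]
    constructor
    · rintro ⟨_, p, hp, hpe⟩
      rw [← hsum n i] at hpe
      have : p = Q * n + ((c : ℤ) + f i).toNat := by exact_mod_cast hpe
      rwa [this] at hp
    · intro hp
      exact ⟨hmem i, _, hp, hsum n i⟩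
  have hBT : ∀ n, Bn n ∈ T.powerset := fun n => Finset.mem_powerset.2 (Finset.filter_subset _ _)
  set I : Finset ℕ := Icc 1 ⌊3 * X⌋₊ with hI
  refine ⟨fun B => if IsoIn q a B then ∑ n ∈ I.filter (fun n => Bn n = B), w n else 0, ?_, ?_, ?_, ?_, ?_⟩
  · intro B
    dsimp only
    split_ifs
    · exact Finset.sum_nonneg fun n _ => hw0 n
    · exact le_rfl
  · intro B hB
    by_contra hcon
    apply hB
    dsimp only
    rw [if_neg hcon]
  · refine le_trans ?_ hwsum
    rw [← Finset.sum_fiberwise_of_maps_to (s := I) (t := T.powerset) (g := Bn) (fun n _ => hBT n)]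
    refine Finset.sum_le_sum fun B _ => ?_
    split_ifs
    · exact le_rfl
    · exact Finset.sum_nonneg fun n _ => hw0 n
  · intro v hv
    obtain ⟨i, hi⟩ := hsurj v hv
    -- the contribution of the non isolated patterns
    have hnon : ∑ n ∈ I.filter (fun n => ¬ IsoIn q a (Bn n)), w n ≤ θ * (m / ((K0 : ℝ) + 1)) := by
      refine le_trans ?_ hX3
      have h1 : ∑ n ∈ I.filter (fun n => ¬ IsoIn q a (Bn n)), w n =
          ∑ B ∈ T.powerset, ∑ n ∈ (I.filter (fun n => ¬ IsoIn q a (Bn n))).filter (fun n => Bn n = B), w n :=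
        (Finset.sum_fiberwise_of_maps_to (fun n _ => hBT n) _).symm
      rw [h1]
      have h2 : ∀ B ∈ T.powerset,
          ∑ n ∈ (I.filter (fun n => ¬ IsoIn q a (Bn n))).filter (fun n => Bn n = B), w n ≤
          (4 * (Q : ℝ)) ^ (1 - 2 * e) * X ^ (-e) := by
        intro B hB
        by_cases hiso : IsoIn q a B
        · have : (I.filter (fun n => ¬ IsoIn q a (Bn n))).filter (fun n => Bn n = B) = ∅ := by
            apply Finset.filter_eq_empty_iff.2
            intro n hn hnB
            rw [Finset.mem_filter] at hn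
            rw [hnB] at hn
            exact hn.2 hiso
          rw [this, Finset.sum_empty]
          positivity
        · have h3 : ((I.filter (fun n => ¬ IsoIn q a (Bn n))).filter (fun n => Bn n = B)).card ≤
              (Pat q a B (Rf B) (4 * Q * X)).ncard := by
            rw [← Set.ncard_coe_finset]
            refine Set.ncard_le_ncard_of_injOn (fun n => Q * n + c) ?_ ?_ (Pat_finite _ _ _ _ _)
            · intro n hn
              rw [Finset.mem_coe, Finset.mem_filter, Finset.mem_filter, hI, Finset.mem_Icc] at hn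
              obtain ⟨⟨⟨hn1, hn2⟩, -⟩, hnB⟩ := hn
              apply Pat_anti q a B (hR2 B hB)
              refine ⟨?_, modC hqQ hcr n, fun y hy => ?_⟩
              · have h4 : (n : ℝ) ≤ 3 * X := (Nat.le_floor_iff (by linarith)).1 hn2
                push_cast
                have hQ1 : (1 : ℝ) ≤ Q := by exact_mod_cast hQ0
                have h5 : (Q : ℝ) * n ≤ Q * (3 * X) := mul_le_mul_of_nonneg_left h4 hQr.le
                have h6 : 1 * X ≤ (Q : ℝ) * X := mul_le_mul_of_nonneg_right hQ1 hX0.le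
                linarith
              · rw [← hnB]
                constructor
                · intro hp
                  have hyT : y ∈ T := by
                    by_contra hyT
                    exact hcomp n hn1 y hy hyT hp
                  exact Finset.mem_filter.2 ⟨hyT, hp⟩
                · intro hy'
                  exact (Finset.mem_filter.1 hy').2
            · intro n _ n' _ h
              have h4 : Q * n + c = Q * n' + c := h
              exact Nat.eq_of_mul_eq_mul_left hQ0 (by omega)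
          have h4 := hX2 B hB hiso
          have h5 : (((I.filter (fun n => ¬ IsoIn q a (Bn n))).filter (fun n => Bn n = B)).card : ℝ) ≤
              (4 * Q * X) ^ (1 - 2 * e) := by
            have h6 : (((I.filter (fun n => ¬ IsoIn q a (Bn n))).filter (fun n => Bn n = B)).card : ℝ) ≤
                ((Pat q a B (Rf B) (4 * Q * X)).ncard : ℝ) := by exact_mod_cast h3
            refine h6.trans (h4.le.trans ?_)
            apply Real.rpow_le_rpow_of_exponent_le
            · have hQ1 : (1 : ℝ) ≤ Q := by exact_mod_cast hQ0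
              have := mul_le_mul hQ1 hX5 (by norm_num) hQr.le
              linarith
            · have := hmin B hB
              rw [he']
              linarith
          calc ∑ n ∈ (I.filter (fun n => ¬ IsoIn q a (Bn n))).filter (fun n => Bn n = B), w n
              ≤ ∑ n ∈ (I.filter (fun n => ¬ IsoIn q a (Bn n))).filter (fun n => Bn n = B), X ^ (-(1 - e)) :=
                Finset.sum_le_sum fun n _ => hw1 n
            _ = (((I.filter (fun n => ¬ IsoIn q a (Bn n))).filter (fun n => Bn n = B)).card : ℝ) *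
                X ^ (-(1 - e)) := by rw [Finset.sum_const, nsmul_eq_mul]
            _ ≤ (4 * Q * X) ^ (1 - 2 * e) * X ^ (-(1 - e)) :=
                mul_le_mul_of_nonneg_right h5 (by positivity)
            _ = (4 * (Q : ℝ)) ^ (1 - 2 * e) * X ^ (-e) := by
                rw [Real.mul_rpow (by positivity) hX0.le, mul_assoc, ← Real.rpow_add hX0]
                congr 2
                ring
      refine (Finset.sum_le_sum h2).trans ?_
      rw [Finset.sum_const, Finset.card_powerset, hT, nsmul_eq_mul, hC]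
      push_cast
      rw [mul_assoc]
    have hmain := hwi i
    have h1 : ∑ n ∈ I.filter (fun n => (Q * n + ((c : ℤ) + f i).toNat).Prime), w n ≤
        ∑ n ∈ I.filter (fun n => IsoIn q a (Bn n) ∧ v ∈ Bn n), w n +
        ∑ n ∈ I.filter (fun n => ¬ IsoIn q a (Bn n)), w n := by
      rw [Finset.sum_filter, Finset.sum_filter, Finset.sum_filter, ← Finset.sum_add_distrib]
      refine Finset.sum_le_sum fun n _ => ?_
      have h2 : (Q * n + ((c : ℤ) + f i).toNat).Prime ↔ v ∈ Bn n := by rw [← hBi n i, hi]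
      have h3 := hw0 n
      by_cases h4 : v ∈ Bn n
      · rw [if_pos (h2.2 h4)]
        by_cases h5 : IsoIn q a (Bn n)
        · rw [if_pos ⟨h5, h4⟩, if_neg (by push Not; exact h5)]; linarith
        · rw [if_neg (fun h => h5 h.1), if_pos h5]; linarith
      · rw [if_neg (fun h => h4 (h2.1 h))]
        apply add_nonneg
        · split_ifs <;> first | exact h3 | exact le_rfl
        · split_ifs <;> first | exact h3 | exact le_rfl
    have h2 : ∑ n ∈ I.filter (fun n => IsoIn q a (Bn n) ∧ v ∈ Bn n), w n =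
        ∑ B ∈ T.powerset.filter (fun B => v ∈ B),
          (if IsoIn q a B then ∑ n ∈ I.filter (fun n => Bn n = B), w n else 0) := by
      rw [← Finset.sum_fiberwise_of_maps_to (s := I.filter (fun n => IsoIn q a (Bn n) ∧ v ∈ Bn n))
        (t := T.powerset.filter (fun B => v ∈ B)) (g := Bn) (fun n hn =>
          Finset.mem_filter.2 ⟨hBT n, (Finset.mem_filter.1 hn).2.2⟩)]
      refine Finset.sum_congr rfl fun B hB => ?_
      rw [Finset.mem_filter] at hB
      by_cases h3 : IsoIn q a B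
      · rw [if_pos h3]
        apply Finset.sum_congr _ fun _ _ => rfl
        ext n
        simp only [Finset.mem_filter]
        constructor
        · rintro ⟨⟨h4, _⟩, h5⟩
          exact ⟨h4, h5⟩
        · rintro ⟨h4, h5⟩
          rw [h5]
          exact ⟨⟨h4, h3, hB.2⟩, rfl⟩
      · rw [if_neg h3]
        apply Finset.sum_eq_zero
        intro n hn
        exfalso
        rw [Finset.mem_filter, Finset.mem_filter] at hn
        rw [hn.2] at hn
        exact h3 hn.1.2.1
    rw [← h2, hTc]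
    have h3 : (1 + θ) * (m / ((K0 : ℝ) + 1)) = m / ((K0 : ℝ) + 1) + θ * (m / ((K0 : ℝ) + 1)) := by ring
    rw [h3] at hmain
    linarith
  · intro U hUT hUn
    obtain ⟨U', hU'⟩ : ∃ U' : Finset (Fin (K0 + 1)), U' = univ.filter (fun i => f i ∈ U) := ⟨_, rfl⟩
    have hUimg : U'.image f = U := by
      ext x
      rw [Finset.mem_image]
      constructor
      · rintro ⟨i, hi, rfl⟩
        rw [hU', Finset.mem_filter] at hi
        exact hi.2
      · intro hx
        obtain ⟨i, hi⟩ := hsurj x (hUT hx)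
        exact ⟨i, by rw [hU', Finset.mem_filter]; exact ⟨mem_univ _, by rw [hi]; exact hx⟩, hi⟩
    have hUcard : U'.card = U.card := by
      rw [← hUimg, Finset.card_image_of_injective _ f.injective]
    have hU'n : U'.Nonempty := by
      rw [← Finset.card_pos, hUcard]; exact hUn.card_pos
    have h1 := hwU U' hU'n
    rw [hUcard] at h1
    rw [hTc]
    refine le_trans ?_ h1
    have h2 : I.filter (fun n => ∀ i ∈ U', (Q * n + ((c : ℤ) + f i).toNat).Prime) =
        I.filter (fun n => U ⊆ Bn n) := by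
      apply Finset.filter_congr
      intro n _
      constructor
      · intro h x hx
        obtain ⟨i, hi⟩ := hsurj x (hUT hx)
        rw [← hi, hBi]
        apply h
        rw [hU', Finset.mem_filter, hi]
        exact ⟨mem_univ _, hx⟩
      · intro h i hi
        rw [← hBi]
        apply h
        rw [hU', Finset.mem_filter] at hi
        exact hi.2
    rw [h2, ← Finset.sum_fiberwise_of_maps_to (s := I.filter (fun n => U ⊆ Bn n))
        (t := T.powerset.filter (fun B => U ⊆ B)) (g := Bn) (fun n hn =>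
          Finset.mem_filter.2 ⟨hBT n, (Finset.mem_filter.1 hn).2⟩)]
    refine Finset.sum_le_sum fun B hB => ?_
    rw [Finset.mem_filter] at hB
    by_cases h3 : IsoIn q a B
    · rw [if_pos h3]
      apply Finset.sum_le_sum_of_subset_of_nonneg
      · intro n hn
        rw [Finset.mem_filter] at hn
        rw [Finset.mem_filter, Finset.mem_filter, hn.2]
        exact ⟨⟨hn.1, hB.2⟩, rfl⟩
      · intro n _ _; exact hw0 n
    · rw [if_neg h3]
      exact Finset.sum_nonneg fun n _ => hw0 n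



/-- the set misses a residue class modulo every prime -/
def Adm0 (V : Finset ℤ) : Prop := ∀ p : ℕ, p.Prime → ∃ r : ℤ, ∀ s ∈ V, ¬ (p : ℤ) ∣ r + s

/-- the condition on the sets of shifts -/
def OkC (q : ℕ) (a : ℤ) (V : Finset ℤ) : Prop := Adm0 V ∧ ∀ s ∈ V, IsCoprime (a + s) (q : ℤ)

theorem OkC.mono {q : ℕ} {a : ℤ} {V W : Finset ℤ} (h : OkC q a V) (hW : W ⊆ V) : OkC q a W :=
  ⟨fun p hp => by
    obtain ⟨r, hr⟩ := h.1 p hp
    exact ⟨r, fun s hs => hr s (hW hs)⟩, fun s hs => h.2 s (hW hs)⟩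

/-- the measures for large sets -/
theorem hasSM_C (q : ℕ) (hq : 0 < q) (a : ℤ) : HasSM (OkC q a) (IsoIn q a) := by
  classical
  refine ⟨fun V W h hW => h.mono hW, ?_⟩
  intro m V hm hok hV
  have hm' : (2 : ℝ) ≤ m := by exact_mod_cast hm
  obtain ⟨hK1, hK2, hK3⟩ := K1_prop m hm
  obtain ⟨K1, hK1def⟩ : ∃ K1 : ℕ, K1 = ⌈Real.exp (4 * (m : ℝ) + 29 / 50)⌉₊ := ⟨_, rfl⟩
  rw [← hK1def] at hK1 hK2 hK3
  have hVpos : (0 : ℝ) < V.card := by
    by_contra hcon
    have h0 : (V.card : ℝ) = 0 := le_antisymm (not_lt.1 hcon) (Nat.cast_nonneg _)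
    rw [h0, Real.log_zero] at hV
    linarith
  have hKV : K1 ≤ V.card := by
    rw [hK1def, Nat.ceil_le, ← Real.le_log_iff_exp_le hVpos]
    exact hV
  have hK1pos : 1 ≤ K1 := by
    rw [hK1def, Nat.one_le_ceil_iff]; exact Real.exp_pos _
  obtain ⟨lam, h0, h1, h2, h3, h4⟩ := avg m K1 hK1pos V hKV (IsoIn q a) (by
    intro T hT
    rw [Finset.mem_powersetCard] at hT
    have h0 := hok.mono hT.1
    have h1 := spread0C q hq a m hm T h0.2 (by rw [hT.2]; exact hK1) (by rw [hT.2]; exact hK2) h0.1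
    rw [hT.2] at h1
    exact h1)
  refine ⟨lam, ⟨hm, by exact_mod_cast hVpos, h0, h2, h3, ?_⟩, h1⟩
  intro U hU hUn
  convert h4 U hU hUn

end Pool.Agent.H522
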