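import Mathlib
import Pool.Agent.H522.Super
import Pool.Graph.R_seed8.Helper559.Mertens

/-! H522: isolated patterns in windows. -/

set_option autoImplicit false

open Finset Filter

namespace Pool.Agent.H522

/-- removing one residue class modulo each prime of a finite set, greedily -/
theorem greedy (S : Finset ℤ) (P : Finset ℕ) (hP : ∀ p ∈ P, p.Prime) :
    ∃ V : Finset ℤ, V ⊆ S ∧ (∀ p ∈ P, ∃ r : ℤ, ∀ v ∈ V, ¬ (p : ℤ) ∣ r + v) ∧
      (S.card : ℝ) * ∏ p ∈ P, (1 - 1 / (p : ℝ)) ≤ V.card := by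
  classical
  induction P using Finset.induction_on with
  | empty => exact ⟨S, Finset.Subset.refl _, by simp, by simp⟩
  | insert p P hpP ih =>
    obtain ⟨V, hVS, hV1, hV2⟩ := ih fun q hq => hP q (Finset.mem_insert_of_mem hq)
    have hp : p.Prime := hP p (Finset.mem_insert_self _ _)
    have hp0 : (0 : ℝ) < p := by exact_mod_cast hp.pos
    have hpz : (p : ℤ) ≠ 0 := by exact_mod_cast hp.ne_zero
    have hpz0 : (0 : ℤ) < p := by exact_mod_cast hp.pos
    obtain ⟨r, hr, hr2⟩ := Finset.exists_card_fiber_le_of_card_le_nsmul (s := V) (t := range p)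
      (f := fun v => ((-v) % (p : ℤ)).toNat) (b := (V.card : ℝ) / p)
      ⟨0, Finset.mem_range.2 hp.pos⟩ (by
        rw [Finset.card_range, nsmul_eq_mul]
        exact le_of_eq (by field_simp))
    refine ⟨V.filter (fun v => ¬ ((-v) % (p : ℤ)).toNat = r), (Finset.filter_subset _ _).trans hVS, ?_, ?_⟩
    · intro q hq
      rcases Finset.mem_insert.1 hq with rfl | hq
      · refine ⟨r, fun v hv hd => ?_⟩
        rw [Finset.mem_filter] at hv
        apply hv.2
        have h1 : (-v) % (q : ℤ) = (r : ℤ) % q := by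
          apply Int.ModEq.eq
          rw [Int.modEq_iff_dvd]
          simpa using hd
        rw [h1, Int.emod_eq_of_lt (by positivity) (by exact_mod_cast Finset.mem_range.1 hr)]
        simp
      · obtain ⟨s, hs⟩ := hV1 q hq
        exact ⟨s, fun v hv => hs v (Finset.mem_filter.1 hv).1⟩
    · rw [Finset.prod_insert hpP]
      have h1 : ((V.filter (fun v => ((-v) % (p : ℤ)).toNat = r)).card : ℝ) +
          ((V.filter (fun v => ¬ ((-v) % (p : ℤ)).toNat = r)).card : ℝ) = V.card := by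
        exact_mod_cast Finset.card_filter_add_card_filter_not (s := V)
          (fun v => ((-v) % (p : ℤ)).toNat = r)
      have h2 : (1 - 1 / (p : ℝ)) * V.card ≤ ((V.filter (fun v => ¬ ((-v) % (p : ℤ)).toNat = r)).card : ℝ) := by
        have : (1 - 1 / (p : ℝ)) * V.card = V.card - V.card / p := by ring
        rw [this]
        linarith
      refine le_trans ?_ h2
      have h3 : 0 ≤ 1 - 1 / (p : ℝ) := by
        rw [sub_nonneg, div_le_one hp0]
        exact_mod_cast hp.one_le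
      calc (S.card : ℝ) * ((1 - 1 / (p : ℝ)) * ∏ x ∈ P, (1 - 1 / (x : ℝ)))
          = (1 - 1 / (p : ℝ)) * ((S.card : ℝ) * ∏ x ∈ P, (1 - 1 / (x : ℝ))) := by ring
        _ ≤ _ := mul_le_mul_of_nonneg_left hV2 h3

theorem tele (N : ℕ) : ∑ n ∈ Icc 2 N, 1 / ((n : ℝ) * (n - 1)) ≤ 1 := by
  have h : ∀ N : ℕ, 1 ≤ N → ∑ n ∈ Icc 2 N, 1 / ((n : ℝ) * (n - 1)) ≤ 1 - 1 / N := by
    intro N hN
    induction N, hN using Nat.le_induction with
    | base => simp
    | succ n hn ih =>
      rw [Finset.sum_Icc_succ_top (by omega)]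
      have hn' : (1 : ℝ) ≤ n := by exact_mod_cast hn
      have h1 : 1 / (((n + 1 : ℕ) : ℝ) * (((n + 1 : ℕ) : ℝ) - 1)) = 1 / n - 1 / ((n + 1 : ℕ) : ℝ) := by
        have hn0 : (n : ℝ) ≠ 0 := by
          have : (0 : ℝ) < n := by linarith
          exact this.ne'
        have hn1 : (n : ℝ) + 1 ≠ 0 := by
          have : (0 : ℝ) < (n : ℝ) + 1 := by linarith
          exact this.ne'
        have e1 : (((n + 1 : ℕ) : ℝ) - 1) = n := by push_cast; ring
        rw [e1]
        push_cast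
        rw [div_sub_div _ _ hn0 hn1, mul_comm (n : ℝ)]
        congr 1
        · ring
        · ring
      rw [h1]
      linarith
  rcases Nat.eq_zero_or_pos N with rfl | hN
  · simp
  · have h1 := h N hN
    have : (0 : ℝ) ≤ 1 / N := by positivity
    linarith

/-- Mertens: lower bound for the product -/
theorem mertens_prod : ∃ c : ℝ, 0 < c ∧ ∀ N : ℕ, 2 ≤ N →
    c / Real.log N ≤ ∏ p ∈ (Icc 1 N).filter Nat.Prime, (1 - 1 / (p : ℝ)) := by
  obtain ⟨C, hC, h⟩ := Pool.Agent.Helper559.mertens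
  refine ⟨Real.exp (-(C + 1)), Real.exp_pos _, fun N hN => ?_⟩
  have h1 := (abs_le.1 (h N hN)).2
  unfold Pool.Agent.Helper559.S at h1
  have hlog : 0 < Real.log N := Real.log_pos (by exact_mod_cast hN)
  have hmem : ∀ p ∈ (Icc 1 N).filter Nat.Prime, (2 : ℝ) ≤ p := by
    intro p hp
    exact_mod_cast (Finset.mem_filter.1 hp).2.two_le
  have h2 : ∀ p ∈ (Icc 1 N).filter Nat.Prime,
      Real.exp (-(1 / (p : ℝ)) - 1 / ((p : ℝ) * (p - 1))) ≤ 1 - 1 / (p : ℝ) := by
    intro p hp
    have h3 := hmem p hp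
    have h4 : 0 < 1 - 1 / (p : ℝ) := by
      rw [sub_pos, div_lt_one (by linarith)]; linarith
    have h5 := Real.one_sub_inv_le_log_of_pos h4
    have h6 : 1 - (1 - 1 / (p : ℝ))⁻¹ = -(1 / (p : ℝ)) - 1 / ((p : ℝ) * (p - 1)) := by
      have h7 : (p : ℝ) - 1 ≠ 0 := by
        have : 0 < (p : ℝ) - 1 := by linarith
        exact this.ne'
      have h8 : (p : ℝ) ≠ 0 := by
        have : 0 < (p : ℝ) := by linarith
        exact this.ne'
      have h9 : 1 - 1 / (p : ℝ) = (p - 1) / p := by field_simp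
      rw [h9, inv_div]
      field_simp
      ring
    rw [h6] at h5
    calc Real.exp (-(1 / (p : ℝ)) - 1 / ((p : ℝ) * (p - 1))) ≤ Real.exp (Real.log (1 - 1 / (p : ℝ))) :=
          Real.exp_le_exp.2 h5
      _ = _ := Real.exp_log h4
  have h3 : ∑ p ∈ (Icc 1 N).filter Nat.Prime, 1 / ((p : ℝ) * (p - 1)) ≤ 1 := by
    refine le_trans ?_ (tele N)
    apply Finset.sum_le_sum_of_subset_of_nonneg
    · intro p hp
      rw [Finset.mem_filter, Finset.mem_Icc] at hp
      rw [Finset.mem_Icc]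
      exact ⟨hp.2.two_le, hp.1.2⟩
    · intro n hn _
      rw [Finset.mem_Icc] at hn
      have : (2 : ℝ) ≤ n := by exact_mod_cast hn.1
      apply div_nonneg zero_le_one
      apply mul_nonneg <;> linarith
  calc Real.exp (-(C + 1)) / Real.log N = Real.exp (-(Real.log (Real.log N) + C) - 1) := by
        have e1 : -(Real.log (Real.log N) + C) - 1 = -(C + 1) - Real.log (Real.log N) := by ring
        rw [e1, Real.exp_sub, Real.exp_log hlog]
    _ ≤ Real.exp (∑ p ∈ (Icc 1 N).filter Nat.Prime, (-(1 / (p : ℝ)) - 1 / ((p : ℝ) * (p - 1)))) := by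
        apply Real.exp_le_exp.2
        rw [Finset.sum_sub_distrib, Finset.sum_neg_distrib]
        linarith
    _ = ∏ p ∈ (Icc 1 N).filter Nat.Prime, Real.exp (-(1 / (p : ℝ)) - 1 / ((p : ℝ) * (p - 1))) :=
        Real.exp_sum _ _
    _ ≤ _ := Finset.prod_le_prod (fun p _ => (Real.exp_pos _).le) h2

open Classical in
/-- isolated patterns in a window, uniformly in the number of primes -/
theorem window : ∃ C : ℝ, 0 < C ∧ ∀ m M : ℕ, 2 ≤ m → C * m * Real.exp (4 * m) ≤ M →
    ((M : ℝ) / (C * (m : ℝ) ^ 3)) ^ m ≤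
      (((Icc (1 : ℤ) M).powerset.filter (fun B => m ≤ B.card ∧ Isolated B)).card : ℝ) := by
  obtain ⟨c, hc, hprod⟩ := mertens_prod
  refine ⟨1500000 / c + 10 / c, by positivity, ?_⟩
  intro m M hm hM
  have hm' : (2 : ℝ) ≤ m := by exact_mod_cast hm
  obtain ⟨Y, hY⟩ : ∃ Y : ℝ, Y = Real.exp (4 * (m : ℝ) + 29 / 50) := ⟨_, rfl⟩
  have hY9 : 9 ≤ Y := by
    rw [hY]
    have := Real.add_one_le_exp (4 * (m : ℝ) + 29 / 50)
    linarith
  obtain ⟨N, hN⟩ : ∃ N : ℕ, N = ⌊Y + 1⌋₊ := ⟨_, rfl⟩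
  have hN1 : (N : ℝ) ≤ Y + 1 := by rw [hN]; exact Nat.floor_le (by linarith)
  have hN2 : 2 ≤ N := by
    rw [hN]; exact Nat.le_floor (by push_cast; linarith)
  have hNr : (2 : ℝ) ≤ N := by exact_mod_cast hN2
  have hlogN : Real.log N ≤ 5 * m := by
    rw [Real.log_le_iff_le_exp (by linarith)]
    refine hN1.trans ?_
    have h3 : Real.exp (5 * (m : ℝ)) = Y * Real.exp (m - 29 / 50) := by
      rw [hY, ← Real.exp_add]; congr 1; ring
    rw [h3]
    have h4 : (m : ℝ) - 29 / 50 + 1 ≤ Real.exp (m - 29 / 50) := Real.add_one_le_exp _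
    nlinarith
  have hlogN0 : 0 < Real.log N := Real.log_pos (by linarith)
  obtain ⟨V, hVS, hV1, hV2⟩ := greedy (Icc (1 : ℤ) M) ((Icc 1 N).filter Nat.Prime)
    (fun p hp => (Finset.mem_filter.1 hp).2)
  have hcardS : ((Icc (1 : ℤ) M).card : ℝ) = M := by simp
  rw [hcardS] at hV2
  have hV3 : (M : ℝ) * (c / (5 * m)) ≤ V.card := by
    refine le_trans ?_ hV2
    apply mul_le_mul_of_nonneg_left _ (Nat.cast_nonneg _)
    refine le_trans ?_ (hprod N hN2)
    exact div_le_div_of_nonneg_left hc.le hlogN0 hlogN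
  have hadm : ∀ p : ℕ, p.Prime → (p : ℝ) ≤ Real.exp (4 * (m : ℝ) + 29 / 50) + 1 →
      ∃ r : ℤ, ∀ s ∈ V, ¬ (p : ℤ) ∣ r + s := by
    intro p hp hpl
    apply hV1 p
    rw [Finset.mem_filter, Finset.mem_Icc]
    refine ⟨⟨hp.one_le, ?_⟩, hp⟩
    rw [hN, hY]
    exact Nat.le_floor hpl
  have hVexp : Real.exp (4 * (m : ℝ) + 29 / 50) ≤ V.card := by
    refine le_trans ?_ hV3
    have h1 : 10 / c * m * Real.exp (4 * m) ≤ M := by
      refine le_trans ?_ hM
      have h2 : 0 ≤ (1500000 / c) * m * Real.exp (4 * m) := by positivity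
      have h3 : (1500000 / c + 10 / c) * m * Real.exp (4 * m) =
          (1500000 / c) * m * Real.exp (4 * m) + 10 / c * m * Real.exp (4 * m) := by ring
      linarith
    have h2 : 10 / c * m * Real.exp (4 * m) * (c / (5 * m)) = 2 * Real.exp (4 * m) := by
      field_simp
      ring
    have h3 : 2 * Real.exp (4 * m) ≤ M * (c / (5 * m)) := by
      rw [← h2]
      exact mul_le_mul_of_nonneg_right h1 (by positivity)
    refine le_trans ?_ h3
    rw [Real.exp_add, mul_comm]
    apply mul_le_mul_of_nonneg_right _ (Real.exp_pos _).le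
    have h9 : Real.exp (29 / 50 : ℝ) ^ 50 = Real.exp 29 := by
      rw [← Real.exp_nat_mul]; congr 1; norm_num
    by_contra hcon
    push Not at hcon
    have h10 : (2 : ℝ) ^ 50 < Real.exp 29 := by
      rw [← h9]
      exact pow_lt_pow_left₀ hcon (by norm_num) (by norm_num)
    have h11 : Real.exp 29 = Real.exp 1 ^ 29 := by
      rw [← Real.exp_nat_mul]; congr 1; norm_num
    rw [h11] at h10
    have h12 : Real.exp 1 ^ 29 ≤ (2.7182818286 : ℝ) ^ 29 :=
      pow_le_pow_left₀ (Real.exp_pos _).le Real.exp_one_lt_d9.le 29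
    have h13 : (2.7182818286 : ℝ) ^ 29 ≤ (2 : ℝ) ^ 50 := by norm_num
    linarith
  have hVpos : (0 : ℝ) < V.card := lt_of_lt_of_le (Real.exp_pos _) hVexp
  have hmain := super_iso m hm V ((Real.le_log_iff_exp_le hVpos).2 hVexp) hadm
  have h1 : ((M : ℝ) / ((1500000 / c + 10 / c) * (m : ℝ) ^ 3)) ^ m ≤
      ((V.card : ℝ) / (300000 * (m : ℝ) ^ 2)) ^ m := by
    apply pow_le_pow_left₀ (by positivity)
    calc (M : ℝ) / ((1500000 / c + 10 / c) * (m : ℝ) ^ 3) ≤ M / (1500000 / c * (m : ℝ) ^ 3) := by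
          apply div_le_div_of_nonneg_left (Nat.cast_nonneg _) (by positivity)
          apply mul_le_mul_of_nonneg_right _ (by positivity)
          have : 0 ≤ 10 / c := by positivity
          linarith
      _ = (M * (c / (5 * m))) / (300000 * (m : ℝ) ^ 2) := by
          field_simp
          ring
      _ ≤ _ := div_le_div_of_nonneg_right hV3 (by positivity)
  refine h1.trans (hmain.trans ?_)
  have h2 : V.powerset.filter (fun B => m ≤ B.card ∧ Isolated B) ⊆
      (Icc (1 : ℤ) M).powerset.filter (fun B => m ≤ B.card ∧ Isolated B) :=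
    Finset.filter_subset_filter _ (Finset.powerset_mono.2 hVS)
  exact_mod_cast Finset.card_le_card h2

end Pool.Agent.H522
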