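import Mathlib
import Pool.Agent.H522.Window

/-! H522: removing residue classes, with control of the pairs. -/

set_option autoImplicit false

open Finset Filter

namespace Pool.Agent.H522

/-- the local densities of the pairs with difference `d` -/
noncomputable def om (P : Finset ℕ) (d : ℤ) : ℝ :=
  ∏ p ∈ P, (if (p : ℤ) ∣ d then 1 - 1 / (p : ℝ) else 1 - 2 / (p : ℝ))

theorem om_nonneg (P : Finset ℕ) (hP : ∀ p ∈ P, p.Prime) (d : ℤ) : 0 ≤ om P d := by
  apply Finset.prod_nonneg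
  intro p hp
  have h2 : (2 : ℝ) ≤ p := by exact_mod_cast (hP p hp).two_le
  split_ifs
  · rw [sub_nonneg, div_le_one (by linarith)]; linarith
  · rw [sub_nonneg, div_le_one (by linarith)]; exact h2

/-- the classes -/
theorem class_count (p : ℕ) (hp : p.Prime) (u v : ℤ) :
    (((range p).filter (fun r : ℕ => ¬ u ≡ r [ZMOD p] ∧ ¬ v ≡ r [ZMOD p])).card : ℝ) =
      p * (if (p : ℤ) ∣ u - v then 1 - 1 / (p : ℝ) else 1 - 2 / (p : ℝ)) := by
  classical
  have hp0 : (0 : ℝ) < p := by exact_mod_cast hp.pos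
  have hpz : (p : ℤ) ≠ 0 := by exact_mod_cast hp.ne_zero
  have key : ∀ w : ℤ, ∃ a ∈ range p, ∀ r ∈ range p, (w ≡ r [ZMOD p] ↔ r = a) := by
    intro w
    refine ⟨(w % p).toNat, ?_, ?_⟩
    · rw [Finset.mem_range]
      have h1 := Int.emod_nonneg w hpz
      have h2 := Int.emod_lt_of_pos w (by exact_mod_cast hp.pos : (0 : ℤ) < p)
      omega
    · intro r hr
      rw [Finset.mem_range] at hr
      have h1 := Int.emod_nonneg w hpz
      have h3 : (r : ℤ) % p = r := Int.emod_eq_of_lt (by positivity) (by exact_mod_cast hr)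
      constructor
      · intro h
        have h2 : w % p = r % p := h
        rw [h3] at h2
        omega
      · intro h
        show w % p = r % p
        rw [h3]
        omega
  obtain ⟨a, ha, ha2⟩ := key u
  obtain ⟨b, hb, hb2⟩ := key v
  have h1 : (range p).filter (fun r : ℕ => ¬ u ≡ r [ZMOD p] ∧ ¬ v ≡ r [ZMOD p]) =
      (range p) \ {a, b} := by
    ext r
    simp only [Finset.mem_filter, Finset.mem_sdiff, Finset.mem_insert, Finset.mem_singleton, not_or]
    constructor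
    · rintro ⟨h1, h2, h3⟩
      exact ⟨h1, fun h => h2 ((ha2 r h1).2 h), fun h => h3 ((hb2 r h1).2 h)⟩
    · rintro ⟨h1, h2, h3⟩
      exact ⟨h1, fun h => h2 ((ha2 r h1).1 h), fun h => h3 ((hb2 r h1).1 h)⟩
  have hsub : ({a, b} : Finset ℕ) ⊆ range p := by
    intro x hx
    rw [Finset.mem_insert, Finset.mem_singleton] at hx
    rcases hx with rfl | rfl
    · exact ha
    · exact hb
  rw [h1, Finset.card_sdiff_of_subset hsub, Finset.card_range]
  have hab : (p : ℤ) ∣ u - v ↔ a = b := by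
    have e1 : u ≡ a [ZMOD p] := (ha2 a ha).2 rfl
    have e2 : v ≡ b [ZMOD p] := (hb2 b hb).2 rfl
    constructor
    · intro h
      have e3 : v ≡ u [ZMOD p] := (Int.modEq_iff_dvd).2 h
      exact (hb2 a ha).1 (e3.trans e1)
    · intro h
      rw [h] at e1
      exact (Int.modEq_iff_dvd).1 (e2.trans e1.symm)
  by_cases h : a = b
  · rw [if_pos (hab.2 h), h]
    simp only [Finset.insert_eq_of_mem (Finset.mem_singleton_self b), Finset.card_singleton]
    rw [Nat.cast_sub hp.one_le]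
    field_simp
    simp
  · rw [if_neg (fun h' => h (hab.1 h')), Finset.card_pair h, Nat.cast_sub hp.two_le]
    field_simp
    simp

/-- removing one residue class modulo each prime of a finite set, with control of the number of pairs -/
theorem sieve2 (κ : ℝ) (hκ : 0 ≤ κ) (Z : Finset (ℤ × ℤ)) (P : Finset ℕ) (hP : ∀ p ∈ P, p.Prime) :
    ∀ S : Finset ℤ, ∃ V : Finset ℤ, V ⊆ S ∧ (∀ p ∈ P, ∃ r : ℤ, ∀ v ∈ V, ¬ (p : ℤ) ∣ r + v) ∧
      ((S.card : ℝ) * ∏ p ∈ P, (1 - 1 / (p : ℝ))) ^ 2 -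
        κ * ∑ z ∈ Z.filter (fun z => z.1 ∈ S ∧ z.2 ∈ S), om P (z.1 - z.2) ≤
      (V.card : ℝ) ^ 2 - κ * ((Z.filter (fun z => z.1 ∈ V ∧ z.2 ∈ V)).card : ℝ) := by
  classical
  induction P using Finset.induction_on with
  | empty =>
    intro S
    refine ⟨S, Finset.Subset.refl _, by simp, ?_⟩
    simp [om]
  | insert p P hpP ih =>
    intro S
    have hPr : ∀ q ∈ P, q.Prime := fun q hq => hP q (Finset.mem_insert_of_mem hq)
    have ih' := ih hPr
    have hp : p.Prime := hP p (Finset.mem_insert_self _ _)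
    have hp0 : (0 : ℝ) < p := by exact_mod_cast hp.pos
    obtain ⟨G, hG⟩ : ∃ G : ℝ, G = ∏ q ∈ P, (1 - 1 / (q : ℝ)) := ⟨_, rfl⟩
    -- the set without the class `r`
    obtain ⟨T, hT⟩ : ∃ T : ℕ → Finset ℤ, ∀ r, T r = S.filter (fun v => ¬ v ≡ r [ZMOD p]) := ⟨_, fun _ => rfl⟩
    obtain ⟨Φ, hΦ⟩ : ∃ Φ : ℕ → ℝ, ∀ r, Φ r = (((T r).card : ℝ) * G) ^ 2 -
        κ * ∑ z ∈ Z.filter (fun z => z.1 ∈ T r ∧ z.2 ∈ T r), om P (z.1 - z.2) := ⟨_, fun _ => rfl⟩
    -- the average
    have hsum1 : ∑ r ∈ range p, ((T r).card : ℝ) = (p : ℝ) * ((S.card : ℝ) * (1 - 1 / p)) := by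
      have h1 : ∀ r ∈ range p, ((T r).card : ℝ) = ∑ v ∈ S, if ¬ v ≡ r [ZMOD p] then (1 : ℝ) else 0 := by
        intro r _
        rw [hT, Finset.card_filter]
        push_cast
        rfl
      rw [Finset.sum_congr rfl h1, Finset.sum_comm]
      have h2 : ∀ v ∈ S, ∑ r ∈ range p, (if ¬ v ≡ r [ZMOD p] then (1 : ℝ) else 0) = p * (1 - 1 / p) := by
        intro v _
        have h3 := class_count p hp v v
        rw [if_pos (by simp)] at h3
        rw [← h3, Finset.card_filter]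
        push_cast
        apply Finset.sum_congr rfl
        intro r _
        simp
      rw [Finset.sum_congr rfl h2, Finset.sum_const, nsmul_eq_mul]
      ring
    have hsum2 : ∑ r ∈ range p, ∑ z ∈ Z.filter (fun z => z.1 ∈ T r ∧ z.2 ∈ T r), om P (z.1 - z.2) =
        p * ∑ z ∈ Z.filter (fun z => z.1 ∈ S ∧ z.2 ∈ S), om (insert p P) (z.1 - z.2) := by
      have h1 : ∀ r ∈ range p, ∑ z ∈ Z.filter (fun z => z.1 ∈ T r ∧ z.2 ∈ T r), om P (z.1 - z.2) =
          ∑ z ∈ Z.filter (fun z => z.1 ∈ S ∧ z.2 ∈ S),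
            if ¬ z.1 ≡ r [ZMOD p] ∧ ¬ z.2 ≡ r [ZMOD p] then om P (z.1 - z.2) else 0 := by
        intro r _
        rw [← Finset.sum_filter, Finset.filter_filter]
        apply Finset.sum_congr _ fun _ _ => rfl
        apply Finset.filter_congr
        intro z _
        rw [hT, Finset.mem_filter, Finset.mem_filter]
        tauto
      rw [Finset.sum_congr rfl h1, Finset.sum_comm, Finset.mul_sum]
      refine Finset.sum_congr rfl fun z _ => ?_
      rw [← Finset.sum_filter, Finset.sum_const, nsmul_eq_mul, class_count p hp z.1 z.2]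
      unfold om
      rw [Finset.prod_insert hpP]
      ring
    have hcs := sq_sum_le_card_mul_sum_sq (s := range p) (f := fun r => ((T r).card : ℝ))
    rw [hsum1, Finset.card_range] at hcs
    have havg : ∑ r ∈ range p, (((S.card : ℝ) * ∏ q ∈ insert p P, (1 - 1 / (q : ℝ))) ^ 2 -
        κ * ∑ z ∈ Z.filter (fun z => z.1 ∈ S ∧ z.2 ∈ S), om (insert p P) (z.1 - z.2)) ≤
        ∑ r ∈ range p, Φ r := by
      simp only [hΦ]
      rw [Finset.sum_const, Finset.card_range, nsmul_eq_mul, Finset.sum_sub_distrib, ← Finset.mul_sum,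
        hsum2, Finset.prod_insert hpP, ← hG]
      have h1 : (p : ℝ) * (((S.card : ℝ) * (1 - 1 / p)) ^ 2) ≤ ∑ r ∈ range p, ((T r).card : ℝ) ^ 2 := by
        have h2 : (p : ℝ) * ((p : ℝ) * ((S.card : ℝ) * (1 - 1 / p)) ^ 2) ≤
            p * ∑ r ∈ range p, ((T r).card : ℝ) ^ 2 := by
          refine le_trans (le_of_eq ?_) hcs
          ring
        exact le_of_mul_le_mul_left h2 hp0
      have h3 : ∑ r ∈ range p, (((T r).card : ℝ) * G) ^ 2 = G ^ 2 * ∑ r ∈ range p, ((T r).card : ℝ) ^ 2 := by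
        rw [Finset.mul_sum]
        refine Finset.sum_congr rfl fun r _ => ?_
        ring
      rw [h3]
      have h4 := mul_le_mul_of_nonneg_left h1 (sq_nonneg G)
      have e1 : (p : ℝ) * (((S.card : ℝ) * ((1 - 1 / (p : ℝ)) * G)) ^ 2 -
          κ * ∑ z ∈ Z.filter (fun z => z.1 ∈ S ∧ z.2 ∈ S), om (insert p P) (z.1 - z.2)) =
          G ^ 2 * ((p : ℝ) * (((S.card : ℝ) * (1 - 1 / p)) ^ 2)) -
          κ * (p * ∑ z ∈ Z.filter (fun z => z.1 ∈ S ∧ z.2 ∈ S), om (insert p P) (z.1 - z.2)) := by ring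
      rw [e1]
      linarith
    obtain ⟨r, hr, hr2⟩ := Finset.exists_le_of_sum_le ⟨0, Finset.mem_range.2 hp.pos⟩ havg
    obtain ⟨V, hV1, hV2, hV3⟩ := ih' (T r)
    refine ⟨V, hV1.trans (by rw [hT]; exact Finset.filter_subset _ _), ?_, ?_⟩
    · intro q hq
      rcases Finset.mem_insert.1 hq with rfl | hq
      · refine ⟨-(r : ℤ), fun v hv hd => ?_⟩
        have h1 := hV1 hv
        rw [hT, Finset.mem_filter] at h1
        apply h1.2
        apply Int.ModEq.symm
        rw [Int.modEq_iff_dvd]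
        have e1 : v - (r : ℤ) = -(r : ℤ) + v := by ring
        rw [e1]
        exact hd
      · exact hV2 q hq
    · refine le_trans ?_ hV3
      rw [hΦ, hG] at hr2
      exact hr2

/-- the local densities and Euler's function -/
theorem om_le (P : Finset ℕ) (hP : ∀ p ∈ P, p.Prime) (d : ℕ) (hd : 0 < d) :
    om P (d : ℤ) ≤ (∏ p ∈ P, (1 - 1 / (p : ℝ))) ^ 2 * ((d : ℝ) / (Nat.totient d : ℝ)) := by
  classical
  have htot : 0 < Nat.totient d := Nat.totient_pos.2 hd
  have htot' : (0 : ℝ) < Nat.totient d := by exact_mod_cast htot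
  have hd' : (0 : ℝ) < d := by exact_mod_cast hd
  have h1 : (Nat.totient d : ℝ) = d * ∏ p ∈ d.primeFactors, (1 - 1 / (p : ℝ)) := by
    have h2 := Nat.totient_eq_mul_prod_factors d
    have h3 : ((Nat.totient d : ℚ) : ℝ) = (((d : ℚ) * ∏ p ∈ d.primeFactors, (1 - (p : ℚ)⁻¹) : ℚ) : ℝ) := by
      rw [h2]
    push_cast at h3
    rw [h3]
    simp [one_div]
  have hfac : ∀ p : ℕ, p.Prime → 0 < 1 - 1 / (p : ℝ) ∧ 1 - 1 / (p : ℝ) ≤ 1 := by
    intro p hp
    have h2 : (2 : ℝ) ≤ p := by exact_mod_cast hp.two_le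
    constructor
    · rw [sub_pos, div_lt_one (by linarith)]; linarith
    · have : 0 ≤ 1 / (p : ℝ) := by positivity
      linarith
  have hprodpos : 0 < ∏ p ∈ d.primeFactors, (1 - 1 / (p : ℝ)) :=
    Finset.prod_pos fun p hp => (hfac p (Nat.prime_of_mem_primeFactors hp)).1
  have h4 : (d : ℝ) / (Nat.totient d : ℝ) = (∏ p ∈ d.primeFactors, (1 - 1 / (p : ℝ)))⁻¹ := by
    rw [h1]
    field_simp
  rw [h4, ← div_eq_mul_inv, le_div_iff₀ hprodpos]
  -- the primes of `P` which divide `d`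
  have hsub : P.filter (fun p : ℕ => (p : ℤ) ∣ (d : ℤ)) ⊆ d.primeFactors := by
    intro p hp
    rw [Finset.mem_filter] at hp
    rw [Nat.mem_primeFactors]
    exact ⟨hP p hp.1, by exact_mod_cast hp.2, hd.ne'⟩
  have h5 : ∏ p ∈ d.primeFactors, (1 - 1 / (p : ℝ)) ≤
      ∏ p ∈ P.filter (fun p : ℕ => (p : ℤ) ∣ (d : ℤ)), (1 - 1 / (p : ℝ)) := by
    rw [← Finset.prod_sdiff hsub]
    have h7 : ∏ p ∈ d.primeFactors \ P.filter (fun p : ℕ => (p : ℤ) ∣ (d : ℤ)), (1 - 1 / (p : ℝ)) ≤ 1 := by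
      apply Finset.prod_le_one
      · intro p hp
        exact (hfac p (Nat.prime_of_mem_primeFactors (Finset.mem_sdiff.1 hp).1)).1.le
      · intro p hp
        exact (hfac p (Nat.prime_of_mem_primeFactors (Finset.mem_sdiff.1 hp).1)).2
    have h8 : 0 ≤ ∏ p ∈ P.filter (fun p : ℕ => (p : ℤ) ∣ (d : ℤ)), (1 - 1 / (p : ℝ)) :=
      Finset.prod_nonneg fun p hp => (hfac p (hP p (Finset.mem_filter.1 hp).1)).1.le
    calc _ ≤ 1 * ∏ p ∈ P.filter (fun p : ℕ => (p : ℤ) ∣ (d : ℤ)), (1 - 1 / (p : ℝ)) :=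
          mul_le_mul_of_nonneg_right h7 h8
      _ = _ := one_mul _
  have h6 : om P (d : ℤ) * ∏ p ∈ P.filter (fun p : ℕ => (p : ℤ) ∣ (d : ℤ)), (1 - 1 / (p : ℝ)) ≤
      (∏ p ∈ P, (1 - 1 / (p : ℝ))) ^ 2 := by
    rw [Finset.prod_filter, om, ← Finset.prod_mul_distrib, ← Finset.prod_pow]
    apply Finset.prod_le_prod
    · intro p hp
      have h2 : (2 : ℝ) ≤ p := by exact_mod_cast (hP p hp).two_le
      have h7 := hfac p (hP p hp)
      split_ifs
      · exact mul_nonneg h7.1.le h7.1.le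
      · rw [mul_one, sub_nonneg, div_le_one (by linarith)]; exact h2
    · intro p hp
      have h2 : (2 : ℝ) ≤ p := by exact_mod_cast (hP p hp).two_le
      split_ifs
      · exact le_of_eq (by ring)
      · have h8 : 0 ≤ (1 / (p : ℝ)) ^ 2 := sq_nonneg _
        have h9 : (1 - 1 / (p : ℝ)) ^ 2 = 1 - 2 / p + (1 / (p : ℝ)) ^ 2 := by ring
        rw [mul_one, h9]
        linarith
  exact (mul_le_mul_of_nonneg_left h5 (om_nonneg P hP _)).trans h6

end Pool.Agent.H522
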