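import Mathlib
import Pool.Agent.H522.Indep
import Pool.Agent.H522.Sieve2
import Pool.Agent.H522.AlmostAll

/-! H522: prime tuples and isolated patterns which contain no member of a given family. -/

set_option autoImplicit false

open Finset Filter

namespace Pool.Agent.H522

/-- the `n + b`, `b ∈ B`, are simultaneously prime for at least `x ^ (1 - ε)` of the `n ≤ x`, for arbitrarily
large `x` and every `ε > 0` -/
def PrimeTuple (B : Finset ℤ) : Prop := ∀ ε : ℝ, 0 < ε → ∃ᶠ x : ℝ in atTop,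
  x ^ (1 - ε) ≤ (Set.ncard {n : ℕ | (n : ℝ) ≤ x ∧ ∀ b ∈ B, ∃ p : ℕ, p.Prime ∧ (p : ℤ) = n + b} : ℝ)

theorem Isolated.tuple {B B' : Finset ℤ} (h : Isolated B) (hB' : B' ⊆ B) : PrimeTuple B' := by
  intro ε hε
  obtain ⟨R, hR⟩ : ∃ R : ℕ, ∀ s ∈ B, |s| ≤ R := by
    refine ⟨B.sup (fun s => s.natAbs), fun s hs => ?_⟩
    rw [Int.abs_eq_natAbs]
    exact_mod_cast Finset.le_sup (f := fun s : ℤ => s.natAbs) hs
  refine (h R ε hε).mono fun x hx => hx.trans ?_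
  have hfin : {n : ℕ | (n : ℝ) ≤ x ∧ ∀ b ∈ B', ∃ p : ℕ, p.Prime ∧ (p : ℤ) = n + b}.Finite := by
    apply (Set.finite_Iic ⌊x⌋₊).subset
    rintro n ⟨hn, -⟩
    exact Nat.le_floor hn
  have h1 : Set.ncard {n : ℕ | (n : ℝ) ≤ x ∧
      ∀ y : ℤ, |y| ≤ R → ((∃ p : ℕ, p.Prime ∧ (p : ℤ) = n + y) ↔ y ∈ B)} ≤
      Set.ncard {n : ℕ | (n : ℝ) ≤ x ∧ ∀ b ∈ B', ∃ p : ℕ, p.Prime ∧ (p : ℤ) = n + b} := by
    apply Set.ncard_le_ncard _ hfin
    rintro n ⟨h1, h2⟩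
    exact ⟨h1, fun b hb => (h2 b (hR b (hB' hb))).2 (hB' hb)⟩
  exact_mod_cast h1

/-- the set misses a residue class modulo every prime up to `y` -/
def AdmTo (y : ℝ) (V : Finset ℤ) : Prop :=
  ∀ p : ℕ, p.Prime → (p : ℝ) ≤ y → ∃ r : ℤ, ∀ s ∈ V, ¬ (p : ℤ) ∣ r + s

theorem exp_add_one_le (x : ℝ) (hx : 0 ≤ x) : Real.exp x + 1 ≤ Real.exp (x + 1) := by
  rw [Real.exp_add]
  have h1 : 1 ≤ Real.exp x := Real.one_le_exp hx
  have h2 : (2 : ℝ) ≤ Real.exp 1 := by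
    have := Real.add_one_le_exp (1 : ℝ)
    linarith
  nlinarith

theorem card_pos_of_log (V : Finset ℤ) (a : ℝ) (ha : 0 < a) (hV : a ≤ Real.log V.card) :
    (0 : ℝ) < V.card := by
  by_contra hcon
  have h0 : (V.card : ℝ) = 0 := le_antisymm (not_lt.1 hcon) (Nat.cast_nonneg _)
  rw [h0, Real.log_zero] at hV
  linarith

/-- tuples -/
theorem robust_core (δ : ℝ) (hδ : 0 < δ) : ∃ C : ℝ, 0 < C ∧ ∀ (k : ℕ) (V : Finset ℤ), 1 ≤ k →
    AdmTo (Real.exp ((4 + δ) * k + C)) V → (4 + δ) * k + C ≤ Real.log V.card →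
    ∀ 𝓔 : Finset (Finset ℤ), (∀ E ∈ 𝓔, E.Nonempty) →
    ∑ E ∈ 𝓔, (C * (E.card : ℝ) * k / V.card) ^ E.card ≤ k →
    ∃ B ⊆ V, B.card = k ∧ PrimeTuple B ∧ ∀ E ∈ 𝓔, ¬ E ⊆ B := by
  obtain ⟨d, hd0, hd1, hpar⟩ := params δ hδ
  obtain ⟨C, hC⟩ : ∃ C : ℝ, C = 10000 / d + 14 := ⟨_, rfl⟩
  have hCd : 10000 / d ≤ C := by rw [hC]; linarith
  have hd' : 0 < 10000 / d := by positivity
  have hC14 : 14 ≤ C := by rw [hC]; linarith
  refine ⟨C, by linarith, ?_⟩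
  intro k V hk hadm hV 𝓔 hne hsum
  have hk' : (1 : ℝ) ≤ k := by exact_mod_cast hk
  obtain ⟨m, hm2, hkm, hm5, hmk, -, hexp⟩ := hpar k hk
  have hm' : (2 : ℝ) ≤ m := by exact_mod_cast hm2
  have hVpos := card_pos_of_log V _ (by positivity) hV
  obtain ⟨lam, hSM, hiso⟩ := spread_SM m hm2 V (by linarith) (fun p hp hpl => hadm p hp (by
    refine hpl.trans ((exp_add_one_le _ (by positivity)).trans ?_)
    apply Real.exp_le_exp.2
    linarith))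
  have h1 : 1250 / C ≤ d / 8 := by
    rw [div_le_div_iff₀ (by linarith) (by norm_num)]
    have h2 := mul_le_mul_of_nonneg_left hCd hd0.le
    have h3 : d * (10000 / d) = 10000 := by field_simp
    linarith
  have h2 := weight_le C k m (V.card : ℝ) hVpos hm5 (d / 8) (by linarith) (by linarith) h1 𝓔 hne
  obtain ⟨B, B', hB1, hB2, hB3, hB4, hB5⟩ := hSM.indep_tuple k hk 𝓔 hne (by
    refine h2.trans (le_trans ?_ hmk)
    exact mul_le_mul_of_nonneg_left hsum (by positivity))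
  exact ⟨B', hB3.trans hB2, hB4, (hiso B hB1).tuple hB3, hB5⟩

/-- isolated patterns -/
theorem iso_core (δ : ℝ) (hδ : 0 < δ) : ∃ C : ℝ, 0 < C ∧ ∀ (k : ℕ) (V : Finset ℤ), 1 ≤ k →
    AdmTo (Real.exp ((4 + δ) * k + C)) V → (4 + δ) * k + C ≤ Real.log V.card →
    ∀ 𝓔 : Finset (Finset ℤ), (∀ E ∈ 𝓔, E.Nonempty) →
    ∑ E ∈ 𝓔, (C * (E.card : ℝ) * k / V.card) ^ E.card ≤ 1 →
    ∃ B ⊆ V, k ≤ B.card ∧ Isolated B ∧ ∀ E ∈ 𝓔, ¬ E ⊆ B := by
  obtain ⟨d, hd0, hd1, hpar⟩ := params δ hδ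
  obtain ⟨C, hC⟩ : ∃ C : ℝ, C = 200000000000 / d ^ 2 + 14 := ⟨_, rfl⟩
  have hCd : 200000000000 / d ^ 2 ≤ C := by rw [hC]; linarith
  have hd' : 0 < 200000000000 / d ^ 2 := by positivity
  have hC14 : 14 ≤ C := by rw [hC]; linarith
  refine ⟨C, by linarith, ?_⟩
  intro k V hk hadm hV 𝓔 hne hsum
  have hk' : (1 : ℝ) ≤ k := by exact_mod_cast hk
  obtain ⟨m, hm2, hkm, hm5, -, hmk, hexp⟩ := hpar k hk
  have hm' : (2 : ℝ) ≤ m := by exact_mod_cast hm2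
  have hVpos := card_pos_of_log V _ (by positivity) hV
  obtain ⟨lam, hSM, hiso⟩ := spread_SM m hm2 V (by linarith) (fun p hp hpl => hadm p hp (by
    refine hpl.trans ((exp_add_one_le _ (by positivity)).trans ?_)
    apply Real.exp_le_exp.2
    linarith))
  obtain ⟨c, hc⟩ : ∃ c : ℝ, c = d ^ 2 / 160000000 := ⟨_, rfl⟩
  have hd2 : d ^ 2 ≤ 1 := pow_le_one₀ hd0.le hd1
  have hc0 : 0 < c := by rw [hc]; positivity
  have h1 : 1250 / C ≤ c := by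
    rw [hc, div_le_div_iff₀ (by linarith) (by norm_num)]
    have h2 := mul_le_mul_of_nonneg_left hCd (sq_nonneg d)
    have h3 : d ^ 2 * (200000000000 / d ^ 2) = 200000000000 := by field_simp
    linarith
  have h2 := weight_le C k m (V.card : ℝ) hVpos hm5 c (by rw [hc]; linarith) (by linarith) h1 𝓔 hne
  obtain ⟨B, hB1, hB2, hB3, hB4⟩ := hSM.indep_iso k hk hkm 𝓔 hne (by
    refine lt_of_le_of_lt (h2.trans (mul_le_mul_of_nonneg_left hsum hc0.le)) ?_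
    rw [mul_one, hc, lt_div_iff₀ (by positivity)]
    have h3 := pow_le_pow_left₀ (by positivity) hmk 2
    have h4 : 0 < d ^ 2 * (m : ℝ) ^ 2 := by positivity
    nlinarith)
  exact ⟨B, hB2, hB3, hiso B hB1, hB4⟩

open Classical in
/-- the pairs of elements of `V` with a difference in `D` -/
noncomputable def prs (D : Set ℕ) (V : Finset ℤ) : Finset (ℤ × ℤ) :=
  (V ×ˢ V).filter (fun z => z.2 < z.1 ∧ (z.1 - z.2).toNat ∈ D)

/-- a sifted window with few differences in `D` -/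
theorem window2 (δ C₁ : ℝ) (hδ : 0 < δ) (hC₁ : 0 < C₁) : ∃ C : ℝ, 0 < C ∧ ∀ k X : ℕ, 1 ≤ k →
    C * k * Real.exp ((4 + δ) * k) ≤ X → ∀ (D : Set ℕ) (κ : ℝ), 0 ≤ κ →
    (∀ s : Finset ℕ, (∀ d ∈ s, d ∈ D ∧ 1 ≤ d ∧ d ≤ X) →
      κ * ∑ d ∈ s, (d : ℝ) / (Nat.totient d : ℝ) ≤ X / 2) →
    ∃ V ⊆ Icc (1 : ℤ) X, AdmTo (Real.exp ((4 + δ) * k + C₁)) V ∧
      (4 + δ) * k + C₁ ≤ Real.log V.card ∧ κ * ((prs D V).card : ℝ) ≤ (V.card : ℝ) ^ 2 := by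
  classical
  obtain ⟨c, hc, hmer⟩ := mertens_prod
  obtain ⟨C, hC⟩ : ∃ C : ℝ, C = 2 * (4 + δ + C₁) * Real.exp C₁ / c := ⟨_, rfl⟩
  have hC0 : 0 < C := by rw [hC]; positivity
  refine ⟨C, hC0, ?_⟩
  intro k X hk hX D κ hκ hD
  have hk' : (1 : ℝ) ≤ k := by exact_mod_cast hk
  obtain ⟨y, hy⟩ : ∃ y : ℝ, y = (4 + δ) * k + C₁ := ⟨_, rfl⟩
  rw [← hy]
  have hy4 : 4 ≤ y := by rw [hy]; nlinarith
  obtain ⟨N, hN⟩ : ∃ N : ℕ, N = ⌊Real.exp y⌋₊ := ⟨_, rfl⟩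
  have hN2 : 2 ≤ N := by
    rw [hN]
    apply Nat.le_floor
    have := Real.add_one_le_exp y
    push_cast
    linarith
  have hNe : (N : ℝ) ≤ Real.exp y := by rw [hN]; exact Nat.floor_le (Real.exp_pos _).le
  have hN2' : (2 : ℝ) ≤ N := by exact_mod_cast hN2
  have hlogN : 0 < Real.log N := Real.log_pos (by linarith)
  have hlogNy : Real.log N ≤ y := by
    rw [Real.log_le_iff_le_exp (by linarith)]
    exact hNe
  obtain ⟨P, hPdef⟩ : ∃ P : Finset ℕ, P = (Icc 1 N).filter Nat.Prime := ⟨_, rfl⟩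
  have hP : ∀ p ∈ P, p.Prime := fun p hp => by
    rw [hPdef] at hp
    exact (Finset.mem_filter.1 hp).2
  obtain ⟨G, hG⟩ : ∃ G : ℝ, G = ∏ p ∈ P, (1 - 1 / (p : ℝ)) := ⟨_, rfl⟩
  have hGlow : c / y ≤ G := by
    rw [hG, hPdef]
    refine le_trans ?_ (hmer N hN2)
    exact div_le_div_of_nonneg_left hc.le hlogN hlogNy
  have hG0 : 0 < G := lt_of_lt_of_le (by positivity) hGlow
  obtain ⟨V, hV1, hV2, hV3⟩ := sieve2 κ hκ (prs D (Icc (1 : ℤ) X)) P hP (Icc (1 : ℤ) X)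
  have hcardX : ((Icc (1 : ℤ) X).card : ℝ) = X := by
    rw [Int.card_Icc]
    simp
  rw [← hG, hcardX] at hV3
  have hfil1 : (prs D (Icc (1 : ℤ) X)).filter (fun z => z.1 ∈ V ∧ z.2 ∈ V) = prs D V := by
    ext z
    unfold prs
    simp only [Finset.mem_filter, Finset.mem_product]
    constructor
    · rintro ⟨⟨-, h2⟩, h3⟩
      exact ⟨h3, h2⟩
    · rintro ⟨h3, h2⟩
      exact ⟨⟨⟨hV1 h3.1, hV1 h3.2⟩, h2⟩, h3⟩
  rw [hfil1] at hV3
  -- the sum over the pairs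
  have hpairs : κ * ∑ z ∈ (prs D (Icc (1 : ℤ) X)).filter (fun z => z.1 ∈ Icc (1 : ℤ) X ∧ z.2 ∈ Icc (1 : ℤ) X),
      om P (z.1 - z.2) ≤ (X : ℝ) * G ^ 2 * (X / 2) := by
    obtain ⟨s, hs⟩ : ∃ s : Finset ℕ, s = (Icc 1 X).filter (fun d => d ∈ D) := ⟨_, rfl⟩
    have h1 := hD s (fun d hd => by
      rw [hs, Finset.mem_filter, Finset.mem_Icc] at hd
      exact ⟨hd.2, hd.1.1, hd.1.2⟩)
    have h2 : ∑ z ∈ (prs D (Icc (1 : ℤ) X)).filter (fun z => z.1 ∈ Icc (1 : ℤ) X ∧ z.2 ∈ Icc (1 : ℤ) X),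
        om P (z.1 - z.2) ≤ ∑ d ∈ s, ∑ v ∈ Icc (1 : ℤ) X, om P (d : ℤ) := by
      rw [← Finset.sum_product' (f := fun (d : ℕ) (_ : ℤ) => om P (d : ℤ))]
      have h3 : ∀ z ∈ (prs D (Icc (1 : ℤ) X)).filter (fun z => z.1 ∈ Icc (1 : ℤ) X ∧ z.2 ∈ Icc (1 : ℤ) X),
          z.2 < z.1 ∧ (z.1 - z.2).toNat ∈ D ∧ 1 ≤ z.1 ∧ z.1 ≤ X ∧ 1 ≤ z.2 ∧ z.2 ≤ X := by
        intro z hz
        unfold prs at hz
        simp only [Finset.mem_filter, Finset.mem_product, Finset.mem_Icc] at hz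
        exact ⟨hz.1.2.1, hz.1.2.2, hz.2.1.1, hz.2.1.2, hz.2.2.1, hz.2.2.2⟩
      have h4 : ∑ z ∈ (prs D (Icc (1 : ℤ) X)).filter (fun z => z.1 ∈ Icc (1 : ℤ) X ∧ z.2 ∈ Icc (1 : ℤ) X),
          om P (z.1 - z.2) =
          ∑ y ∈ ((prs D (Icc (1 : ℤ) X)).filter (fun z => z.1 ∈ Icc (1 : ℤ) X ∧ z.2 ∈ Icc (1 : ℤ) X)).image
            (fun z : ℤ × ℤ => (((z.1 - z.2).toNat, z.2) : ℕ × ℤ)), om P ((y.1 : ℕ) : ℤ) := by
        rw [Finset.sum_image]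
        · refine Finset.sum_congr rfl fun z hz => ?_
          have := h3 z hz
          rw [Int.toNat_of_nonneg (by omega)]
        · intro z hz z' hz' h
          have a1 := h3 z hz
          have a2 := h3 z' hz'
          simp only [Prod.mk.injEq] at h
          ext <;> omega
      rw [h4]
      apply Finset.sum_le_sum_of_subset_of_nonneg
      · intro y hy
        rw [Finset.mem_image] at hy
        obtain ⟨z, hz, rfl⟩ := hy
        have a1 := h3 z hz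
        rw [Finset.mem_product, hs, Finset.mem_filter, Finset.mem_Icc, Finset.mem_Icc]
        refine ⟨⟨⟨?_, ?_⟩, a1.2.1⟩, ?_, ?_⟩ <;> simp only <;> omega
      · intro y _ _
        exact om_nonneg P hP _
    have h5 : ∑ d ∈ s, ∑ v ∈ Icc (1 : ℤ) X, om P (d : ℤ) ≤
        (X : ℝ) * G ^ 2 * ∑ d ∈ s, (d : ℝ) / (Nat.totient d : ℝ) := by
      rw [Finset.mul_sum]
      refine Finset.sum_le_sum fun d hd => ?_
      rw [hs, Finset.mem_filter, Finset.mem_Icc] at hd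
      rw [Finset.sum_const, nsmul_eq_mul, hcardX, mul_assoc]
      apply mul_le_mul_of_nonneg_left _ (Nat.cast_nonneg _)
      rw [hG]
      exact om_le P hP d hd.1.1
    calc κ * ∑ z ∈ (prs D (Icc (1 : ℤ) X)).filter (fun z => z.1 ∈ Icc (1 : ℤ) X ∧ z.2 ∈ Icc (1 : ℤ) X),
        om P (z.1 - z.2) ≤ κ * ((X : ℝ) * G ^ 2 * ∑ d ∈ s, (d : ℝ) / (Nat.totient d : ℝ)) :=
          mul_le_mul_of_nonneg_left (h2.trans h5) hκ
      _ = (X : ℝ) * G ^ 2 * (κ * ∑ d ∈ s, (d : ℝ) / (Nat.totient d : ℝ)) := by ring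
      _ ≤ _ := mul_le_mul_of_nonneg_left h1 (by positivity)
  have hfinal : κ * ((prs D V).card : ℝ) + (X : ℝ) ^ 2 * G ^ 2 / 2 ≤ (V.card : ℝ) ^ 2 := by
    have e1 : ((X : ℝ) * G) ^ 2 - (X : ℝ) * G ^ 2 * (X / 2) = (X : ℝ) ^ 2 * G ^ 2 / 2 := by ring
    linarith
  have hκp : 0 ≤ κ * ((prs D V).card : ℝ) := mul_nonneg hκ (Nat.cast_nonneg _)
  have hVc : (X : ℝ) * G / 2 ≤ V.card := by
    apply le_of_sq_le_sq _ (Nat.cast_nonneg _)
    have : 0 ≤ (X : ℝ) ^ 2 * G ^ 2 := by positivity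
    nlinarith
  have hXlow : Real.exp y ≤ (X : ℝ) * G / 2 := by
    have h1 : y ≤ (4 + δ + C₁) * k := by rw [hy]; nlinarith
    have h2 : C * k * Real.exp ((4 + δ) * k) * (c / y) ≤ X * G :=
      mul_le_mul hX hGlow (by positivity) (Nat.cast_nonneg _)
    have h3 : 2 * Real.exp y ≤ C * k * Real.exp ((4 + δ) * k) * (c / y) := by
      rw [mul_div_assoc', le_div_iff₀ (by linarith)]
      have e1 : C * k * Real.exp ((4 + δ) * k) * c = 2 * Real.exp y * ((4 + δ + C₁) * k) := by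
        rw [hC, hy, Real.exp_add]
        field_simp
      rw [e1]
      exact mul_le_mul_of_nonneg_left h1 (by positivity)
    linarith
  refine ⟨V, hV1, ?_, ?_, ?_⟩
  · intro p hp hpy
    apply hV2 p
    rw [hPdef, Finset.mem_filter, Finset.mem_Icc]
    refine ⟨⟨hp.one_le, ?_⟩, hp⟩
    rw [hN]
    exact Nat.le_floor hpy
  · rw [Real.le_log_iff_exp_le (lt_of_lt_of_le (Real.exp_pos y) (hXlow.trans hVc))]
    exact hXlow.trans hVc
  · have : 0 ≤ (X : ℝ) ^ 2 * G ^ 2 / 2 := by positivity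
    linarith

/-- the family of the pairs -/
theorem prs_family (D : Set ℕ) (V : Finset ℤ) : ∃ 𝓔 : Finset (Finset ℤ), (∀ E ∈ 𝓔, E.card = 2) ∧
    𝓔.card ≤ (prs D V).card ∧ ∀ B ⊆ V, (∀ E ∈ 𝓔, ¬ E ⊆ B) → ∀ a ∈ B, ∀ b ∈ B, b < a →
      (a - b).toNat ∉ D := by
  classical
  refine ⟨(prs D V).image (fun z => {z.1, z.2}), ?_, Finset.card_image_le, ?_⟩
  · intro E hE
    rw [Finset.mem_image] at hE
    obtain ⟨z, hz, rfl⟩ := hE
    unfold prs at hz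
    rw [Finset.mem_filter] at hz
    exact Finset.card_pair hz.2.1.ne'
  · intro B hB h a ha b hb hab hD
    apply h {a, b}
    · rw [Finset.mem_image]
      refine ⟨(a, b), ?_, rfl⟩
      unfold prs
      rw [Finset.mem_filter, Finset.mem_product]
      exact ⟨⟨hB ha, hB hb⟩, hab, hD⟩
    · intro x hx
      rw [Finset.mem_insert, Finset.mem_singleton] at hx
      rcases hx with rfl | rfl
      · exact ha
      · exact hb

theorem fam_sum (C n : ℝ) (k : ℕ) (𝓔 : Finset (Finset ℤ)) (h : ∀ E ∈ 𝓔, E.card = 2) :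
    ∑ E ∈ 𝓔, (C * (E.card : ℝ) * k / n) ^ E.card = 𝓔.card * (2 * C * k / n) ^ 2 := by
  rw [← nsmul_eq_mul, ← Finset.sum_const]
  refine Finset.sum_congr rfl fun E hE => ?_
  rw [h E hE]
  congr 1
  push_cast
  ring

/-- **tuples** -/
theorem robust (δ : ℝ) (hδ : 0 < δ) : ∃ C : ℝ, 0 < C ∧ ∀ k : ℕ, 1 ≤ k →
    (∀ V : Finset ℤ, AdmTo (Real.exp ((4 + δ) * k + C)) V → (4 + δ) * k + C ≤ Real.log V.card →
      ∀ 𝓔 : Finset (Finset ℤ), (∀ E ∈ 𝓔, E.Nonempty) →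
      ∑ E ∈ 𝓔, (C * (E.card : ℝ) * k / V.card) ^ E.card ≤ k →
      ∃ B ⊆ V, B.card = k ∧ PrimeTuple B ∧ ∀ E ∈ 𝓔, ¬ E ⊆ B) ∧
    (∀ X : ℕ, C * k * Real.exp ((4 + δ) * k) ≤ X → ∀ D : Set ℕ,
      (∀ s : Finset ℕ, (∀ d ∈ s, d ∈ D ∧ 1 ≤ d ∧ d ≤ X) →
        ∑ d ∈ s, (d : ℝ) / (Nat.totient d : ℝ) ≤ X / (C * k)) →
      ∃ B ⊆ Icc (1 : ℤ) X, B.card = k ∧ PrimeTuple B ∧
        ∀ a ∈ B, ∀ b ∈ B, b < a → (a - b).toNat ∉ D) := by
  obtain ⟨C₁, hC₁, h1⟩ := robust_core δ hδ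
  obtain ⟨C₂, hC₂, h2⟩ := window2 δ C₁ hδ hC₁
  obtain ⟨C, hC⟩ : ∃ C : ℝ, C = C₁ + C₂ + 8 * C₁ ^ 2 := ⟨_, rfl⟩
  have hC1 : C₁ ≤ C := by rw [hC]; have := sq_nonneg C₁; linarith
  have hC2 : C₂ ≤ C := by rw [hC]; have := sq_nonneg C₁; linarith
  have hC3 : 8 * C₁ ^ 2 ≤ C := by rw [hC]; linarith
  have hCpos : 0 < C := by linarith
  refine ⟨C, by linarith, fun k hk => ⟨?_, ?_⟩⟩
  · intro V hadm hV 𝓔 hne hsum
    refine h1 k V hk (fun p hp hpl => hadm p hp (hpl.trans (Real.exp_le_exp.2 (by linarith))))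
      (by linarith) 𝓔 hne (le_trans ?_ hsum)
    refine Finset.sum_le_sum fun E _ => ?_
    apply pow_le_pow_left₀ (by positivity)
    apply div_le_div_of_nonneg_right _ (Nat.cast_nonneg _)
    apply mul_le_mul_of_nonneg_right _ (Nat.cast_nonneg _)
    exact mul_le_mul_of_nonneg_right hC1 (Nat.cast_nonneg _)
  · intro X hX D hD
    have hk' : (1 : ℝ) ≤ k := by exact_mod_cast hk
    obtain ⟨V, hV1, hV2, hV3, hV4⟩ := h2 k X hk (by
      refine le_trans ?_ hX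
      apply mul_le_mul_of_nonneg_right _ (Real.exp_pos _).le
      exact mul_le_mul_of_nonneg_right hC2 (by linarith)) D (4 * C₁ ^ 2 * k) (by positivity) (by
      intro s hs
      have h3 := mul_le_mul_of_nonneg_left (hD s hs) (by positivity : 0 ≤ 4 * C₁ ^ 2 * (k : ℝ))
      refine h3.trans ?_
      rw [mul_div_assoc', div_le_div_iff₀ (by nlinarith) (by norm_num)]
      have hX0 : (0 : ℝ) ≤ X := Nat.cast_nonneg _
      have h4 : 8 * C₁ ^ 2 * (k * X) ≤ C * (k * X) := mul_le_mul_of_nonneg_right hC3 (by positivity)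
      linarith)
    have hVpos := card_pos_of_log V _ (by positivity) hV3
    obtain ⟨𝓔, hE1, hE2, hE3⟩ := prs_family D V
    obtain ⟨B, hB1, hB2, hB3, hB4⟩ := h1 k V hk hV2 hV3 𝓔 (fun E hE => by
      rw [← Finset.card_pos, hE1 E hE]; norm_num) (by
      rw [fam_sum _ _ _ _ hE1]
      have h5 : (𝓔.card : ℝ) ≤ (prs D V).card := by exact_mod_cast hE2
      have h6 : (𝓔.card : ℝ) * (4 * C₁ ^ 2 * k) ≤ (V.card : ℝ) ^ 2 := by
        refine le_trans ?_ hV4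
        rw [mul_comm]
        exact mul_le_mul_of_nonneg_left h5 (by positivity)
      rw [div_pow, mul_div_assoc', div_le_iff₀ (by positivity)]
      have h7 := mul_le_mul_of_nonneg_right h6 (by linarith : (0 : ℝ) ≤ k)
      have e1 : (𝓔.card : ℝ) * (2 * C₁ * k) ^ 2 = 𝓔.card * (4 * C₁ ^ 2 * k) * k := by ring
      rw [e1]
      linarith)
    exact ⟨B, hB1.trans hV1, hB2, hB3, hE3 B hB1 hB4⟩

/-- **isolated patterns** -/
theorem robust_iso (δ : ℝ) (hδ : 0 < δ) : ∃ C : ℝ, 0 < C ∧ ∀ k : ℕ, 1 ≤ k →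
    (∀ V : Finset ℤ, AdmTo (Real.exp ((4 + δ) * k + C)) V → (4 + δ) * k + C ≤ Real.log V.card →
      ∀ 𝓔 : Finset (Finset ℤ), (∀ E ∈ 𝓔, E.Nonempty) →
      ∑ E ∈ 𝓔, (C * (E.card : ℝ) * k / V.card) ^ E.card ≤ 1 →
      ∃ B ⊆ V, k ≤ B.card ∧ Isolated B ∧ ∀ E ∈ 𝓔, ¬ E ⊆ B) ∧
    (∀ X : ℕ, C * k * Real.exp ((4 + δ) * k) ≤ X → ∀ D : Set ℕ,
      (∀ s : Finset ℕ, (∀ d ∈ s, d ∈ D ∧ 1 ≤ d ∧ d ≤ X) →
        ∑ d ∈ s, (d : ℝ) / (Nat.totient d : ℝ) ≤ X / (C * (k : ℝ) ^ 2)) →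
      ∃ B ⊆ Icc (1 : ℤ) X, k ≤ B.card ∧ Isolated B ∧
        ∀ a ∈ B, ∀ b ∈ B, b < a → (a - b).toNat ∉ D) := by
  obtain ⟨C₁, hC₁, h1⟩ := iso_core δ hδ
  obtain ⟨C₂, hC₂, h2⟩ := window2 δ C₁ hδ hC₁
  obtain ⟨C, hC⟩ : ∃ C : ℝ, C = C₁ + C₂ + 8 * C₁ ^ 2 := ⟨_, rfl⟩
  have hC1 : C₁ ≤ C := by rw [hC]; have := sq_nonneg C₁; linarith
  have hC2 : C₂ ≤ C := by rw [hC]; have := sq_nonneg C₁; linarith
  have hC3 : 8 * C₁ ^ 2 ≤ C := by rw [hC]; linarith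
  have hCpos : 0 < C := by linarith
  refine ⟨C, by linarith, fun k hk => ⟨?_, ?_⟩⟩
  · intro V hadm hV 𝓔 hne hsum
    refine h1 k V hk (fun p hp hpl => hadm p hp (hpl.trans (Real.exp_le_exp.2 (by linarith))))
      (by linarith) 𝓔 hne (le_trans ?_ hsum)
    refine Finset.sum_le_sum fun E _ => ?_
    apply pow_le_pow_left₀ (by positivity)
    apply div_le_div_of_nonneg_right _ (Nat.cast_nonneg _)
    apply mul_le_mul_of_nonneg_right _ (Nat.cast_nonneg _)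
    exact mul_le_mul_of_nonneg_right hC1 (Nat.cast_nonneg _)
  · intro X hX D hD
    have hk' : (1 : ℝ) ≤ k := by exact_mod_cast hk
    obtain ⟨V, hV1, hV2, hV3, hV4⟩ := h2 k X hk (by
      refine le_trans ?_ hX
      apply mul_le_mul_of_nonneg_right _ (Real.exp_pos _).le
      exact mul_le_mul_of_nonneg_right hC2 (by linarith)) D (4 * C₁ ^ 2 * (k : ℝ) ^ 2) (by positivity) (by
      intro s hs
      have h3 := mul_le_mul_of_nonneg_left (hD s hs) (by positivity : 0 ≤ 4 * C₁ ^ 2 * (k : ℝ) ^ 2)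
      refine h3.trans ?_
      rw [mul_div_assoc', div_le_div_iff₀ (by positivity) (by norm_num)]
      have hX0 : (0 : ℝ) ≤ X := Nat.cast_nonneg _
      have h4 : 8 * C₁ ^ 2 * ((k : ℝ) ^ 2 * X) ≤ C * ((k : ℝ) ^ 2 * X) :=
        mul_le_mul_of_nonneg_right hC3 (by positivity)
      linarith)
    have hVpos := card_pos_of_log V _ (by positivity) hV3
    obtain ⟨𝓔, hE1, hE2, hE3⟩ := prs_family D V
    obtain ⟨B, hB1, hB2, hB3, hB4⟩ := h1 k V hk hV2 hV3 𝓔 (fun E hE => by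
      rw [← Finset.card_pos, hE1 E hE]; norm_num) (by
      rw [fam_sum _ _ _ _ hE1]
      have h5 : (𝓔.card : ℝ) ≤ (prs D V).card := by exact_mod_cast hE2
      have h6 : (𝓔.card : ℝ) * (4 * C₁ ^ 2 * (k : ℝ) ^ 2) ≤ (V.card : ℝ) ^ 2 := by
        refine le_trans ?_ hV4
        rw [mul_comm]
        exact mul_le_mul_of_nonneg_left h5 (by positivity)
      rw [div_pow, mul_div_assoc', div_le_iff₀ (by positivity)]
      have e1 : (𝓔.card : ℝ) * (2 * C₁ * k) ^ 2 = 𝓔.card * (4 * C₁ ^ 2 * (k : ℝ) ^ 2) := by ring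
      rw [e1]
      linarith)
    exact ⟨B, hB1.trans hV1, hB2, hB3, hE3 B hB1 hB4⟩

end Pool.Agent.H522
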