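import Mathlib
import Pool.Agent.H522.ExactOrbits
import Pool.Agent.H522.Robust

/-! H522: good sets without forbidden configurations, generic version. -/

set_option autoImplicit false

open Finset Filter

namespace Pool.Agent.H522

/-- subsets of good sets -/
theorem robust_coreG (δ : ℝ) (hδ : 0 < δ) : ∃ C : ℝ, 0 < C ∧ ∀ (α : Type) [DecidableEq α]
    (Ok G : Finset α → Prop), HasSM Ok G → ∀ (k : ℕ) (V : Finset α), 1 ≤ k →
    Ok V → (4 + δ) * k + C ≤ Real.log V.card →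
    ∀ 𝓔 : Finset (Finset α), (∀ E ∈ 𝓔, E.Nonempty) →
    ∑ E ∈ 𝓔, (C * (E.card : ℝ) * k / V.card) ^ E.card ≤ k →
    ∃ B B' : Finset α, G B ∧ B ⊆ V ∧ B' ⊆ B ∧ B'.card = k ∧ ∀ E ∈ 𝓔, ¬ E ⊆ B' := by
  obtain ⟨d, hd0, hd1, hpar⟩ := params δ hδ
  obtain ⟨C, hC⟩ : ∃ C : ℝ, C = 10000 / d + 14 := ⟨_, rfl⟩
  have hCd : 10000 / d ≤ C := by rw [hC]; linarith
  have hd' : 0 < 10000 / d := by positivity
  have hC14 : 14 ≤ C := by rw [hC]; linarith
  refine ⟨C, by linarith, ?_⟩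
  intro α _ Ok G hsp k V hk hadm hV 𝓔 hne hsum
  have hk' : (1 : ℝ) ≤ k := by exact_mod_cast hk
  obtain ⟨m, hm2, hkm, hm5, hmk, -, hexp⟩ := hpar k hk
  have hm' : (2 : ℝ) ≤ m := by exact_mod_cast hm2
  obtain ⟨lam, hSM, hiso⟩ := hsp.2 m V hm2 hadm (by linarith)
  have hVpos : (0 : ℝ) < V.card := by exact_mod_cast hSM.Vpos
  have h1 : 1250 / C ≤ d / 8 := by
    rw [div_le_div_iff₀ (by linarith) (by norm_num)]
    have h2 := mul_le_mul_of_nonneg_left hCd hd0.le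
    have h3 : d * (10000 / d) = 10000 := by field_simp
    linarith
  have h2 := weight_le C k m (V.card : ℝ) hVpos hm5 (d / 8) (by linarith) (by linarith) h1 𝓔 hne
  obtain ⟨B, B', hB1, hB2, hB3, hB4, hB5⟩ := hSM.indep_tuple k hk 𝓔 hne (by
    refine h2.trans (le_trans ?_ hmk)
    exact mul_le_mul_of_nonneg_left hsum (by positivity))
  exact ⟨B, B', hiso B hB1, hB2, hB3, hB4, hB5⟩

/-- good sets -/
theorem iso_coreG (δ : ℝ) (hδ : 0 < δ) : ∃ C : ℝ, 0 < C ∧ ∀ (α : Type) [DecidableEq α]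
    (Ok G : Finset α → Prop), HasSM Ok G → ∀ (k : ℕ) (V : Finset α), 1 ≤ k →
    Ok V → (4 + δ) * k + C ≤ Real.log V.card →
    ∀ 𝓔 : Finset (Finset α), (∀ E ∈ 𝓔, E.Nonempty) →
    ∑ E ∈ 𝓔, (C * (E.card : ℝ) * k / V.card) ^ E.card ≤ 1 →
    ∃ B ⊆ V, k ≤ B.card ∧ G B ∧ ∀ E ∈ 𝓔, ¬ E ⊆ B := by
  obtain ⟨d, hd0, hd1, hpar⟩ := params δ hδ
  obtain ⟨C, hC⟩ : ∃ C : ℝ, C = 200000000000 / d ^ 2 + 14 := ⟨_, rfl⟩
  have hCd : 200000000000 / d ^ 2 ≤ C := by rw [hC]; linarith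
  have hd' : 0 < 200000000000 / d ^ 2 := by positivity
  have hC14 : 14 ≤ C := by rw [hC]; linarith
  refine ⟨C, by linarith, ?_⟩
  intro α _ Ok G hsp k V hk hadm hV 𝓔 hne hsum
  have hk' : (1 : ℝ) ≤ k := by exact_mod_cast hk
  obtain ⟨m, hm2, hkm, hm5, -, hmk, hexp⟩ := hpar k hk
  have hm' : (2 : ℝ) ≤ m := by exact_mod_cast hm2
  obtain ⟨lam, hSM, hiso⟩ := hsp.2 m V hm2 hadm (by linarith)
  have hVpos : (0 : ℝ) < V.card := by exact_mod_cast hSM.Vpos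
  obtain ⟨c, hc⟩ : ∃ c : ℝ, c = d ^ 2 / 160000000 := ⟨_, rfl⟩
  have hd2 : d ^ 2 ≤ 1 := pow_le_one₀ hd0.le hd1
  have hc0 : 0 < c := by rw [hc]; positivity
  have h1 : 1250 / C ≤ c := by
    rw [hc, div_le_div_iff₀ (by linarith) (by norm_num)]
    have h2 := mul_le_mul_of_nonneg_left hCd (sq_nonneg d)
    have h3 : d ^ 2 * (200000000000 / d ^ 2) = 200000000000 := by field_simp
    linarith
  have h2 := weight_le C k m (V.card : ℝ) hVpos hm5 c (by rw [hc]; linarith) (by linarith) h1 𝓔 hne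
  obtain ⟨B, hB1, hB2, hB3, hB4⟩ := hSM.indep_iso k hk hkm 𝓔 hne (by
    refine lt_of_le_of_lt (h2.trans (mul_le_mul_of_nonneg_left hsum hc0.le)) ?_
    rw [mul_one, hc, lt_div_iff₀ (by positivity)]
    have h3 := pow_le_pow_left₀ (by positivity) hmk 2
    have h4 : 0 < d ^ 2 * (m : ℝ) ^ 2 := by positivity
    nlinarith)
  exact ⟨B, hB2, hB3, hiso B hB1, hB4⟩

/-- the family of the pairs of times with a difference in `D` -/
theorem prsN (D : Set ℕ) (X : ℕ) : ∃ 𝓔 : Finset (Finset ℕ), (∀ E ∈ 𝓔, E.card = 2) ∧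
    𝓔.card ≤ X * (Set.ncard (D ∩ Set.Icc 1 X)) ∧ ∀ B ⊆ Finset.range X, (∀ E ∈ 𝓔, ¬ E ⊆ B) →
      ∀ a ∈ B, ∀ b ∈ B, b < a → a - b ∉ D := by
  classical
  have hfin : (D ∩ Set.Icc 1 X).Finite := (Set.finite_Icc 1 X).inter_of_right D
  obtain ⟨F, hF⟩ : ∃ F : Finset ℕ, F = hfin.toFinset := ⟨_, rfl⟩
  refine ⟨(Finset.range X ×ˢ F).image (fun z => {z.1, z.1 + z.2}), ?_, ?_, ?_⟩
  · intro E hE
    rw [Finset.mem_image] at hE
    obtain ⟨z, hz, rfl⟩ := hE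
    rw [Finset.mem_product, hF, Set.Finite.mem_toFinset] at hz
    apply Finset.card_pair
    have := hz.2.2.1
    omega
  · refine Finset.card_image_le.trans ?_
    rw [Finset.card_product, Finset.card_range, hF, Set.ncard_eq_toFinset_card _ hfin]
  · intro B hB h a ha b hb hab hD
    apply h {b, a}
    · rw [Finset.mem_image]
      have hbX := Finset.mem_range.1 (hB hb)
      have haX := Finset.mem_range.1 (hB ha)
      refine ⟨(b, a - b), ?_, ?_⟩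
      · rw [Finset.mem_product, hF, Set.Finite.mem_toFinset]
        exact ⟨hB hb, hD, by rw [Set.mem_Icc]; simp only; omega⟩
      · have : b + (a - b) = a := by omega
        simp only [this]
    · intro x hx
      rw [Finset.mem_insert, Finset.mem_singleton] at hx
      rcases hx with rfl | rfl
      · exact hb
      · exact ha

theorem fam_sumG {α : Type} (C n : ℝ) (k : ℕ) (𝓔 : Finset (Finset α)) (h : ∀ E ∈ 𝓔, E.card = 2) :
    ∑ E ∈ 𝓔, (C * (E.card : ℝ) * k / n) ^ E.card = 𝓔.card * (2 * C * k / n) ^ 2 := by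
  rw [← nsmul_eq_mul, ← Finset.sum_const]
  refine Finset.sum_congr rfl fun E hE => ?_
  rw [h E hE]
  congr 1
  push_cast
  ring

end Pool.Agent.H522
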