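import Mathlib
import Pool.Agent.H522.Forms

/-! H522: the proportion of the `t`-subfamilies with `k` simultaneously prime forms. -/

set_option autoImplicit false

open Finset Filter

namespace Pool.Agent.H522

open Classical in
/-- the lower bound for all `t ≥ k` -/
theorem interpG {α : Type} [DecidableEq α] (Ok G : Finset α → Prop) (hsp : HasSM Ok G)
    (hG : ∀ S S', S ⊆ S' → G S' → G S) (k : ℕ) (V : Finset α) (hk : 1 ≤ k) (hok : Ok V)
    (hV : 4 * (k : ℝ) + 5 ≤ Real.log V.card) (t : ℕ) (hkt : k ≤ t) (htV : t ≤ V.card) :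
    ((t : ℝ) / (10 ^ 15 * (t + (k : ℝ) ^ 2))) ^ k * (V.card.choose t : ℝ) ≤
      (((V.powersetCard t).filter (fun W => ∃ S, S ⊆ W ∧ S.card = k ∧ G S)).card : ℝ) := by
  have hk' : (1 : ℝ) ≤ k := by exact_mod_cast hk
  have hkt' : (k : ℝ) ≤ t := by exact_mod_cast hkt
  have ht0 : (0 : ℝ) < t := by linarith
  obtain ⟨lam, hSM, hlam⟩ := hsp.2 (k + 1) V (by omega) hok (by push_cast; linarith)
  have h1 := hSM.interp G hG hlam k t hk hkt htV
  have h2 := hSM.p_ge k hk (by omega)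
  obtain ⟨N, hN⟩ : ∃ N : ℝ, N = (((V.powersetCard t).filter (fun W => ∃ S, S ⊆ W ∧ S.card = k ∧ G S)).card : ℝ) :=
    ⟨_, rfl⟩
  have hN0 : 0 ≤ N := by rw [hN]; positivity
  rw [← hN] at h1 ⊢
  obtain ⟨q, hq⟩ : ∃ q : ℝ, q = ∑ B ∈ V.powerset.filter (fun B => k ≤ B.card), lam B := ⟨_, rfl⟩
  rw [← hq] at h1 h2
  obtain ⟨C, hC⟩ : ∃ C : ℝ, C = (V.card.choose t : ℝ) := ⟨_, rfl⟩
  have hC0 : 0 ≤ C := by rw [hC]; positivity
  rw [← hC] at h1 ⊢
  push_cast at h1 h2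
  -- the lower bound for `q`
  have hq1 : 4 / (300000 * ((k : ℝ) + 1) ^ 2) ≤ q := by
    refine le_trans (le_of_eq ?_) h2
    congr 1
    ring
  have hq2 : 1 / (6000000000 * ((k : ℝ) + 1) ^ 4) ≤ q ^ 2 := by
    have h3 := pow_le_pow_left₀ (by positivity) hq1 2
    refine le_trans ?_ h3
    rw [div_pow, div_le_div_iff₀ (by positivity) (by positivity)]
    have : (0 : ℝ) ≤ ((k : ℝ) + 1) ^ 4 := by positivity
    nlinarith
  have hk2 : (k : ℝ) + 1 ≤ 2 ^ k := by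
    have : k + 1 ≤ 2 ^ k := Nat.lt_two_pow_self
    exact_mod_cast this
  have h5 : ((k : ℝ) + 1) * (6000000000 * ((k : ℝ) + 1) ^ 4) ≤ 192000000000 ^ k := by
    have h6 : ((k : ℝ) + 1) ^ 5 ≤ (2 ^ k) ^ 5 := pow_le_pow_left₀ (by positivity) hk2 5
    have h7 : (6000000000 : ℝ) ≤ 6000000000 ^ k := by
      calc (6000000000 : ℝ) = 6000000000 ^ 1 := (pow_one _).symm
        _ ≤ 6000000000 ^ k := pow_le_pow_right₀ (by norm_num) hk
    calc ((k : ℝ) + 1) * (6000000000 * ((k : ℝ) + 1) ^ 4) = 6000000000 * ((k : ℝ) + 1) ^ 5 := by ring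
      _ ≤ 6000000000 ^ k * (2 ^ k) ^ 5 := mul_le_mul h7 h6 (by positivity) (by positivity)
      _ = 192000000000 ^ k := by
          rw [← pow_mul, mul_comm k 5, pow_mul, ← mul_pow]
          norm_num
  have h6 : 3 + 2250 * (k : ℝ) * ((k : ℝ) + 1) / t ≤ 5000 * ((t + (k : ℝ) ^ 2) / t) := by
    have e1 : 3 + 2250 * (k : ℝ) * ((k : ℝ) + 1) / t = (3 * t + 2250 * k * (k + 1)) / t := by
      field_simp
    have e2 : 5000 * ((t + (k : ℝ) ^ 2) / t) = (5000 * (t + (k : ℝ) ^ 2)) / t := by ring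
    rw [e1, e2]
    apply div_le_div_of_nonneg_right _ ht0.le
    nlinarith
  -- conclusion
  obtain ⟨r, hr⟩ : ∃ r : ℝ, r = (t + (k : ℝ) ^ 2) / t := ⟨_, rfl⟩
  have hr0 : 0 < r := by rw [hr]; positivity
  rw [← hr] at h6
  have h7 : C ≤ (10 ^ 15 * r) ^ k * N := by
    have h8 : C * q ^ 2 ≤ ((k : ℝ) + 1) * (5000 * r) ^ k * N := by
      calc C * q ^ 2 = q ^ 2 * C := by ring
        _ ≤ _ := h1
        _ ≤ _ := by
            apply mul_le_mul_of_nonneg_right _ hN0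
            apply mul_le_mul_of_nonneg_left _ (by positivity)
            exact pow_le_pow_left₀ (by positivity) h6 k
    have h9 : C * (1 / (6000000000 * ((k : ℝ) + 1) ^ 4)) ≤ ((k : ℝ) + 1) * (5000 * r) ^ k * N :=
      (mul_le_mul_of_nonneg_left hq2 hC0).trans h8
    rw [mul_one_div, div_le_iff₀ (by positivity)] at h9
    calc C ≤ ((k : ℝ) + 1) * (5000 * r) ^ k * N * (6000000000 * ((k : ℝ) + 1) ^ 4) := h9
      _ = (((k : ℝ) + 1) * (6000000000 * ((k : ℝ) + 1) ^ 4)) * ((5000 * r) ^ k * N) := by ring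
      _ ≤ 192000000000 ^ k * ((5000 * r) ^ k * N) := mul_le_mul_of_nonneg_right h5 (by positivity)
      _ = (960000000000000 * r) ^ k * N := by rw [← mul_assoc, ← mul_pow]; congr 2; ring
      _ ≤ (10 ^ 15 * r) ^ k * N := by
          apply mul_le_mul_of_nonneg_right _ hN0
          apply pow_le_pow_left₀ (by positivity)
          nlinarith
  calc ((t : ℝ) / (10 ^ 15 * (t + (k : ℝ) ^ 2))) ^ k * C
      ≤ ((t : ℝ) / (10 ^ 15 * (t + (k : ℝ) ^ 2))) ^ k * ((10 ^ 15 * r) ^ k * N) :=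
        mul_le_mul_of_nonneg_left h7 (by positivity)
    _ = ((t : ℝ) / (10 ^ 15 * (t + (k : ℝ) ^ 2)) * (10 ^ 15 * r)) ^ k * N := by
        rw [← mul_assoc, ← mul_pow]
    _ = N := by
        have : (t : ℝ) / (10 ^ 15 * (t + (k : ℝ) ^ 2)) * (10 ^ 15 * r) = 1 := by
          rw [hr]
          field_simp
        rw [this, one_pow, one_mul]

end Pool.Agent.H522
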