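import Mathlib
import Pool.Agent.H522.FormsMain
import Pool.Agent.H522.ExactOrbits

/-! H522: the proportion of the `t`-subsets which contain the initial segment of a good set. -/

set_option autoImplicit false

open Finset

namespace Pool.Agent.H522

variable {α : Type} [DecidableEq α]

namespace SM

variable {m : ℕ} {V : Finset α} {lam : Finset α → ℝ}

open Classical in
/-- the proportion of the `t`-subsets containing a good `k`-subset -/
theorem interp_init (h : SM m V lam) (G : Finset α → Prop) (k t : ℕ)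
    (hlam : ∀ B, lam B ≠ 0 → k ≤ B.card → ∃ S, S ⊆ B ∧ S.card = k ∧ G S) (hk : 1 ≤ k) (hkt : k ≤ t) (htV : t ≤ V.card) :
    (∑ B ∈ V.powerset.filter (fun B => k ≤ B.card), lam B) ^ 2 * (V.card.choose t : ℝ) ≤
      ((k : ℝ) + 1) * (3 + 2250 * k * m / t) ^ k *
      (((V.powersetCard t).filter (fun W => ∃ S, S ⊆ W ∧ S.card = k ∧ G S)).card : ℝ) := by
  have hm' : (2 : ℝ) ≤ m := by exact_mod_cast h.m2
  have hV : (0 : ℝ) < V.card := by exact_mod_cast h.Vpos
  have hk' : (1 : ℝ) ≤ k := by exact_mod_cast hk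
  have hkt' : (k : ℝ) ≤ t := by exact_mod_cast hkt
  have ht0 : (0 : ℝ) < t := by linarith
  obtain ⟨𝓑, h𝓑⟩ : ∃ 𝓑, 𝓑 = V.powerset.filter (fun B => k ≤ B.card) := ⟨_, rfl⟩
  have hmem : ∀ B ∈ 𝓑, B ⊆ V ∧ k ≤ B.card := by
    intro B hB
    rw [h𝓑, Finset.mem_filter, Finset.mem_powerset] at hB
    exact hB
  have hJ : ∀ B : Finset α, ∃ J : Finset α, k ≤ B.card → (J ⊆ B ∧ J.card = k) ∧ (lam B ≠ 0 → G J) := by
    intro B
    by_cases hB : k ≤ B.card
    · by_cases hB0 : lam B = 0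
      · obtain ⟨S, h1, h2⟩ := Finset.exists_subset_card_eq hB
        exact ⟨S, fun _ => ⟨⟨h1, h2⟩, fun h => absurd hB0 h⟩⟩
      · obtain ⟨S, h1, h2, h3⟩ := hlam B hB0 hB
        exact ⟨S, fun _ => ⟨⟨h1, h2⟩, fun _ => h3⟩⟩
    · exact ⟨∅, fun h => absurd h hB⟩
  choose J hJ2 using hJ
  have hJ : ∀ B, k ≤ B.card → J B ⊆ B ∧ (J B).card = k := fun B hB => (hJ2 B hB).1
  obtain ⟨q, hq⟩ : ∃ q, q = ∑ B ∈ 𝓑, lam B := ⟨_, rfl⟩
  rw [← h𝓑, ← hq]
  have hq0 : 0 ≤ q := by rw [hq]; exact Finset.sum_nonneg fun B _ => h.nonneg B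
  have hq1 : q ≤ 1 := by
    rw [hq]
    refine le_trans ?_ h.mass
    exact Finset.sum_le_sum_of_subset_of_nonneg (by rw [h𝓑]; exact Finset.filter_subset _ _)
      fun B _ _ => h.nonneg B
  obtain ⟨C, hC⟩ : ∃ C : ℝ, C = (V.card.choose t : ℝ) := ⟨_, rfl⟩
  have hC0 : 0 < C := by rw [hC]; exact_mod_cast Nat.choose_pos htV
  rw [← hC]
  obtain ⟨E, hE⟩ : ∃ E : ℝ, E = ((k : ℝ) + 1) * (3 + 2250 * k * m / t) ^ k := ⟨_, rfl⟩
  have hE0 : 0 < E := by rw [hE]; positivity
  rw [← hE]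
  obtain ⟨π, hπ⟩ : ∃ π : ℝ, π = piP V.card t k := ⟨_, rfl⟩
  have hπ0 : 0 < π := by rw [hπ]; exact piP_pos htV k hkt
  obtain ⟨y, hy⟩ : ∃ y : ℝ, y = (V.card : ℝ) * k / t := ⟨_, rfl⟩
  have hy0 : 0 ≤ y := by rw [hy]; positivity
  obtain ⟨X, hX⟩ : ∃ X : Finset α → ℝ, ∀ W, X W = ∑ B ∈ 𝓑, if J B ⊆ W then lam B else 0 := ⟨_, fun _ => rfl⟩
  have hcount : ∀ U : Finset α, U ⊆ V → U.card ≤ t →
      (((V.powersetCard t).filter (fun W => U ⊆ W)).card : ℝ) = C * piP V.card t U.card := by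
    intro U hU hUt
    rw [card_sup V U hU t hUt, hC]
    exact choose_pi htV U.card hUt
  -- the first moment
  have hS1 : ∑ W ∈ V.powersetCard t, X W = C * π * q := by
    simp only [hX]
    rw [Finset.sum_comm, hq, Finset.mul_sum]
    refine Finset.sum_congr rfl fun B hB => ?_
    obtain ⟨h1, h2⟩ := hmem B hB
    obtain ⟨h3, h4⟩ := hJ B h2
    rw [← Finset.sum_filter, Finset.sum_const, nsmul_eq_mul, hcount (J B) (h3.trans h1) (by omega), h4, hπ]
  -- the second moment
  have hpair : ∀ B ∈ 𝓑, ∀ B' ∈ 𝓑,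
      (((V.powersetCard t).filter (fun W => J B ∪ J B' ⊆ W)).card : ℝ) ≤
        C * π ^ 2 * (y ^ (J B ∩ J B').card / ((J B ∩ J B').card.factorial : ℝ)) := by
    intro B hB B' hB'
    obtain ⟨hB1, hB2⟩ := hmem B hB
    obtain ⟨hB3, hB4⟩ := hJ B hB2
    obtain ⟨hB'1, hB'2⟩ := hmem B' hB'
    obtain ⟨hB'3, hB'4⟩ := hJ B' hB'2
    have hi : (J B ∩ J B').card ≤ k := by
      rw [← hB4]; exact Finset.card_le_card Finset.inter_subset_left
    by_cases hu : (J B ∪ J B').card ≤ t
    · rw [hcount _ (Finset.union_subset (hB3.trans hB1) (hB'3.trans hB'1)) hu]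
      have e1 : (J B ∪ J B').card = k + (k - (J B ∩ J B').card) := by
        have := Finset.card_union_add_card_inter (J B) (J B')
        omega
      rw [e1] at hu ⊢
      have h4 := piP_add_le htV k (k - (J B ∩ J B').card) hu
      have h5 := piP_back hk hkt htV (J B ∩ J B').card hi
      rw [← hy, ← hπ] at h5
      rw [← hπ] at h4
      have hf : (0 : ℝ) < ((J B ∩ J B').card.factorial : ℝ) := by exact_mod_cast Nat.factorial_pos _
      have h6 : piP V.card t (k - (J B ∩ J B').card) ≤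
          y ^ (J B ∩ J B').card * π / ((J B ∩ J B').card.factorial : ℝ) := by
        rw [le_div_iff₀ hf]; exact h5
      calc C * piP V.card t (k + (k - (J B ∩ J B').card))
          ≤ C * (π * (y ^ (J B ∩ J B').card * π / ((J B ∩ J B').card.factorial : ℝ))) := by
            apply mul_le_mul_of_nonneg_left _ hC0.le
            exact h4.trans (mul_le_mul_of_nonneg_left h6 hπ0.le)
        _ = _ := by ring
    · rw [card_sup_zero V _ t (by omega)]
      push_cast
      positivity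
  have hS2 : ∑ W ∈ V.powersetCard t, X W ^ 2 ≤ C * π ^ 2 * E := by
    have h1 : ∀ W, X W ^ 2 = ∑ B ∈ 𝓑, ∑ B' ∈ 𝓑, if J B ∪ J B' ⊆ W then lam B * lam B' else 0 := by
      intro W
      rw [pow_two, hX, Finset.sum_mul_sum]
      refine Finset.sum_congr rfl fun B _ => Finset.sum_congr rfl fun B' _ => ?_
      by_cases h1 : J B ⊆ W <;> by_cases h2 : J B' ⊆ W <;> simp [Finset.union_subset_iff, h1, h2]
    simp only [h1]
    rw [Finset.sum_comm]
    have h2 : ∀ B ∈ 𝓑, ∑ W ∈ V.powersetCard t, ∑ B' ∈ 𝓑, (if J B ∪ J B' ⊆ W then lam B * lam B' else 0) ≤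
        lam B * (C * π ^ 2 * E) := by
      intro B hB
      obtain ⟨hB1, hB2⟩ := hmem B hB
      obtain ⟨hB3, hB4⟩ := hJ B hB2
      rw [Finset.sum_comm]
      have h3 : ∀ B' ∈ 𝓑, ∑ W ∈ V.powersetCard t, (if J B ∪ J B' ⊆ W then lam B * lam B' else 0) ≤
          lam B * (C * π ^ 2) * (lam B' * (y ^ (J B ∩ J B').card / ((J B ∩ J B').card.factorial : ℝ))) := by
        intro B' hB'
        rw [← Finset.sum_filter, Finset.sum_const, nsmul_eq_mul]
        have h4 := hpair B hB B' hB'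
        calc (((V.powersetCard t).filter (fun W => J B ∪ J B' ⊆ W)).card : ℝ) * (lam B * lam B')
            ≤ (C * π ^ 2 * (y ^ (J B ∩ J B').card / ((J B ∩ J B').card.factorial : ℝ))) *
              (lam B * lam B') :=
              mul_le_mul_of_nonneg_right h4 (mul_nonneg (h.nonneg B) (h.nonneg B'))
          _ = _ := by ring
      refine (Finset.sum_le_sum h3).trans ?_
      rw [← Finset.mul_sum, mul_assoc]
      apply mul_le_mul_of_nonneg_left _ (h.nonneg B)
      apply mul_le_mul_of_nonneg_left _ (by positivity)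
      -- the sum over the second set
      have h4 : ∀ B' ∈ 𝓑, lam B' * (y ^ (J B ∩ J B').card / ((J B ∩ J B').card.factorial : ℝ)) ≤
          ∑ I ∈ (J B).powerset, (if I ⊆ B' then y ^ I.card / (I.card.factorial : ℝ) * lam B' else 0) := by
        intro B' hB'
        obtain ⟨hB'1, hB'2⟩ := hmem B' hB'
        obtain ⟨hB'3, hB'4⟩ := hJ B' hB'2
        have h5 : (if J B ∩ J B' ⊆ B' then
            y ^ (J B ∩ J B').card / ((J B ∩ J B').card.factorial : ℝ) * lam B' else 0) ≤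
            ∑ I ∈ (J B).powerset, (if I ⊆ B' then y ^ I.card / (I.card.factorial : ℝ) * lam B' else 0) :=
          Finset.single_le_sum (f := fun I => if I ⊆ B' then y ^ I.card / (I.card.factorial : ℝ) * lam B'
            else 0) (fun I _ => by
              split_ifs
              · exact mul_nonneg (by positivity) (h.nonneg _)
              · exact le_rfl) (Finset.mem_powerset.2 Finset.inter_subset_left)
        rw [if_pos (Finset.inter_subset_right.trans hB'3)] at h5
        linarith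
      refine (Finset.sum_le_sum h4).trans ?_
      rw [Finset.sum_comm]
      have h5 : ∀ I ∈ (J B).powerset, ∑ B' ∈ 𝓑, (if I ⊆ B' then y ^ I.card / (I.card.factorial : ℝ) * lam B'
          else 0) ≤ y ^ I.card / (I.card.factorial : ℝ) * (250 * (I.card : ℝ) * m / V.card) ^ I.card := by
        intro I hI
        rw [Finset.mem_powerset] at hI
        rw [← Finset.sum_filter, ← Finset.mul_sum]
        apply mul_le_mul_of_nonneg_left _ (by positivity)
        have h𝓑s : 𝓑 ⊆ V.powerset := by rw [h𝓑]; exact Finset.filter_subset _ _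
        rcases Finset.eq_empty_or_nonempty I with rfl | hIn
        · simp only [Finset.card_empty, pow_zero]
          refine le_trans ?_ h.mass
          exact Finset.sum_le_sum_of_subset_of_nonneg ((Finset.filter_subset _ _).trans h𝓑s)
            fun B _ _ => h.nonneg B
        · exact le_trans (Finset.sum_le_sum_of_subset_of_nonneg (Finset.filter_subset_filter _ h𝓑s)
            fun B _ _ => h.nonneg B) (h.sp I ((hI.trans hB3).trans hB1) hIn)
      refine (Finset.sum_le_sum h5).trans ?_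
      rw [Finset.sum_powerset_apply_card (fun i => y ^ i / (i.factorial : ℝ) *
        (250 * (i : ℝ) * m / V.card) ^ i), hB4]
      have h6 : ∀ i ∈ range (k + 1), k.choose i • (y ^ i / (i.factorial : ℝ) *
          (250 * (i : ℝ) * m / V.card) ^ i) ≤ (3 + 2250 * k * m / t) ^ k := by
        intro i hi
        rw [Finset.mem_range] at hi
        rw [nsmul_eq_mul]
        have e1 : (250 * (i : ℝ) * m / V.card) ^ i = (i : ℝ) ^ i * (250 * m / V.card) ^ i := by
          rw [← mul_pow]; congr 1; ring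
        have e2 : (k.choose i : ℝ) * (y ^ i / (i.factorial : ℝ) * (250 * (i : ℝ) * m / V.card) ^ i) =
            ((k.choose i : ℝ) * (i : ℝ) ^ i) * ((y * (250 * m / V.card)) ^ i / (i.factorial : ℝ)) := by
          rw [e1, mul_pow y]; ring
        rw [e2]
        have h7 := choose_pow_le k i
        calc ((k.choose i : ℝ) * (i : ℝ) ^ i) * ((y * (250 * m / V.card)) ^ i / (i.factorial : ℝ))
            ≤ (3 * (k : ℝ)) ^ i * ((y * (250 * m / V.card)) ^ i / (i.factorial : ℝ)) :=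
              mul_le_mul_of_nonneg_right h7 (by positivity)
          _ = (750 * (k : ℝ) ^ 2 * m / t) ^ i / (i.factorial : ℝ) := by
              rw [mul_div_assoc', ← mul_pow]
              congr 2
              rw [hy]
              field_simp
              ring
          _ ≤ (3 + 3 * (750 * (k : ℝ) ^ 2 * m / t) / k) ^ k :=
              term_le k i hk (by omega) _ (by positivity)
          _ = _ := by
              congr 2
              field_simp
              ring
      refine (Finset.sum_le_sum h6).trans ?_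
      rw [Finset.sum_const, Finset.card_range, nsmul_eq_mul, hE]
      push_cast
      exact le_rfl
    refine (Finset.sum_le_sum h2).trans ?_
    rw [← Finset.sum_mul, ← hq]
    have : q * (C * π ^ 2 * E) ≤ 1 * (C * π ^ 2 * E) := mul_le_mul_of_nonneg_right hq1 (by positivity)
    linarith
  -- Cauchy-Schwarz
  obtain ⟨G', hG'⟩ : ∃ G', G' = (V.powersetCard t).filter (fun W => ∃ S, S ⊆ W ∧ S.card = k ∧ G S) :=
    ⟨_, rfl⟩
  rw [← hG']
  have hzero : ∀ W ∈ V.powersetCard t, W ∉ G' → X W = 0 := by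
    intro W hW hWG
    rw [hX]
    apply Finset.sum_eq_zero
    intro B hB
    obtain ⟨hB1, hB2⟩ := hmem B hB
    obtain ⟨hB3, hB4⟩ := hJ B hB2
    by_cases hBW : J B ⊆ W
    · rw [if_pos hBW]
      by_contra hne
      apply hWG
      rw [hG', Finset.mem_filter]
      exact ⟨hW, J B, hBW, hB4, (hJ2 B hB2).2 hne⟩
    · rw [if_neg hBW]
  have hGsub : G' ⊆ V.powersetCard t := by rw [hG']; exact Finset.filter_subset _ _
  have h3 : ∑ W ∈ G', X W = C * π * q := by
    rw [← hS1]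
    exact Finset.sum_subset hGsub hzero
  have h4 : ∑ W ∈ G', X W ^ 2 ≤ C * π ^ 2 * E :=
    (Finset.sum_le_sum_of_subset_of_nonneg hGsub fun W _ _ => sq_nonneg _).trans hS2
  have h5 := sq_sum_le_card_mul_sum_sq (s := G') (f := X)
  rw [h3] at h5
  have h6 : (C * π * q) ^ 2 ≤ (G'.card : ℝ) * (C * π ^ 2 * E) :=
    h5.trans (mul_le_mul_of_nonneg_left h4 (Nat.cast_nonneg _))
  have h7 : (q ^ 2 * C) * (C * π ^ 2) ≤ (E * (G'.card : ℝ)) * (C * π ^ 2) := by
    refine le_trans (le_of_eq ?_) (h6.trans (le_of_eq ?_)) <;> ring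
  exact le_of_mul_le_mul_right h7 (by positivity)

end SM

open Classical in
/-- the lower bound for all `t ≥ k` -/
theorem interp_initG {α : Type} [DecidableEq α] (Ok G G' : Finset α → Prop) (hsp : HasSM Ok G) (k : ℕ)
    (hG : ∀ B, G B → k ≤ B.card → ∃ S, S ⊆ B ∧ S.card = k ∧ G' S) (V : Finset α) (hk : 1 ≤ k) (hok : Ok V)
    (hV : 4 * (k : ℝ) + 5 ≤ Real.log V.card) (t : ℕ) (hkt : k ≤ t) (htV : t ≤ V.card) :
    ((t : ℝ) / (10 ^ 15 * (t + (k : ℝ) ^ 2))) ^ k * (V.card.choose t : ℝ) ≤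
      (((V.powersetCard t).filter (fun W => ∃ S, S ⊆ W ∧ S.card = k ∧ G' S)).card : ℝ) := by
  have hk' : (1 : ℝ) ≤ k := by exact_mod_cast hk
  have hkt' : (k : ℝ) ≤ t := by exact_mod_cast hkt
  have ht0 : (0 : ℝ) < t := by linarith
  obtain ⟨lam, hSM, hlam⟩ := hsp.2 (k + 1) V (by omega) hok (by push_cast; linarith)
  have h1 := hSM.interp_init G' k t (fun B hB hkB => hG B (hlam B hB) hkB) hk hkt htV
  have h2 := hSM.p_ge k hk (by omega)
  obtain ⟨N, hN⟩ : ∃ N : ℝ, N = (((V.powersetCard t).filter (fun W => ∃ S, S ⊆ W ∧ S.card = k ∧ G' S)).card : ℝ) :=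
    ⟨_, rfl⟩
  have hN0 : 0 ≤ N := by rw [hN]; positivity
  rw [← hN] at h1 ⊢
  obtain ⟨q, hq⟩ : ∃ q : ℝ, q = ∑ B ∈ V.powerset.filter (fun B => k ≤ B.card), lam B := ⟨_, rfl⟩
  rw [← hq] at h1 h2
  obtain ⟨C, hC⟩ : ∃ C : ℝ, C = (V.card.choose t : ℝ) := ⟨_, rfl⟩
  have hC0 : 0 ≤ C := by rw [hC]; positivity
  rw [← hC] at h1 ⊢
  push_cast at h1 h2
  -- the lower bound for `q`
  have hq1 : 4 / (300000 * ((k : ℝ) + 1) ^ 2) ≤ q := by
    refine le_trans (le_of_eq ?_) h2
    congr 1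
    ring
  have hq2 : 1 / (6000000000 * ((k : ℝ) + 1) ^ 4) ≤ q ^ 2 := by
    have h3 := pow_le_pow_left₀ (by positivity) hq1 2
    refine le_trans ?_ h3
    rw [div_pow, div_le_div_iff₀ (by positivity) (by positivity)]
    have : (0 : ℝ) ≤ ((k : ℝ) + 1) ^ 4 := by positivity
    nlinarith
  have hk2 : (k : ℝ) + 1 ≤ 2 ^ k := by
    have : k + 1 ≤ 2 ^ k := Nat.lt_two_pow_self
    exact_mod_cast this
  have h5 : ((k : ℝ) + 1) * (6000000000 * ((k : ℝ) + 1) ^ 4) ≤ 192000000000 ^ k := by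
    have h6 : ((k : ℝ) + 1) ^ 5 ≤ (2 ^ k) ^ 5 := pow_le_pow_left₀ (by positivity) hk2 5
    have h7 : (6000000000 : ℝ) ≤ 6000000000 ^ k := by
      calc (6000000000 : ℝ) = 6000000000 ^ 1 := (pow_one _).symm
        _ ≤ 6000000000 ^ k := pow_le_pow_right₀ (by norm_num) hk
    calc ((k : ℝ) + 1) * (6000000000 * ((k : ℝ) + 1) ^ 4) = 6000000000 * ((k : ℝ) + 1) ^ 5 := by ring
      _ ≤ 6000000000 ^ k * (2 ^ k) ^ 5 := mul_le_mul h7 h6 (by positivity) (by positivity)
      _ = 192000000000 ^ k := by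
          rw [← pow_mul, mul_comm k 5, pow_mul, ← mul_pow]
          norm_num
  have h6 : 3 + 2250 * (k : ℝ) * ((k : ℝ) + 1) / t ≤ 5000 * ((t + (k : ℝ) ^ 2) / t) := by
    have e1 : 3 + 2250 * (k : ℝ) * ((k : ℝ) + 1) / t = (3 * t + 2250 * k * (k + 1)) / t := by
      field_simp
    have e2 : 5000 * ((t + (k : ℝ) ^ 2) / t) = (5000 * (t + (k : ℝ) ^ 2)) / t := by ring
    rw [e1, e2]
    apply div_le_div_of_nonneg_right _ ht0.le
    nlinarith
  -- conclusion
  obtain ⟨r, hr⟩ : ∃ r : ℝ, r = (t + (k : ℝ) ^ 2) / t := ⟨_, rfl⟩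
  have hr0 : 0 < r := by rw [hr]; positivity
  rw [← hr] at h6
  have h7 : C ≤ (10 ^ 15 * r) ^ k * N := by
    have h8 : C * q ^ 2 ≤ ((k : ℝ) + 1) * (5000 * r) ^ k * N := by
      calc C * q ^ 2 = q ^ 2 * C := by ring
        _ ≤ _ := h1
        _ ≤ _ := by
            apply mul_le_mul_of_nonneg_right _ hN0
            apply mul_le_mul_of_nonneg_left _ (by positivity)
            exact pow_le_pow_left₀ (by positivity) h6 k
    have h9 : C * (1 / (6000000000 * ((k : ℝ) + 1) ^ 4)) ≤ ((k : ℝ) + 1) * (5000 * r) ^ k * N :=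
      (mul_le_mul_of_nonneg_left hq2 hC0).trans h8
    rw [mul_one_div, div_le_iff₀ (by positivity)] at h9
    calc C ≤ ((k : ℝ) + 1) * (5000 * r) ^ k * N * (6000000000 * ((k : ℝ) + 1) ^ 4) := h9
      _ = (((k : ℝ) + 1) * (6000000000 * ((k : ℝ) + 1) ^ 4)) * ((5000 * r) ^ k * N) := by ring
      _ ≤ 192000000000 ^ k * ((5000 * r) ^ k * N) := mul_le_mul_of_nonneg_right h5 (by positivity)
      _ = (960000000000000 * r) ^ k * N := by rw [← mul_assoc, ← mul_pow]; congr 2; ring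
      _ ≤ (10 ^ 15 * r) ^ k * N := by
          apply mul_le_mul_of_nonneg_right _ hN0
          apply pow_le_pow_left₀ (by positivity)
          nlinarith
  calc ((t : ℝ) / (10 ^ 15 * (t + (k : ℝ) ^ 2))) ^ k * C
      ≤ ((t : ℝ) / (10 ^ 15 * (t + (k : ℝ) ^ 2))) ^ k * ((10 ^ 15 * r) ^ k * N) :=
        mul_le_mul_of_nonneg_left h7 (by positivity)
    _ = ((t : ℝ) / (10 ^ 15 * (t + (k : ℝ) ^ 2)) * (10 ^ 15 * r)) ^ k * N := by
        rw [← mul_assoc, ← mul_pow]
    _ = N := by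
        have : (t : ℝ) / (10 ^ 15 * (t + (k : ℝ) ^ 2)) * (10 ^ 15 * r) = 1 := by
          rw [hr]
          field_simp
        rw [this, one_pow, one_mul]


end Pool.Agent.H522
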