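import Mathlib
import Pool.Graph.R_seed8.H95R2.Leh.ApSieve

/-! H522: windows in sieve classes at the scale of Linnik's theorem: preparations. -/

set_option autoImplicit false

open Finset Filter

namespace Pool.Agent.H522.LW

/-- a prime outside a given small set (from `Pool.Agent.H536.LS.prime_supply`) -/
theorem prime_supply (B : ℕ) (hB : 8 ≤ B) (S : Finset ℕ) (hS : S.card ≤ B) :
    ∃ q : ℕ, q.Prime ∧ q ∉ S ∧ q ≤ B ^ 4 := by
  by_contra hcon
  push Not at hcon
  have h1 : (Nat.primesLE (B ^ 4)) ⊆ S := by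
    intro p hp
    by_contra hpS
    have h2 := Nat.mem_primesLE.1 hp
    have := hcon p h2.2 hpS
    omega
  have h2 := (Finset.card_le_card h1).trans hS
  rw [Nat.primesLE_card_eq_primeCounting] at h2
  have h3 : ((Nat.primeCounting (B ^ 4) : ℕ) : ℝ) ≤ B := by exact_mod_cast h2
  have h4 := Chebyshev.pi_ge (B ^ 4)
  have hBr : (8 : ℝ) ≤ B := by exact_mod_cast hB
  have hlogB : Real.log B ≤ B - 1 := Real.log_le_sub_one_of_pos (by linarith)
  have hlogB0 : 0 < Real.log B := Real.log_pos (by linarith)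
  have hlog4 : Real.log ((B ^ 4 : ℕ) : ℝ) = 4 * Real.log B := by
    push_cast; rw [Real.log_pow]; norm_num
  have hB4 : (4096 : ℝ) ≤ (B : ℝ) ^ 4 := by
    calc (4096 : ℝ) = 8 ^ 4 := by norm_num
      _ ≤ (B : ℝ) ^ 4 := pow_le_pow_left₀ (by norm_num) hBr 4
  have hlog5 : Real.log (((B ^ 4 : ℕ) : ℝ) + 1) ≤ 1 + 4 * Real.log B := by
    have h5 : ((B ^ 4 : ℕ) : ℝ) + 1 ≤ 2 * (B : ℝ) ^ 4 := by push_cast; linarith
    calc Real.log (((B ^ 4 : ℕ) : ℝ) + 1) ≤ Real.log (2 * (B : ℝ) ^ 4) :=
          Real.log_le_log (by positivity) h5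
      _ = Real.log 2 + 4 * Real.log B := by
          rw [Real.log_mul (by norm_num) (by positivity), Real.log_pow]; norm_num
      _ ≤ _ := by have := Real.log_two_lt_d9; linarith
  have h6 : ((B ^ 4 : ℕ) : ℝ) * Real.log 2 - Real.log (((B ^ 4 : ℕ) : ℝ) + 1) ≤ B * (4 * Real.log B) := by
    have h7 := h4.trans h3
    rw [hlog4, div_le_iff₀ (by positivity)] at h7
    exact h7
  have hl2 := Real.log_two_gt_d9
  push_cast at h6 hlog5
  have h8 : (B : ℝ) ^ 4 * (1 / 2) ≤ (B : ℝ) ^ 4 * Real.log 2 := by
    apply mul_le_mul_of_nonneg_left _ (by positivity); linarith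
  have h9 : (B : ℝ) ^ 4 * (1 / 2) ≤ 4 * B * B + 4 * B := by
    nlinarith
  have h10 : (B : ℝ) ^ 4 = (B * B) * (B * B) := by ring
  have h11 : (64 : ℝ) ≤ B * B := by nlinarith
  rw [h10] at h9
  nlinarith

/-- distinct primes `> k` for the elements of a set -/
theorem assign (k P : ℕ) (hk : 8 ≤ k) (U : Finset ℕ) : #U ≤ k →
    ∃ q : ℕ → ℕ, (∀ i ∈ U, (q i).Prime ∧ k < q i ∧ q i ≠ P ∧ q i ≤ (2 * k + 1) ^ 4) ∧
      ∀ i ∈ U, ∀ i' ∈ U, q i = q i' → i = i' := by
  classical
  induction U using Finset.induction_on with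
  | empty => intro _; exact ⟨fun _ => 0, by simp, by simp⟩
  | insert a U ha ih =>
    intro hU
    rw [Finset.card_insert_of_notMem ha] at hU
    obtain ⟨q, hq, hinj⟩ := ih (by omega)
    obtain ⟨q0, h1, h2, h3⟩ := prime_supply (2 * k + 1) (by omega) (Nat.primesLE k ∪ insert P (U.image q)) (by
      have h4 : #(Nat.primesLE k) ≤ k := by
        have h5 : Nat.primesLE k ⊆ Icc 1 k := by
          intro p hp
          have := Nat.mem_primesLE.1 hp
          rw [Finset.mem_Icc]
          exact ⟨this.2.pos, this.1⟩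
        have h6 := Finset.card_le_card h5
        simpa using h6
      have h5 : #(insert P (U.image q)) ≤ #U + 1 :=
        (Finset.card_insert_le _ _).trans (by have := Finset.card_image_le (s := U) (f := q); omega)
      have h6 := Finset.card_union_le (Nat.primesLE k) (insert P (U.image q))
      omega)
    rw [Finset.mem_union, Finset.mem_insert, not_or, not_or] at h2
    obtain ⟨h4, h5, h6⟩ := h2
    have hkq : k < q0 := by
      by_contra hcon
      exact h4 (Nat.mem_primesLE.2 ⟨by omega, h1⟩)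
    refine ⟨Function.update q a q0, ?_, ?_⟩
    · intro i hi
      rw [Finset.mem_insert] at hi
      rcases hi with rfl | hi
      · rw [Function.update_self]
        exact ⟨h1, hkq, h5, h3⟩
      · have hia : i ≠ a := fun h => ha (h ▸ hi)
        rw [Function.update_of_ne hia]
        exact hq i hi
    · intro i hi i' hi' he
      rw [Finset.mem_insert] at hi hi'
      rcases hi with rfl | hi <;> rcases hi' with rfl | hi'
      · rfl
      · exfalso
        have hia : i' ≠ i := fun h => ha (h ▸ hi')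
        rw [Function.update_self, Function.update_of_ne hia] at he
        exact h6 (Finset.mem_image.2 ⟨i', hi', he.symm⟩)
      · exfalso
        have hia : i ≠ i' := fun h => ha (h ▸ hi)
        rw [Function.update_self, Function.update_of_ne hia] at he
        exact h6 (Finset.mem_image.2 ⟨i, hi, he⟩)
      · have hia : i ≠ a := fun h => ha (h ▸ hi)
        have hia' : i' ≠ a := fun h => ha (h ▸ hi')
        rw [Function.update_of_ne hia, Function.update_of_ne hia'] at he
        exact hinj i hi i' hi' he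

/-- the positions `i ≤ k` for which no prime `≤ k` other than `P` divides `j + i` -/
def survP (P j k : ℕ) : Finset ℕ := (Icc 1 k).filter (fun i => ∀ p ≤ k, p.Prime → p ≠ P → ¬ p ∣ j + i)

theorem mult_card (P j k : ℕ) (hP : 0 < P) :
    #((Icc 1 k).filter (fun i => P ∣ j + i)) ≤ k / P + 2 := by
  classical
  have h1 : #((Icc 1 k).filter (fun i => P ∣ j + i)) ≤ #(Icc (j / P) ((j + k) / P)) := by
    apply Finset.card_le_card_of_injOn (fun i => (j + i) / P)
    · intro i hi
      rw [Finset.mem_coe, Finset.mem_filter, Finset.mem_Icc] at hi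
      rw [Finset.mem_coe, Finset.mem_Icc]
      exact ⟨Nat.div_le_div_right (by omega), Nat.div_le_div_right (by omega)⟩
    · intro i hi i' hi' he
      rw [Finset.mem_coe, Finset.mem_filter] at hi hi'
      have h2 := Nat.div_mul_cancel hi.2
      have h3 := Nat.div_mul_cancel hi'.2
      have h4 : (j + i) / P = (j + i') / P := he
      rw [h4] at h2
      omega
  rw [Nat.card_Icc] at h1
  have h2 : (j + k) / P ≤ j / P + k / P + 1 := by
    have h3 := Nat.div_add_mod j P
    have h4 := Nat.div_add_mod k P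
    have h5 := Nat.mod_lt j hP
    have h6 := Nat.mod_lt k hP
    rw [← Nat.lt_succ_iff, Nat.div_lt_iff_lt_mul hP]
    have h7 : (j / P + k / P + 1).succ * P = P * (j / P) + P * (k / P) + 2 * P := by
      rw [Nat.succ_eq_add_one]; ring
    rw [h7]
    omega
  have h3 := Nat.zero_le (k / P)
  generalize k / P = c at *
  generalize (j + k) / P = d at *
  generalize j / P = b at *
  omega

/-- the sieve bound -/
theorem surv_card : ∃ C : ℝ, 1 ≤ C ∧ ∀ k : ℕ, 8 ≤ k → ∀ P j : ℕ, Real.log k < P →
    (#(survP P j k) : ℝ) ≤ C * k / Real.log k := by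
  classical
  obtain ⟨C, hC, h⟩ := Pool.Agent.H95R2.Leh.ap_sieve
  refine ⟨C + 3, by linarith, fun k hk P j hP => ?_⟩
  have hkr : (8 : ℝ) ≤ k := by exact_mod_cast hk
  have hlog1 : 1 < Real.log k := by
    rw [Real.lt_log_iff_exp_lt (by linarith)]
    have := Real.exp_one_lt_d9
    linarith
  have hlog0 : 0 < Real.log k := by linarith
  have hPpos : (0 : ℝ) < P := by linarith
  have hP0 : 0 < P := by exact_mod_cast hPpos
  have h1 := h (j + 1) 1 k le_rfl (by omega)
  have h2 : survP P j k ⊆ (((Finset.range k).filter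
      (fun i => ∀ p : ℕ, p.Prime → (p : ℝ) ^ 8 ≤ k → ¬ p ∣ j + 1 + i * 1)).image (fun i => i + 1)) ∪
      (Icc 1 k).filter (fun i => P ∣ j + i) := by
    intro i hi
    rw [survP, Finset.mem_filter, Finset.mem_Icc] at hi
    rw [Finset.mem_union]
    by_cases hPi : P ∣ j + i
    · right
      rw [Finset.mem_filter, Finset.mem_Icc]
      exact ⟨hi.1, hPi⟩
    · left
      rw [Finset.mem_image]
      refine ⟨i - 1, ?_, by omega⟩
      rw [Finset.mem_filter, Finset.mem_range]
      refine ⟨by omega, fun p hp hpk hd => ?_⟩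
      have h3 : j + 1 + (i - 1) * 1 = j + i := by omega
      rw [h3] at hd
      have hpk' : p ^ 8 ≤ k := by exact_mod_cast hpk
      have hp1 : p ≤ k := (Nat.le_self_pow (by norm_num) p).trans hpk'
      by_cases hpP : p = P
      · exact hPi (hpP ▸ hd)
      · exact hi.2 p hp1 hp hpP hd
  have h3 := (Finset.card_le_card h2).trans (Finset.card_union_le _ _)
  have h4 := mult_card P j k hP0
  have h5 : (#(survP P j k) : ℝ) ≤ (#((Finset.range k).filter
      (fun i => ∀ p : ℕ, p.Prime → (p : ℝ) ^ 8 ≤ k → ¬ p ∣ j + 1 + i * 1)) : ℝ) + ((k / P : ℕ) + 2 : ℝ) := by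
    have h6 : #(survP P j k) ≤ #((Finset.range k).filter
      (fun i => ∀ p : ℕ, p.Prime → (p : ℝ) ^ 8 ≤ k → ¬ p ∣ j + 1 + i * 1)) + (k / P + 2) :=
      h3.trans (Nat.add_le_add Finset.card_image_le h4)
    exact_mod_cast h6
  have h7 : ((k / P : ℕ) : ℝ) ≤ k / Real.log k := by
    refine Nat.cast_div_le.trans ?_
    apply div_le_div_of_nonneg_left (by linarith) hlog0 hP.le
  have h8 : (2 : ℝ) ≤ 2 * (k / Real.log k) := by
    have h9 : 1 ≤ k / Real.log k := by
      rw [le_div_iff₀ hlog0]
      have := Real.log_le_sub_one_of_pos (show (0 : ℝ) < k by linarith)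
      linarith
    linarith
  have h10 : C * ((1 : ℕ) / (Nat.totient 1 : ℝ)) * k / Real.log k = C * (k / Real.log k) := by
    rw [Nat.totient_one]; push_cast; ring
  rw [h10] at h1
  have h11 : (C + 3) * k / Real.log k = C * (k / Real.log k) + 3 * (k / Real.log k) := by ring
  rw [h11]
  linarith

/-- the choice of the exceptional prime -/
theorem exc_prime (f1 M K : ℕ) (y : ℕ) (hK : 1 ≤ K) (hf : 1 < f1) (hy : 4 ^ y < f1)
    (hor : M < f1 ∨ ∀ p : ℕ, p.Prime → p ∣ f1 → K + 1 < p) :
    ∃ P : ℕ, P.Prime ∧ K + 1 < P ∧ y < P ∧ ∀ s V : ℕ, 2 ^ s * V ≤ M → Odd V → Squarefree V → ¬ P ∣ V →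
      ¬ f1 ∣ 2 ^ s * V := by
  classical
  obtain ⟨P0, hP0, hP0p⟩ := Nat.exists_infinite_primes (K + 2 + y + 1)
  rcases hor with hor | hor
  · refine ⟨P0, hP0p, by omega, by omega, fun s V hsV hV _ _ hd => ?_⟩
    have h1 : 0 < 2 ^ s * V := Nat.mul_pos (by positivity) hV.pos
    have := Nat.le_of_dvd h1 hd
    omega
  · have hodd : f1.Coprime 2 := by
      rw [Nat.coprime_comm, Nat.Prime.coprime_iff_not_dvd Nat.prime_two]
      intro h2
      have := hor 2 Nat.prime_two h2
      omega
    by_cases hsq : Squarefree f1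
    · have hne : f1.primeFactors.Nonempty := Nat.nonempty_primeFactors.2 hf
      obtain ⟨P, hPmem, hPmax⟩ := Finset.exists_max_image f1.primeFactors id hne
      have hPp := Nat.prime_of_mem_primeFactors hPmem
      have hPd := Nat.dvd_of_mem_primeFactors hPmem
      refine ⟨P, hPp, hor P hPp hPd, ?_, fun s V hsV hV hVs hPV hd => ?_⟩
      · by_contra hcon
        have h1 : f1 ≤ primorial P := by
          have h2 : ∏ p ∈ f1.primeFactors, p = f1 := Nat.prod_primeFactors_of_squarefree hsq
          rw [← h2]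
          unfold primorial
          apply Finset.prod_le_prod_of_subset_of_one_le'
          · intro p hp
            rw [Finset.mem_filter, Finset.mem_range]
            have h3 := hPmax p hp
            simp only [id] at h3
            exact ⟨by omega, Nat.prime_of_mem_primeFactors hp⟩
          · intro p hp _
            rw [Finset.mem_filter] at hp
            exact hp.2.pos
        have h2 := h1.trans (primorial_le_four_pow P)
        have h3 : 4 ^ P ≤ 4 ^ y := Nat.pow_le_pow_right (by norm_num) (by omega)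
        omega
      · have h1 : f1 ∣ V := (Nat.Coprime.pow_right s hodd).dvd_of_dvd_mul_left hd
        exact hPV (hPd.trans h1)
    · refine ⟨P0, hP0p, by omega, by omega, fun s V hsV hV hVs _ hd => ?_⟩
      have h1 : f1 ∣ V := (Nat.Coprime.pow_right s hodd).dvd_of_dvd_mul_left hd
      exact hsq (hVs.squarefree_of_dvd h1)

end Pool.Agent.H522.LW
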