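import Mathlib
import Pool.Agent.H522.LW1
import Pool.Agent.H522.Spread
import Pool.Agent.H536.LS.Ex

/-! H522: windows in sieve classes at the scale of Linnik's theorem: one window. -/

set_option autoImplicit false

open Finset Filter

namespace Pool.Agent.H522.LW

open Pool.Agent.H262R2.UM (Adm)

/-- the positions `i ≤ k` for which no prime `≤ k` divides `j + i` -/
def surv (j k : ℕ) : Finset ℕ := (Icc 1 k).filter (fun i => ∀ p ≤ k, p.Prime → ¬ p ∣ j + i)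

/-- the moduli and the classes -/
theorem moduli (j k P : ℕ) (hk : 2 ≤ k) (hP : P.Prime) (U : Finset ℕ) (q : ℕ → ℕ)
    (hq : ∀ i ∈ U, (q i).Prime ∧ k < q i ∧ q i ≠ P) (hinj : ∀ i ∈ U, ∀ i' ∈ U, q i = q i' → i = i') :
    ∃ V n0 : ℕ, Odd V ∧ Squarefree V ∧ ¬ P ∣ V ∧ V ≤ 4 ^ k * ∏ i ∈ U, q i ∧
      (∀ p ≤ k, p.Prime → p ≠ 2 → p ≠ P → p ∣ V ∧ n0 ≡ j [MOD p]) ∧
      (∀ i ∈ U, q i ∣ V ∧ q i ∣ n0 + i) ∧
      (∀ p, p.Prime → p ∣ V → (p ≤ k ∧ p ≠ 2 ∧ p ≠ P) ∨ ∃ i ∈ U, p = q i) := by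
  classical
  obtain ⟨P1, hP1⟩ : ∃ P1, P1 = (Nat.primesLE k).filter (fun p => p ≠ 2 ∧ p ≠ P) := ⟨_, rfl⟩
  obtain ⟨P2, hP2⟩ : ∃ P2, P2 = U.image q := ⟨_, rfl⟩
  have hm1 : ∀ p, p ∈ P1 ↔ p ≤ k ∧ p.Prime ∧ p ≠ 2 ∧ p ≠ P := by
    intro p
    rw [hP1, Finset.mem_filter, Nat.mem_primesLE]
    tauto
  have hm2 : ∀ p, p ∈ P2 ↔ ∃ i ∈ U, q i = p := by
    intro p; rw [hP2, Finset.mem_image]
  have hdis : Disjoint P1 P2 := by
    rw [Finset.disjoint_left]
    intro p h1 h2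
    obtain ⟨i, hi, rfl⟩ := (hm2 p).1 h2
    have := (hq i hi).2.1
    have := ((hm1 _).1 h1).1
    omega
  have hprime : ∀ p ∈ P1 ∪ P2, p.Prime := by
    intro p hp
    rcases Finset.mem_union.1 hp with h | h
    · exact ((hm1 p).1 h).2.1
    · obtain ⟨i, hi, rfl⟩ := (hm2 p).1 h
      exact (hq i hi).1
  -- the classes
  have hrho : ∃ ρ : ℕ → ℕ, (∀ p ∈ P1, ρ p = j) ∧ ∀ i ∈ U, q i ∣ ρ (q i) + i := by
    refine ⟨fun p => if h : ∃ i ∈ U, q i = p then p * h.choose - h.choose else j, ?_, ?_⟩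
    · intro p hp
      have h1 : ¬ ∃ i ∈ U, q i = p := fun h => Finset.disjoint_left.1 hdis hp ((hm2 p).2 h)
      dsimp only
      rw [dif_neg h1]
    · intro i hi
      have h1 : ∃ i' ∈ U, q i' = q i := ⟨i, hi, rfl⟩
      dsimp only
      rw [dif_pos h1]
      have h2 := h1.choose_spec
      have h3 : h1.choose = i := hinj _ h2.1 _ hi h2.2
      rw [h3]
      have h4 : i ≤ q i * i := Nat.le_mul_of_pos_left _ (hq i hi).1.pos
      rw [Nat.sub_add_cancel h4]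
      exact dvd_mul_right _ _
  obtain ⟨ρ, hρ1, hρ2⟩ := hrho
  have hcop : Set.Pairwise ((P1 ∪ P2 : Finset ℕ) : Set ℕ) (Function.onFun Nat.Coprime (fun p => p)) := by
    intro p hp p' hp' hne
    exact (Nat.coprime_primes (hprime p hp) (hprime p' hp')).2 hne
  obtain ⟨n0, hn0⟩ := Nat.chineseRemainderOfFinset ρ (fun p => p) (P1 ∪ P2)
    (fun p hp => (hprime p hp).ne_zero) hcop
  have hmem : ∀ p : ℕ, p.Prime → p ∣ ∏ p ∈ P1 ∪ P2, p → p ∈ P1 ∪ P2 := by
    intro p hp hd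
    obtain ⟨a, ha, hd⟩ := (hp.prime.dvd_finset_prod_iff _).1 hd
    rwa [(Nat.prime_dvd_prime_iff_eq hp (hprime a ha)).1 hd]
  have h2not : ∀ p ∈ P1 ∪ P2, p ≠ 2 ∧ p ≠ P := by
    intro p hp
    rcases Finset.mem_union.1 hp with h | h
    · exact ((hm1 p).1 h).2.2
    · obtain ⟨i, hi, rfl⟩ := (hm2 p).1 h
      have := hq i hi
      exact ⟨by omega, this.2.2⟩
  refine ⟨∏ p ∈ P1 ∪ P2, p, n0, ?_, ?_, ?_, ?_, ?_, ?_, ?_⟩
  · rw [← Nat.not_even_iff_odd, even_iff_two_dvd]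
    intro hd
    exact (h2not 2 (hmem 2 Nat.prime_two hd)).1 rfl
  · apply Finset.squarefree_prod_of_pairwise_isCoprime
    · intro p hp p' hp' hne
      exact Nat.coprime_iff_isRelPrime.1 (hcop hp hp' hne)
    · intro p hp
      exact (hprime p hp).prime.squarefree
  · intro hd
    exact (h2not P (hmem P hP hd)).2 rfl
  · rw [Finset.prod_union hdis]
    apply Nat.mul_le_mul
    · refine le_trans ?_ (primorial_le_four_pow k)
      unfold primorial
      apply Finset.prod_le_prod_of_subset_of_one_le'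
      · intro p hp
        rw [Finset.mem_filter, Finset.mem_range]
        have := (hm1 p).1 hp
        exact ⟨by omega, this.2.1⟩
      · intro p hp _
        rw [Finset.mem_filter] at hp
        exact hp.2.pos
    · rw [hP2, Finset.prod_image (fun i hi i' hi' he => hinj i hi i' hi' he)]
  · intro p hpk hp hp2 hpP
    have h1 : p ∈ P1 := (hm1 p).2 ⟨hpk, hp, hp2, hpP⟩
    have h2 : p ∈ P1 ∪ P2 := Finset.mem_union_left _ h1
    refine ⟨Finset.dvd_prod_of_mem _ h2, ?_⟩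
    have h3 := hn0 p h2
    rwa [hρ1 p h1] at h3
  · intro i hi
    have h2 : q i ∈ P1 ∪ P2 := Finset.mem_union_right _ ((hm2 _).2 ⟨i, hi, rfl⟩)
    refine ⟨Finset.dvd_prod_of_mem _ h2, ?_⟩
    have h3 : n0 + i ≡ ρ (q i) + i [MOD q i] := Nat.ModEq.add_right i (hn0 (q i) h2)
    exact (h3.dvd_iff dvd_rfl).2 (hρ2 i hi)
  · intro p hp hd
    rcases Finset.mem_union.1 (hmem p hp hd) with h | h
    · have := (hm1 p).1 h
      exact Or.inl ⟨this.1, this.2.2⟩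
    · obtain ⟨i, hi, he⟩ := (hm2 p).1 h
      exact Or.inr ⟨i, hi, he.symm⟩

/-- one window -/
theorem core {m K A M f1 : ℕ}
    (hev : ∀ a b : Fin K → ℕ, Adm a b → (∀ i, 0 < a i ∧ b i ≤ a i) → Function.Injective (fun i => (a i, b i)) →
      (∀ i, a i ≤ M) → (∀ i, ¬ f1 ∣ a i) →
      ∃ n : ℕ, (n : ℝ) ≤ 8 * (M : ℝ) ^ A ∧ m ≤ #((univ : Finset (Fin K)).filter (fun i => (a i * n + b i).Prime)))
    {j k P g : ℕ} (hk : 2 ≤ k) (hP : P.Prime) (hKP : K + 1 < P) (hKk : K ≤ k) (hg : 1 ≤ g) (hkg : k ≤ 2 ^ g)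
    {T U : Finset ℕ} (hT : T ⊆ surv j k) (hTK : #T = K) (hTU : Disjoint T U) (hU : U ⊆ Icc 1 k) {q : ℕ → ℕ}
    (hq : ∀ i ∈ U, k < q i) {V n0 : ℕ} (hVodd : Odd V)
    (h1 : ∀ p ≤ k, p.Prime → p ≠ 2 → p ≠ P → p ∣ V ∧ n0 ≡ j [MOD p])
    (h2 : ∀ i ∈ U, q i ∣ V ∧ q i ∣ n0 + i)
    (h3 : ∀ p, p.Prime → p ∣ V → (p ≤ k ∧ p ≠ 2 ∧ p ≠ P) ∨ ∃ i ∈ U, p = q i)
    (hM : 2 ^ (g + 2) * V ≤ M) (hf : ¬ f1 ∣ 2 ^ (g + 2) * V) (r : ℕ) (hr : r ≡ j [MOD 2]) :
    ∃ x : ℕ, 2 ^ g * V ≤ x ∧ (x : ℝ) ≤ M * (8 * (M : ℝ) ^ A) + M ∧ x ≡ r [MOD 2 ^ g] ∧ x ≡ n0 [MOD V] ∧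
      m ≤ #(T.filter (fun t => (x + t).Prime)) := by
  classical
  have hVpos : 0 < V := hVodd.pos
  have hco : (2 ^ g).Coprime V := (Nat.coprime_two_left.2 hVodd).pow_left g
  obtain ⟨x0, ⟨hx0r, hx0n⟩, hx0lt⟩ : ∃ x : ℕ, (x ≡ r [MOD 2 ^ g] ∧ x ≡ n0 [MOD V]) ∧ x < 2 ^ g * V :=
    ⟨Nat.chineseRemainder hco r n0, (Nat.chineseRemainder hco r n0).2,
      Nat.chineseRemainder_lt_mul hco r n0 (by positivity) hVpos.ne'⟩
  obtain ⟨N1, hN1⟩ : ∃ N1, N1 = 2 ^ g * V := ⟨_, rfl⟩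
  have hN : 2 ^ (g + 2) * V = 4 * N1 := by rw [hN1, pow_add]; ring
  rw [hN] at hM hf
  rw [← hN1] at hx0lt ⊢
  have hN1pos : 0 < N1 := by rw [hN1]; positivity
  have hkN : k ≤ N1 := by
    rw [hN1]; exact hkg.trans (Nat.le_mul_of_pos_right _ hVpos)
  have hgN : 2 ^ g ∣ N1 := by rw [hN1]; exact dvd_mul_right _ _
  have hVN : V ∣ N1 := by rw [hN1]; exact dvd_mul_left _ _
  -- the forms
  set f := T.orderEmbOfFin hTK with hfdef
  have hmem : ∀ i, f i ∈ T := fun i => Finset.orderEmbOfFin_mem T hTK i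
  have hsurj : ∀ t ∈ T, ∃ i, f i = t := by
    intro t ht
    have : t ∈ Set.range (T.orderEmbOfFin hTK) := by
      rw [Finset.range_orderEmbOfFin]; exact ht
    obtain ⟨i, hi⟩ := this
    exact ⟨i, hi⟩
  have hTs : ∀ t ∈ T, 1 ≤ t ∧ t ≤ k ∧ ∀ p ≤ k, p.Prime → ¬ p ∣ j + t := by
    intro t ht
    have := hT ht
    rw [surv, Finset.mem_filter, Finset.mem_Icc] at this
    exact ⟨this.1.1, this.1.2, this.2⟩
  -- congruences of the numbers `4 N1 n + x0 + N1`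
  have hcong : ∀ d n : ℕ, d ∣ N1 → 4 * N1 * n + (x0 + N1) ≡ x0 [MOD d] := by
    intro d n hd
    have e1 : 4 * N1 * n ≡ 0 [MOD d] := (Nat.modEq_zero_iff_dvd).2 ((hd.mul_left 4).mul_right n)
    have e2 : x0 + N1 ≡ x0 + 0 [MOD d] := Nat.ModEq.add_left x0 ((Nat.modEq_zero_iff_dvd).2 hd)
    have e3 := e1.add e2
    simpa using e3
  have hadm : Adm (fun _ : Fin K => 4 * N1) (fun i => x0 + N1 + f i) := by
    intro p hp
    by_cases hpN : p ∣ N1
    · refine ⟨0, fun i hd => ?_⟩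
      have ht := hTs (f i) (hmem i)
      have e0 : x0 + N1 + f i ≡ x0 + f i [MOD p] := by
        have := hcong p 0 hpN
        rw [mul_zero, zero_add] at this
        exact this.add_right _
      simp only [mul_zero, zero_add] at hd
      have hd2 : p ∣ x0 + f i := (e0.dvd_iff dvd_rfl).1 hd
      by_cases hp2 : p = 2
      · subst hp2
        have e1 : x0 ≡ j [MOD 2] := (hx0r.of_dvd (dvd_pow_self 2 (by omega))).trans hr
        exact ht.2.2 2 hk Nat.prime_two (((e1.add_right (f i)).dvd_iff dvd_rfl).1 hd2)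
      · have hpV : p ∣ V := by
          rw [hN1] at hpN
          rcases (hp.dvd_mul).1 hpN with h | h
          · exact absurd ((Nat.prime_dvd_prime_iff_eq hp Nat.prime_two).1 (hp.dvd_of_dvd_pow h)) hp2
          · exact h
        have e1 : x0 ≡ n0 [MOD p] := hx0n.of_dvd hpV
        rcases h3 p hp hpV with ⟨hpk, _, hpP⟩ | ⟨i', hi', hpe⟩
        · have e2 : x0 ≡ j [MOD p] := e1.trans (h1 p hpk hp hp2 hpP).2
          exact ht.2.2 p hpk hp (((e2.add_right (f i)).dvd_iff dvd_rfl).1 hd2)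
        · have e2 : p ∣ n0 + f i := ((e1.add_right (f i)).dvd_iff dvd_rfl).1 hd2
          have e3 : p ∣ n0 + i' := by rw [hpe]; exact (h2 i' hi').2
          have hi'k := Finset.mem_Icc.1 (hU hi')
          have hkp : k < p := by rw [hpe]; exact hq i' hi'
          have hne : f i ≠ i' := fun h => Finset.disjoint_left.1 hTU (hmem i) (h ▸ hi')
          have e4 : (p : ℤ) ∣ (f i : ℤ) - i' := by
            have e5 : (p : ℤ) ∣ ((n0 + f i : ℕ) : ℤ) := by exact_mod_cast e2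
            have e6 : (p : ℤ) ∣ ((n0 + i' : ℕ) : ℤ) := by exact_mod_cast e3
            have e7 := dvd_sub e5 e6
            push_cast at e7
            have e8 : (n0 : ℤ) + (f i : ℤ) - ((n0 : ℤ) + i') = (f i : ℤ) - i' := by ring
            rwa [e8] at e7
          have e9 : (f i : ℤ) - i' = 0 := by
            apply Int.eq_zero_of_abs_lt_dvd e4
            rw [abs_lt]
            constructor <;> omega
          omega
    · -- few forms
      have hKp : K < p := by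
        by_contra hcon
        have hpk : p ≤ k := by omega
        have hp2 : p ≠ 2 := by
          rintro rfl
          exact hpN (by rw [hN1]; exact (dvd_pow_self 2 (by omega)).mul_right _)
        have hpP : p = P := by
          by_contra hne
          exact hpN (((h1 p hpk hp hp2 hne).1).trans hVN)
        omega
      have hp2 : p ≠ 2 := by
        rintro rfl
        exact hpN (by rw [hN1]; exact (dvd_pow_self 2 (by omega)).mul_right _)
      obtain ⟨T', hT'⟩ : ∃ T' : Finset ℤ, T' = univ.image (fun i : Fin K => ((x0 + N1 + f i : ℕ) : ℤ)) := ⟨_, rfl⟩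
      have hcard : T'.card < p := by
        have : T'.card ≤ K := by
          rw [hT']
          refine Finset.card_image_le.trans ?_
          rw [Finset.card_univ, Fintype.card_fin]
        omega
      obtain ⟨r', hr'⟩ := Pool.Agent.H522.adm_of_card T' p hp hcard
      haveI : Fact p.Prime := ⟨hp⟩
      have hne : ((4 * N1 : ℕ) : ZMod p) ≠ 0 := by
        rw [Ne, ZMod.natCast_eq_zero_iff]
        intro hd
        rcases (hp.dvd_mul).1 hd with h | h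
        · have h4 : p ∣ 2 ^ 2 := by norm_num; exact h
          exact hp2 ((Nat.prime_dvd_prime_iff_eq hp Nat.prime_two).1 (hp.dvd_of_dvd_pow h4))
        · exact hpN h
      refine ⟨(((4 * N1 : ℕ) : ZMod p)⁻¹ * (r' : ZMod p)).val, fun i hd => ?_⟩
      apply hr' ((x0 + N1 + f i : ℕ) : ℤ) (by rw [hT']; exact Finset.mem_image_of_mem _ (mem_univ i))
      rw [← ZMod.intCast_zmod_eq_zero_iff_dvd]
      have e1 : ((4 * N1 * (((4 * N1 : ℕ) : ZMod p)⁻¹ * (r' : ZMod p)).val + (x0 + N1 + f i) : ℕ) : ZMod p) = 0 := by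
        rw [ZMod.natCast_eq_zero_iff]; exact hd
      rw [Nat.cast_add, Nat.cast_mul (4 * N1), ZMod.natCast_val, ZMod.cast_id', id, ← mul_assoc,
        mul_inv_cancel₀ hne, one_mul] at e1
      rw [Int.cast_add, Int.cast_natCast]
      exact e1
  obtain ⟨n, hn1, hn2⟩ := hev (fun _ => 4 * N1) (fun i => x0 + N1 + f i) hadm
    (fun i => ⟨by omega, by
      have := (hTs (f i) (hmem i)).2.1
      omega⟩)
    (fun i i' he => by
      have e1 : x0 + N1 + f i = x0 + N1 + f i' := (Prod.mk.inj he).2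
      exact f.injective (by omega))
    (fun _ => hM) (fun _ => hf)
  refine ⟨4 * N1 * n + (x0 + N1), by omega, ?_, ?_, ?_, ?_⟩
  · have hMr : ((4 * N1 : ℕ) : ℝ) ≤ M := by exact_mod_cast hM
    have e1 : ((4 * N1 * n + (x0 + N1) : ℕ) : ℝ) = ((4 * N1 : ℕ) : ℝ) * n + ((x0 + N1 : ℕ) : ℝ) := by push_cast; ring
    rw [e1]
    have e2 : ((x0 + N1 : ℕ) : ℝ) ≤ M := by
      have : x0 + N1 ≤ M := by omega
      exact_mod_cast this
    have e3 : ((4 * N1 : ℕ) : ℝ) * n ≤ M * (8 * (M : ℝ) ^ A) :=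
      mul_le_mul hMr hn1 (Nat.cast_nonneg _) (Nat.cast_nonneg _)
    linarith
  · exact (hcong _ n hgN).trans hx0r
  · exact (hcong _ n hVN).trans hx0n
  · refine hn2.trans ?_
    have e1 : ((univ : Finset (Fin K)).filter (fun i => (4 * N1 * n + (x0 + N1 + f i)).Prime)).image f ⊆
        T.filter (fun t => (4 * N1 * n + (x0 + N1) + t).Prime) := by
      intro t ht
      rw [mem_image] at ht
      obtain ⟨i, hi, rfl⟩ := ht
      rw [mem_filter] at hi ⊢
      refine ⟨hmem i, ?_⟩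
      have : 4 * N1 * n + (x0 + N1) + f i = 4 * N1 * n + (x0 + N1 + f i) := by ring
      rw [this]
      exact hi.2
    have e2 := card_le_card e1
    rwa [card_image_of_injective _ f.injective] at e2

/-- the primes of the window -/
theorem exact_window {j k P g : ℕ} (hk : 2 ≤ k) (hg : 1 ≤ g) (hkg : k ≤ 2 ^ g)
    {T U : Finset ℕ} (hU : survP P j k \ T ⊆ U) {q : ℕ → ℕ} {V n0 : ℕ} (hVodd : Odd V)
    (h1 : ∀ p ≤ k, p.Prime → p ≠ 2 → p ≠ P → p ∣ V ∧ n0 ≡ j [MOD p])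
    (hq : ∀ i ∈ U, (q i).Prime)
    (h2 : ∀ i ∈ U, q i ∣ V ∧ q i ∣ n0 + i) {r x : ℕ} (hr : r ≡ j [MOD 2]) (hx : 2 ^ g * V ≤ x)
    (hxr : x ≡ r [MOD 2 ^ g]) (hxn : x ≡ n0 [MOD V]) :
    (∀ p ≤ k, p.Prime → p ≠ P → x ≡ j [MOD p]) ∧
    ∀ i ∈ Icc 1 k, ((x + i).Prime ↔ i ∈ T.filter (fun t => (x + t).Prime)) := by
  have hVpos : 0 < V := hVodd.pos
  have hmod : ∀ p ≤ k, p.Prime → p ≠ P → x ≡ j [MOD p] := by
    intro p hpk hp hpP
    by_cases hp2 : p = 2
    · subst hp2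
      exact (hxr.of_dvd (dvd_pow_self 2 (by omega))).trans hr
    · have := h1 p hpk hp hp2 hpP
      exact (hxn.of_dvd this.1).trans this.2
  refine ⟨hmod, fun i hi => ?_⟩
  rw [Finset.mem_filter]
  refine ⟨fun hpr => ⟨?_, hpr⟩, fun h => h.2⟩
  by_contra hiT
  rw [Finset.mem_Icc] at hi
  have hxk : k ≤ x := (hkg.trans (Nat.le_mul_of_pos_right _ hVpos)).trans hx
  have hxV : V ≤ x := (Nat.le_mul_of_pos_left _ (by positivity)).trans hx
  by_cases hiS : i ∈ survP P j k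
  · have hiU : i ∈ U := hU (Finset.mem_sdiff.2 ⟨hiS, hiT⟩)
    have h3 := h2 i hiU
    have h4 : q i ∣ x + i := (((hxn.of_dvd h3.1).add_right i).dvd_iff dvd_rfl).2 h3.2
    have h5 := (Nat.prime_dvd_prime_iff_eq (hq i hiU) hpr).1 h4
    have h6 := Nat.le_of_dvd hVpos h3.1
    omega
  · rw [survP, Finset.mem_filter, Finset.mem_Icc] at hiS
    push Not at hiS
    obtain ⟨p, hpk, hp, hpP, hd⟩ := hiS hi
    have h4 : p ∣ x + i := (((hmod p hpk hp hpP).add_right i).dvd_iff dvd_rfl).2 hd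
    have h5 := (Nat.prime_dvd_prime_iff_eq hp hpr).1 h4
    omega

end Pool.Agent.H522.LW
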