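import Mathlib
import Pool.Agent.H522.LW2
import Pool.Agent.H522.Count

/-! H522: windows in sieve classes at the scale of Linnik's theorem: the main theorem. -/

set_option autoImplicit false

open Finset Filter

namespace Pool.Agent.H522.LW

/-- the windows with the set `F` of positions of primes -/
noncomputable def wins (A P j k : ℕ) (F : Finset ℕ) : Set ℕ :=
  {x : ℕ | 2 ^ k ≤ x ∧ x ≤ 2 ^ (A * k) ∧ (∀ p ≤ k, p.Prime → p ≠ P → x ≡ j [MOD p]) ∧
    ∀ i ∈ Icc 1 k, ((x + i).Prime ↔ i ∈ F)}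

theorem prod_bound (k : ℕ) (hk : 8 ≤ k) (C : ℝ) (hC : 1 ≤ C) (U : Finset ℕ) (hU : (#U : ℝ) ≤ C * k / Real.log k)
    (q : ℕ → ℕ) (hq : ∀ i ∈ U, q i ≤ (2 * k + 1) ^ 4) : ∏ i ∈ U, q i ≤ 2 ^ (12 * ⌈C⌉₊ * k) := by
  have hkr : (8 : ℝ) ≤ k := by exact_mod_cast hk
  have hlog1 : 1 < Real.log k := by
    rw [Real.lt_log_iff_exp_lt (by linarith)]
    have := Real.exp_one_lt_d9
    linarith
  have h1 : ∏ i ∈ U, q i ≤ (k ^ 8) ^ #U := by
    refine (Finset.prod_le_pow_card _ _ _ fun i hi => ?_)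
    refine (hq i hi).trans ?_
    have h2 : 2 * k + 1 ≤ k ^ 2 := by nlinarith
    calc (2 * k + 1) ^ 4 ≤ (k ^ 2) ^ 4 := Nat.pow_le_pow_left h2 4
      _ = k ^ 8 := by ring
  refine h1.trans ?_
  have h2 : (((k ^ 8) ^ #U : ℕ) : ℝ) ≤ ((2 ^ (12 * ⌈C⌉₊ * k) : ℕ) : ℝ) := by
    push_cast
    rw [← Real.log_le_log_iff (by positivity) (by positivity), Real.log_pow, Real.log_pow, Real.log_pow]
    push_cast
    have h3 : (#U : ℝ) * Real.log k ≤ C * k := by
      rwa [le_div_iff₀ (by linarith)] at hU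
    have h4 : C ≤ (⌈C⌉₊ : ℝ) := Nat.le_ceil C
    have h5 : (0.69 : ℝ) ≤ Real.log 2 := by have := Real.log_two_gt_d9; linarith
    have h6 : C * k ≤ ⌈C⌉₊ * k := mul_le_mul_of_nonneg_right h4 (by linarith)
    have h7 : (0 : ℝ) ≤ ⌈C⌉₊ * k := by positivity
    have h8 : 12 * ((⌈C⌉₊ : ℝ) * k) * 0.69 ≤ 12 * ((⌈C⌉₊ : ℝ) * k) * Real.log 2 :=
      mul_le_mul_of_nonneg_left h5 (by positivity)
    nlinarith
  exact_mod_cast h2

theorem main (m : ℕ) (hm : 1 ≤ m) : ∃ K A : ℕ, 1 ≤ K ∧ ∀ B : ℕ, ∃ k0 : ℕ, ∀ k : ℕ, k0 ≤ k →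
    ∃ P : ℕ, P.Prime ∧ (B : ℝ) * Real.log k < P ∧ ∀ (j : ℕ) (T : Finset ℕ), T ⊆ surv j k → #T = K →
      ∃ F ⊆ T, m ≤ #F ∧ 2 ^ k ≤ (wins A P j k F).ncard := by
  classical
  obtain ⟨K, A1, hev⟩ := Pool.Agent.H536.LS.evLS m
  have hK : 1 ≤ K := by
    by_contra hcon
    have hK0 : K = 0 := by omega
    subst hK0
    obtain ⟨M0, h⟩ := hev 0
    obtain ⟨f1, _, _, h⟩ := h M0 le_rfl
    obtain ⟨n, _, hn⟩ := h (fun _ => 1) (fun _ => 1) (fun p _ => ⟨0, fun i => i.elim0⟩) (fun i => i.elim0)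
      (fun i => i.elim0) (fun i => i.elim0) (fun i => i.elim0)
    have : #((univ : Finset (Fin 0)).filter (fun i => (1 * n + 1).Prime)) = 0 := by
      rw [Finset.card_eq_zero]
      apply Finset.eq_empty_of_forall_notMem
      intro i
      exact i.elim0
    omega
  obtain ⟨C, hC, hsurv⟩ := surv_card
  obtain ⟨D, hD⟩ : ∃ D : ℕ, D = 7 + 12 * ⌈C⌉₊ := ⟨_, rfl⟩
  refine ⟨K, D * (A1 + 2), hK, fun B => ?_⟩
  obtain ⟨M0, hM0⟩ := hev (2 * (B + 1) + 1)
  refine ⟨M0 + K + 8, fun k hk => ?_⟩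
  have hk8 : 8 ≤ k := by omega
  have hkr : (8 : ℝ) ≤ k := by exact_mod_cast hk8
  have hlog1 : 1 < Real.log k := by
    rw [Real.lt_log_iff_exp_lt (by linarith)]
    have := Real.exp_one_lt_d9
    linarith
  obtain ⟨M, hM⟩ : ∃ M : ℕ, M = 2 ^ (D * k) := ⟨_, rfl⟩
  have hD7 : 7 ≤ D := by omega
  have hkD : 7 * k ≤ D * k := Nat.mul_le_mul_right k hD7
  have hMM0 : M0 ≤ M := by
    have h1 : k < 2 ^ k := Nat.lt_two_pow_self
    have h2 : 2 ^ k ≤ 2 ^ (D * k) := Nat.pow_le_pow_right (by norm_num) (by omega)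
    omega
  obtain ⟨f1, hf1, hor, hF⟩ := hM0 M hMM0
  -- the size of `f1`
  have hlogM : (k : ℝ) ≤ Real.log M := by
    rw [hM]
    push_cast
    rw [Real.log_pow]
    push_cast
    have h1 : (0.69 : ℝ) ≤ Real.log 2 := by have := Real.log_two_gt_d9; linarith
    have h2 : (7 : ℝ) ≤ D := by exact_mod_cast hD7
    have h3 : (7 : ℝ) * k ≤ D * k := mul_le_mul_of_nonneg_right h2 (by linarith)
    have h4 : (D : ℝ) * k * 0.69 ≤ D * k * Real.log 2 := mul_le_mul_of_nonneg_left h1 (by positivity)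
    nlinarith
  obtain ⟨y, hy⟩ : ∃ y : ℕ, y = ⌈((B : ℝ) + 1) * Real.log k⌉₊ := ⟨_, rfl⟩
  have hy1 : ((B : ℝ) + 1) * Real.log k ≤ y := by rw [hy]; exact Nat.le_ceil _
  have hy2 : (y : ℝ) ≤ ((B : ℝ) + 1) * Real.log k + 1 := by
    rw [hy]; exact (Nat.ceil_lt_add_one (by positivity)).le
  have h4y : 4 ^ y < f1 := by
    have h1 : ((4 ^ y : ℕ) : ℝ) ≤ (k : ℝ) ^ (2 * (B + 1) + 1) := by
      push_cast
      rw [← Real.log_le_log_iff (by positivity) (by positivity), Real.log_pow, Real.log_pow]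
      push_cast
      have h2 : Real.log 4 ≤ 1.4 := by
        have : Real.log 4 = 2 * Real.log 2 := by
          rw [show (4 : ℝ) = 2 ^ 2 by norm_num, Real.log_pow]; norm_num
        rw [this]; have := Real.log_two_lt_d9; linarith
      have h3 : 0 < Real.log 4 := Real.log_pos (by norm_num)
      have h5 : Real.log 8 ≤ Real.log k := Real.log_le_log (by norm_num) hkr
      have h6 : (2 : ℝ) ≤ Real.log 8 := by
        have : Real.log 8 = 3 * Real.log 2 := by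
          rw [show (8 : ℝ) = 2 ^ 3 by norm_num, Real.log_pow]; norm_num
        rw [this]; have := Real.log_two_gt_d9; linarith
      have h7 : (y : ℝ) * Real.log 4 ≤ (((B : ℝ) + 1) * Real.log k + 1) * 1.4 :=
        mul_le_mul hy2 h2 h3.le (by positivity)
      have h8 : 0 ≤ ((B : ℝ) + 1) * Real.log k := by positivity
      nlinarith
    have h2 : (k : ℝ) ^ (2 * (B + 1) + 1) ≤ (Real.log M) ^ (2 * (B + 1) + 1) :=
      pow_le_pow_left₀ (by linarith) hlogM _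
    have h3 : ((4 ^ y : ℕ) : ℝ) < f1 := h1.trans_lt (h2.trans_lt hf1)
    exact_mod_cast h3
  have hf11 : 1 < f1 := lt_of_le_of_lt Nat.one_le_two_pow (lt_of_le_of_lt
    (Nat.pow_le_pow_left (by norm_num) y) h4y)
  obtain ⟨P, hP, hKP, hyP, hexc⟩ := exc_prime f1 M K y hK hf11 h4y hor
  have hyPr : (y : ℝ) < P := by exact_mod_cast hyP
  have hlogP : Real.log k < P := by
    have h1 : (0 : ℝ) ≤ B * Real.log k := by positivity
    nlinarith
  refine ⟨P, hP, by nlinarith, fun j T hT hTK => ?_⟩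
  obtain ⟨U, hU⟩ : ∃ U, U = survP P j k \ T := ⟨_, rfl⟩
  have hUs : U ⊆ Icc 1 k := by
    rw [hU]
    exact Finset.sdiff_subset.trans (Finset.filter_subset _ _)
  have hUk : #U ≤ k := by
    have := Finset.card_le_card hUs
    simpa using this
  have hUr : (#U : ℝ) ≤ C * k / Real.log k := by
    have h1 : #U ≤ #(survP P j k) := by rw [hU]; exact Finset.card_le_card Finset.sdiff_subset
    exact (Nat.cast_le.2 h1).trans (hsurv k hk8 P j hlogP)
  obtain ⟨q, hq, hinj⟩ := assign k P hk8 U hUk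
  have hTU : Disjoint T U := by rw [hU]; exact Finset.disjoint_sdiff
  obtain ⟨V, n0, hVodd, hVsq, hPV, hVle, h1, h2, h3⟩ := moduli j k P (by omega) hP U q
    (fun i hi => ⟨(hq i hi).1, (hq i hi).2.1, (hq i hi).2.2.1⟩) hinj
  obtain ⟨g, hg⟩ : ∃ g, g = 2 * k + 1 := ⟨_, rfl⟩
  have hMle : 2 ^ (g + 2) * V ≤ M := by
    have h4 := prod_bound k hk8 C hC U hUr q (fun i hi => (hq i hi).2.2.2)
    have h5 : V ≤ 2 ^ (2 * k) * 2 ^ (12 * ⌈C⌉₊ * k) := by
      refine hVle.trans (Nat.mul_le_mul ?_ h4)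
      rw [pow_mul]; norm_num
    have h6 : 2 ^ (g + 2) ≤ 2 ^ (5 * k) := Nat.pow_le_pow_right (by norm_num) (by omega)
    calc 2 ^ (g + 2) * V ≤ 2 ^ (5 * k) * (2 ^ (2 * k) * 2 ^ (12 * ⌈C⌉₊ * k)) := Nat.mul_le_mul h6 h5
      _ = M := by
        rw [hM, ← pow_add, ← pow_add]
        congr 1
        rw [hD]; ring
  have hfN := hexc (g + 2) V hMle hVodd hVsq hPV
  have hkg : k ≤ 2 ^ g := by
    have h4 : k < 2 ^ k := Nat.lt_two_pow_self
    have h5 : 2 ^ k ≤ 2 ^ g := Nat.pow_le_pow_right (by norm_num) (by omega)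
    omega
  have hcore : ∀ s : ℕ, ∃ x : ℕ, 2 ^ g * V ≤ x ∧ (x : ℝ) ≤ M * (8 * (M : ℝ) ^ A1) + M ∧
      x ≡ 2 * s + j % 2 [MOD 2 ^ g] ∧ x ≡ n0 [MOD V] ∧ m ≤ #(T.filter (fun t => (x + t).Prime)) := fun s =>
    core hF (by omega) hP hKP (by omega) (by omega) hkg hT hTK hTU hUs (fun i hi => (hq i hi).2.1) hVodd
      h1 h2 h3 hMle hfN (2 * s + j % 2) (by
        unfold Nat.ModEq
        omega)
  choose x hx1 hx2 hx3 hx4 hx5 using hcore
  have hinjx : ∀ s ∈ range (2 ^ (2 * k)), ∀ s' ∈ range (2 ^ (2 * k)), x s = x s' → s = s' := by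
    intro s hs s' hs' he
    rw [Finset.mem_range] at hs hs'
    have h4 : 2 * s + j % 2 ≡ 2 * s' + j % 2 [MOD 2 ^ g] := (hx3 s).symm.trans (he ▸ hx3 s')
    have h5 : 2 ^ g = 2 * 2 ^ (2 * k) := by rw [hg, pow_succ]; ring
    rw [h5] at h4
    have h6 := Nat.ModEq.eq_of_lt_of_lt h4 (by omega) (by omega)
    omega
  obtain ⟨F, hFT, hFc⟩ := Finset.exists_le_card_fiber_of_mul_le_card_of_maps_to
    (s := range (2 ^ (2 * k))) (t := T.powerset) (f := fun s => T.filter (fun t => (x s + t).Prime))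
    (n := 2 ^ k) (fun s _ => Finset.mem_powerset.2 (Finset.filter_subset _ _)) ⟨∅, Finset.empty_mem_powerset _⟩
    (by
      rw [Finset.card_powerset, hTK, Finset.card_range, ← pow_add]
      exact Nat.pow_le_pow_right (by norm_num) (by omega))
  rw [Finset.mem_powerset] at hFT
  have hne : ((range (2 ^ (2 * k))).filter (fun s => T.filter (fun t => (x s + t).Prime) = F)).Nonempty := by
    rw [← Finset.card_pos]
    exact lt_of_lt_of_le (by positivity) hFc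
  refine ⟨F, hFT, ?_, ?_⟩
  · obtain ⟨s, hs⟩ := hne
    rw [Finset.mem_filter] at hs
    rw [← hs.2]
    exact hx5 s
  · refine hFc.trans ?_
    have hfin : (wins (D * (A1 + 2)) P j k F).Finite := by
      apply (Set.finite_Iic (2 ^ (D * (A1 + 2) * k))).subset
      intro z hz
      exact hz.2.1
    rw [← Set.ncard_coe_finset]
    refine Set.ncard_le_ncard_of_injOn x ?_ ?_ hfin
    · intro s hs
      rw [Finset.mem_coe, Finset.mem_filter] at hs
      have h4 := exact_window (P := P) (by omega) (by omega) hkg (T := T) (U := U) (by rw [hU]) hVodd h1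
        (fun i hi => (hq i hi).1) h2 (r := 2 * s + j % 2) (x := x s) (by unfold Nat.ModEq; omega) (hx1 s)
        (hx3 s) (hx4 s)
      refine ⟨?_, ?_, h4.1, ?_⟩
      · have h5 : 2 ^ k ≤ 2 ^ g := Nat.pow_le_pow_right (by norm_num) (by omega)
        exact h5.trans ((Nat.le_mul_of_pos_right _ hVodd.pos).trans (hx1 s))
      · have h5 : (x s : ℝ) ≤ ((2 ^ (D * (A1 + 2) * k) : ℕ) : ℝ) := by
          refine (hx2 s).trans ?_
          have h6 : (9 : ℝ) ≤ M := by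
            have h7 : 2 ^ 7 ≤ M := by
              rw [hM]; exact Nat.pow_le_pow_right (by norm_num) (by omega)
            have h8 : 9 ≤ M := by omega
            exact_mod_cast h8
          have h7 : ((2 ^ (D * (A1 + 2) * k) : ℕ) : ℝ) = (M : ℝ) ^ (A1 + 2) := by
            rw [hM]
            push_cast
            rw [← pow_mul]
            congr 1
            ring
          rw [h7]
          have h8 : (1 : ℝ) ≤ (M : ℝ) ^ A1 := one_le_pow₀ (by linarith)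
          have h9 : (M : ℝ) ≤ M * (M : ℝ) ^ A1 := le_mul_of_one_le_right (by linarith) h8
          have h10 : (M : ℝ) ^ (A1 + 2) = M * (M * (M : ℝ) ^ A1) := by ring
          rw [h10]
          have h11 : 9 * (M * (M : ℝ) ^ A1) ≤ M * (M * (M : ℝ) ^ A1) :=
            mul_le_mul_of_nonneg_right h6 (by positivity)
          linarith
        exact_mod_cast h5
      · rw [hs.2] at h4
        exact h4.2
    · intro s hs s' hs' he
      rw [Finset.mem_coe, Finset.mem_filter] at hs hs'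
      exact hinjx s hs.1 s' hs'.1 he

/-- the number of the sets of positions -/
theorem main_count (m : ℕ) (hm : 1 ≤ m) : ∃ K A : ℕ, 1 ≤ K ∧ ∀ B : ℕ, ∃ k0 : ℕ, ∀ k : ℕ, k0 ≤ k →
    ∃ P : ℕ, P.Prime ∧ (B : ℝ) * Real.log k < P ∧ ∀ (j : ℕ) (T : Finset ℕ), T ⊆ surv j k → K ≤ #T →
      ((#T : ℝ) / K) ^ m ≤
        (Set.ncard {F : Finset ℕ | F ⊆ T ∧ m ≤ #F ∧ #F ≤ K ∧ 2 ^ k ≤ (wins A P j k F).ncard} : ℝ) := by
  classical
  obtain ⟨K, A, hK, h⟩ := main m hm
  refine ⟨K, A, hK, fun B => ?_⟩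
  obtain ⟨k0, h⟩ := h B
  refine ⟨k0, fun k hk => ?_⟩
  obtain ⟨P, hP, hPB, h⟩ := h k hk
  refine ⟨P, hP, hPB, fun j T hT hKT => ?_⟩
  obtain ⟨𝓕, h𝓕⟩ : ∃ 𝓕 : Finset (Finset ℕ), 𝓕 = T.powerset.filter (fun F => m ≤ #F ∧ #F ≤ K ∧
    2 ^ k ≤ (wins A P j k F).ncard) := ⟨_, rfl⟩
  have hset : {F : Finset ℕ | F ⊆ T ∧ m ≤ #F ∧ #F ≤ K ∧ 2 ^ k ≤ (wins A P j k F).ncard} = (𝓕 : Set (Finset ℕ)) := by
    ext F
    rw [h𝓕, Finset.coe_filter]
    simp only [Finset.mem_powerset]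
  rw [hset, Set.ncard_coe_finset]
  have hTpos : (0 : ℝ) < #T := by
    have : 0 < #T := by omega
    exact_mod_cast this
  have hKpos : (0 : ℝ) < K := by exact_mod_cast hK
  have hCpos : (0 : ℝ) < ((#T).choose K : ℝ) := by exact_mod_cast Nat.choose_pos hKT
  have hKT1 : (K : ℝ) / #T ≤ 1 := by
    rw [div_le_one hTpos]; exact_mod_cast hKT
  have h1 : T.powersetCard K ⊆ 𝓕.biUnion (fun F => (T.powersetCard K).filter (fun W => F ⊆ W)) := by
    intro W hW
    have hW' := Finset.mem_powersetCard.1 hW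
    obtain ⟨F, hFW, hmF, hFc⟩ := h j W (hW'.1.trans hT) hW'.2
    rw [Finset.mem_biUnion]
    refine ⟨F, ?_, Finset.mem_filter.2 ⟨hW, hFW⟩⟩
    rw [h𝓕, Finset.mem_filter, Finset.mem_powerset]
    exact ⟨hFW.trans hW'.1, hmF, (Finset.card_le_card hFW).trans hW'.2.le, hFc⟩
  have h2 : ((#T).choose K : ℝ) ≤ ∑ F ∈ 𝓕, (#((T.powersetCard K).filter (fun W => F ⊆ W)) : ℝ) := by
    have h3 := (Finset.card_le_card h1).trans Finset.card_biUnion_le
    rw [Finset.card_powersetCard] at h3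
    exact_mod_cast h3
  have h3 : ∀ F ∈ 𝓕, (#((T.powersetCard K).filter (fun W => F ⊆ W)) : ℝ) ≤
      ((K : ℝ) / #T) ^ m * ((#T).choose K : ℝ) := by
    intro F hF
    rw [h𝓕, Finset.mem_filter, Finset.mem_powerset] at hF
    refine (Pool.Agent.H522.card_sup_le T F hF.1 K hKT).trans ?_
    apply mul_le_mul_of_nonneg_right _ hCpos.le
    exact pow_le_pow_of_le_one (by positivity) hKT1 hF.2.1
  have h4 := h2.trans (Finset.sum_le_sum h3)
  rw [Finset.sum_const, nsmul_eq_mul] at h4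
  have h5 : 1 ≤ (#𝓕 : ℝ) * ((K : ℝ) / #T) ^ m := by
    by_contra hcon
    push Not at hcon
    have h6 : (#𝓕 : ℝ) * (((K : ℝ) / #T) ^ m * ((#T).choose K : ℝ)) < ((#T).choose K : ℝ) := by
      have := mul_lt_mul_of_pos_right hcon hCpos
      linarith
    linarith
  have h6 : (0 : ℝ) < ((K : ℝ) / #T) ^ m := by positivity
  have h7 : ((#T : ℝ) / K) ^ m * ((K : ℝ) / #T) ^ m = 1 := by
    rw [← mul_pow]
    have : (#T : ℝ) / K * (K / #T) = 1 := by field_simp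
    rw [this, one_pow]
  rw [← h7] at h5
  exact le_of_mul_le_mul_right h5 h6

end Pool.Agent.H522.LW
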