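import Mathlib
import Pool.Agent.H522.LW3
import Pool.Agent.H522.Shatter

/-! H522: windows in sieve classes at the scale of Linnik's theorem: all patterns on a positive proportion of the
sets of `m` positions. -/

set_option autoImplicit false

open Finset Filter

namespace Pool.Agent.H522.LW

/-- averaging over the subsets with `N` elements -/
theorem avg {T : Finset ℕ} {N m : ℕ} (hN : 1 ≤ N) (hNT : N ≤ #T) (𝓓 : Finset (Finset ℕ))
    (h𝓓 : ∀ D ∈ 𝓓, D ⊆ T ∧ m ≤ #D) (h : ∀ W ∈ T.powersetCard N, ∃ D ∈ 𝓓, D ⊆ W) :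
    ((#T : ℝ) / N) ^ m ≤ #𝓓 := by
  classical
  have hTpos : (0 : ℝ) < #T := by
    have : 0 < #T := by omega
    exact_mod_cast this
  have hKpos : (0 : ℝ) < N := by exact_mod_cast hN
  have hCpos : (0 : ℝ) < ((#T).choose N : ℝ) := by exact_mod_cast Nat.choose_pos hNT
  have hKT1 : (N : ℝ) / #T ≤ 1 := by
    rw [div_le_one hTpos]; exact_mod_cast hNT
  have h1 : T.powersetCard N ⊆ 𝓓.biUnion (fun F => (T.powersetCard N).filter (fun W => F ⊆ W)) := by
    intro W hW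
    obtain ⟨F, hF, hFW⟩ := h W hW
    rw [Finset.mem_biUnion]
    exact ⟨F, hF, Finset.mem_filter.2 ⟨hW, hFW⟩⟩
  have h2 : ((#T).choose N : ℝ) ≤ ∑ F ∈ 𝓓, (#((T.powersetCard N).filter (fun W => F ⊆ W)) : ℝ) := by
    have h3 := (Finset.card_le_card h1).trans Finset.card_biUnion_le
    rw [Finset.card_powersetCard] at h3
    exact_mod_cast h3
  have h3 : ∀ F ∈ 𝓓, (#((T.powersetCard N).filter (fun W => F ⊆ W)) : ℝ) ≤
      ((N : ℝ) / #T) ^ m * ((#T).choose N : ℝ) := by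
    intro F hF
    obtain ⟨hF1, hF2⟩ := h𝓓 F hF
    refine (Pool.Agent.H522.card_sup_le T F hF1 N hNT).trans ?_
    apply mul_le_mul_of_nonneg_right _ hCpos.le
    exact pow_le_pow_of_le_one (by positivity) hKT1 hF2
  have h4 := h2.trans (Finset.sum_le_sum h3)
  rw [Finset.sum_const, nsmul_eq_mul] at h4
  have h5 : 1 ≤ (#𝓓 : ℝ) * ((N : ℝ) / #T) ^ m := by
    by_contra hcon
    push Not at hcon
    have h6 : (#𝓓 : ℝ) * (((N : ℝ) / #T) ^ m * ((#T).choose N : ℝ)) < ((#T).choose N : ℝ) := by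
      have := mul_lt_mul_of_pos_right hcon hCpos
      linarith
    linarith
  have h6 : (0 : ℝ) < ((N : ℝ) / #T) ^ m := by positivity
  have h7 : ((#T : ℝ) / N) ^ m * ((N : ℝ) / #T) ^ m = 1 := by
    rw [← mul_pow]
    have : (#T : ℝ) / N * (N / #T) = 1 := by field_simp
    rw [this, one_pow]
  rw [← h7] at h5
  exact le_of_mul_le_mul_right h5 h6

/-- the exact sets of positions -/
def GW (A P j k m K : ℕ) (F : Finset ℕ) : Prop := m ≤ #F ∧ #F ≤ K ∧ 2 ^ k ≤ (wins A P j k F).ncard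

/-- the exact sets of positions, and the sets of `m` positions with all patterns -/
theorem main_indep (m : ℕ) (hm : 1 ≤ m) : ∃ K A : ℕ, 1 ≤ K ∧ ∀ B : ℕ, ∃ k0 : ℕ, ∀ k : ℕ, k0 ≤ k →
    ∃ P : ℕ, P.Prime ∧ (B : ℝ) * Real.log k < P ∧ ∀ (j : ℕ) (T : Finset ℕ), T ⊆ surv j k → K ≤ #T →
      ((#T : ℝ) / K) ^ m ≤ (Set.ncard {F : Finset ℕ | F ⊆ T ∧ GW A P j k m K F} : ℝ) ∧
      ((#T : ℝ) / K) ^ m ≤
        (Set.ncard {D : Finset ℕ | D ⊆ T ∧ #D = m ∧ ∀ E ⊆ D, ∃ F ⊆ T, F ∩ D = E ∧ GW A P j k m K F} : ℝ) := by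
  classical
  obtain ⟨K, A, hK, h⟩ := main_count (2 * m) (by omega)
  obtain ⟨N, hN⟩ : ∃ N, N = m * K ^ 2 + K := ⟨_, rfl⟩
  have hKN : K ≤ N := by rw [hN]; exact Nat.le_add_left _ _
  have hN1 : 1 ≤ N := hK.trans hKN
  refine ⟨N, A, hN1, fun B => ?_⟩
  obtain ⟨k0, h⟩ := h B
  refine ⟨k0, fun k hk => ?_⟩
  obtain ⟨P, hP, hPB, h⟩ := h k hk
  refine ⟨P, hP, hPB, fun j T hT hNT => ?_⟩
  have hKpos : (0 : ℝ) < K := by exact_mod_cast hK
  have hNpos : (0 : ℝ) < N := by exact_mod_cast hN1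
  have hKNr : (K : ℝ) ≤ N := by exact_mod_cast hKN
  have hmono : ∀ F, 2 * m ≤ #F ∧ #F ≤ K ∧ 2 ^ k ≤ (wins A P j k F).ncard → GW A P j k m N F := by
    rintro F ⟨h1, h2, h3⟩
    exact ⟨by omega, h2.trans hKN, h3⟩
  constructor
  · have h1 := h j T hT (hKN.trans hNT)
    have hTK : 1 ≤ (#T : ℝ) / K := by
      rw [one_le_div hKpos]
      exact_mod_cast hKN.trans hNT
    calc ((#T : ℝ) / N) ^ m ≤ ((#T : ℝ) / K) ^ m := by
          apply pow_le_pow_left₀ (by positivity)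
          exact div_le_div_of_nonneg_left (by positivity) hKpos hKNr
      _ ≤ ((#T : ℝ) / K) ^ (2 * m) := pow_le_pow_right₀ hTK (by omega)
      _ ≤ _ := h1
      _ ≤ _ := by
        have hfin : {F : Finset ℕ | F ⊆ T ∧ GW A P j k m N F}.Finite :=
          (T.powerset.finite_toSet).subset (fun F hF => by
            rw [Finset.mem_coe, Finset.mem_powerset]
            exact hF.1)
        have hsub : {F : Finset ℕ | F ⊆ T ∧ 2 * m ≤ #F ∧ #F ≤ K ∧ 2 ^ k ≤ (wins A P j k F).ncard} ⊆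
            {F : Finset ℕ | F ⊆ T ∧ GW A P j k m N F} := fun F hF => ⟨hF.1, hmono F hF.2⟩
        have := Set.ncard_le_ncard hsub hfin
        exact_mod_cast this
  · obtain ⟨𝓓, h𝓓⟩ : ∃ 𝓓 : Finset (Finset ℕ), 𝓓 = T.powerset.filter (fun D => #D = m ∧
      ∀ E ⊆ D, ∃ F ⊆ T, F ∩ D = E ∧ GW A P j k m N F) := ⟨_, rfl⟩
    have hset : {D : Finset ℕ | D ⊆ T ∧ #D = m ∧ ∀ E ⊆ D, ∃ F ⊆ T, F ∩ D = E ∧ GW A P j k m N F} =
        (𝓓 : Set (Finset ℕ)) := by
      ext F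
      rw [h𝓓, Finset.coe_filter]
      simp only [Finset.mem_powerset]
    rw [hset, Set.ncard_coe_finset]
    apply avg hN1 hNT
    · intro D hD
      rw [h𝓓, Finset.mem_filter, Finset.mem_powerset] at hD
      exact ⟨hD.1, hD.2.1.ge⟩
    · intro W hW
      have hW' := Finset.mem_powersetCard.1 hW
      have h1 := h j W (hW'.1.trans hT) (by rw [hW'.2]; exact hKN)
      rw [hW'.2] at h1
      have h2 := card_shat (fun F => 2 * m ≤ #F ∧ #F ≤ K ∧ 2 ^ k ≤ (wins A P j k F).ncard) W m hm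
        (by rw [hW'.2]; exact hN1)
      rw [hW'.2] at h2
      have h3 : {F : Finset ℕ | F ⊆ W ∧ 2 * m ≤ #F ∧ #F ≤ K ∧ 2 ^ k ≤ (wins A P j k F).ncard} =
          ((W.powerset.filter (fun B => m ≤ #B ∧ (2 * m ≤ #B ∧ #B ≤ K ∧ 2 ^ k ≤ (wins A P j k B).ncard)) :
            Finset (Finset ℕ)) : Set (Finset ℕ)) := by
        ext F
        rw [Finset.coe_filter]
        simp only [Finset.mem_powerset, Set.mem_ofPred_eq]
        constructor
        · rintro ⟨a1, a2, a3⟩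
          exact ⟨a1, by omega, a2, a3⟩
        · rintro ⟨a1, -, a2, a3⟩
          exact ⟨a1, a2, a3⟩
      rw [h3, Set.ncard_coe_finset] at h1
      have h4 : (m : ℝ) * (N : ℝ) ^ (m - 1) < ((N : ℝ) / K) ^ (2 * m) := by
        rw [div_pow, lt_div_iff₀ (by positivity)]
        have e1 : (N : ℝ) ^ (2 * m) = (N : ℝ) ^ (m - 1) * ((N : ℝ) * (N : ℝ) ^ m) := by
          rw [← pow_succ', ← pow_add]
          congr 1
          omega
        have e2 : (m : ℝ) * (K : ℝ) ^ (2 * m) < (N : ℝ) * (N : ℝ) ^ m := by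
          have hNr : (N : ℝ) = m * K ^ 2 + K := by rw [hN]; push_cast; ring
          have hm1 : (1 : ℝ) ≤ m := by exact_mod_cast hm
          have hK1 : (1 : ℝ) ≤ K := by exact_mod_cast hK
          have e3 : (m : ℝ) < N := by
            rw [hNr]
            nlinarith [one_le_pow₀ hK1 (n := 2)]
          have e4 : (K : ℝ) ^ (2 * m) ≤ (N : ℝ) ^ m := by
            rw [pow_mul]
            apply pow_le_pow_left₀ (by positivity)
            rw [hNr]
            nlinarith [one_le_pow₀ hK1 (n := 2)]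
          have e5 : (0 : ℝ) < (K : ℝ) ^ (2 * m) := by positivity
          calc (m : ℝ) * (K : ℝ) ^ (2 * m) < (N : ℝ) * (K : ℝ) ^ (2 * m) :=
                mul_lt_mul_of_pos_right e3 e5
            _ ≤ _ := mul_le_mul_of_nonneg_left e4 hNpos.le
        rw [e1]
        calc (m : ℝ) * (N : ℝ) ^ (m - 1) * (K : ℝ) ^ (2 * m)
            = (N : ℝ) ^ (m - 1) * ((m : ℝ) * (K : ℝ) ^ (2 * m)) := by ring
          _ < _ := mul_lt_mul_of_pos_left e2 (by positivity)
      have h5 : 0 < #(W.powerset.filter (fun D => m ≤ #D ∧ ShatIn (fun F => 2 * m ≤ #F ∧ #F ≤ K ∧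
          2 ^ k ≤ (wins A P j k F).ncard) W D)) := by
        by_contra hcon
        have h6 : #(W.powerset.filter (fun D => m ≤ #D ∧ ShatIn (fun F => 2 * m ≤ #F ∧ #F ≤ K ∧
          2 ^ k ≤ (wins A P j k F).ncard) W D)) = 0 := by omega
        rw [h6, zero_add] at h2
        have h7 : ((#(W.powerset.filter (fun B => m ≤ #B ∧ (2 * m ≤ #B ∧ #B ≤ K ∧
          2 ^ k ≤ (wins A P j k B).ncard))) : ℕ) : ℝ) ≤ (m : ℝ) * (N : ℝ) ^ (m - 1) := by
          have h8 : #(W.powerset.filter (fun B => m ≤ #B ∧ (2 * m ≤ #B ∧ #B ≤ K ∧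
            2 ^ k ≤ (wins A P j k B).ncard))) ≤ m * N ^ (m - 1) := by
            refine le_trans (le_of_eq ?_) h2
            congr
          exact_mod_cast h8
        linarith
      obtain ⟨D, hD⟩ := Finset.card_pos.1 h5
      rw [Finset.mem_filter, Finset.mem_powerset] at hD
      obtain ⟨hDW, hmD, hsh⟩ := hD
      obtain ⟨D', hD'D, hD'c⟩ := Finset.exists_subset_card_eq hmD
      have hsh' := hsh.mono hD'D
      refine ⟨D', ?_, hD'D.trans hDW⟩
      rw [h𝓓, Finset.mem_filter, Finset.mem_powerset]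
      refine ⟨(hD'D.trans hDW).trans hW'.1, hD'c, fun E hE => ?_⟩
      obtain ⟨F, hF1, hF2, hF3⟩ := hsh'.2 E hE
      exact ⟨F, hF1.trans hW'.1, hF3, hmono F hF2⟩

end Pool.Agent.H522.LW
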