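import Mathlib
import Pool.Agent.H536.LS.Main
import Pool.Agent.H522.AvgShat

/-! H522: the Cunningham sequences of both kinds at the scale `log n`: all patterns on a positive proportion of the
sets of `m` sites. -/

set_option autoImplicit false

open Finset

namespace Pool.Agent.H522.LW

/-- the term of a site: `2 ^ j n - 1` at the site `(j, true)`, `2 ^ j n + 1` at the site `(j, false)` -/
def term (u : ℕ × Bool) (n : ℕ) : ℕ := if u.2 then 2 ^ u.1 * n - 1 else 2 ^ u.1 * n + 1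

/-- `F` is the exact set of the sites of primes for many `n` -/
def Exact (A T : ℕ) (F : Finset (ℕ × Bool)) : Prop :=
  ∃ S : Finset ℕ, 2 ^ T ≤ #S ∧ ∀ n ∈ S, Odd n ∧ 2 ^ T ≤ n ∧ n ≤ 2 ^ (A * T) ∧
    ∀ u : ℕ × Bool, u.1 ^ 20 ≤ T ^ 21 → ((term u n).Prime ↔ u ∈ F)

open Classical in
theorem sites (m : ℕ) (hm : 1 ≤ m) : ∃ N A T₀ : ℕ, 1 ≤ N ∧ ∀ T : ℕ, T₀ ≤ T → ∀ E : Finset (ℕ × Bool),
    (∀ u ∈ E, 1 ≤ u.1 ∧ u.1 ≤ T) → N ≤ #E →
      ((#E : ℝ) / N) ^ m ≤ #(E.powerset.filter (fun F => m ≤ #F ∧ #F ≤ N ∧ Exact A T F)) ∧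
      ((#E : ℝ) / N) ^ m ≤ #(E.powerset.filter (fun D => #D = m ∧ ∀ P ⊆ D, ∃ F ⊆ E,
        F ∩ D = P ∧ m ≤ #F ∧ #F ≤ N ∧ Exact A T F)) := by
  obtain ⟨K, A, T₀, hA, h⟩ := Pool.Agent.H536.LS.main (2 * m)
  obtain ⟨K', hK'⟩ : ∃ K', K' = K + 1 := ⟨_, rfl⟩
  obtain ⟨N, hN⟩ : ∃ N, N = m * K' ^ 2 + K' := ⟨_, rfl⟩
  have hK'N : K' ≤ N := by rw [hN]; exact Nat.le_add_left _ _
  refine ⟨N, A, T₀, by omega, fun T hT E hE hNE => ?_⟩
  have hloc : ∀ W ⊆ E, #W = K' → ∃ F ⊆ W, 2 * m ≤ #F ∧ Exact A T F := by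
    intro W hW hWK
    obtain ⟨F, hF, hmF, S, hS, hS'⟩ := h T hT W (fun u hu => hE u (hW hu)) (by omega)
    refine ⟨F, hF, hmF, S, hS, fun n hn => ?_⟩
    obtain ⟨a1, a2, a3, a4⟩ := hS' n hn
    exact ⟨a2, a3, a1, a4⟩
  obtain ⟨h1, h2⟩ := indep_of_local (fun F => Exact A T F) E m K' N hm (by omega) hN hloc hNE
  constructor
  · refine h1.trans ?_
    have hsub : E.powerset.filter (fun F => m ≤ #F ∧ #F ≤ K' ∧ Exact A T F) ⊆
        E.powerset.filter (fun F => m ≤ #F ∧ #F ≤ N ∧ Exact A T F) := by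
      intro F hF
      rw [Finset.mem_filter] at hF ⊢
      exact ⟨hF.1, hF.2.1, hF.2.2.1.trans hK'N, hF.2.2.2⟩
    exact_mod_cast Finset.card_le_card hsub
  · refine h2.trans ?_
    have hsub : E.powerset.filter (fun D => #D = m ∧ ∀ P ⊆ D, ∃ F ⊆ E,
          F ∩ D = P ∧ m ≤ #F ∧ #F ≤ K' ∧ Exact A T F) ⊆
        E.powerset.filter (fun D => #D = m ∧ ∀ P ⊆ D, ∃ F ⊆ E,
          F ∩ D = P ∧ m ≤ #F ∧ #F ≤ N ∧ Exact A T F) := by
      intro D hD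
      rw [Finset.mem_filter] at hD ⊢
      refine ⟨hD.1, hD.2.1, fun P hP => ?_⟩
      obtain ⟨F, b1, b2, b3, b4, b5⟩ := hD.2.2 P hP
      exact ⟨F, b1, b2, b3, b4.trans hK'N, b5⟩
    exact_mod_cast Finset.card_le_card hsub

end Pool.Agent.H522.LW
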