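import Mathlib
import Pool.Agent.H522.AvgShat

/-! H522: from one exact set of times in every set of `K` times to many exact sets and to sets of `m` times with all
patterns. -/

set_option autoImplicit false

open Finset

namespace Pool.Agent.H522.LW

open Classical in
theorem patterns_of_local (G : ℕ → ℕ → Finset ℕ → Prop)
    (h : ∀ m : ℕ, ∃ K A T₀ : ℕ, ∀ T : ℕ, T₀ ≤ T → ∀ E : Finset ℕ, E ⊆ Icc 1 T → K ≤ #E →
      ∃ F : Finset ℕ, F ⊆ E ∧ m + 1 ≤ #F ∧ G A T F) (m : ℕ) (hm : 1 ≤ m) :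
    ∃ N A T₀ : ℕ, 1 ≤ N ∧ ∀ T : ℕ, T₀ ≤ T → ∀ E : Finset ℕ, E ⊆ Icc 1 T → N ≤ #E →
      ((#E : ℝ) / N) ^ m ≤ #(E.powerset.filter (fun F => m ≤ #F ∧ #F ≤ N ∧ G A T F)) ∧
      ((#E : ℝ) / N) ^ m ≤ #(E.powerset.filter (fun D => #D = m ∧ ∀ P ⊆ D, ∃ F ⊆ E,
        F ∩ D = P ∧ m ≤ #F ∧ #F ≤ N ∧ G A T F)) := by
  obtain ⟨K, A, T₀, h⟩ := h (2 * m)
  obtain ⟨K', hK'⟩ : ∃ K', K' = K + 1 := ⟨_, rfl⟩
  obtain ⟨N, hN⟩ : ∃ N, N = m * K' ^ 2 + K' := ⟨_, rfl⟩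
  have hK'N : K' ≤ N := by rw [hN]; exact Nat.le_add_left _ _
  refine ⟨N, A, T₀, by omega, fun T hT E hE hNE => ?_⟩
  have hloc : ∀ W ⊆ E, #W = K' → ∃ F ⊆ W, 2 * m ≤ #F ∧ G A T F := by
    intro W hW hWK
    obtain ⟨F, hF, hmF, hG⟩ := h T hT W (hW.trans hE) (by omega)
    exact ⟨F, hF, by omega, hG⟩
  obtain ⟨h1, h2⟩ := indep_of_local (fun F => G A T F) E m K' N hm (by omega) hN hloc hNE
  constructor
  · refine h1.trans ?_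
    have hsub : E.powerset.filter (fun F => m ≤ #F ∧ #F ≤ K' ∧ G A T F) ⊆
        E.powerset.filter (fun F => m ≤ #F ∧ #F ≤ N ∧ G A T F) := by
      intro F hF
      rw [Finset.mem_filter] at hF ⊢
      exact ⟨hF.1, hF.2.1, hF.2.2.1.trans hK'N, hF.2.2.2⟩
    exact_mod_cast Finset.card_le_card hsub
  · refine h2.trans ?_
    have hsub : E.powerset.filter (fun D => #D = m ∧ ∀ P ⊆ D, ∃ F ⊆ E,
          F ∩ D = P ∧ m ≤ #F ∧ #F ≤ K' ∧ G A T F) ⊆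
        E.powerset.filter (fun D => #D = m ∧ ∀ P ⊆ D, ∃ F ⊆ E,
          F ∩ D = P ∧ m ≤ #F ∧ #F ≤ N ∧ G A T F) := by
      intro D hD
      rw [Finset.mem_filter] at hD ⊢
      refine ⟨hD.1, hD.2.1, fun P hP => ?_⟩
      obtain ⟨F, b1, b2, b3, b4, b5⟩ := hD.2.2 P hP
      exact ⟨F, b1, b2, b3, b4.trans hK'N, b5⟩
    exact_mod_cast Finset.card_le_card hsub

end Pool.Agent.H522.LW
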