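import Mathlib
import Pool.Agent.H522.Shatter

/-! H522: random sets of polynomial size contain shattered sets. -/

set_option autoImplicit false

open Finset Filter

namespace Pool.Agent.H522

variable {α : Type} [DecidableEq α]

/-- few sets contain many bad subsets of given size -/
theorem few_W (bad : Finset α → Prop) [DecidablePred bad] (V : Finset α) (t s : ℕ) (hst : s ≤ t)
    (_ht : t ≤ V.card) (β : ℝ)
    (hβ : (((V.powersetCard s).filter bad).card : ℝ) ≤ β * (V.card.choose s : ℝ)) :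
    (((V.powersetCard t).filter (fun W => t.choose s < 2 * ((W.powersetCard s).filter bad).card)).card : ℝ) ≤
      2 * β * (V.card.choose t : ℝ) := by
  classical
  obtain ⟨𝓦, h𝓦⟩ : ∃ 𝓦, 𝓦 = (V.powersetCard t).filter
    (fun W => t.choose s < 2 * ((W.powersetCard s).filter bad).card) := ⟨_, rfl⟩
  rw [← h𝓦]
  have h1 : ∀ W ∈ V.powersetCard t, (((W.powersetCard s).filter bad).card : ℝ) =
      ∑ S ∈ (V.powersetCard s).filter bad, (if S ⊆ W then (1 : ℝ) else 0) := by
    intro W hW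
    rw [Finset.mem_powersetCard] at hW
    rw [← Finset.sum_filter, Finset.sum_const, nsmul_eq_mul, mul_one]
    congr 2
    ext S
    simp only [Finset.mem_filter, Finset.mem_powersetCard]
    constructor
    · rintro ⟨⟨a, b⟩, c⟩; exact ⟨⟨⟨a.trans hW.1, b⟩, c⟩, a⟩
    · rintro ⟨⟨⟨_, b⟩, c⟩, d⟩; exact ⟨⟨d, b⟩, c⟩
  have h2 : ∑ W ∈ V.powersetCard t, (((W.powersetCard s).filter bad).card : ℝ) =
      (((V.powersetCard s).filter bad).card : ℝ) * ((V.card - s).choose (t - s) : ℝ) := by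
    rw [Finset.sum_congr rfl h1, Finset.sum_comm]
    have h3 : ∀ S ∈ (V.powersetCard s).filter bad,
        ∑ W ∈ V.powersetCard t, (if S ⊆ W then (1 : ℝ) else 0) = ((V.card - s).choose (t - s) : ℝ) := by
      intro S hS
      rw [Finset.mem_filter, Finset.mem_powersetCard] at hS
      rw [← Finset.sum_filter, Finset.sum_const, nsmul_eq_mul, mul_one,
        card_sup V S hS.1.1 t (by omega), hS.1.2]
    rw [Finset.sum_congr rfl h3, Finset.sum_const, nsmul_eq_mul]
  have h4 : (𝓦.card : ℝ) * (t.choose s : ℝ) ≤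
      2 * ∑ W ∈ V.powersetCard t, (((W.powersetCard s).filter bad).card : ℝ) := by
    calc (𝓦.card : ℝ) * (t.choose s : ℝ) = ∑ W ∈ 𝓦, (t.choose s : ℝ) := by
          rw [Finset.sum_const, nsmul_eq_mul]
      _ ≤ ∑ W ∈ 𝓦, 2 * (((W.powersetCard s).filter bad).card : ℝ) := by
          apply Finset.sum_le_sum
          intro W hW
          rw [h𝓦, Finset.mem_filter] at hW
          exact_mod_cast hW.2.le
      _ ≤ ∑ W ∈ V.powersetCard t, 2 * (((W.powersetCard s).filter bad).card : ℝ) := by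
          apply Finset.sum_le_sum_of_subset_of_nonneg
          · rw [h𝓦]; exact Finset.filter_subset _ _
          · intro W _ _; positivity
      _ = _ := by rw [Finset.mul_sum]
  rw [h2] at h4
  have h5 : (V.card.choose t : ℝ) * (t.choose s : ℝ) =
      (V.card.choose s : ℝ) * ((V.card - s).choose (t - s) : ℝ) := by
    exact_mod_cast Nat.choose_mul (n := V.card) hst
  have hpos : (0 : ℝ) < (t.choose s : ℝ) := by exact_mod_cast Nat.choose_pos hst
  refine le_of_mul_le_mul_right ?_ hpos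
  calc (𝓦.card : ℝ) * (t.choose s : ℝ) ≤
        2 * ((((V.powersetCard s).filter bad).card : ℝ) * ((V.card - s).choose (t - s) : ℝ)) := h4
    _ ≤ 2 * (β * (V.card.choose s : ℝ) * ((V.card - s).choose (t - s) : ℝ)) := by
        apply mul_le_mul_of_nonneg_left _ (by norm_num)
        exact mul_le_mul_of_nonneg_right hβ (Nat.cast_nonneg _)
    _ = 2 * β * ((V.card.choose s : ℝ) * ((V.card - s).choose (t - s) : ℝ)) := by ring
    _ = _ := by rw [← h5]; ring

open Classical in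
/-- if half of the subsets of size `s` contain a good set with `k` elements, there are many good sets -/
theorem many_good (G : Finset α → Prop) (W : Finset α) (k s : ℕ) (hs : 1 ≤ s) (hsW : s ≤ W.card)
    (h : 2 * ((W.powersetCard s).filter (BadG G k)).card ≤ W.card.choose s) :
    ((W.card : ℝ) / s) ^ k ≤ 2 * ((W.powerset.filter (fun B => k ≤ B.card ∧ G B)).card : ℝ) := by
  obtain ⟨𝓕, h𝓕⟩ : ∃ 𝓕, 𝓕 = W.powerset.filter (fun B => k ≤ B.card ∧ G B) := ⟨_, rfl⟩
  rw [← h𝓕]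
  have hsr : (0 : ℝ) < s := by exact_mod_cast hs
  have hWr : (0 : ℝ) < W.card := by exact_mod_cast (by omega : 0 < W.card)
  have h1 : W.card.choose s ≤ 2 * ((W.powersetCard s).filter (fun S => ¬ BadG G k S)).card := by
    have h2 := Finset.card_filter_add_card_filter_not (s := W.powersetCard s) (BadG G k)
    rw [Finset.card_powersetCard] at h2
    omega
  have h2 : (W.powersetCard s).filter (fun S => ¬ BadG G k S) ⊆
      𝓕.biUnion (fun B => (W.powersetCard s).filter (fun S => B ⊆ S)) := by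
    intro S hS
    rw [Finset.mem_filter] at hS
    obtain ⟨hS1, hS2⟩ := hS
    unfold BadG at hS2
    rw [not_not] at hS2
    obtain ⟨B, hB1, hB2, hB3⟩ := hS2
    rw [Finset.mem_biUnion]
    refine ⟨B, ?_, ?_⟩
    · rw [h𝓕, Finset.mem_filter, Finset.mem_powerset]
      rw [Finset.mem_powersetCard] at hS1
      exact ⟨hB1.trans hS1.1, hB2, hB3⟩
    · rw [Finset.mem_filter]; exact ⟨hS1, hB1⟩
  have h3 : (((W.powersetCard s).filter (fun S => ¬ BadG G k S)).card : ℝ) ≤
      (𝓕.card : ℝ) * (((s : ℝ) / W.card) ^ k * (W.card.choose s : ℝ)) := by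
    have h4 : (((W.powersetCard s).filter (fun S => ¬ BadG G k S)).card : ℝ) ≤
        ∑ B ∈ 𝓕, (((W.powersetCard s).filter (fun S => B ⊆ S)).card : ℝ) := by
      exact_mod_cast (Finset.card_le_card h2).trans Finset.card_biUnion_le
    refine h4.trans ?_
    rw [← nsmul_eq_mul]
    apply Finset.sum_le_card_nsmul
    intro B hB
    rw [h𝓕, Finset.mem_filter, Finset.mem_powerset] at hB
    obtain ⟨U, hU1, hU2⟩ := Finset.exists_subset_card_eq hB.2.1
    have h5 := card_sup_le W U (hU1.trans hB.1) s hsW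
    rw [hU2] at h5
    refine le_trans ?_ h5
    have h6 : (W.powersetCard s).filter (fun S => B ⊆ S) ⊆ (W.powersetCard s).filter (fun S => U ⊆ S) := by
      intro S hS
      rw [Finset.mem_filter] at hS ⊢
      exact ⟨hS.1, hU1.trans hS.2⟩
    exact_mod_cast Finset.card_le_card h6
  have hch : (0 : ℝ) < (W.card.choose s : ℝ) := by exact_mod_cast Nat.choose_pos hsW
  have h4 : (W.card.choose s : ℝ) ≤ 2 * ((𝓕.card : ℝ) * (((s : ℝ) / W.card) ^ k * (W.card.choose s : ℝ))) := by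
    have h5 : (W.card.choose s : ℝ) ≤ 2 * (((W.powersetCard s).filter (fun S => ¬ BadG G k S)).card : ℝ) := by
      exact_mod_cast h1
    linarith
  have h5 : 1 ≤ 2 * ((𝓕.card : ℝ) * ((s : ℝ) / W.card) ^ k) := by
    refine le_of_mul_le_mul_right ?_ hch
    calc 1 * (W.card.choose s : ℝ) = (W.card.choose s : ℝ) := one_mul _
      _ ≤ _ := h4
      _ = _ := by ring
  have h6 : ((W.card : ℝ) / s) ^ k * ((s : ℝ) / W.card) ^ k = 1 := by
    rw [← mul_pow]
    have : (W.card : ℝ) / s * ((s : ℝ) / W.card) = 1 := by field_simp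
    rw [this, one_pow]
  have h7 : 0 ≤ ((W.card : ℝ) / s) ^ k := by positivity
  calc ((W.card : ℝ) / s) ^ k = ((W.card : ℝ) / s) ^ k * 1 := (mul_one _).symm
    _ ≤ ((W.card : ℝ) / s) ^ k * (2 * ((𝓕.card : ℝ) * ((s : ℝ) / W.card) ^ k)) :=
        mul_le_mul_of_nonneg_left h5 h7
    _ = 2 * (𝓕.card : ℝ) * (((W.card : ℝ) / s) ^ k * ((s : ℝ) / W.card) ^ k) := by ring
    _ = _ := by rw [h6, mul_one]

open Classical in
/-- a set with many good subsets contains a shattered set with `k` elements -/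
theorem exists_shat (G : Finset α → Prop) (W : Finset α) (k N r s : ℕ) (hk : 1 ≤ k) (hs : 1 ≤ s)
    (hsW : s ^ N ≤ W.card) (hN : k + r ≤ N * r) (hr : 1 ≤ r) (hN1 : 1 ≤ N) (hkW : 4 * k < W.card)
    (h : 2 * ((W.powersetCard s).filter (BadG G (k + r))).card ≤ W.card.choose s) :
    ∃ D, D.card = k ∧ ShatIn G W D := by
  have hs2 : s ≤ W.card := (Nat.le_self_pow (by omega) s).trans hsW
  have hsr : (0 : ℝ) < s := by exact_mod_cast hs
  have h1 := many_good G W (k + r) s hs hs2 h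
  have h2 : ((W.powerset.filter (fun B => k + r ≤ B.card ∧ G B)).card : ℝ) ≤
      ((W.powerset.filter (fun B => k ≤ B.card ∧ G B)).card : ℝ) := by
    have : (W.powerset.filter (fun B => k + r ≤ B.card ∧ G B)) ⊆
        (W.powerset.filter (fun B => k ≤ B.card ∧ G B)) := by
      intro B hB
      rw [Finset.mem_filter] at hB ⊢
      exact ⟨hB.1, by omega, hB.2.2⟩
    exact_mod_cast Finset.card_le_card this
  have h3 : ((W.powerset.filter (fun B => k ≤ B.card ∧ G B)).card : ℝ) ≤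
      ((W.powerset.filter (fun D => k ≤ D.card ∧ ShatIn G W D)).card : ℝ) + k * (W.card : ℝ) ^ (k - 1) := by
    exact_mod_cast card_shat G W k hk (by omega)
  have hWr : (0 : ℝ) < W.card := by exact_mod_cast (by omega : 0 < W.card)
  -- `s ^ (k + r) ≤ t ^ r`
  have h4 : (s : ℝ) ^ (k + r) ≤ (W.card : ℝ) ^ r := by
    calc (s : ℝ) ^ (k + r) ≤ (s : ℝ) ^ (N * r) := pow_le_pow_right₀ (by exact_mod_cast hs) hN
      _ = ((s : ℝ) ^ N) ^ r := by rw [pow_mul]
      _ ≤ _ := by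
        apply pow_le_pow_left₀ (by positivity)
        exact_mod_cast hsW
  have h5 : 2 * (k * (W.card : ℝ) ^ (k - 1)) < ((W.card : ℝ) / s) ^ (k + r) := by
    rw [div_pow, lt_div_iff₀ (by positivity)]
    have e1 : k + r = (k - 1) + 1 + r := by omega
    calc 2 * ((k : ℝ) * (W.card : ℝ) ^ (k - 1)) * (s : ℝ) ^ (k + r)
        ≤ 2 * ((k : ℝ) * (W.card : ℝ) ^ (k - 1)) * (W.card : ℝ) ^ r :=
          mul_le_mul_of_nonneg_left h4 (by positivity)
      _ = (2 * k) * ((W.card : ℝ) ^ (k - 1) * (W.card : ℝ) ^ r) := by ring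
      _ < (W.card : ℝ) * ((W.card : ℝ) ^ (k - 1) * (W.card : ℝ) ^ r) := by
          apply mul_lt_mul_of_pos_right _ (by positivity)
          have : 2 * k < W.card := by omega
          exact_mod_cast this
      _ = (W.card : ℝ) ^ (k + r) := by rw [e1, pow_add, pow_add]; ring_nf
  have h6 : 0 < ((W.powerset.filter (fun D => k ≤ D.card ∧ ShatIn G W D)).card : ℝ) := by linarith
  have h7 : 0 < (W.powerset.filter (fun D => k ≤ D.card ∧ ShatIn G W D)).card := by exact_mod_cast h6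
  obtain ⟨D, hD⟩ := Finset.card_pos.1 h7
  rw [Finset.mem_filter] at hD
  obtain ⟨D', hD', hD2⟩ := Finset.exists_subset_card_eq hD.2.1
  exact ⟨D', hD2, hD.2.2.mono hD'⟩

open Classical in
/-- shattered sets: their number, and random sets of polynomial size -/
theorem shat_main (δ : ℝ) (hδ : 0 < δ) : ∃ C : ℕ, 1 ≤ C ∧ ∀ (α : Type) [DecidableEq α]
    (Ok G : Finset α → Prop), HasSM Ok G → ∀ (k : ℕ) (V : Finset α), 1 ≤ k →
    Ok V → (4 + δ) * k + C ≤ Real.log V.card →
    ((V.card : ℝ) / (C * (k : ℝ) ^ 2)) ^ k ≤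
      ((V.powerset.filter (fun D => k ≤ D.card ∧ ShatIn G V D)).card : ℝ) ∧
    ∀ t : ℕ, t ≤ V.card → C * k ^ C ≤ t →
      (((V.powersetCard t).filter (fun W => ¬ ∃ D, D.card = k ∧ ShatIn G W D)).card : ℝ) ≤
        Real.exp (-(t : ℝ) ^ (1 / (C : ℝ))) * (V.card.choose t : ℝ) := by
  obtain ⟨d, hd0, hd1, hdδ⟩ : ∃ d : ℝ, 0 < d ∧ d ≤ 1 ∧ d ≤ δ :=
    ⟨min 1 δ, lt_min one_pos hδ, min_le_left _ _, min_le_right _ _⟩
  obtain ⟨C1, hC1, hcount⟩ := shat_count δ hδ
  obtain ⟨C0', hC0', hall⟩ := almost_all_deltaG (d / 2) (by positivity)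
  obtain ⟨C0, hC0⟩ : ∃ C0 : ℝ, C0 = max C0' 1 := ⟨_, rfl⟩
  have hC0a : C0' ≤ C0 := by rw [hC0]; exact le_max_left _ _
  have hC0b : 1 ≤ C0 := by rw [hC0]; exact le_max_right _ _
  obtain ⟨q, hq⟩ : ∃ q : ℕ, q = ⌈16 / d⌉₊ := ⟨_, rfl⟩
  have hqr : 16 / d ≤ q := by rw [hq]; exact Nat.le_ceil _
  have hq16 : (16 : ℝ) ≤ q := by
    refine le_trans ?_ hqr
    rw [le_div_iff₀ hd0]; linarith
  have hq16' : 16 ≤ q := by exact_mod_cast hq16
  obtain ⟨N, hN⟩ : ∃ N : ℕ, N = 4 * q := ⟨_, rfl⟩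
  obtain ⟨M, hM⟩ : ∃ M : ℕ, M = 3 + ⌈(60 * C0) ^ (2 * N)⌉₊ + ⌈C0⌉₊ + 5 + ⌈C1⌉₊ := ⟨_, rfl⟩
  have hM3 : 3 ≤ M := by omega
  have hMa : (60 * C0) ^ (2 * N) ≤ M := by
    rw [hM]; push_cast
    have h1 := Nat.le_ceil ((60 * C0) ^ (2 * N))
    have h2 : (0 : ℝ) ≤ (⌈C0⌉₊ : ℝ) := Nat.cast_nonneg _
    have h3 : (0 : ℝ) ≤ (⌈C1⌉₊ : ℝ) := Nat.cast_nonneg _
    linarith
  have hMb : C0 + 5 ≤ M := by
    rw [hM]; push_cast
    have h1 := Nat.le_ceil C0
    have h2 : (0 : ℝ) ≤ (⌈(60 * C0) ^ (2 * N)⌉₊ : ℝ) := Nat.cast_nonneg _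
    have h3 : (0 : ℝ) ≤ (⌈C1⌉₊ : ℝ) := Nat.cast_nonneg _
    linarith
  have hMc : C1 ≤ M := by
    rw [hM]; push_cast
    have h1 := Nat.le_ceil C1
    have h2 : (0 : ℝ) ≤ (⌈(60 * C0) ^ (2 * N)⌉₊ : ℝ) := Nat.cast_nonneg _
    have h3 : (0 : ℝ) ≤ (⌈C0⌉₊ : ℝ) := Nat.cast_nonneg _
    linarith
  obtain ⟨C, hC⟩ : ∃ C : ℕ, C = N * (2 * M) := ⟨_, rfl⟩
  have hN1 : 1 ≤ N := by omega
  have hMC : M ≤ C := by rw [hC]; nlinarith
  have hMCr : (M : ℝ) ≤ C := by exact_mod_cast hMC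
  have hCpos : (0 : ℝ) < C := by linarith
  have hC8 : 8 ≤ C := le_trans (by omega) hMC
  refine ⟨C, by omega, ?_⟩
  intro α _ Ok G hsp k V hk hok hV
  have hk' : (1 : ℝ) ≤ k := by exact_mod_cast hk
  constructor
  · refine le_trans ?_ (hcount α Ok G hsp k V hk hok (by linarith))
    apply pow_le_pow_left₀ (by positivity)
    apply div_le_div_of_nonneg_left (Nat.cast_nonneg _) (by positivity)
    apply mul_le_mul_of_nonneg_right (by linarith) (by positivity)
  intro t ht hkt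
  -- the number of extra elements
  obtain ⟨r, hr⟩ : ∃ r : ℕ, r = k / q + 1 := ⟨_, rfl⟩
  have hr1 : 1 ≤ r := by rw [hr]; exact Nat.le_add_left 1 _
  have hkr : k < q * r := by
    rw [hr]
    have h1 := Nat.div_add_mod k q
    have h2 := Nat.mod_lt k (show q > 0 by omega)
    rw [mul_add, mul_one]
    omega
  have hkr2 : k + r ≤ N * r := by
    rw [hN]
    have h1 : r ≤ q * r := Nat.le_mul_of_pos_left _ (by omega)
    have h2 : 4 * q * r = 4 * (q * r) := by ring
    omega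
  have hrr : (r : ℝ) ≤ k / q + 1 := by
    rw [hr]; push_cast
    have := @Nat.cast_div_le ℝ _ _ _ k q
    linarith
  have hq0 : (0 : ℝ) < q := by linarith
  have hkq : (k : ℝ) / q ≤ d / 16 * k := by
    rw [div_le_iff₀ hq0]
    have h1 : 16 ≤ q * d := by rwa [div_le_iff₀ hd0] at hqr
    nlinarith
  have hrk : ((k + r : ℕ) : ℝ) ≤ k + d / 16 * k + 1 := by push_cast; linarith
  have hlog : (4 + d / 2) * ((k + r : ℕ) : ℝ) + C0' ≤ Real.log V.card := by
    refine le_trans ?_ hV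
    have h1 : (4 + d / 2) * ((k + r : ℕ) : ℝ) ≤ (4 + d / 2) * (k + d / 16 * k + 1) :=
      mul_le_mul_of_nonneg_left hrk (by positivity)
    have h2 : (4 + d / 2) * ((k : ℝ) + d / 16 * k + 1) ≤ (4 + d) * k + 5 := by
      have e1 : 0 ≤ d * k := by positivity
      have e2 : 0 ≤ d * k * (1 - d) := mul_nonneg e1 (by linarith)
      have e3 : (4 + d / 2) * ((k : ℝ) + d / 16 * k + 1) = 4 * k + 3 / 4 * (d * k) + 4 + d / 2 +
        (d * k - d * k * (1 - d)) / 32 := by ring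
      rw [e3]
      linarith
    have h3 : (4 + d) * (k : ℝ) ≤ (4 + δ) * k := mul_le_mul_of_nonneg_right (by linarith) (by linarith)
    linarith
  -- the scale
  have hCk : 0 < C * k ^ C := Nat.mul_pos (lt_of_lt_of_le (by norm_num) hC8) (pow_pos (by omega) _)
  have htpos : 0 < t := lt_of_lt_of_le hCk hkt
  have ht0 : (0 : ℝ) ≤ t := Nat.cast_nonneg _
  obtain ⟨x, hx⟩ : ∃ x : ℝ, x = (t : ℝ) ^ ((C : ℝ)⁻¹) := ⟨_, rfl⟩
  have hx0 : 0 ≤ x := by rw [hx]; positivity
  have hC0n : C ≠ 0 := by omega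
  have hxC : x ^ C = t := by rw [hx]; exact Real.rpow_inv_natCast_pow ht0 hC0n
  have hkx : (k : ℝ) ≤ x := by
    have h1 : (k : ℝ) ^ C ≤ x ^ C := by
      rw [hxC]
      have h2 : k ^ C ≤ t := le_trans (Nat.le_mul_of_pos_left _ (by omega)) hkt
      exact_mod_cast h2
    exact le_of_pow_le_pow_left₀ hC0n hx0 h1
  have hx1 : 1 ≤ x := by linarith
  have hCt : (C : ℝ) ≤ t := by
    have h2 : C ≤ t := le_trans (Nat.le_mul_of_pos_right _ (pow_pos (by omega) _)) hkt
    exact_mod_cast h2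
  have hxM : 60 * C0 ≤ x ^ M := by
    have h1 : (60 * C0) ^ (2 * N) ≤ (x ^ M) ^ (2 * N) := by
      rw [← pow_mul, show M * (2 * N) = C by rw [hC]; ring, hxC]
      linarith
    exact le_of_pow_le_pow_left₀ (by omega) (by positivity) h1
  obtain ⟨s, hs⟩ : ∃ s : ℕ, s = ⌊x ^ (2 * M)⌋₊ := ⟨_, rfl⟩
  have hs1 : (s : ℝ) ≤ x ^ (2 * M) := by rw [hs]; exact Nat.floor_le (by positivity)
  have hs2 : x ^ (2 * M) < s + 1 := by rw [hs]; exact Nat.lt_floor_add_one _
  have hxM2 : 3600 ≤ x ^ (2 * M) := by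
    have h1 : x ^ (2 * M) = x ^ M * x ^ M := by rw [← pow_add]; congr 1; ring
    rw [h1]
    nlinarith
  have hs0 : 1 ≤ s := by
    rw [hs]; apply Nat.le_floor; push_cast; linarith
  have hsN : s ^ N ≤ t := by
    have h1 : (s : ℝ) ^ N ≤ t := by
      rw [← hxC, hC]
      calc (s : ℝ) ^ N ≤ (x ^ (2 * M)) ^ N := pow_le_pow_left₀ (Nat.cast_nonneg _) hs1 N
        _ = x ^ (N * (2 * M)) := by rw [← pow_mul]; congr 1; ring
    exact_mod_cast h1
  have hst : s ≤ t := (Nat.le_self_pow (by omega) s).trans hsN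
  have h4kt : 4 * k < t := by
    have h1 : C * k ≤ C * k ^ C := Nat.mul_le_mul_left _ (Nat.le_self_pow hC0n k)
    have h2 : 5 * k ≤ C * k := Nat.mul_le_mul_right _ (by omega)
    omega
  have hbad := hall α Ok G hsp (k + r) V (by omega) hok hlog s (hst.trans ht)
  have hfew := few_W (BadG G (k + r)) V t s hst ht _ hbad
  have hsub : (V.powersetCard t).filter (fun W => ¬ ∃ D, D.card = k ∧ ShatIn G W D) ⊆
      (V.powersetCard t).filter (fun W => t.choose s < 2 * ((W.powersetCard s).filter (BadG G (k + r))).card) := by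
    intro W hW
    rw [Finset.mem_filter] at hW ⊢
    refine ⟨hW.1, ?_⟩
    by_contra hcon
    apply hW.2
    have hWt : W.card = t := (Finset.mem_powersetCard.1 hW.1).2
    exact exists_shat G W k N r s hk hs0 (by rw [hWt]; exact hsN) hkr2 hr1 hN1 (by rw [hWt]; exact h4kt)
      (by rw [hWt]; exact not_lt.1 hcon)
  have h1 : (((V.powersetCard t).filter (fun W => ¬ ∃ D, D.card = k ∧ ShatIn G W D)).card : ℝ) ≤
      2 * (2 * Real.exp (-((s : ℝ) / (C0' * ((k + r : ℕ) : ℝ) ^ 2)))) * (V.card.choose t : ℝ) :=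
    le_trans (by exact_mod_cast Finset.card_le_card hsub) hfew
  refine h1.trans ?_
  apply mul_le_mul_of_nonneg_right _ (Nat.cast_nonneg _)
  rw [one_div, ← hx]
  -- the exponent
  have hk3 : ((k + r : ℕ) : ℝ) ≤ 3 * x := by
    refine hrk.trans ?_
    have h3 : d / 16 * k ≤ 1 * k := mul_le_mul_of_nonneg_right (by linarith) (by linarith)
    linarith
  have hkr0 : (0 : ℝ) < ((k + r : ℕ) : ℝ) := by exact_mod_cast (by omega : 0 < k + r)
  have h2 : 3 * x ≤ (s : ℝ) / (C0' * ((k + r : ℕ) : ℝ) ^ 2) := by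
    rw [le_div_iff₀ (by positivity)]
    have h3 : C0' * ((k + r : ℕ) : ℝ) ^ 2 ≤ C0 * (9 * x ^ 2) := by
      have h4 := pow_le_pow_left₀ hkr0.le hk3 2
      have h5 : (3 * x) ^ 2 = 9 * x ^ 2 := by ring
      rw [h5] at h4
      exact mul_le_mul hC0a h4 (by positivity) (by linarith)
    have h6 : 54 * C0 * x ^ 3 ≤ x ^ (2 * M) := by
      have e1 : x ^ (2 * M) = x ^ 3 * x ^ (M - 3) * x ^ M := by
        rw [← pow_add, ← pow_add]; congr 1; omega
      rw [e1]
      have e2 : 1 ≤ x ^ (M - 3) := one_le_pow₀ hx1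
      calc 54 * C0 * x ^ 3 ≤ 60 * C0 * x ^ 3 := by
            apply mul_le_mul_of_nonneg_right _ (by positivity); linarith
        _ ≤ x ^ M * x ^ 3 := mul_le_mul_of_nonneg_right hxM (by positivity)
        _ = x ^ 3 * 1 * x ^ M := by ring
        _ ≤ x ^ 3 * x ^ (M - 3) * x ^ M := by
            apply mul_le_mul_of_nonneg_right _ (by positivity)
            exact mul_le_mul_of_nonneg_left e2 (by positivity)
    calc 3 * x * (C0' * ((k + r : ℕ) : ℝ) ^ 2) ≤ 3 * x * (C0 * (9 * x ^ 2)) :=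
          mul_le_mul_of_nonneg_left h3 (by linarith)
      _ = (54 * C0 * x ^ 3) / 2 := by ring
      _ ≤ x ^ (2 * M) / 2 := by linarith
      _ ≤ s := by linarith
  calc 2 * (2 * Real.exp (-((s : ℝ) / (C0' * ((k + r : ℕ) : ℝ) ^ 2))))
      ≤ 2 * (2 * Real.exp (-(3 * x))) := by
        apply mul_le_mul_of_nonneg_left _ (by norm_num)
        apply mul_le_mul_of_nonneg_left _ (by norm_num)
        exact Real.exp_le_exp.2 (by linarith)
    _ = 4 * Real.exp (-(2 * x)) * Real.exp (-x) := by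
        rw [mul_assoc 4, ← Real.exp_add]
        have : -(2 * x) + -x = -(3 * x) := by ring
        rw [this]; ring
    _ ≤ 1 * Real.exp (-x) := by
        apply mul_le_mul_of_nonneg_right _ (Real.exp_pos _).le
        have h3 : Real.exp (-(2 * x)) ≤ Real.exp (-2) := Real.exp_le_exp.2 (by linarith)
        have h4 : Real.exp (-2) * Real.exp 2 = 1 := by rw [← Real.exp_add]; simp
        have h5 : (4 : ℝ) ≤ Real.exp 2 := by
          have h6 : Real.exp 1 ^ 2 = Real.exp 2 := by rw [← Real.exp_nat_mul]; norm_num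
          have h7 := Real.exp_one_gt_d9
          nlinarith
        nlinarith [Real.exp_pos (-2 : ℝ)]
    _ = Real.exp (-x) := one_mul _

end Pool.Agent.H522
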