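import Mathlib
import Pool.Agent.H522.ShatterRandom
import Pool.Agent.H522.Window

/-! H522: shattered sets of shifts and windows. -/

set_option autoImplicit false

open Finset Filter

namespace Pool.Agent.H522

theorem hasSM_Iso : HasSM Adm Isolated :=
  ⟨fun _ _ h hW => h.mono hW, fun m V hm hok hV => spread_SM m hm V hV (fun p hp _ => hok p hp)⟩

theorem shat_window (ε : ℝ) (hε : 0 < ε) : ∃ M₀ : ℕ, ∀ M : ℕ, M₀ ≤ M → ∃ D : Finset ℤ,
    (∀ d ∈ D, 1 ≤ d ∧ d ≤ (M : ℤ)) ∧ (1 / 4 - ε) * Real.log M ≤ D.card ∧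
    ∀ E, E ⊆ D → ∃ B : Finset ℤ, (∀ b ∈ B, 1 ≤ b ∧ b ≤ (M : ℤ)) ∧ Isolated B ∧ B ∩ D = E := by
  obtain ⟨C, hC, hcount⟩ := shat_count (8 * ε) (by positivity)
  obtain ⟨c, hc, hprod⟩ := mertens_prod
  -- the analytic inequality
  have hlim : ∀ᶠ y : ℝ in atTop, 2 ≤ y ∧ (4 + 8 * ε) + C ≤ y - Real.log y + Real.log c ∧
      (1 / 4 - ε) * y ≤ (y - Real.log y + Real.log c - C) / (4 + 8 * ε) - 1 := by
    have h1 : Tendsto (fun y : ℝ => Real.log y / y) atTop (nhds 0) :=
      Real.isLittleO_log_id_atTop.tendsto_div_nhds_zero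
    have e1 : ∀ a : ℝ, Tendsto (fun y : ℝ => a / y) atTop (nhds 0) :=
      fun a => tendsto_const_nhds.div_atTop tendsto_id
    have h2 : Tendsto (fun y : ℝ => 1 - Real.log y / y + (Real.log c - C - (4 + 8 * ε)) / y) atTop
        (nhds (1 - 0 + 0)) := (tendsto_const_nhds.sub h1).add (e1 _)
    have h3 : (1 / 4 - ε) * (4 + 8 * ε) < 1 - 0 + 0 := by nlinarith
    have h4 : (0 : ℝ) < 1 - 0 + 0 := by norm_num
    filter_upwards [h2.eventually (lt_mem_nhds h3), h2.eventually (lt_mem_nhds h4), eventually_ge_atTop (2 : ℝ)]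
      with y hy1 hy2 hy3
    have hy0 : 0 < y := by linarith
    have e2 : y - Real.log y + Real.log c - C - (4 + 8 * ε) =
        (1 - Real.log y / y + (Real.log c - C - (4 + 8 * ε)) / y) * y := by
      field_simp
      ring
    refine ⟨hy3, ?_, ?_⟩
    · have : 0 < y - Real.log y + Real.log c - C - (4 + 8 * ε) := by
        rw [e2]; exact mul_pos hy2 hy0
      linarith
    · have h5 : (0 : ℝ) < 4 + 8 * ε := by positivity
      have e3 : (y - Real.log y + Real.log c - C) / (4 + 8 * ε) - 1 =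
          (y - Real.log y + Real.log c - C - (4 + 8 * ε)) / (4 + 8 * ε) := by
        field_simp
      rw [e3, le_div_iff₀ h5, e2]
      have := mul_le_mul_of_nonneg_right hy1.le hy0.le
      linarith
  have hM : ∀ᶠ M : ℕ in atTop, 2 ≤ Real.log M ∧
      (4 + 8 * ε) + C ≤ Real.log M - Real.log (Real.log M) + Real.log c ∧
      (1 / 4 - ε) * Real.log M ≤ (Real.log M - Real.log (Real.log M) + Real.log c - C) / (4 + 8 * ε) - 1 :=
    (Real.tendsto_log_atTop.comp tendsto_natCast_atTop_atTop).eventually hlim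
  obtain ⟨M₀, hM₀⟩ := Filter.eventually_atTop.1 hM
  refine ⟨M₀ + 2, fun M hMM => ?_⟩
  obtain ⟨h1, h2, h3⟩ := hM₀ M (by omega)
  have hM2 : 2 ≤ M := by omega
  have hMr : (0 : ℝ) < M := by exact_mod_cast (by omega : 0 < M)
  have hlog0 : 0 < Real.log M := by linarith
  obtain ⟨V, hVS, hV1, hV2⟩ := greedy (Icc (1 : ℤ) M) ((Icc 1 M).filter Nat.Prime)
    (fun p hp => (Finset.mem_filter.1 hp).2)
  have hcardS : ((Icc (1 : ℤ) M).card : ℝ) = M := by simp
  rw [hcardS] at hV2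
  have hadm : Adm V := by
    intro p hp
    by_cases hpM : p ≤ M
    · exact hV1 p (by rw [Finset.mem_filter, Finset.mem_Icc]; exact ⟨⟨hp.one_le, hpM⟩, hp⟩)
    · apply adm_of_card V p hp
      have h4 := Finset.card_le_card hVS
      have h5 : (Icc (1 : ℤ) M).card = M := by simp
      omega
  have hV3 : (M : ℝ) * (c / Real.log M) ≤ V.card :=
    le_trans (mul_le_mul_of_nonneg_left (hprod M hM2) hMr.le) hV2
  have hV4 : Real.log M - Real.log (Real.log M) + Real.log c ≤ Real.log V.card := by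
    have h4 : Real.log M - Real.log (Real.log M) + Real.log c = Real.log ((M : ℝ) * (c / Real.log M)) := by
      rw [Real.log_mul hMr.ne' (by positivity), Real.log_div hc.ne' hlog0.ne']
      ring
    rw [h4]
    exact Real.log_le_log (by positivity) hV3
  obtain ⟨k, hk⟩ : ∃ k : ℕ, k = ⌊(Real.log V.card - C) / (4 + 8 * ε)⌋₊ := ⟨_, rfl⟩
  have h5 : (0 : ℝ) < 4 + 8 * ε := by positivity
  have hk1 : 1 ≤ k := by
    rw [hk]
    apply Nat.le_floor
    rw [le_div_iff₀ h5]
    push_cast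
    linarith
  have hk0 : 0 ≤ (Real.log V.card - C) / (4 + 8 * ε) := by
    apply div_nonneg _ h5.le
    linarith
  have hk2 : (k : ℝ) ≤ (Real.log V.card - C) / (4 + 8 * ε) := by rw [hk]; exact Nat.floor_le hk0
  have hk3 : (Real.log V.card - C) / (4 + 8 * ε) < k + 1 := by rw [hk]; exact Nat.lt_floor_add_one _
  rw [le_div_iff₀ h5] at hk2
  have hmain := hcount ℤ Adm Isolated hasSM_Iso k V hk1 hadm (by linarith)
  have hVpos : (0 : ℝ) < V.card := lt_of_lt_of_le (by positivity) hV3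
  have hkpos : (0 : ℝ) < k := by exact_mod_cast (by omega : 0 < k)
  have h6 : (0 : ℝ) < ((V.card : ℝ) / (C * (k : ℝ) ^ 2)) ^ k := by positivity
  classical
  have h7 : 0 < (V.powerset.filter (fun D => k ≤ D.card ∧ ShatIn Isolated V D)).card := by
    have h8 := lt_of_lt_of_le h6 hmain
    have h9 : (0 : ℝ) < ((V.powerset.filter (fun D => k ≤ D.card ∧ ShatIn Isolated V D)).card : ℝ) := by
      convert h8
    exact_mod_cast h9
  obtain ⟨D, hD⟩ := Finset.card_pos.1 h7
  rw [Finset.mem_filter] at hD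
  obtain ⟨_, hD1, hD2, hD3⟩ := hD
  have hIcc : ∀ B : Finset ℤ, B ⊆ V → ∀ b ∈ B, 1 ≤ b ∧ b ≤ (M : ℤ) := fun B hB b hb =>
    Finset.mem_Icc.1 (hVS (hB hb))
  refine ⟨D, hIcc D hD2, ?_, fun E hE => ?_⟩
  · have h8 : (k : ℝ) ≤ D.card := by exact_mod_cast hD1
    have h9 : (Real.log M - Real.log (Real.log M) + Real.log c - C) / (4 + 8 * ε) ≤
        (Real.log V.card - C) / (4 + 8 * ε) := div_le_div_of_nonneg_right (by linarith) h5.le
    linarith
  · obtain ⟨B, hB1, hB2, hB3⟩ := hD3 E hE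
    exact ⟨B, hIcc B hB1, hB2, hB3⟩

end Pool.Agent.H522
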