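import Mathlib
import Pool.Agent.H522.Window
import Pool.Agent.H522.Second

/-! H522: counting functions through given points, grouping, sieving of maps. -/

set_option autoImplicit false

open Finset

namespace Pool.Agent.H522

section PiCount

variable {ι β : Type} [Fintype ι] [DecidableEq ι] [DecidableEq β]

/-- the choice functions through given points -/
def thru (R : ι → Finset β) (B : Finset (ι × β)) : Finset (ι → β) :=
  (Fintype.piFinset R).filter (fun h => ∀ c ∈ B, h c.1 = c.2)

theorem mem_thru {R : ι → Finset β} {B : Finset (ι × β)} {h : ι → β} :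
    h ∈ thru R B ↔ (∀ i, h i ∈ R i) ∧ ∀ c ∈ B, h c.1 = c.2 := by
  unfold thru
  rw [Finset.mem_filter, Fintype.mem_piFinset]

theorem thru_empty (R : ι → Finset β) : thru R ∅ = Fintype.piFinset R := by
  unfold thru
  simp

theorem thru_union (R : ι → Finset β) (B B' : Finset (ι × β)) (h : ι → β) :
    h ∈ thru R (B ∪ B') ↔ h ∈ thru R B ∧ h ∈ thru R B' := by
  rw [mem_thru, mem_thru, mem_thru]
  constructor
  · rintro ⟨h1, h2⟩
    exact ⟨⟨h1, fun c hc => h2 c (Finset.mem_union_left _ hc)⟩, h1, fun c hc => h2 c (Finset.mem_union_right _ hc)⟩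
  · rintro ⟨⟨h1, h2⟩, _, h3⟩
    refine ⟨h1, fun c hc => ?_⟩
    rcases Finset.mem_union.1 hc with hc | hc
    · exact h2 c hc
    · exact h3 c hc

theorem pi_count_le (R : ι → Finset β) (X : ℕ) (hX : ∀ i, (R i).card = X) (B : Finset (ι × β)) :
    (thru R B).card * X ^ B.card ≤ X ^ Fintype.card ι := by
  induction B using Finset.induction_on with
  | empty =>
    rw [thru_empty, Fintype.card_piFinset]
    simp [hX]
  | insert c B hc ih =>
    rw [Finset.card_insert_of_notMem hc, pow_succ, mul_comm (X ^ B.card) X, ← mul_assoc]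
    refine le_trans (Nat.mul_le_mul_right _ ?_) ih
    by_cases h0 : ∃ c' ∈ B, c'.1 = c.1
    · obtain ⟨c', hc', h1⟩ := h0
      have h2 : thru R (insert c B) = ∅ := by
        rw [Finset.eq_empty_iff_forall_notMem]
        intro h hh
        rw [mem_thru] at hh
        have h3 := hh.2 c (Finset.mem_insert_self _ _)
        have h4 := hh.2 c' (Finset.mem_insert_of_mem hc')
        apply hc
        have : c = c' := by
          apply Prod.ext
          · exact h1.symm
          · rw [← h3, ← h4, h1]
        rw [this]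
        exact hc'
      rw [h2, Finset.card_empty, Nat.zero_mul]
      exact Nat.zero_le _
    · push Not at h0
      rw [← hX c.1, ← Finset.card_product]
      apply Finset.card_le_card_of_injOn (fun z => Function.update z.1 c.1 z.2)
      · rintro ⟨h, y⟩ hz
        rw [Finset.mem_coe, Finset.mem_product, mem_thru] at hz
        obtain ⟨⟨h1, h2⟩, h3⟩ := hz
        rw [Finset.mem_coe, mem_thru]
        refine ⟨fun i => ?_, fun c' hc' => ?_⟩
        · by_cases hi : i = c.1
          · subst hi
            simp only [Function.update_self]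
            exact h3
          · simp only [Function.update_of_ne hi]
            exact h1 i
        · simp only [Function.update_of_ne (h0 c' hc')]
          exact h2 c' (Finset.mem_insert_of_mem hc')
      · rintro ⟨h, y⟩ hz ⟨h', y'⟩ hz' he
        rw [Finset.mem_coe, Finset.mem_product, mem_thru] at hz hz'
        have he' : Function.update h c.1 y = Function.update h' c.1 y' := he
        have h1 : y = y' := by
          have := congrFun he' c.1
          simpa using this
        have h2 : h = h' := by
          funext i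
          by_cases hi : i = c.1
          · have e1 : h c.1 = c.2 := hz.1.2 c (Finset.mem_insert_self _ _)
            have e2 : h' c.1 = c.2 := hz'.1.2 c (Finset.mem_insert_self _ _)
            rw [hi, e1, e2]
          · have := congrFun he' i
            rwa [Function.update_of_ne hi, Function.update_of_ne hi] at this
        rw [h1, h2]

theorem pi_count_ge (R : ι → Finset β) (X : ℕ) (hX : ∀ i, (R i).card = X) (B : Finset (ι × β))
    (hB : ∀ c ∈ B, c.2 ∈ R c.1) (hinj : ∀ c ∈ B, ∀ c' ∈ B, c.1 = c'.1 → c = c') :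
    X ^ Fintype.card ι ≤ (thru R B).card * X ^ B.card := by
  induction B using Finset.induction_on with
  | empty =>
    rw [thru_empty, Fintype.card_piFinset]
    simp [hX]
  | insert c B hc ih =>
    rw [Finset.card_insert_of_notMem hc, pow_succ, mul_comm (X ^ B.card) X, ← mul_assoc]
    refine le_trans (ih (fun c' hc' => hB c' (Finset.mem_insert_of_mem hc')) (fun c' hc' c'' hc'' =>
      hinj c' (Finset.mem_insert_of_mem hc') c'' (Finset.mem_insert_of_mem hc'')))
      (Nat.mul_le_mul_right _ ?_)
    have h0 : ∀ c' ∈ B, c'.1 ≠ c.1 := by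
      intro c' hc' h1
      have := hinj c' (Finset.mem_insert_of_mem hc') c (Finset.mem_insert_self _ _) h1
      rw [this] at hc'
      exact hc hc'
    rw [← hX c.1, ← Finset.card_product]
    apply Finset.card_le_card_of_injOn (fun h => (Function.update h c.1 c.2, h c.1))
    · intro h hh
      rw [Finset.mem_coe, mem_thru] at hh
      rw [Finset.mem_coe, Finset.mem_product, mem_thru]
      refine ⟨⟨fun i => ?_, fun c' hc' => ?_⟩, hh.1 c.1⟩
      · by_cases hi : i = c.1
        · subst hi
          simp only [Function.update_self]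
          exact hB c (Finset.mem_insert_self _ _)
        · simp only [Function.update_of_ne hi]
          exact hh.1 i
      · rcases Finset.mem_insert.1 hc' with rfl | hc'
        · simp
        · simp only [Function.update_of_ne (h0 c' hc')]
          exact hh.2 c' hc'
    · intro h _ h' _ he
      have h1 : Function.update h c.1 c.2 = Function.update h' c.1 c.2 := (Prod.ext_iff.1 he).1
      have h2 : h c.1 = h' c.1 := (Prod.ext_iff.1 he).2
      funext i
      by_cases hi : i = c.1
      · rw [hi, h2]
      · have := congrFun h1 i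
        rwa [Function.update_of_ne hi, Function.update_of_ne hi] at this

/-- events depending on disjoint sets of coordinates -/
theorem indep_le (R : ι → Finset β) (I : Finset ι) (P Q : (ι → β) → Prop) [DecidablePred P] [DecidablePred Q]
    (hP : ∀ h h' : ι → β, (∀ i ∈ I, h i = h' i) → P h → P h')
    (hQ : ∀ h h' : ι → β, (∀ i, i ∉ I → h i = h' i) → Q h → Q h') :
    ((Fintype.piFinset R).filter (fun h => P h ∧ Q h)).card * (Fintype.piFinset R).card ≤
      ((Fintype.piFinset R).filter P).card * ((Fintype.piFinset R).filter Q).card := by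
  rw [← Finset.card_product, ← Finset.card_product]
  apply Finset.card_le_card_of_injOn (fun z : (ι → β) × (ι → β) => (I.piecewise z.1 z.2, I.piecewise z.2 z.1))
  · rintro ⟨h, h'⟩ hz
    rw [Finset.mem_coe, Finset.mem_product, Finset.mem_filter, Fintype.mem_piFinset, Fintype.mem_piFinset] at hz
    obtain ⟨⟨h1, h2, h3⟩, h4⟩ := hz
    rw [Finset.mem_coe, Finset.mem_product, Finset.mem_filter, Finset.mem_filter, Fintype.mem_piFinset,
      Fintype.mem_piFinset]
    refine ⟨⟨fun i => ?_, hP h _ (fun i hi => ?_) h2⟩, fun i => ?_, hQ h _ (fun i hi => ?_) h3⟩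
    · by_cases hi : i ∈ I
      · simp only [Finset.piecewise_eq_of_mem _ _ _ hi]; exact h1 i
      · simp only [Finset.piecewise_eq_of_notMem _ _ _ hi]; exact h4 i
    · simp only [Finset.piecewise_eq_of_mem _ _ _ hi]
    · by_cases hi : i ∈ I
      · simp only [Finset.piecewise_eq_of_mem _ _ _ hi]; exact h4 i
      · simp only [Finset.piecewise_eq_of_notMem _ _ _ hi]; exact h1 i
    · simp only [Finset.piecewise_eq_of_notMem _ _ _ hi]
  · rintro ⟨h, h'⟩ _ ⟨g, g'⟩ _ he
    have h1 : I.piecewise h h' = I.piecewise g g' := (Prod.ext_iff.1 he).1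
    have h2 : I.piecewise h' h = I.piecewise g' g := (Prod.ext_iff.1 he).2
    have h3 : ∀ i, h i = g i ∧ h' i = g' i := by
      intro i
      have e1 := congrFun h1 i
      have e2 := congrFun h2 i
      by_cases hi : i ∈ I
      · rw [Finset.piecewise_eq_of_mem _ _ _ hi, Finset.piecewise_eq_of_mem _ _ _ hi] at e1 e2
        exact ⟨e1, e2⟩
      · rw [Finset.piecewise_eq_of_notMem _ _ _ hi, Finset.piecewise_eq_of_notMem _ _ _ hi] at e1 e2
        exact ⟨e2, e1⟩
    exact Prod.ext (funext fun i => (h3 i).1) (funext fun i => (h3 i).2)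

/-- from sets of exact size to larger sets -/
theorem resample (R : ι → Finset β) (X : ℕ) (hX1 : 1 ≤ X) (hX : ∀ i, X ≤ (R i).card) (P : (ι → β) → Prop)
    [DecidablePred P] (ε : ℝ)
    (h : ∀ R' : ι → Finset β, (∀ i, R' i ⊆ R i) → (∀ i, (R' i).card = X) →
      (((Fintype.piFinset R').filter P).card : ℝ) ≤ ε * ((X ^ Fintype.card ι : ℕ) : ℝ)) :
    (((Fintype.piFinset R).filter P).card : ℝ) ≤ ε * ∏ i, ((R i).card : ℝ) := by
  -- the pairs
  have h1 : ∑ R' ∈ Fintype.piFinset (fun i => (R i).powersetCard X), (((Fintype.piFinset R').filter P).card : ℝ) =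
      (((Fintype.piFinset R).filter P).card : ℝ) * ∏ i, (((R i).card - 1).choose (X - 1) : ℝ) := by
    have h2 : ∀ R' ∈ Fintype.piFinset (fun i => (R i).powersetCard X),
        (((Fintype.piFinset R').filter P).card : ℝ) =
        ∑ g ∈ (Fintype.piFinset R).filter P, if (∀ i, g i ∈ R' i) then (1 : ℝ) else 0 := by
      intro R' hR'
      rw [Fintype.mem_piFinset] at hR'
      rw [← Finset.sum_filter, Finset.sum_const, nsmul_eq_mul, mul_one]
      congr 2
      ext g
      simp only [Finset.mem_filter, Fintype.mem_piFinset]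
      constructor
      · rintro ⟨h3, h4⟩
        exact ⟨⟨fun i => (Finset.mem_powersetCard.1 (hR' i)).1 (h3 i), h4⟩, h3⟩
      · rintro ⟨⟨_, h4⟩, h3⟩
        exact ⟨h3, h4⟩
    rw [Finset.sum_congr rfl h2, Finset.sum_comm, ← nsmul_eq_mul, ← Finset.sum_const]
    refine Finset.sum_congr rfl fun g hg => ?_
    rw [Finset.mem_filter, Fintype.mem_piFinset] at hg
    rw [← Finset.sum_filter, Finset.sum_const, nsmul_eq_mul, mul_one]
    have h3 : (Fintype.piFinset (fun i => (R i).powersetCard X)).filter (fun R' => ∀ i, g i ∈ R' i) =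
        Fintype.piFinset (fun i => ((R i).powersetCard X).filter (fun W => {g i} ⊆ W)) := by
      ext R'
      simp only [Finset.mem_filter, Fintype.mem_piFinset, Finset.singleton_subset_iff]
      constructor
      · rintro ⟨h4, h5⟩ i
        exact ⟨h4 i, h5 i⟩
      · intro h4
        exact ⟨fun i => (h4 i).1, fun i => (h4 i).2⟩
    rw [h3, Fintype.card_piFinset, Nat.cast_prod]
    refine Finset.prod_congr rfl fun i _ => ?_
    rw [card_sup (R i) {g i} (Finset.singleton_subset_iff.2 (hg.1 i)) X (by simpa using hX1)]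
    simp
  have h2 : ∑ R' ∈ Fintype.piFinset (fun i => (R i).powersetCard X), (((Fintype.piFinset R').filter P).card : ℝ) ≤
      (∏ i, ((R i).card.choose X : ℝ)) * (ε * ((X ^ Fintype.card ι : ℕ) : ℝ)) := by
    have h3 : ∀ R' ∈ Fintype.piFinset (fun i => (R i).powersetCard X),
        (((Fintype.piFinset R').filter P).card : ℝ) ≤ ε * ((X ^ Fintype.card ι : ℕ) : ℝ) := by
      intro R' hR'
      rw [Fintype.mem_piFinset] at hR'
      exact h R' (fun i => (Finset.mem_powersetCard.1 (hR' i)).1) (fun i => (Finset.mem_powersetCard.1 (hR' i)).2)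
    refine (Finset.sum_le_sum h3).trans (le_of_eq ?_)
    rw [Finset.sum_const, nsmul_eq_mul, Fintype.card_piFinset, Nat.cast_prod]
    simp only [Finset.card_powersetCard]
  rw [h1] at h2
  have h3 : (∏ i, ((R i).card.choose X : ℝ)) * ((X ^ Fintype.card ι : ℕ) : ℝ) =
      (∏ i, ((R i).card : ℝ)) * ∏ i, (((R i).card - 1).choose (X - 1) : ℝ) := by
    have e1 : ((X ^ Fintype.card ι : ℕ) : ℝ) = ∏ _i : ι, (X : ℝ) := by
      rw [Finset.prod_const, Finset.card_univ]; push_cast; rfl
    rw [e1, ← Finset.prod_mul_distrib, ← Finset.prod_mul_distrib]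
    refine Finset.prod_congr rfl fun i _ => ?_
    obtain ⟨X', hX'⟩ : ∃ X', X = X' + 1 := ⟨X - 1, by omega⟩
    obtain ⟨n', hn'⟩ : ∃ n', (R i).card = n' + 1 := ⟨(R i).card - 1, by have := hX i; omega⟩
    rw [hn', hX', Nat.add_sub_cancel, Nat.add_sub_cancel]
    have := Nat.add_one_mul_choose_eq n' X'
    exact_mod_cast this.symm
  have hpos : 0 < ∏ i, (((R i).card - 1).choose (X - 1) : ℝ) := by
    apply Finset.prod_pos
    intro i _
    exact_mod_cast Nat.choose_pos (by have := hX i; omega)
  have h4 : (((Fintype.piFinset R).filter P).card : ℝ) * ∏ i, (((R i).card - 1).choose (X - 1) : ℝ) ≤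
      (ε * ∏ i, ((R i).card : ℝ)) * ∏ i, (((R i).card - 1).choose (X - 1) : ℝ) := by
    refine h2.trans (le_of_eq ?_)
    calc (∏ i, ((R i).card.choose X : ℝ)) * (ε * ((X ^ Fintype.card ι : ℕ) : ℝ))
        = ε * ((∏ i, ((R i).card.choose X : ℝ)) * ((X ^ Fintype.card ι : ℕ) : ℝ)) := by ring
      _ = _ := by rw [h3]; ring
  exact le_of_mul_le_mul_right h4 hpos

end PiCount

/-- disjoint unions of fibres of prescribed size -/
theorem grouping {α β : Type} [DecidableEq α] [DecidableEq β] (f : α → β) (t0 g : ℕ) (hg : t0 ≤ g) : ∀ (n : ℕ)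
    (V : Finset α), (∀ b, (V.filter (fun x => f x = b)).card ≤ t0) → n * g ≤ V.card →
    ∃ G : Fin n → Finset α, (∀ j, G j ⊆ V) ∧ (∀ j, (G j).card = g - t0) ∧
      ∀ i j, i ≠ j → ∀ x ∈ G i, ∀ y ∈ G j, f x ≠ f y := by
  intro n
  induction n with
  | zero =>
    intro V _ _
    exact ⟨fun j => j.elim0, fun j => j.elim0, fun j => j.elim0, fun j => j.elim0⟩
  | succ n ih =>
    intro V hfib hV
    -- a maximal union of fibres with at most `g` elements
    obtain ⟨U, hU, hmax⟩ := Finset.exists_max_image
      (V.powerset.filter (fun U => U.card ≤ g ∧ ∀ x ∈ U, ∀ y ∈ V, f x = f y → y ∈ U)) Finset.card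
      ⟨∅, by simp⟩
    rw [Finset.mem_filter, Finset.mem_powerset] at hU
    obtain ⟨hUV, hUg, hUsat⟩ := hU
    have hUbig : g - t0 ≤ U.card := by
      by_contra hcon
      push Not at hcon
      have h1 : U.card < V.card := by
        have : g ≤ (n + 1) * g := Nat.le_mul_of_pos_left _ (by omega)
        omega
      obtain ⟨x, hxV, hxU⟩ := Finset.exists_mem_notMem_of_card_lt_card h1
      have h2 : (U ∪ V.filter (fun y => f y = f x)).card ≤ g := by
        have h3 := Finset.card_union_le U (V.filter (fun y => f y = f x))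
        have h4 := hfib (f x)
        omega
      have h3 := hmax (U ∪ V.filter (fun y => f y = f x)) (by
        rw [Finset.mem_filter, Finset.mem_powerset]
        refine ⟨Finset.union_subset hUV (Finset.filter_subset _ _), h2, fun y hy z hz hyz => ?_⟩
        rw [Finset.mem_union] at hy ⊢
        rcases hy with hy | hy
        · exact Or.inl (hUsat y hy z hz hyz)
        · right
          rw [Finset.mem_filter] at hy ⊢
          exact ⟨hz, by rw [← hyz]; exact hy.2⟩)
      have h4 : U ⊂ U ∪ V.filter (fun y => f y = f x) := by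
        rw [Finset.ssubset_iff_of_subset Finset.subset_union_left]
        exact ⟨x, Finset.mem_union_right _ (Finset.mem_filter.2 ⟨hxV, rfl⟩), hxU⟩
      have h5 := Finset.card_lt_card h4
      omega
    obtain ⟨U0, hU0U, hU0c⟩ := Finset.exists_subset_card_eq hUbig
    obtain ⟨G, hG1, hG2, hG3⟩ := ih (V \ U) (fun b => by
        refine (Finset.card_le_card ?_).trans (hfib b)
        exact Finset.filter_subset_filter _ Finset.sdiff_subset) (by
        rw [Finset.card_sdiff_of_subset hUV]
        have : (n + 1) * g = n * g + g := by ring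
        omega)
    have hsep : ∀ x ∈ U0, ∀ j, ∀ y ∈ G j, f x ≠ f y := by
      intro x hx j y hy hxy
      have h1 := hG1 j hy
      rw [Finset.mem_sdiff] at h1
      exact h1.2 (hUsat x (hU0U hx) y h1.1 hxy)
    refine ⟨Fin.cons U0 G, ?_, ?_, ?_⟩
    · intro j
      refine Fin.cases ?_ (fun j => ?_) j
      · rw [Fin.cons_zero]; exact hU0U.trans hUV
      · rw [Fin.cons_succ]; exact (hG1 j).trans Finset.sdiff_subset
    · intro j
      refine Fin.cases ?_ (fun j => ?_) j
      · rw [Fin.cons_zero]; exact hU0c
      · rw [Fin.cons_succ]; exact hG2 j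
    · intro i
      refine Fin.cases ?_ (fun i => ?_) i
      · intro j
        refine Fin.cases ?_ (fun j => ?_) j
        · intro h; exact absurd rfl h
        · intro _ x hx y hy
          rw [Fin.cons_zero] at hx
          rw [Fin.cons_succ] at hy
          exact hsep x hx j y hy
      · intro j
        refine Fin.cases ?_ (fun j => ?_) j
        · intro _ x hx y hy
          rw [Fin.cons_succ] at hx
          rw [Fin.cons_zero] at hy
          exact fun h => hsep y hy i x hx h.symm
        · intro hij x hx y hy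
          rw [Fin.cons_succ] at hx hy
          exact hG3 i j (fun h => hij (by rw [h])) x hx y hy

/-- removing one residue class modulo each prime of a finite set, greedily -/
theorem greedyF {α : Type} [DecidableEq α] (f : α → ℤ) (S : Finset α) (P : Finset ℕ) (hP : ∀ p ∈ P, p.Prime) :
    ∃ V : Finset α, V ⊆ S ∧ (∀ p ∈ P, ∃ r : ℤ, ∀ v ∈ V, ¬ (p : ℤ) ∣ r + f v) ∧
      (S.card : ℝ) * ∏ p ∈ P, (1 - 1 / (p : ℝ)) ≤ V.card := by
  classical
  induction P using Finset.induction_on with
  | empty => exact ⟨S, Finset.Subset.refl _, by simp, by simp⟩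
  | insert p P hpP ih =>
    obtain ⟨V, hVS, hV1, hV2⟩ := ih fun q hq => hP q (Finset.mem_insert_of_mem hq)
    have hp : p.Prime := hP p (Finset.mem_insert_self _ _)
    have hp0 : (0 : ℝ) < p := by exact_mod_cast hp.pos
    have hpz : (p : ℤ) ≠ 0 := by exact_mod_cast hp.ne_zero
    have hpz0 : (0 : ℤ) < p := by exact_mod_cast hp.pos
    obtain ⟨r, hr, hr2⟩ := Finset.exists_card_fiber_le_of_card_le_nsmul (s := V) (t := range p)
      (f := fun v => ((-(f v)) % (p : ℤ)).toNat) (b := (V.card : ℝ) / p)
      ⟨0, Finset.mem_range.2 hp.pos⟩ (by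
        rw [Finset.card_range, nsmul_eq_mul]
        exact le_of_eq (by field_simp))
    refine ⟨V.filter (fun v => ¬ ((-(f v)) % (p : ℤ)).toNat = r), (Finset.filter_subset _ _).trans hVS, ?_, ?_⟩
    · intro q hq
      rcases Finset.mem_insert.1 hq with rfl | hq
      · refine ⟨r, fun v hv hd => ?_⟩
        rw [Finset.mem_filter] at hv
        apply hv.2
        have h1 : (-(f v)) % (q : ℤ) = (r : ℤ) % q := by
          apply Int.ModEq.eq
          rw [Int.modEq_iff_dvd]
          simpa using hd
        rw [h1, Int.emod_eq_of_lt (by positivity) (by exact_mod_cast Finset.mem_range.1 hr)]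
        simp
      · obtain ⟨s, hs⟩ := hV1 q hq
        exact ⟨s, fun v hv => hs v (Finset.mem_filter.1 hv).1⟩
    · rw [Finset.prod_insert hpP]
      have h1 : ((V.filter (fun v => ((-(f v)) % (p : ℤ)).toNat = r)).card : ℝ) +
          ((V.filter (fun v => ¬ ((-(f v)) % (p : ℤ)).toNat = r)).card : ℝ) = V.card := by
        exact_mod_cast Finset.card_filter_add_card_filter_not (s := V)
          (fun v => ((-(f v)) % (p : ℤ)).toNat = r)
      have h2 : (1 - 1 / (p : ℝ)) * V.card ≤
          ((V.filter (fun v => ¬ ((-(f v)) % (p : ℤ)).toNat = r)).card : ℝ) := by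
        have : (1 - 1 / (p : ℝ)) * V.card = V.card - V.card / p := by ring
        rw [this]
        linarith
      refine le_trans ?_ h2
      have h3 : 0 ≤ 1 - 1 / (p : ℝ) := by
        rw [sub_nonneg, div_le_one hp0]
        exact_mod_cast hp.one_le
      calc (S.card : ℝ) * ((1 - 1 / (p : ℝ)) * ∏ x ∈ P, (1 - 1 / (x : ℝ)))
          = (1 - 1 / (p : ℝ)) * ((S.card : ℝ) * ∏ x ∈ P, (1 - 1 / (x : ℝ))) := by ring
        _ ≤ _ := mul_le_mul_of_nonneg_left hV2 h3

end Pool.Agent.H522
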