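import Mathlib
import Pool.Agent.H522.Trans1
import Pool.Agent.H522.Spread

/-! H522: spread measures on transversals, second moment in product spaces. -/

set_option autoImplicit false

open Finset

namespace Pool.Agent.H522

/-- a spread measure from a weighted family of sets -/
theorem SM.of_family {α Ω : Type} [DecidableEq α] (m : ℕ) (hm : 2 ≤ m) (V : Finset α) (hV : 0 < V.card)
    (O : Finset Ω) (w : Ω → ℝ) (S : Ω → Finset α) (hw : ∀ ω ∈ O, 0 ≤ w ω) (hS : ∀ ω ∈ O, S ω ⊆ V)
    (hmass : ∑ ω ∈ O, w ω ≤ 1)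
    (h1 : ∀ v ∈ V, (m : ℝ) / V.card ≤ ∑ ω ∈ O.filter (fun ω => v ∈ S ω), w ω)
    (h2 : ∀ U : Finset α, U ⊆ V → U.Nonempty → ∑ ω ∈ O.filter (fun ω => U ⊆ S ω), w ω ≤
        (250 * U.card * m / V.card) ^ U.card) :
    SM m V (fun B => ∑ ω ∈ O.filter (fun ω => S ω = B), w ω) := by
  classical
  have key : ∀ (q : Finset α → Prop) [DecidablePred q],
      ∑ B ∈ V.powerset.filter q, ∑ ω ∈ O.filter (fun ω => S ω = B), w ω = ∑ ω ∈ O.filter (fun ω => q (S ω)), w ω := by
    intro q _
    rw [← Finset.sum_fiberwise_of_maps_to (s := O.filter (fun ω => q (S ω))) (t := V.powerset.filter q) (g := S)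
      (fun ω hω => by
        rw [Finset.mem_filter] at hω
        exact Finset.mem_filter.2 ⟨Finset.mem_powerset.2 (hS ω hω.1), hω.2⟩)]
    refine Finset.sum_congr rfl fun B hB => ?_
    rw [Finset.mem_filter] at hB
    apply Finset.sum_congr _ fun _ _ => rfl
    ext ω
    simp only [Finset.mem_filter]
    constructor
    · rintro ⟨h3, h4⟩
      exact ⟨⟨h3, by rw [h4]; exact hB.2⟩, h4⟩
    · rintro ⟨⟨h3, _⟩, h4⟩
      exact ⟨h3, h4⟩
  refine ⟨hm, hV, fun B => ?_, ?_, fun v hv => ?_, fun U hU hUn => ?_⟩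
  · exact Finset.sum_nonneg fun ω hω => hw ω (Finset.mem_filter.1 hω).1
  · have h3 := key (fun _ => True)
    simp only [Finset.filter_true] at h3
    rw [h3]
    exact hmass
  · rw [key (fun B => v ∈ B)]
    exact h1 v hv
  · rw [key (fun B => U ⊆ B)]
    exact h2 U hU hUn

/-- the measure on the transversals of a family of disjoint groups -/
theorem spread_groups {α : Type} [DecidableEq α] (m : ℕ) (hm : 2 ≤ m) (f : α → ℤ) (g : ℕ) (hg : 1 ≤ g)
    (G : Fin ⌈Real.exp (4 * (m : ℝ) + 29 / 50)⌉₊ → Finset α) (hcard : ∀ j, (G j).card = g)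
    (hdis : ∀ i j, i ≠ j → ∀ x ∈ G i, ∀ y ∈ G j, f x ≠ f y)
    (hadm : ∀ p : ℕ, p.Prime → (p : ℝ) ≤ Real.exp (4 * (m : ℝ) + 29 / 50) + 1 →
      ∃ r : ℤ, ∀ j, ∀ x ∈ G j, ¬ (p : ℤ) ∣ r + f x) :
    ∃ lam : Finset α → ℝ, SM m (univ.biUnion G) lam ∧ ∀ B, lam B ≠ 0 → B ⊆ univ.biUnion G ∧
      Isolated (B.image f) ∧ ∀ x ∈ B, ∀ y ∈ B, f x = f y → x = y := by
  classical
  have hm' : (2 : ℝ) ≤ m := by exact_mod_cast hm
  obtain ⟨hK1, hK2, hK3⟩ := K1_prop m hm
  obtain ⟨K1, hK1def⟩ : ∃ K1 : ℕ, K1 = ⌈Real.exp (4 * (m : ℝ) + 29 / 50)⌉₊ := ⟨_, rfl⟩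
  rw [← hK1def] at hK1 hK2 hK3
  have hK1pos : 1 ≤ K1 := by
    rw [hK1def, Nat.one_le_ceil_iff]; exact Real.exp_pos _
  have hK1r : (0 : ℝ) < K1 := by exact_mod_cast hK1pos
  have hgr : (0 : ℝ) < g := by exact_mod_cast hg
  revert G
  rw [← hK1def]
  intro G hcard hdis hadm
  -- the transversals
  obtain ⟨𝓣, h𝓣⟩ : ∃ 𝓣, 𝓣 = Fintype.piFinset G := ⟨_, rfl⟩
  have hmem : ∀ T ∈ 𝓣, ∀ j, T j ∈ G j := by
    intro T hT j
    rw [h𝓣, Fintype.mem_piFinset] at hT
    exact hT j
  have hN : 𝓣.card = g ^ K1 := by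
    rw [h𝓣, Fintype.card_piFinset]
    simp [hcard]
  have hNr : (𝓣.card : ℝ) = (g : ℝ) ^ K1 := by rw [hN]; push_cast; rfl
  have hNpos : (0 : ℝ) < 𝓣.card := by rw [hNr]; positivity
  have hinj : ∀ T ∈ 𝓣, Function.Injective (fun j => f (T j)) := by
    intro T hT i j hij
    by_contra hne
    exact hdis i j hne _ (hmem T hT i) _ (hmem T hT j) hij
  have hTc : ∀ T ∈ 𝓣, (univ.image (fun j => f (T j))).card = K1 := by
    intro T hT
    rw [Finset.card_image_of_injective _ (hinj T hT), Finset.card_univ, Fintype.card_fin]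
  have hex : ∀ T ∈ 𝓣, ∃ lam : Finset ℤ → ℝ, (∀ B, 0 ≤ lam B) ∧
      (∀ B, lam B ≠ 0 → Isolated B) ∧
      ∑ B ∈ (univ.image (fun j => f (T j))).powerset, lam B ≤ 1 ∧
      (∀ v ∈ univ.image (fun j => f (T j)), (m : ℝ) / K1 ≤
        ∑ B ∈ (univ.image (fun j => f (T j))).powerset.filter (fun B => v ∈ B), lam B) ∧
      ∀ U : Finset ℤ, U ⊆ univ.image (fun j => f (T j)) → U.Nonempty →
        ∑ B ∈ (univ.image (fun j => f (T j))).powerset.filter (fun B => U ⊆ B), lam B ≤
        (250 * U.card * m / K1) ^ U.card := by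
    intro T hT
    have h1 := spread0 m hm (univ.image (fun j => f (T j))) (by rw [hTc T hT]; exact hK1)
      (by rw [hTc T hT]; exact hK2) ?_
    · rw [hTc T hT] at h1; exact h1
    · intro p hp
      by_cases hpl : (p : ℝ) ≤ Real.exp (4 * (m : ℝ) + 29 / 50) + 1
      · obtain ⟨r, hr⟩ := hadm p hp hpl
        refine ⟨r, fun s hs => ?_⟩
        rw [Finset.mem_image] at hs
        obtain ⟨j, -, rfl⟩ := hs
        exact hr j _ (hmem T hT j)
      · apply adm_of_card _ p hp
        rw [hTc T hT]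
        push Not at hpl
        have : (K1 : ℝ) < p := lt_of_le_of_lt hK3 hpl
        exact_mod_cast this
  choose! L hL0 hL1 hL2 hL3 hL4 using hex
  -- the family
  obtain ⟨V, hV⟩ : ∃ V, V = univ.biUnion G := ⟨_, rfl⟩
  have hVc : V.card = K1 * g := by
    rw [hV, Finset.card_biUnion]
    · simp [hcard]
    · intro i _ j _ hij
      rw [Function.onFun, Finset.disjoint_left]
      intro x hx hy
      exact hdis i j hij x hx x hy rfl
  have hVr : (V.card : ℝ) = K1 * g := by rw [hVc]; push_cast; rfl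
  rw [← hV]
  obtain ⟨O, hO⟩ : ∃ O : Finset ((_ : Fin K1 → α) × Finset ℤ), O = 𝓣.sigma (fun T =>
    (univ.image (fun j => f (T j))).powerset) := ⟨_, rfl⟩
  obtain ⟨w, hw⟩ : ∃ w : ((_ : Fin K1 → α) × Finset ℤ) → ℝ, ∀ ω, w ω = L ω.1 ω.2 / 𝓣.card := ⟨_, fun _ => rfl⟩
  obtain ⟨S, hS⟩ : ∃ S : ((_ : Fin K1 → α) × Finset ℤ) → Finset α, ∀ ω, S ω =
    (univ.image ω.1).filter (fun a => f a ∈ ω.2) := ⟨_, fun _ => rfl⟩
  have hOmem : ∀ ω ∈ O, ω.1 ∈ 𝓣 ∧ ω.2 ⊆ univ.image (fun j => f (ω.1 j)) := by
    intro ω hω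
    rw [hO, Finset.mem_sigma, Finset.mem_powerset] at hω
    exact hω
  have hsplit : ∀ (q : ((_ : Fin K1 → α) × Finset ℤ) → Prop) [DecidablePred q],
      ∑ ω ∈ O.filter q, w ω = ∑ T ∈ 𝓣, ∑ B ∈ (univ.image (fun j => f (T j))).powerset,
        if q ⟨T, B⟩ then L T B / 𝓣.card else 0 := by
    intro q _
    rw [Finset.sum_filter, hO, Finset.sum_sigma]
    refine Finset.sum_congr rfl fun T _ => Finset.sum_congr rfl fun B _ => ?_
    rw [hw]
  have hSM := SM.of_family m hm V (by rw [hVc]; exact Nat.mul_pos (by omega) (by omega)) O w S (by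
      intro ω hω
      rw [hw]
      exact div_nonneg (hL0 ω.1 (hOmem ω hω).1 _) hNpos.le) (by
      intro ω hω x hx
      rw [hS, Finset.mem_filter, Finset.mem_image] at hx
      obtain ⟨⟨j, -, rfl⟩, _⟩ := hx
      rw [hV, Finset.mem_biUnion]
      exact ⟨j, Finset.mem_univ _, hmem _ (hOmem ω hω).1 j⟩) (by
      have h1 := hsplit (fun _ => True)
      simp only [Finset.filter_true, if_true] at h1
      rw [h1]
      have h2 : ∀ T ∈ 𝓣, ∑ B ∈ (univ.image (fun j => f (T j))).powerset, L T B / 𝓣.card ≤ 1 / 𝓣.card := by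
        intro T hT
        rw [← Finset.sum_div]
        exact div_le_div_of_nonneg_right (hL2 T hT) hNpos.le
      refine (Finset.sum_le_sum h2).trans ?_
      rw [Finset.sum_const, nsmul_eq_mul]
      rw [mul_one_div, div_self hNpos.ne']) (by
      -- the marginals
      intro v hv
      rw [hV, Finset.mem_biUnion] at hv
      obtain ⟨j0, -, hj0⟩ := hv
      rw [hsplit (fun ω => v ∈ S ω)]
      have h1 : ∀ T ∈ 𝓣, (if T j0 = v then (m : ℝ) / K1 / 𝓣.card else 0) ≤
          ∑ B ∈ (univ.image (fun j => f (T j))).powerset, if v ∈ S ⟨T, B⟩ then L T B / 𝓣.card else 0 := by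
        intro T hT
        split_ifs with h2
        · have h3 := hL3 T hT (f v) (Finset.mem_image.2 ⟨j0, Finset.mem_univ _, by rw [h2]⟩)
          have h4 : ∑ B ∈ (univ.image (fun j => f (T j))).powerset, (if v ∈ S ⟨T, B⟩ then L T B / 𝓣.card else 0) =
              (∑ B ∈ (univ.image (fun j => f (T j))).powerset.filter (fun B => f v ∈ B), L T B) / 𝓣.card := by
            rw [Finset.sum_div, Finset.sum_filter]
            refine Finset.sum_congr rfl fun B _ => ?_
            have h5 : v ∈ S ⟨T, B⟩ ↔ f v ∈ B := by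
              rw [hS, Finset.mem_filter]
              exact ⟨fun h => h.2, fun h => ⟨Finset.mem_image.2 ⟨j0, Finset.mem_univ _, h2⟩, h⟩⟩
            simp only [h5]
          rw [h4]
          exact div_le_div_of_nonneg_right h3 hNpos.le
        · apply Finset.sum_nonneg
          intro B _
          split_ifs
          · exact div_nonneg (hL0 T hT B) hNpos.le
          · exact le_rfl
      refine le_trans ?_ (Finset.sum_le_sum h1)
      rw [← Finset.sum_filter, Finset.sum_const, nsmul_eq_mul]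
      -- the number of transversals through `v`
      have h2 := pi_count_ge G g hcard {(j0, v)} (by
        intro c hc
        rw [Finset.mem_singleton] at hc
        rw [hc]
        exact hj0) (by
        intro c hc c' hc' _
        rw [Finset.mem_singleton] at hc hc'
        rw [hc, hc'])
      have h3 : thru G {(j0, v)} = 𝓣.filter (fun T => T j0 = v) := by
        ext T
        rw [mem_thru, Finset.mem_filter, h𝓣, Fintype.mem_piFinset]
        constructor
        · rintro ⟨h4, h5⟩
          exact ⟨h4, h5 (j0, v) (Finset.mem_singleton_self _)⟩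
        · rintro ⟨h4, h5⟩
          refine ⟨h4, fun c hc => ?_⟩
          rw [Finset.mem_singleton] at hc
          rw [hc]
          exact h5
      rw [h3, Finset.card_singleton, pow_one, Fintype.card_fin, ← hN] at h2
      have h4 : (𝓣.card : ℝ) ≤ ((𝓣.filter (fun T => T j0 = v)).card : ℝ) * g := by exact_mod_cast h2
      rw [hVr]
      rw [div_le_iff₀ (by positivity)]
      obtain ⟨a, ha⟩ : ∃ a : ℝ, a = ((𝓣.filter (fun T => T j0 = v)).card : ℝ) := ⟨_, rfl⟩
      obtain ⟨N, hNd⟩ : ∃ N : ℝ, N = (𝓣.card : ℝ) := ⟨_, rfl⟩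
      rw [← ha, ← hNd] at h4 ⊢
      rw [← hNd] at hNpos
      have h5 : (m : ℝ) = N * (m / N) := by field_simp
      calc (m : ℝ) = N * (m / N) := h5
        _ ≤ (a * g) * (m / N) :=
          mul_le_mul_of_nonneg_right h4 (by positivity)
        _ = a * ((m : ℝ) / K1 / N) * (K1 * g) := by
          field_simp) (by
      -- the correlations
      intro U hU hUn
      rw [hsplit (fun ω => U ⊆ S ω)]
      have h1 : ∀ T ∈ 𝓣, (∑ B ∈ (univ.image (fun j => f (T j))).powerset,
          if U ⊆ S ⟨T, B⟩ then L T B / 𝓣.card else 0) ≤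
          if U ⊆ univ.image T then (250 * (U.card : ℝ) * m / K1) ^ U.card / 𝓣.card else 0 := by
        intro T hT
        split_ifs with h2
        · have hUi : (U.image f).card = U.card := by
            apply Finset.card_image_of_injOn
            intro x hx y hy hxy
            obtain ⟨i, -, rfl⟩ := Finset.mem_image.1 (h2 hx)
            obtain ⟨j, -, rfl⟩ := Finset.mem_image.1 (h2 hy)
            rw [hinj T hT hxy]
          have h3 := hL4 T hT (U.image f) (by
            intro y hy
            rw [Finset.mem_image] at hy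
            obtain ⟨x, hx, rfl⟩ := hy
            obtain ⟨i, -, rfl⟩ := Finset.mem_image.1 (h2 hx)
            exact Finset.mem_image.2 ⟨i, Finset.mem_univ _, rfl⟩) (hUn.image f)
          rw [hUi] at h3
          refine le_trans ?_ (div_le_div_of_nonneg_right h3 hNpos.le)
          rw [Finset.sum_div, Finset.sum_filter]
          refine Finset.sum_le_sum fun B _ => ?_
          by_cases h4 : U ⊆ S ⟨T, B⟩
          · rw [if_pos h4, if_pos]
            intro y hy
            rw [Finset.mem_image] at hy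
            obtain ⟨x, hx, rfl⟩ := hy
            have h5 := h4 hx
            rw [hS, Finset.mem_filter] at h5
            exact h5.2
          · rw [if_neg h4]
            split_ifs
            · exact div_nonneg (hL0 T hT B) hNpos.le
            · exact le_rfl
        · apply le_of_eq
          apply Finset.sum_eq_zero
          intro B _
          rw [if_neg]
          intro h4
          apply h2
          refine h4.trans ?_
          rw [hS]
          exact Finset.filter_subset _ _
      refine (Finset.sum_le_sum h1).trans ?_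
      rw [← Finset.sum_filter, Finset.sum_const, nsmul_eq_mul]
      -- the number of transversals through `U`
      have hidx : ∀ u : α, ∃ j : Fin K1, u ∈ U → u ∈ G j := by
        intro u
        by_cases hu : u ∈ U
        · have := hU hu
          rw [hV, Finset.mem_biUnion] at this
          obtain ⟨j, -, hj⟩ := this
          exact ⟨j, fun _ => hj⟩
        · exact ⟨⟨0, by omega⟩, fun h => absurd h hu⟩
      choose idx hidx using hidx
      have h2 := pi_count_le G g hcard (U.image (fun u => (idx u, u)))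
      have h3 : (U.image (fun u => (idx u, u))).card = U.card :=
        Finset.card_image_of_injective _ (fun a b h => (Prod.ext_iff.1 h).2)
      rw [h3, Fintype.card_fin, ← hN] at h2
      have h4 : 𝓣.filter (fun T => U ⊆ univ.image T) ⊆ thru G (U.image (fun u => (idx u, u))) := by
        intro T hT
        rw [Finset.mem_filter] at hT
        rw [mem_thru]
        refine ⟨hmem T hT.1, fun c hc => ?_⟩
        rw [Finset.mem_image] at hc
        obtain ⟨u, hu, rfl⟩ := hc
        obtain ⟨j, -, hj⟩ := Finset.mem_image.1 (hT.2 hu)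
        have h5 : j = idx u := by
          by_contra hne
          exact hdis j (idx u) hne u (by rw [← hj]; exact hmem T hT.1 j) u (hidx u hu) rfl
        change T (idx u) = u
        rw [← h5]
        exact hj
      have h5 : ((𝓣.filter (fun T => U ⊆ univ.image T)).card : ℝ) * (g : ℝ) ^ U.card ≤ 𝓣.card := by
        have := (Nat.mul_le_mul_right (g ^ U.card) (Finset.card_le_card h4)).trans h2
        exact_mod_cast this
      rw [hVr]
      have e1 : (250 * (U.card : ℝ) * m / (K1 * g)) ^ U.card =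
          (250 * (U.card : ℝ) * m / K1) ^ U.card / (g : ℝ) ^ U.card := by
        rw [← div_pow]
        congr 1
        field_simp
      rw [e1, le_div_iff₀ (by positivity)]
      calc ((𝓣.filter (fun T => U ⊆ univ.image T)).card : ℝ) *
            ((250 * (U.card : ℝ) * m / K1) ^ U.card / 𝓣.card) * (g : ℝ) ^ U.card
          = (((𝓣.filter (fun T => U ⊆ univ.image T)).card : ℝ) * (g : ℝ) ^ U.card) *
            ((250 * (U.card : ℝ) * m / K1) ^ U.card / 𝓣.card) := by ring
        _ ≤ (𝓣.card : ℝ) * ((250 * (U.card : ℝ) * m / K1) ^ U.card / 𝓣.card) :=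
          mul_le_mul_of_nonneg_right h5 (by positivity)
        _ = _ := by field_simp)
  refine ⟨_, hSM, fun B hB => ?_⟩
  obtain ⟨ω, hω, hω2⟩ := Finset.exists_ne_zero_of_sum_ne_zero hB
  rw [Finset.mem_filter] at hω
  obtain ⟨hω1, hSω⟩ := hω
  obtain ⟨h3, h4⟩ := hOmem ω hω1
  have h5 : L ω.1 ω.2 ≠ 0 := by
    intro h0
    apply hω2
    rw [hw, h0, zero_div]
  have h6 := hL1 ω.1 h3 ω.2 h5
  have h7 : B.image f = ω.2 := by
    rw [← hSω, hS]
    ext y
    rw [Finset.mem_image]
    constructor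
    · rintro ⟨x, hx, rfl⟩
      exact (Finset.mem_filter.1 hx).2
    · intro hy
      obtain ⟨j, -, hj⟩ := Finset.mem_image.1 (h4 hy)
      refine ⟨ω.1 j, Finset.mem_filter.2 ⟨Finset.mem_image.2 ⟨j, Finset.mem_univ _, rfl⟩, ?_⟩, hj⟩
      rw [hj]
      exact hy
  refine ⟨?_, by rw [h7]; exact h6, fun x hx y hy hxy => ?_⟩
  · intro x hx
    rw [← hSω, hS, Finset.mem_filter] at hx
    obtain ⟨i, -, rfl⟩ := Finset.mem_image.1 hx.1
    rw [hV, Finset.mem_biUnion]
    exact ⟨i, Finset.mem_univ _, hmem ω.1 h3 i⟩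
  rw [← hSω, hS, Finset.mem_filter] at hx hy
  obtain ⟨i, -, rfl⟩ := Finset.mem_image.1 hx.1
  obtain ⟨j, -, rfl⟩ := Finset.mem_image.1 hy.1
  rw [hinj ω.1 h3 hxy]

end Pool.Agent.H522
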