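import Mathlib
import Pool.Agent.H522.Trans4

/-! H522: random transversals, the final theorem. -/

set_option autoImplicit false

open Finset

namespace Pool.Agent.H522

open Classical in
/-- all cells, in the admissible case -/
theorem sieved_adm (m X : ℕ) {ι : Type} [DecidableEq ι] (R : ι → Finset ℤ) (hX : ∀ i, (R i).card = X) (I : Finset ι)
    (hadm : ∀ p : ℕ, p.Prime → (p : ℝ) ≤ Real.exp (4 * (m : ℝ) + 29 / 50) + 1 →
      ∃ r : ℤ, ∀ i, ∀ x ∈ R i, ¬ (p : ℤ) ∣ r + x) : Sieved m X 1 R I := by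
  refine ⟨I.biUnion (fun i => (R i).image (fun x => (i, x))), ?_, ?_, ?_⟩
  · intro c hc
    rw [Finset.mem_biUnion] at hc
    obtain ⟨i, hi, hc⟩ := hc
    rw [Finset.mem_image] at hc
    obtain ⟨x, hx, rfl⟩ := hc
    exact ⟨hi, hx⟩
  · have h1 : (I.biUnion (fun i => (R i).image (fun x => (i, x)))).card = I.card * X := by
      rw [Finset.card_biUnion]
      · have h2 : ∀ i ∈ I, ((R i).image (fun x => (i, x))).card = X := by
          intro i _
          rw [Finset.card_image_of_injective _ (fun a b h => (Prod.ext_iff.1 h).2)]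
          exact hX i
        rw [Finset.sum_congr rfl h2, Finset.sum_const, smul_eq_mul]
      · intro i _ j _ hij
        rw [Function.onFun, Finset.disjoint_left]
        intro c hc hc'
        rw [Finset.mem_image] at hc hc'
        obtain ⟨x, _, rfl⟩ := hc
        obtain ⟨y, _, h⟩ := hc'
        exact hij (Prod.ext_iff.1 h).1.symm
    rw [h1]
    push_cast
    linarith
  · intro p hp hpl
    obtain ⟨r, hr⟩ := hadm p hp hpl
    refine ⟨r, fun c hc => ?_⟩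
    rw [Finset.mem_biUnion] at hc
    obtain ⟨i, hi, hc⟩ := hc
    rw [Finset.mem_image] at hc
    obtain ⟨x, hx, rfl⟩ := hc
    exact hr i x hx

open Classical in
/-- the sieved cells in general -/
theorem sieved_gen : ∃ c : ℝ, 0 < c ∧ c ≤ 1 ∧ ∀ (m : ℕ), 2 ≤ m → ∀ (X : ℕ) {ι : Type} [DecidableEq ι]
    (R : ι → Finset ℤ), (∀ i, (R i).card = X) → ∀ I : Finset ι, Sieved m X (c / (5 * m)) R I := by
  obtain ⟨c0, hc0, hM⟩ := mertens_prod
  refine ⟨min c0 1, lt_min hc0 one_pos, min_le_right _ _, ?_⟩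
  intro m hm X ι _ R hX I
  have hm' : (2 : ℝ) ≤ m := by exact_mod_cast hm
  obtain ⟨N, hN⟩ : ∃ N, N = ⌊Real.exp (4 * (m : ℝ) + 29 / 50) + 1⌋₊ := ⟨_, rfl⟩
  have hexp1 : 1 ≤ Real.exp (4 * (m : ℝ) + 29 / 50) := Real.one_le_exp (by positivity)
  have hN2 : 2 ≤ N := by
    rw [hN]
    apply Nat.le_floor
    push_cast
    linarith
  have hNr : (N : ℝ) ≤ Real.exp (4 * (m : ℝ) + 29 / 50) + 1 := by
    rw [hN]; exact Nat.floor_le (by positivity)
  have hNr2 : (2 : ℝ) ≤ N := by exact_mod_cast hN2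
  have hlogN : Real.log N ≤ 5 * m := by
    rw [Real.log_le_iff_le_exp (by linarith)]
    refine hNr.trans ?_
    have h3 : Real.exp (5 * (m : ℝ)) = Real.exp (4 * (m : ℝ) + 29 / 50) * Real.exp (m - 29 / 50) := by
      rw [← Real.exp_add]; congr 1; ring
    rw [h3]
    have h4 : (m : ℝ) - 29 / 50 + 1 ≤ Real.exp (m - 29 / 50) := Real.add_one_le_exp _
    nlinarith
  have hlogN0 : 0 < Real.log N := Real.log_pos (by linarith)
  obtain ⟨W, hW⟩ : ∃ W : Finset (ι × ℤ), W = I.biUnion (fun i => (R i).image (fun x => (i, x))) := ⟨_, rfl⟩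
  have hWmem : ∀ c ∈ W, c.1 ∈ I ∧ c.2 ∈ R c.1 := by
    intro c hc
    rw [hW, Finset.mem_biUnion] at hc
    obtain ⟨i, hi, hc⟩ := hc
    rw [Finset.mem_image] at hc
    obtain ⟨x, hx, rfl⟩ := hc
    exact ⟨hi, hx⟩
  have hWc : W.card = I.card * X := by
    rw [hW, Finset.card_biUnion]
    · have h2 : ∀ i ∈ I, ((R i).image (fun x => (i, x))).card = X := by
        intro i _
        rw [Finset.card_image_of_injective _ (fun a b h => (Prod.ext_iff.1 h).2)]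
        exact hX i
      rw [Finset.sum_congr rfl h2, Finset.sum_const, smul_eq_mul]
    · intro i _ j _ hij
      rw [Function.onFun, Finset.disjoint_left]
      intro c hc hc'
      rw [Finset.mem_image] at hc hc'
      obtain ⟨x, _, rfl⟩ := hc
      obtain ⟨y, _, h⟩ := hc'
      exact hij (Prod.ext_iff.1 h).1.symm
  obtain ⟨V, hVW, hV1, hV2⟩ := greedyF (fun c : ι × ℤ => c.2) W ((Icc 1 N).filter Nat.Prime)
    (fun p hp => (Finset.mem_filter.1 hp).2)
  refine ⟨V, fun c hc => hWmem c (hVW hc), ?_, ?_⟩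
  · refine le_trans ?_ hV2
    have h1 : min c0 1 / (5 * (m : ℝ)) ≤ ∏ p ∈ (Icc 1 N).filter Nat.Prime, (1 - 1 / (p : ℝ)) := by
      refine le_trans ?_ (hM N hN2)
      calc min c0 1 / (5 * (m : ℝ)) ≤ c0 / (5 * (m : ℝ)) :=
            div_le_div_of_nonneg_right (min_le_left _ _) (by positivity)
        _ ≤ c0 / Real.log N := div_le_div_of_nonneg_left hc0.le hlogN0 hlogN
    have h2 : (W.card : ℝ) = I.card * X := by rw [hWc]; push_cast; rfl
    rw [h2]
    calc min c0 1 / (5 * (m : ℝ)) * I.card * X = (I.card * X : ℝ) * (min c0 1 / (5 * (m : ℝ))) := by ring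
      _ ≤ _ := mul_le_mul_of_nonneg_left h1 (by positivity)
  · intro p hp hpl
    exact hV1 p (Finset.mem_filter.2 ⟨Finset.mem_Icc.2 ⟨hp.one_lt.le, by rw [hN]; exact Nat.le_floor hpl⟩, hp⟩)

open Classical in
/-- random transversals -/
theorem trans_main (δ : ℝ) (hδ : 0 < δ) : ∃ C : ℝ, 0 < C ∧ ∀ (k t : ℕ) (R : Fin t → Finset ℤ), 1 ≤ k →
    (∀ i, Real.exp ((4 + δ) * k + C) ≤ (R i).card) →
    (((Fintype.piFinset R).filter (fun g => ¬ HasPat k univ g)).card : ℝ) ≤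
      2 * Real.exp (-(t / (C * (k : ℝ) ^ 3))) * ∏ i, ((R i).card : ℝ) ∧
    ((∀ p : ℕ, p.Prime → (p : ℝ) ≤ Real.exp ((4 + δ) * k + C) → ∃ r : ℤ, ∀ i, ∀ x ∈ R i, ¬ (p : ℤ) ∣ r + x) →
      (((Fintype.piFinset R).filter (fun g => ¬ HasPat k univ g)).card : ℝ) ≤
        2 * Real.exp (-(t / (C * (k : ℝ) ^ 2))) * ∏ i, ((R i).card : ℝ)) := by
  obtain ⟨c', hc'0, hc'1, hgen⟩ := sieved_gen
  obtain ⟨d, hd0, hd1, hdδ⟩ : ∃ d : ℝ, 0 < d ∧ d ≤ 1 ∧ d ≤ δ :=
    ⟨min 1 δ, lt_min one_pos hδ, min_le_left _ _, min_le_right _ _⟩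
  obtain ⟨A, hA⟩ : ∃ A : ℕ, A = ⌈100000000000 / d ^ 2⌉₊ := ⟨_, rfl⟩
  have hAr : 100000000000 / d ^ 2 ≤ A := by rw [hA]; exact Nat.le_ceil _
  have hd2 : d ^ 2 ≤ 1 := pow_le_one₀ hd0.le hd1
  have hd2p : 0 < d ^ 2 := by positivity
  have hA1 : (1 : ℝ) ≤ A := by
    refine le_trans ?_ hAr
    rw [le_div_iff₀ hd2p]
    linarith
  have hAp : (0 : ℝ) < A := by linarith
  obtain ⟨q, hq⟩ : ∃ q : ℝ, q = (d ^ 2 / 153600000) ^ 2 / 2 := ⟨_, rfl⟩
  have hq0 : 0 < q := by rw [hq]; positivity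
  obtain ⟨C, hC⟩ : ∃ C : ℝ, C = 2000000 * A / (c' * q) + 402 / (c' * d) + 20 := ⟨_, rfl⟩
  have hCa : 2000000 * A / (c' * q) ≤ C := by
    rw [hC]
    have : 0 ≤ 402 / (c' * d) := by positivity
    linarith
  have hCb : 402 / (c' * d) + 20 ≤ C := by
    rw [hC]
    have : 0 ≤ 2000000 * A / (c' * q) := by positivity
    linarith
  have hC0 : 0 < C := by
    have : 0 ≤ 402 / (c' * d) := by positivity
    linarith
  refine ⟨C, hC0, ?_⟩
  intro k t R hk hR
  have hk' : (1 : ℝ) ≤ k := by exact_mod_cast hk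
  obtain ⟨m, hm⟩ : ∃ m : ℕ, m = ⌈(1 + d / 8) * k⌉₊ + 2 := ⟨_, rfl⟩
  have hm2 : 2 ≤ m := by omega
  have hm2r : (2 : ℝ) ≤ m := by exact_mod_cast hm2
  have hmu : (m : ℝ) ≤ (1 + d / 8) * k + 3 := by
    rw [hm]; push_cast
    have := (Nat.ceil_lt_add_one (a := (1 + d / 8) * (k : ℝ)) (by positivity)).le
    linarith
  have hm5 : (m : ℝ) ≤ 5 * k := by nlinarith
  have hmk : 4 * (m : ℝ) + 29 / 50 ≤ (4 + d / 2) * k + 13 := by linarith
  -- the bound for the sizes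
  have hexp : Real.exp (4 * (m : ℝ) + 29 / 50) ≤ Real.exp ((4 + d / 2) * k + 13) := Real.exp_le_exp.2 hmk
  have hK : (⌈Real.exp (4 * (m : ℝ) + 29 / 50)⌉₊ : ℝ) ≤ 2 * Real.exp ((4 + d / 2) * k + 13) := by
    have h1 := (K1_prop m hm2).2.2
    have h2 : 1 ≤ Real.exp (4 * (m : ℝ) + 29 / 50) := Real.one_le_exp (by positivity)
    linarith
  have hkd : (k : ℝ) ≤ 2 / d * Real.exp (d / 2 * k) := by
    have h1 := Real.add_one_le_exp (d / 2 * (k : ℝ))
    have h2 : d / 2 * k ≤ Real.exp (d / 2 * k) := by linarith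
    calc (k : ℝ) = 2 / d * (d / 2 * k) := by field_simp
      _ ≤ _ := mul_le_mul_of_nonneg_left h2 (by positivity)
  have hsize : ∀ ρ : ℝ, c' / (25 * k) ≤ ρ → 0 < ρ →
      4 * (⌈Real.exp (4 * (m : ℝ) + 29 / 50)⌉₊ : ℝ) / ρ + 1 ≤ Real.exp ((4 + δ) * k + C) := by
    intro ρ hρ hρ0
    have h1 : 1 / ρ ≤ 25 * k / c' := by
      rw [div_le_div_iff₀ hρ0 hc'0]
      rw [div_le_iff₀ (by positivity)] at hρ
      linarith
    have h2 : 4 * (⌈Real.exp (4 * (m : ℝ) + 29 / 50)⌉₊ : ℝ) / ρ ≤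
        (8 * Real.exp ((4 + d / 2) * k + 13)) * (25 * k / c') := by
      calc 4 * (⌈Real.exp (4 * (m : ℝ) + 29 / 50)⌉₊ : ℝ) / ρ =
            (4 * (⌈Real.exp (4 * (m : ℝ) + 29 / 50)⌉₊ : ℝ)) * (1 / ρ) := by ring
        _ ≤ _ := mul_le_mul (by linarith) h1 (by positivity) (by positivity)
    have h3 : (8 * Real.exp ((4 + d / 2) * k + 13)) * (25 * k / c') ≤
        400 / (c' * d) * Real.exp ((4 + d) * k + 13) := by
      have e1 : Real.exp ((4 + d) * (k : ℝ) + 13) = Real.exp ((4 + d / 2) * k + 13) * Real.exp (d / 2 * k) := by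
        rw [← Real.exp_add]; congr 1; ring
      rw [e1]
      calc (8 * Real.exp ((4 + d / 2) * k + 13)) * (25 * k / c') =
            (200 / c' * Real.exp ((4 + d / 2) * k + 13)) * k := by ring
        _ ≤ (200 / c' * Real.exp ((4 + d / 2) * k + 13)) * (2 / d * Real.exp (d / 2 * k)) :=
            mul_le_mul_of_nonneg_left hkd (by positivity)
        _ = _ := by field_simp; ring
    have h4 : 1 ≤ 2 / (c' * d) * Real.exp ((4 + d) * k + 13) := by
      have h5 : 1 ≤ Real.exp ((4 + d) * (k : ℝ) + 13) := Real.one_le_exp (by positivity)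
      have h6 : 1 ≤ 2 / (c' * d) := by
        rw [le_div_iff₀ (by positivity)]
        nlinarith
      calc (1 : ℝ) = 1 * 1 := by ring
        _ ≤ _ := mul_le_mul h6 h5 (by norm_num) (by positivity)
    have h5 : 400 / (c' * d) * Real.exp ((4 + d) * k + 13) + 2 / (c' * d) * Real.exp ((4 + d) * k + 13) =
        402 / (c' * d) * Real.exp ((4 + d) * k + 13) := by ring
    have h6 : 402 / (c' * d) ≤ Real.exp (402 / (c' * d)) := by
      have := Real.add_one_le_exp (402 / (c' * d))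
      linarith
    calc 4 * (⌈Real.exp (4 * (m : ℝ) + 29 / 50)⌉₊ : ℝ) / ρ + 1
        ≤ 402 / (c' * d) * Real.exp ((4 + d) * k + 13) := by linarith
      _ ≤ Real.exp (402 / (c' * d)) * Real.exp ((4 + d) * k + 13) :=
          mul_le_mul_of_nonneg_right h6 (Real.exp_pos _).le
      _ = Real.exp (402 / (c' * d) + ((4 + d) * k + 13)) := by rw [← Real.exp_add]
      _ ≤ _ := by
          apply Real.exp_le_exp.2
          nlinarith
  have hceil : ∀ ρ : ℝ, c' / (25 * k) ≤ ρ → 0 < ρ → ∀ i,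
      ⌈4 * (⌈Real.exp (4 * (m : ℝ) + 29 / 50)⌉₊ : ℝ) / ρ⌉₊ ≤ (R i).card := by
    intro ρ hρ hρ0 i
    have h1 := (Nat.ceil_lt_add_one (a := 4 * (⌈Real.exp (4 * (m : ℝ) + 29 / 50)⌉₊ : ℝ) / ρ) (by positivity)).le
    have h2 := (h1.trans (hsize ρ hρ hρ0)).trans (hR i)
    exact_mod_cast h2
  have hprod : 0 ≤ ∏ i, ((R i).card : ℝ) := Finset.prod_nonneg fun i _ => Nat.cast_nonneg _
  have hCq : 2000000 * A ≤ C * (c' * q) := by
    rwa [div_le_iff₀ (by positivity)] at hCa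
  have ht0r : (0 : ℝ) ≤ t := Nat.cast_nonneg _
  have hAm : (1 : ℝ) ≤ A * (k : ℝ) ^ 2 := by nlinarith [sq_nonneg (k : ℝ)]
  constructor
  · have hρ0 : 0 < c' / (5 * (m : ℝ)) := by positivity
    have hρ1 : c' / (5 * (m : ℝ)) ≤ 1 := by
      rw [div_le_one (by positivity)]; linarith
    have hρ2 : c' / (25 * (k : ℝ)) ≤ c' / (5 * (m : ℝ)) :=
      div_le_div_of_nonneg_left hc'0.le (by positivity) (by linarith)
    have h1 := main_rho d hd0 hd1 A hAr k m hk hm (c' / (5 * m)) hρ0 hρ1 t R (hceil _ hρ2 hρ0)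
      (fun R' _ hR'c I => hgen m hm2 _ R' hR'c I)
    refine h1.trans ?_
    apply mul_le_mul_of_nonneg_right _ hprod
    apply mul_le_mul_of_nonneg_left _ (by norm_num)
    apply Real.exp_le_exp.2
    apply neg_le_neg
    rw [← hq]
    obtain ⟨t0, ht0⟩ : ∃ t0 : ℝ, t0 = (⌈3000 * (A : ℝ) * (m : ℝ) ^ 2 / (c' / (5 * m))⌉₊ : ℝ) := ⟨_, rfl⟩
    rw [← ht0]
    have h2 : t0 ≤ 3000 * (A : ℝ) * (m : ℝ) ^ 2 / (c' / (5 * m)) + 1 := by
      rw [ht0]; exact (Nat.ceil_lt_add_one (by positivity)).le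
    have h3 : 0 < t0 := by
      rw [ht0]
      have h9 : 0 < ⌈3000 * (A : ℝ) * (m : ℝ) ^ 2 / (c' / (5 * m))⌉₊ := Nat.ceil_pos.2 (by positivity)
      exact_mod_cast h9
    have h4 : t0 * c' ≤ 1900000 * A * (k : ℝ) ^ 3 := by
      have e1 : 3000 * (A : ℝ) * (m : ℝ) ^ 2 / (c' / (5 * m)) * c' = 15000 * A * (m : ℝ) ^ 3 := by
        field_simp
        ring
      have h5 : (m : ℝ) ^ 3 ≤ 125 * (k : ℝ) ^ 3 := by
        have := pow_le_pow_left₀ (by linarith : (0 : ℝ) ≤ m) hm5 3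
        calc (m : ℝ) ^ 3 ≤ (5 * (k : ℝ)) ^ 3 := this
          _ = _ := by ring
      have h6 : (A : ℝ) * (m : ℝ) ^ 3 ≤ A * (125 * (k : ℝ) ^ 3) := mul_le_mul_of_nonneg_left h5 (by linarith)
      have h7 : (1 : ℝ) ≤ A * (k : ℝ) ^ 3 := by
        have h8 : (1 : ℝ) ≤ (k : ℝ) ^ 3 := one_le_pow₀ hk'
        nlinarith
      calc t0 * c' ≤ (3000 * (A : ℝ) * (m : ℝ) ^ 2 / (c' / (5 * m)) + 1) * c' :=
            mul_le_mul_of_nonneg_right h2 hc'0.le
        _ = 15000 * A * (m : ℝ) ^ 3 + c' := by rw [add_mul, e1, one_mul]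
        _ ≤ _ := by nlinarith
    have h5 : (t : ℝ) / (C * (k : ℝ) ^ 3) ≤ t / (t0 / q) := by
      apply div_le_div_of_nonneg_left ht0r (by positivity)
      rw [div_le_iff₀ hq0]
      have h6 : t0 * c' ≤ C * (k : ℝ) ^ 3 * q * c' := by
        refine h4.trans ?_
        have h7 : 2000000 * A * (k : ℝ) ^ 3 ≤ C * (c' * q) * (k : ℝ) ^ 3 :=
          mul_le_mul_of_nonneg_right hCq (by positivity)
        have h8 : 0 ≤ (A : ℝ) * (k : ℝ) ^ 3 := by positivity
        nlinarith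
      exact le_of_mul_le_mul_right h6 hc'0
    refine h5.trans (le_of_eq ?_)
    field_simp
  · intro hadm
    have hρ2 : c' / (25 * (k : ℝ)) ≤ 1 := by
      rw [div_le_one (by positivity)]; linarith
    have h1 := main_rho d hd0 hd1 A hAr k m hk hm 1 one_pos le_rfl t R (hceil _ hρ2 one_pos)
      (fun R' hR' hR'c I => sieved_adm m _ R' hR'c I (by
        intro p hp hpl
        obtain ⟨r, hr⟩ := hadm p hp (by
          refine hpl.trans ?_
          have h2 := hsize 1 hρ2 one_pos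
          rw [div_one] at h2
          have h3 := Nat.le_ceil (Real.exp (4 * (m : ℝ) + 29 / 50))
          have h4 : (0 : ℝ) ≤ (⌈Real.exp (4 * (m : ℝ) + 29 / 50)⌉₊ : ℝ) := Nat.cast_nonneg _
          linarith)
        exact ⟨r, fun i x hx => hr i x (hR' i hx)⟩))
    refine h1.trans ?_
    apply mul_le_mul_of_nonneg_right _ hprod
    apply mul_le_mul_of_nonneg_left _ (by norm_num)
    apply Real.exp_le_exp.2
    apply neg_le_neg
    rw [← hq]
    obtain ⟨t0, ht0⟩ : ∃ t0 : ℝ, t0 = (⌈3000 * (A : ℝ) * (m : ℝ) ^ 2 / 1⌉₊ : ℝ) := ⟨_, rfl⟩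
    rw [← ht0]
    have h2 : t0 ≤ 3000 * (A : ℝ) * (m : ℝ) ^ 2 / 1 + 1 := by
      rw [ht0]; exact (Nat.ceil_lt_add_one (by positivity)).le
    have h3 : 0 < t0 := by
      rw [ht0]
      have h9 : 0 < ⌈3000 * (A : ℝ) * (m : ℝ) ^ 2 / 1⌉₊ := Nat.ceil_pos.2 (by positivity)
      exact_mod_cast h9
    have h4 : t0 ≤ 80000 * A * (k : ℝ) ^ 2 := by
      have h5 : (m : ℝ) ^ 2 ≤ 25 * (k : ℝ) ^ 2 := by
        have := pow_le_pow_left₀ (by linarith : (0 : ℝ) ≤ m) hm5 2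
        calc (m : ℝ) ^ 2 ≤ (5 * (k : ℝ)) ^ 2 := this
          _ = _ := by ring
      have h6 : (A : ℝ) * (m : ℝ) ^ 2 ≤ A * (25 * (k : ℝ) ^ 2) := mul_le_mul_of_nonneg_left h5 (by linarith)
      rw [div_one] at h2
      nlinarith
    have h5 : (t : ℝ) / (C * (k : ℝ) ^ 2) ≤ t / (t0 / q) := by
      apply div_le_div_of_nonneg_left ht0r (by positivity)
      rw [div_le_iff₀ hq0]
      have h6 : t0 * c' ≤ C * (k : ℝ) ^ 2 * q * c' := by
        have h7 : 2000000 * A * (k : ℝ) ^ 2 ≤ C * (c' * q) * (k : ℝ) ^ 2 :=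
          mul_le_mul_of_nonneg_right hCq (by positivity)
        have h8 : 0 ≤ (A : ℝ) * (k : ℝ) ^ 2 := by positivity
        have h9 : t0 * c' ≤ t0 * 1 := mul_le_mul_of_nonneg_left hc'1 h3.le
        nlinarith
      exact le_of_mul_le_mul_right h6 hc'0
    refine h5.trans (le_of_eq ?_)
    field_simp

end Pool.Agent.H522
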