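import Mathlib
import Pool.Agent.H522.Trans4
import Pool.Agent.H522.ExactOrbits

/-! H522: random transversals, generic version. -/

set_option autoImplicit false

open Finset

namespace Pool.Agent.H522

variable {β : Type} [DecidableEq β]

/-- the existence of spread measures on all sets of bounded size -/
def HasSP0 (Gd : Finset β → Prop) : Prop := ∀ (m : ℕ) (T : Finset β), 2 ≤ m →
    4 * (m : ℝ) + 29 / 50 ≤ Real.log T.card → Real.log T.card ≤ 5 * m →
    ∃ lam : Finset β → ℝ, (∀ S, 0 ≤ lam S) ∧ (∀ S, lam S ≠ 0 → Gd S) ∧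
      ∑ S ∈ T.powerset, lam S ≤ 1 ∧
      (∀ v ∈ T, (m : ℝ) / T.card ≤ ∑ S ∈ T.powerset.filter (fun S => v ∈ S), lam S) ∧
      ∀ U : Finset β, U ⊆ T → U.Nonempty → ∑ S ∈ T.powerset.filter (fun S => U ⊆ S), lam S ≤
        (250 * U.card * m / T.card) ^ U.card

/-- the measure on the transversals of a family of disjoint groups -/
theorem spread_groupsG {α : Type} [DecidableEq α] {Gd : Finset β → Prop} (hsp : HasSP0 Gd) (m : ℕ) (hm : 2 ≤ m)
    (f : α → β) (g : ℕ) (hg : 1 ≤ g)
    (G : Fin ⌈Real.exp (4 * (m : ℝ) + 29 / 50)⌉₊ → Finset α) (hcard : ∀ j, (G j).card = g)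
    (hdis : ∀ i j, i ≠ j → ∀ x ∈ G i, ∀ y ∈ G j, f x ≠ f y) :
    ∃ lam : Finset α → ℝ, SM m (univ.biUnion G) lam ∧ ∀ B, lam B ≠ 0 → B ⊆ univ.biUnion G ∧
      Gd (B.image f) ∧ ∀ x ∈ B, ∀ y ∈ B, f x = f y → x = y := by
  classical
  have hm' : (2 : ℝ) ≤ m := by exact_mod_cast hm
  obtain ⟨hK1, hK2, hK3⟩ := K1_prop m hm
  obtain ⟨K1, hK1def⟩ : ∃ K1 : ℕ, K1 = ⌈Real.exp (4 * (m : ℝ) + 29 / 50)⌉₊ := ⟨_, rfl⟩
  rw [← hK1def] at hK1 hK2 hK3
  have hK1pos : 1 ≤ K1 := by
    rw [hK1def, Nat.one_le_ceil_iff]; exact Real.exp_pos _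
  have hK1r : (0 : ℝ) < K1 := by exact_mod_cast hK1pos
  have hgr : (0 : ℝ) < g := by exact_mod_cast hg
  revert G
  rw [← hK1def]
  intro G hcard hdis
  -- the transversals
  obtain ⟨𝓣, h𝓣⟩ : ∃ 𝓣, 𝓣 = Fintype.piFinset G := ⟨_, rfl⟩
  have hmem : ∀ T ∈ 𝓣, ∀ j, T j ∈ G j := by
    intro T hT j
    rw [h𝓣, Fintype.mem_piFinset] at hT
    exact hT j
  have hN : 𝓣.card = g ^ K1 := by
    rw [h𝓣, Fintype.card_piFinset]
    simp [hcard]
  have hNr : (𝓣.card : ℝ) = (g : ℝ) ^ K1 := by rw [hN]; push_cast; rfl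
  have hNpos : (0 : ℝ) < 𝓣.card := by rw [hNr]; positivity
  have hinj : ∀ T ∈ 𝓣, Function.Injective (fun j => f (T j)) := by
    intro T hT i j hij
    by_contra hne
    exact hdis i j hne _ (hmem T hT i) _ (hmem T hT j) hij
  have hTc : ∀ T ∈ 𝓣, (univ.image (fun j => f (T j))).card = K1 := by
    intro T hT
    rw [Finset.card_image_of_injective _ (hinj T hT), Finset.card_univ, Fintype.card_fin]
  have hex : ∀ T ∈ 𝓣, ∃ lam : Finset β → ℝ, (∀ B, 0 ≤ lam B) ∧
      (∀ B, lam B ≠ 0 → Gd B) ∧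
      ∑ B ∈ (univ.image (fun j => f (T j))).powerset, lam B ≤ 1 ∧
      (∀ v ∈ univ.image (fun j => f (T j)), (m : ℝ) / K1 ≤
        ∑ B ∈ (univ.image (fun j => f (T j))).powerset.filter (fun B => v ∈ B), lam B) ∧
      ∀ U : Finset β, U ⊆ univ.image (fun j => f (T j)) → U.Nonempty →
        ∑ B ∈ (univ.image (fun j => f (T j))).powerset.filter (fun B => U ⊆ B), lam B ≤
        (250 * U.card * m / K1) ^ U.card := by
    intro T hT
    have h1 := hsp m (univ.image (fun j => f (T j))) hm (by rw [hTc T hT]; exact hK1)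
      (by rw [hTc T hT]; exact hK2)
    rw [hTc T hT] at h1
    exact h1
  choose! L hL0 hL1 hL2 hL3 hL4 using hex
  -- the family
  obtain ⟨V, hV⟩ : ∃ V, V = univ.biUnion G := ⟨_, rfl⟩
  have hVc : V.card = K1 * g := by
    rw [hV, Finset.card_biUnion]
    · simp [hcard]
    · intro i _ j _ hij
      rw [Function.onFun, Finset.disjoint_left]
      intro x hx hy
      exact hdis i j hij x hx x hy rfl
  have hVr : (V.card : ℝ) = K1 * g := by rw [hVc]; push_cast; rfl
  rw [← hV]
  obtain ⟨O, hO⟩ : ∃ O : Finset ((_ : Fin K1 → α) × Finset β), O = 𝓣.sigma (fun T =>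
    (univ.image (fun j => f (T j))).powerset) := ⟨_, rfl⟩
  obtain ⟨w, hw⟩ : ∃ w : ((_ : Fin K1 → α) × Finset β) → ℝ, ∀ ω, w ω = L ω.1 ω.2 / 𝓣.card := ⟨_, fun _ => rfl⟩
  obtain ⟨S, hS⟩ : ∃ S : ((_ : Fin K1 → α) × Finset β) → Finset α, ∀ ω, S ω =
    (univ.image ω.1).filter (fun a => f a ∈ ω.2) := ⟨_, fun _ => rfl⟩
  have hOmem : ∀ ω ∈ O, ω.1 ∈ 𝓣 ∧ ω.2 ⊆ univ.image (fun j => f (ω.1 j)) := by
    intro ω hω
    rw [hO, Finset.mem_sigma, Finset.mem_powerset] at hω
    exact hω
  have hsplit : ∀ (q : ((_ : Fin K1 → α) × Finset β) → Prop) [DecidablePred q],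
      ∑ ω ∈ O.filter q, w ω = ∑ T ∈ 𝓣, ∑ B ∈ (univ.image (fun j => f (T j))).powerset,
        if q ⟨T, B⟩ then L T B / 𝓣.card else 0 := by
    intro q _
    rw [Finset.sum_filter, hO, Finset.sum_sigma]
    refine Finset.sum_congr rfl fun T _ => Finset.sum_congr rfl fun B _ => ?_
    rw [hw]
  have hSM := SM.of_family m hm V (by rw [hVc]; exact Nat.mul_pos (by omega) (by omega)) O w S (by
      intro ω hω
      rw [hw]
      exact div_nonneg (hL0 ω.1 (hOmem ω hω).1 _) hNpos.le) (by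
      intro ω hω x hx
      rw [hS, Finset.mem_filter, Finset.mem_image] at hx
      obtain ⟨⟨j, -, rfl⟩, _⟩ := hx
      rw [hV, Finset.mem_biUnion]
      exact ⟨j, Finset.mem_univ _, hmem _ (hOmem ω hω).1 j⟩) (by
      have h1 := hsplit (fun _ => True)
      simp only [Finset.filter_true, if_true] at h1
      rw [h1]
      have h2 : ∀ T ∈ 𝓣, ∑ B ∈ (univ.image (fun j => f (T j))).powerset, L T B / 𝓣.card ≤ 1 / 𝓣.card := by
        intro T hT
        rw [← Finset.sum_div]
        exact div_le_div_of_nonneg_right (hL2 T hT) hNpos.le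
      refine (Finset.sum_le_sum h2).trans ?_
      rw [Finset.sum_const, nsmul_eq_mul]
      rw [mul_one_div, div_self hNpos.ne']) (by
      -- the marginals
      intro v hv
      rw [hV, Finset.mem_biUnion] at hv
      obtain ⟨j0, -, hj0⟩ := hv
      rw [hsplit (fun ω => v ∈ S ω)]
      have h1 : ∀ T ∈ 𝓣, (if T j0 = v then (m : ℝ) / K1 / 𝓣.card else 0) ≤
          ∑ B ∈ (univ.image (fun j => f (T j))).powerset, if v ∈ S ⟨T, B⟩ then L T B / 𝓣.card else 0 := by
        intro T hT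
        split_ifs with h2
        · have h3 := hL3 T hT (f v) (Finset.mem_image.2 ⟨j0, Finset.mem_univ _, by rw [h2]⟩)
          have h4 : ∑ B ∈ (univ.image (fun j => f (T j))).powerset, (if v ∈ S ⟨T, B⟩ then L T B / 𝓣.card else 0) =
              (∑ B ∈ (univ.image (fun j => f (T j))).powerset.filter (fun B => f v ∈ B), L T B) / 𝓣.card := by
            rw [Finset.sum_div, Finset.sum_filter]
            refine Finset.sum_congr rfl fun B _ => ?_
            have h5 : v ∈ S ⟨T, B⟩ ↔ f v ∈ B := by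
              rw [hS, Finset.mem_filter]
              exact ⟨fun h => h.2, fun h => ⟨Finset.mem_image.2 ⟨j0, Finset.mem_univ _, h2⟩, h⟩⟩
            simp only [h5]
          rw [h4]
          exact div_le_div_of_nonneg_right h3 hNpos.le
        · apply Finset.sum_nonneg
          intro B _
          split_ifs
          · exact div_nonneg (hL0 T hT B) hNpos.le
          · exact le_rfl
      refine le_trans ?_ (Finset.sum_le_sum h1)
      rw [← Finset.sum_filter, Finset.sum_const, nsmul_eq_mul]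
      -- the number of transversals through `v`
      have h2 := pi_count_ge G g hcard {(j0, v)} (by
        intro c hc
        rw [Finset.mem_singleton] at hc
        rw [hc]
        exact hj0) (by
        intro c hc c' hc' _
        rw [Finset.mem_singleton] at hc hc'
        rw [hc, hc'])
      have h3 : thru G {(j0, v)} = 𝓣.filter (fun T => T j0 = v) := by
        ext T
        rw [mem_thru, Finset.mem_filter, h𝓣, Fintype.mem_piFinset]
        constructor
        · rintro ⟨h4, h5⟩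
          exact ⟨h4, h5 (j0, v) (Finset.mem_singleton_self _)⟩
        · rintro ⟨h4, h5⟩
          refine ⟨h4, fun c hc => ?_⟩
          rw [Finset.mem_singleton] at hc
          rw [hc]
          exact h5
      rw [h3, Finset.card_singleton, pow_one, Fintype.card_fin, ← hN] at h2
      have h4 : (𝓣.card : ℝ) ≤ ((𝓣.filter (fun T => T j0 = v)).card : ℝ) * g := by exact_mod_cast h2
      rw [hVr]
      rw [div_le_iff₀ (by positivity)]
      obtain ⟨a, ha⟩ : ∃ a : ℝ, a = ((𝓣.filter (fun T => T j0 = v)).card : ℝ) := ⟨_, rfl⟩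
      obtain ⟨N, hNd⟩ : ∃ N : ℝ, N = (𝓣.card : ℝ) := ⟨_, rfl⟩
      rw [← ha, ← hNd] at h4 ⊢
      rw [← hNd] at hNpos
      have h5 : (m : ℝ) = N * (m / N) := by field_simp
      calc (m : ℝ) = N * (m / N) := h5
        _ ≤ (a * g) * (m / N) :=
          mul_le_mul_of_nonneg_right h4 (by positivity)
        _ = a * ((m : ℝ) / K1 / N) * (K1 * g) := by
          field_simp) (by
      -- the correlations
      intro U hU hUn
      rw [hsplit (fun ω => U ⊆ S ω)]
      have h1 : ∀ T ∈ 𝓣, (∑ B ∈ (univ.image (fun j => f (T j))).powerset,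
          if U ⊆ S ⟨T, B⟩ then L T B / 𝓣.card else 0) ≤
          if U ⊆ univ.image T then (250 * (U.card : ℝ) * m / K1) ^ U.card / 𝓣.card else 0 := by
        intro T hT
        split_ifs with h2
        · have hUi : (U.image f).card = U.card := by
            apply Finset.card_image_of_injOn
            intro x hx y hy hxy
            obtain ⟨i, -, rfl⟩ := Finset.mem_image.1 (h2 hx)
            obtain ⟨j, -, rfl⟩ := Finset.mem_image.1 (h2 hy)
            rw [hinj T hT hxy]
          have h3 := hL4 T hT (U.image f) (by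
            intro y hy
            rw [Finset.mem_image] at hy
            obtain ⟨x, hx, rfl⟩ := hy
            obtain ⟨i, -, rfl⟩ := Finset.mem_image.1 (h2 hx)
            exact Finset.mem_image.2 ⟨i, Finset.mem_univ _, rfl⟩) (hUn.image f)
          rw [hUi] at h3
          refine le_trans ?_ (div_le_div_of_nonneg_right h3 hNpos.le)
          rw [Finset.sum_div, Finset.sum_filter]
          refine Finset.sum_le_sum fun B _ => ?_
          by_cases h4 : U ⊆ S ⟨T, B⟩
          · rw [if_pos h4, if_pos]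
            intro y hy
            rw [Finset.mem_image] at hy
            obtain ⟨x, hx, rfl⟩ := hy
            have h5 := h4 hx
            rw [hS, Finset.mem_filter] at h5
            exact h5.2
          · rw [if_neg h4]
            split_ifs
            · exact div_nonneg (hL0 T hT B) hNpos.le
            · exact le_rfl
        · apply le_of_eq
          apply Finset.sum_eq_zero
          intro B _
          rw [if_neg]
          intro h4
          apply h2
          refine h4.trans ?_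
          rw [hS]
          exact Finset.filter_subset _ _
      refine (Finset.sum_le_sum h1).trans ?_
      rw [← Finset.sum_filter, Finset.sum_const, nsmul_eq_mul]
      -- the number of transversals through `U`
      have hidx : ∀ u : α, ∃ j : Fin K1, u ∈ U → u ∈ G j := by
        intro u
        by_cases hu : u ∈ U
        · have := hU hu
          rw [hV, Finset.mem_biUnion] at this
          obtain ⟨j, -, hj⟩ := this
          exact ⟨j, fun _ => hj⟩
        · exact ⟨⟨0, by omega⟩, fun h => absurd h hu⟩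
      choose idx hidx using hidx
      have h2 := pi_count_le G g hcard (U.image (fun u => (idx u, u)))
      have h3 : (U.image (fun u => (idx u, u))).card = U.card :=
        Finset.card_image_of_injective _ (fun a b h => (Prod.ext_iff.1 h).2)
      rw [h3, Fintype.card_fin, ← hN] at h2
      have h4 : 𝓣.filter (fun T => U ⊆ univ.image T) ⊆ thru G (U.image (fun u => (idx u, u))) := by
        intro T hT
        rw [Finset.mem_filter] at hT
        rw [mem_thru]
        refine ⟨hmem T hT.1, fun c hc => ?_⟩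
        rw [Finset.mem_image] at hc
        obtain ⟨u, hu, rfl⟩ := hc
        obtain ⟨j, -, hj⟩ := Finset.mem_image.1 (hT.2 hu)
        have h5 : j = idx u := by
          by_contra hne
          exact hdis j (idx u) hne u (by rw [← hj]; exact hmem T hT.1 j) u (hidx u hu) rfl
        change T (idx u) = u
        rw [← h5]
        exact hj
      have h5 : ((𝓣.filter (fun T => U ⊆ univ.image T)).card : ℝ) * (g : ℝ) ^ U.card ≤ 𝓣.card := by
        have := (Nat.mul_le_mul_right (g ^ U.card) (Finset.card_le_card h4)).trans h2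
        exact_mod_cast this
      rw [hVr]
      have e1 : (250 * (U.card : ℝ) * m / (K1 * g)) ^ U.card =
          (250 * (U.card : ℝ) * m / K1) ^ U.card / (g : ℝ) ^ U.card := by
        rw [← div_pow]
        congr 1
        field_simp
      rw [e1, le_div_iff₀ (by positivity)]
      calc ((𝓣.filter (fun T => U ⊆ univ.image T)).card : ℝ) *
            ((250 * (U.card : ℝ) * m / K1) ^ U.card / 𝓣.card) * (g : ℝ) ^ U.card
          = (((𝓣.filter (fun T => U ⊆ univ.image T)).card : ℝ) * (g : ℝ) ^ U.card) *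
            ((250 * (U.card : ℝ) * m / K1) ^ U.card / 𝓣.card) := by ring
        _ ≤ (𝓣.card : ℝ) * ((250 * (U.card : ℝ) * m / K1) ^ U.card / 𝓣.card) :=
          mul_le_mul_of_nonneg_right h5 (by positivity)
        _ = _ := by field_simp)
  refine ⟨_, hSM, fun B hB => ?_⟩
  obtain ⟨ω, hω, hω2⟩ := Finset.exists_ne_zero_of_sum_ne_zero hB
  rw [Finset.mem_filter] at hω
  obtain ⟨hω1, hSω⟩ := hω
  obtain ⟨h3, h4⟩ := hOmem ω hω1
  have h5 : L ω.1 ω.2 ≠ 0 := by
    intro h0
    apply hω2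
    rw [hw, h0, zero_div]
  have h6 := hL1 ω.1 h3 ω.2 h5
  have h7 : B.image f = ω.2 := by
    rw [← hSω, hS]
    ext y
    rw [Finset.mem_image]
    constructor
    · rintro ⟨x, hx, rfl⟩
      exact (Finset.mem_filter.1 hx).2
    · intro hy
      obtain ⟨j, -, hj⟩ := Finset.mem_image.1 (h4 hy)
      refine ⟨ω.1 j, Finset.mem_filter.2 ⟨Finset.mem_image.2 ⟨j, Finset.mem_univ _, rfl⟩, ?_⟩, hj⟩
      rw [hj]
      exact hy
  refine ⟨?_, by rw [h7]; exact h6, fun x hx y hy hxy => ?_⟩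
  · intro x hx
    rw [← hSω, hS, Finset.mem_filter] at hx
    obtain ⟨i, -, rfl⟩ := Finset.mem_image.1 hx.1
    rw [hV, Finset.mem_biUnion]
    exact ⟨i, Finset.mem_univ _, hmem ω.1 h3 i⟩
  rw [← hSω, hS, Finset.mem_filter] at hx hy
  obtain ⟨i, -, rfl⟩ := Finset.mem_image.1 hx.1
  obtain ⟨j, -, rfl⟩ := Finset.mem_image.1 hy.1
  rw [hinj ω.1 h3 hxy]


namespace SM

variable {ι : Type} [Fintype ι] [DecidableEq ι] {m : ℕ} {V : Finset (ι × β)} {lam : Finset (ι × β) → ℝ}

/-- distinct elements have distinct first coordinates -/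
def TrG (B : Finset (ι × β)) : Prop := ∀ c ∈ B, ∀ c' ∈ B, c.1 = c'.1 → c = c'

open Classical in
/-- the mass of the sets which are not transversal -/
theorem trans_massG (h : SM m V lam) (R : ι → Finset β) (X : ℕ) (hX : ∀ i, (R i).card = X)
    (hV : ∀ c ∈ V, c.2 ∈ R c.1) :
    ∑ B ∈ V.powerset.filter (fun B => ¬ TrG B), lam B ≤ 250000 * (m : ℝ) ^ 2 * X / V.card := by
  have hVr : (0 : ℝ) < V.card := by exact_mod_cast h.Vpos
  obtain ⟨P, hP⟩ : ∃ P : Finset ((ι × β) × (ι × β)), P = (V ×ˢ V).filter (fun z => z.1 ≠ z.2 ∧ z.1.1 = z.2.1) :=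
    ⟨_, rfl⟩
  have hPc : P.card ≤ V.card * X := by
    have h1 : P.card ≤ (V ×ˢ (range X)).card := by
      -- enumerate each `R i`
      have h2 : ∀ i, ∃ e : β → ℕ, (∀ x ∈ R i, e x < X) ∧ ∀ x ∈ R i, ∀ y ∈ R i, e x = e y → x = y := by
        intro i
        have e0 := (R i).equivFinOfCardEq (hX i)
        refine ⟨fun x => if hx : x ∈ R i then (e0 ⟨x, hx⟩ : ℕ) else 0, ?_, ?_⟩
        · intro x hx
          simp only [dif_pos hx]
          exact (e0 ⟨x, hx⟩).2
        · intro x hx y hy hxy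
          simp only [dif_pos hx, dif_pos hy] at hxy
          have h3 := e0.injective (Fin.ext hxy)
          exact congrArg Subtype.val h3
      choose e he1 he2 using h2
      apply Finset.card_le_card_of_injOn (fun z => (z.1, e z.1.1 z.2.2))
      · rintro ⟨c, c'⟩ hz
        rw [Finset.mem_coe, hP, Finset.mem_filter, Finset.mem_product] at hz
        obtain ⟨⟨h3, h4⟩, h5, h6⟩ := hz
        rw [Finset.mem_coe, Finset.mem_product, Finset.mem_range]
        refine ⟨h3, he1 _ _ ?_⟩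
        have h6' : c.1 = c'.1 := h6
        change c'.2 ∈ R c.1
        rw [h6']
        exact hV c' h4
      · rintro ⟨c, c'⟩ hz ⟨b, b'⟩ hz' he
        rw [Finset.mem_coe, hP, Finset.mem_filter, Finset.mem_product] at hz hz'
        obtain ⟨⟨h3, h4⟩, h5, h6⟩ := hz
        obtain ⟨⟨h3', h4'⟩, h5', h6'⟩ := hz'
        have h6a : c.1 = c'.1 := h6
        have h6b : b.1 = b'.1 := h6'
        have h4a : c' ∈ V := h4
        have h4b : b' ∈ V := h4'
        have e1 : c = b := (Prod.ext_iff.1 he).1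
        have e2 : e c.1 c'.2 = e b.1 b'.2 := (Prod.ext_iff.1 he).2
        subst e1
        have e3 : c'.2 = b'.2 := he2 c.1 _ (by rw [h6a]; exact hV _ h4a) _ (by rw [h6b]; exact hV _ h4b) e2
        have e4 : c' = b' := Prod.ext (by rw [← h6a, ← h6b]) e3
        rw [e4]
    rwa [Finset.card_product, Finset.card_range] at h1
  have h1 : ∑ B ∈ V.powerset.filter (fun B => ¬ TrG B), lam B ≤
      ∑ z ∈ P, ∑ B ∈ V.powerset.filter (fun B => {z.1, z.2} ⊆ B), lam B := by
    simp only [Finset.sum_filter]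
    rw [Finset.sum_comm]
    refine Finset.sum_le_sum fun B hB => ?_
    rw [Finset.mem_powerset] at hB
    by_cases h2 : TrG B
    · rw [if_neg (by rw [not_not]; exact h2)]
      apply Finset.sum_nonneg
      intro z _
      split_ifs
      · exact h.nonneg B
      · exact le_rfl
    · rw [if_pos h2]
      have h2' := h2
      unfold TrG at h2'
      push Not at h2'
      obtain ⟨c, hc, c', hc', h3, h4⟩ := h2'
      have h5 : (c, c') ∈ P := by
        rw [hP, Finset.mem_filter, Finset.mem_product]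
        exact ⟨⟨hB hc, hB hc'⟩, h4, h3⟩
      have h6 := Finset.single_le_sum (f := fun z : (ι × β) × (ι × β) => if {z.1, z.2} ⊆ B then lam B else 0)
        (fun z _ => by
          split_ifs
          · exact h.nonneg B
          · exact le_rfl) h5
      refine le_trans ?_ h6
      have h7 : ({c, c'} : Finset (ι × β)) ⊆ B := by
        intro x hx
        rw [Finset.mem_insert, Finset.mem_singleton] at hx
        rcases hx with rfl | rfl
        · exact hc
        · exact hc'
      simp only [h7, if_true]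
      exact le_rfl
  refine h1.trans ?_
  have h2 : ∀ z ∈ P, ∑ B ∈ V.powerset.filter (fun B => {z.1, z.2} ⊆ B), lam B ≤
      250000 * (m : ℝ) ^ 2 / (V.card : ℝ) ^ 2 := by
    intro z hz
    rw [hP, Finset.mem_filter, Finset.mem_product] at hz
    have h3 := h.sp {z.1, z.2} (by
      intro x hx
      rw [Finset.mem_insert, Finset.mem_singleton] at hx
      rcases hx with rfl | rfl
      · exact hz.1.1
      · exact hz.1.2) (Finset.insert_nonempty _ _)
    rw [Finset.card_pair hz.2.1] at h3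
    refine h3.trans (le_of_eq ?_)
    push_cast
    rw [div_pow]
    congr 1
    ring
  refine (Finset.sum_le_sum h2).trans ?_
  rw [Finset.sum_const, nsmul_eq_mul]
  have h3 : (P.card : ℝ) ≤ V.card * X := by exact_mod_cast hPc
  calc (P.card : ℝ) * (250000 * (m : ℝ) ^ 2 / (V.card : ℝ) ^ 2)
      ≤ (V.card * X) * (250000 * (m : ℝ) ^ 2 / (V.card : ℝ) ^ 2) := mul_le_mul_of_nonneg_right h3 (by positivity)
    _ = _ := by field_simp

open Classical in
/-- the second moment method in a product space -/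
theorem trans_goodG (h : SM m V lam) (R : ι → Finset β) (X : ℕ) (hX1 : 1 ≤ X) (hX : ∀ i, (R i).card = X)
    (hV : ∀ c ∈ V, c.2 ∈ R c.1) (k T : ℕ) (hT : 1500 * T * m * X ≤ V.card) :
    (∑ B ∈ V.powerset.filter (fun B => (k ≤ B.card ∧ B.card ≤ T) ∧ TrG B), lam B) ^ 2 / 2 *
      ((X ^ Fintype.card ι : ℕ) : ℝ) ≤
      (((Fintype.piFinset R).filter (fun g => ∃ B, lam B ≠ 0 ∧ k ≤ B.card ∧ ∀ c ∈ B, g c.1 = c.2)).card : ℝ) := by
  have hVr : (0 : ℝ) < V.card := by exact_mod_cast h.Vpos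
  have hXr : (0 : ℝ) < X := by exact_mod_cast hX1
  obtain ⟨𝓑, h𝓑⟩ : ∃ 𝓑, 𝓑 = V.powerset.filter (fun B => (k ≤ B.card ∧ B.card ≤ T) ∧ TrG B) := ⟨_, rfl⟩
  have hmem : ∀ B ∈ 𝓑, B ⊆ V ∧ (k ≤ B.card ∧ B.card ≤ T) ∧ TrG B := by
    intro B hB
    rw [h𝓑, Finset.mem_filter, Finset.mem_powerset] at hB
    exact hB
  obtain ⟨q, hq⟩ : ∃ q, q = ∑ B ∈ 𝓑, lam B := ⟨_, rfl⟩
  rw [← h𝓑, ← hq]
  have hq0 : 0 ≤ q := by rw [hq]; exact Finset.sum_nonneg fun B _ => h.nonneg B
  have hq1 : q ≤ 1 := by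
    rw [hq]
    refine le_trans ?_ h.mass
    exact Finset.sum_le_sum_of_subset_of_nonneg (by rw [h𝓑]; exact Finset.filter_subset _ _)
      fun B _ _ => h.nonneg B
  obtain ⟨N, hN⟩ : ∃ N : ℝ, N = ((X ^ Fintype.card ι : ℕ) : ℝ) := ⟨_, rfl⟩
  have hN0 : 0 < N := by rw [hN]; push_cast; positivity
  rw [← hN]
  obtain ⟨Y, hY⟩ : ∃ Y : (ι → β) → ℝ, ∀ g, Y g = ∑ B ∈ 𝓑, if g ∈ thru R B then lam B * (X : ℝ) ^ B.card else 0 :=
    ⟨_, fun _ => rfl⟩
  have hsub : ∀ B, thru R B ⊆ Fintype.piFinset R := fun B => Finset.filter_subset _ _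
  have hcount : ∀ (B : Finset (ι × β)) (a : ℝ), ∑ g ∈ Fintype.piFinset R, (if g ∈ thru R B then a else 0) =
      ((thru R B).card : ℝ) * a := by
    intro B a
    rw [← Finset.sum_filter, Finset.sum_const, nsmul_eq_mul]
    congr 3
    ext g
    rw [Finset.mem_filter]
    exact ⟨fun h => h.2, fun h => ⟨hsub B h, h⟩⟩
  -- the first moment
  have hS1 : N * q ≤ ∑ g ∈ Fintype.piFinset R, Y g := by
    simp only [hY]
    rw [Finset.sum_comm, hq, Finset.mul_sum]
    refine Finset.sum_le_sum fun B hB => ?_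
    obtain ⟨h1, h2, h3⟩ := hmem B hB
    rw [hcount]
    have h4 := pi_count_ge R X hX B (fun c hc => hV c (h1 hc)) h3
    have h5 : N ≤ ((thru R B).card : ℝ) * (X : ℝ) ^ B.card := by rw [hN]; exact_mod_cast h4
    have h6 := mul_le_mul_of_nonneg_right h5 (h.nonneg B)
    linarith
  -- the second moment
  have hS2 : ∑ g ∈ Fintype.piFinset R, Y g ^ 2 ≤ 2 * N := by
    have h1 : ∀ g, Y g ^ 2 = ∑ B ∈ 𝓑, ∑ B' ∈ 𝓑, if g ∈ thru R (B ∪ B') then
        (lam B * (X : ℝ) ^ B.card) * (lam B' * (X : ℝ) ^ B'.card) else 0 := by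
      intro g
      rw [pow_two, hY, Finset.sum_mul_sum]
      refine Finset.sum_congr rfl fun B _ => Finset.sum_congr rfl fun B' _ => ?_
      by_cases h1 : g ∈ thru R B <;> by_cases h2 : g ∈ thru R B' <;> simp [thru_union, h1, h2]
    simp only [h1]
    rw [Finset.sum_comm]
    have h2 : ∀ B ∈ 𝓑, ∑ g ∈ Fintype.piFinset R, ∑ B' ∈ 𝓑, (if g ∈ thru R (B ∪ B') then
        (lam B * (X : ℝ) ^ B.card) * (lam B' * (X : ℝ) ^ B'.card) else 0) ≤ lam B * (2 * N) := by
      intro B hB
      obtain ⟨hB1, ⟨hB2, hB3⟩, hB4⟩ := hmem B hB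
      rw [Finset.sum_comm]
      have h3 : ∀ B' ∈ 𝓑, ∑ g ∈ Fintype.piFinset R, (if g ∈ thru R (B ∪ B') then
          (lam B * (X : ℝ) ^ B.card) * (lam B' * (X : ℝ) ^ B'.card) else 0) ≤
          lam B * N * (lam B' * (X : ℝ) ^ (B ∩ B').card) := by
        intro B' hB'
        rw [hcount]
        have h4 := pi_count_le R X hX (B ∪ B')
        have h5 : ((thru R (B ∪ B')).card : ℝ) * (X : ℝ) ^ (B ∪ B').card ≤ N := by rw [hN]; exact_mod_cast h4
        have e1 : B.card + B'.card = (B ∪ B').card + (B ∩ B').card :=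
          (Finset.card_union_add_card_inter B B').symm
        have l1 := h.nonneg B
        have l2 := h.nonneg B'
        calc ((thru R (B ∪ B')).card : ℝ) * ((lam B * (X : ℝ) ^ B.card) * (lam B' * (X : ℝ) ^ B'.card))
            = (((thru R (B ∪ B')).card : ℝ) * (X : ℝ) ^ (B.card + B'.card)) * (lam B * lam B') := by
              rw [pow_add]; ring
          _ = (((thru R (B ∪ B')).card : ℝ) * (X : ℝ) ^ (B ∪ B').card) *
              ((X : ℝ) ^ (B ∩ B').card * (lam B * lam B')) := by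
              rw [e1, pow_add]; ring
          _ ≤ N * ((X : ℝ) ^ (B ∩ B').card * (lam B * lam B')) :=
              mul_le_mul_of_nonneg_right h5 (by positivity)
          _ = _ := by ring
      refine (Finset.sum_le_sum h3).trans ?_
      rw [← Finset.mul_sum]
      obtain ⟨t, ht⟩ : ∃ t : ℝ, t = (V.card : ℝ) / X := ⟨_, rfl⟩
      have ht0 : 0 < t := by rw [ht]; positivity
      have e2 : (V.card : ℝ) / t = X := by rw [ht]; field_simp
      have ht1 : 1500 * (T : ℝ) * m ≤ t := by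
        rw [ht, le_div_iff₀ hXr]
        exact_mod_cast hT
      have h4 := h.inner B T t hB1 hB3 ht1 ht0 𝓑 (by rw [h𝓑]; exact Finset.filter_subset _ _)
      rw [e2] at h4
      calc lam B * N * ∑ B' ∈ 𝓑, lam B' * (X : ℝ) ^ (B ∩ B').card
          ≤ lam B * N * 2 := mul_le_mul_of_nonneg_left h4 (mul_nonneg (h.nonneg B) hN0.le)
        _ = _ := by ring
    refine (Finset.sum_le_sum h2).trans ?_
    rw [← Finset.sum_mul, ← hq]
    have : q * (2 * N) ≤ 1 * (2 * N) := mul_le_mul_of_nonneg_right hq1 (by positivity)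
    linarith
  -- Cauchy-Schwarz
  obtain ⟨G, hG⟩ : ∃ G, G = (Fintype.piFinset R).filter (fun g => ∃ B, lam B ≠ 0 ∧ k ≤ B.card ∧
    ∀ c ∈ B, g c.1 = c.2) := ⟨_, rfl⟩
  rw [← hG]
  have hzero : ∀ g ∈ Fintype.piFinset R, g ∉ G → Y g = 0 := by
    intro g hg hgG
    rw [hY]
    apply Finset.sum_eq_zero
    intro B hB
    by_cases hBg : g ∈ thru R B
    · rw [if_pos hBg]
      have : lam B = 0 := by
        by_contra hne
        apply hgG
        rw [hG, Finset.mem_filter]
        exact ⟨hg, B, hne, (hmem B hB).2.1.1, (mem_thru.1 hBg).2⟩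
      rw [this, zero_mul]
    · rw [if_neg hBg]
  have hGsub : G ⊆ Fintype.piFinset R := by rw [hG]; exact Finset.filter_subset _ _
  have h3 : N * q ≤ ∑ g ∈ G, Y g := by
    rw [Finset.sum_subset hGsub hzero]
    exact hS1
  have h4 : ∑ g ∈ G, Y g ^ 2 ≤ 2 * N :=
    (Finset.sum_le_sum_of_subset_of_nonneg hGsub fun g _ _ => sq_nonneg _).trans hS2
  have h5 := sq_sum_le_card_mul_sum_sq (s := G) (f := Y)
  have h6 : (N * q) ^ 2 ≤ (G.card : ℝ) * (2 * N) :=
    ((pow_le_pow_left₀ (by positivity) h3 2).trans h5).trans (mul_le_mul_of_nonneg_left h4 (Nat.cast_nonneg _))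
  have h7 : (q ^ 2 / 2 * N) * (2 * N) ≤ (G.card : ℝ) * (2 * N) := by
    refine le_trans (le_of_eq ?_) h6
    ring
  exact le_of_mul_le_mul_right h7 (by positivity)

end SM

/-- the values on `I` contain an isolated prime pattern with at least `k` elements -/
def HasPatG (Gd : Finset β → Prop) {ι : Type} (k : ℕ) (I : Finset ι) (g : ι → β) : Prop :=
  ∃ B : Finset β, k ≤ B.card ∧ Gd B ∧ ∀ b ∈ B, ∃ i ∈ I, g i = b

theorem hasPat_ofG {Gd : Finset β → Prop} {ι : Type} (k : ℕ) (I : Finset ι) (g : ι → β) (B : Finset (ι × β))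
    (s : Finset β) (hs : s = B.image (fun c => c.2))
    (hinj : ∀ x ∈ B, ∀ y ∈ B, x.2 = y.2 → x = y) (hiso : Gd s)
    (hk : k ≤ B.card) (hI : ∀ c ∈ B, c.1 ∈ I) (hg : ∀ c ∈ B, g c.1 = c.2) : HasPatG Gd k I g := by
  refine ⟨s, ?_, hiso, ?_⟩
  · have h1 : s.card = B.card := by
      rw [hs]
      apply Finset.card_image_of_injOn
      intro x hx y hy hxy
      have hx' : x ∈ B := Finset.mem_coe.1 hx
      have hy' : y ∈ B := Finset.mem_coe.1 hy
      have hxy' : x.2 = y.2 := hxy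
      exact hinj x hx' y hy' hxy'
    rw [h1]
    exact hk
  · intro b hb
    rw [hs, Finset.mem_image] at hb
    obtain ⟨c, hc, rfl⟩ := hb
    exact ⟨c.1, hI c hc, hg c hc⟩

open Classical in
/-- one block of coordinates -/
theorem blockG {Gd : Finset β → Prop} (hsp : HasSP0 Gd) (m k A : ℕ) (hm : 2 ≤ m) (hk : 1 ≤ k) (hkm : k ≤ m) (hA : 1 ≤ A) (q0 : ℝ) (hq0 : 0 ≤ q0)
    (hq : q0 ≤ ((m : ℝ) - k + 1) ^ 2 / (300000 * (m : ℝ) ^ 2) - 300000 / (A : ℝ) ^ 2 - 250000 / (1500 * A))
    (ρ : ℝ) (hρ : 0 < ρ) (hρ1 : ρ ≤ 1) {ι : Type} [Fintype ι] [DecidableEq ι] (R : ι → Finset β) (X : ℕ)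
    (hX : ∀ i, (R i).card = X) (hXbig : 4 * (⌈Real.exp (4 * (m : ℝ) + 29 / 50)⌉₊ : ℝ) ≤ ρ * X) (I : Finset ι)
    (ht0 : 3000 * (A : ℝ) * (m : ℝ) ^ 2 ≤ ρ * I.card) (V1 : Finset (ι × β))
    (hV1 : ∀ c ∈ V1, c.1 ∈ I ∧ c.2 ∈ R c.1) (hV1c : ρ * I.card * X ≤ V1.card) :
    q0 ^ 2 / 2 * ((X ^ Fintype.card ι : ℕ) : ℝ) ≤ (((Fintype.piFinset R).filter (HasPatG Gd k I)).card : ℝ) := by
  have hm' : (2 : ℝ) ≤ m := by exact_mod_cast hm
  have hA' : (1 : ℝ) ≤ A := by exact_mod_cast hA
  obtain ⟨K1, hK1def⟩ : ∃ K1 : ℕ, K1 = ⌈Real.exp (4 * (m : ℝ) + 29 / 50)⌉₊ := ⟨_, rfl⟩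
  have hK1pos : 1 ≤ K1 := by
    rw [hK1def, Nat.one_le_ceil_iff]; exact Real.exp_pos _
  have hK1r : (1 : ℝ) ≤ K1 := by exact_mod_cast hK1pos
  rw [← hK1def] at hXbig
  obtain ⟨t0, ht0d⟩ : ∃ t0, t0 = I.card := ⟨_, rfl⟩
  rw [← ht0d] at ht0 hV1c
  have ht0r : (1 : ℝ) ≤ t0 := by
    have h1 : 1 ≤ 3000 * (A : ℝ) * (m : ℝ) ^ 2 := by nlinarith
    have h2 : ρ * t0 ≤ 1 * t0 := mul_le_mul_of_nonneg_right hρ1 (Nat.cast_nonneg _)
    linarith
  have hX0 : (0 : ℝ) < X := by
    by_contra hcon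
    have h0 : (X : ℝ) = 0 := le_antisymm (not_lt.1 hcon) (Nat.cast_nonneg _)
    rw [h0] at hXbig
    linarith
  have hX1 : 1 ≤ X := by
    have : 0 < X := by exact_mod_cast hX0
    exact this
  -- the groups
  obtain ⟨g, hg⟩ : ∃ g, g = V1.card / K1 := ⟨_, rfl⟩
  have hg1 : K1 * g ≤ V1.card := by rw [hg]; exact Nat.mul_div_le _ _
  have hg2 : V1.card < K1 * (g + 1) := by
    rw [hg, mul_comm]
    exact Nat.lt_mul_of_div_lt (Nat.lt_succ_self _) hK1pos
  have hg2r : (V1.card : ℝ) ≤ K1 * (g + 1) := by exact_mod_cast hg2.le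
  have hV1big : 4 * (K1 : ℝ) * t0 ≤ V1.card := by
    refine le_trans ?_ hV1c
    have := mul_le_mul_of_nonneg_right hXbig (by linarith : (0 : ℝ) ≤ t0)
    nlinarith
  have hgt : (t0 : ℝ) + 1 ≤ g := by
    have h1 : 4 * (K1 : ℝ) * t0 ≤ K1 * (g + 1) := hV1big.trans hg2r
    have h2 : 4 * (t0 : ℝ) ≤ g + 1 := by
      have : (K1 : ℝ) * (4 * t0) ≤ K1 * (g + 1) := by linarith
      exact le_of_mul_le_mul_left this (by linarith)
    linarith
  have hgt' : t0 + 1 ≤ g := by exact_mod_cast hgt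
  obtain ⟨G, hG1, hG2, hG3⟩ := grouping (fun c : ι × β => c.2) t0 g (by omega) K1 V1 (by
    intro b
    rw [ht0d]
    apply Finset.card_le_card_of_injOn (fun c => c.1)
    · intro c hc
      rw [Finset.mem_coe, Finset.mem_filter] at hc
      exact (hV1 c hc.1).1
    · intro c hc c' hc' hcc
      rw [Finset.mem_coe, Finset.mem_filter] at hc hc'
      exact Prod.ext hcc (by rw [hc.2, hc'.2])) hg1
  have hsg := spread_groupsG hsp m hm (fun c : ι × β => c.2) (g - t0) (by omega)
  rw [← hK1def] at hsg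
  obtain ⟨lam, hSM, hlam⟩ := hsg G hG2 hG3
  obtain ⟨V, hV⟩ : ∃ V, V = univ.biUnion G := ⟨_, rfl⟩
  rw [← hV] at hSM
  have hVV1 : ∀ c ∈ V, c ∈ V1 := by
    intro c hc
    rw [hV, Finset.mem_biUnion] at hc
    obtain ⟨j, -, hj⟩ := hc
    exact hG1 j hj
  have hVc : V.card = K1 * (g - t0) := by
    rw [hV, Finset.card_biUnion]
    · simp [hG2]
    · intro i _ j _ hij
      rw [Function.onFun, Finset.disjoint_left]
      intro x hx hy
      exact hG3 i j hij x hx x hy rfl
  have hVr : (V.card : ℝ) = K1 * (g - t0) := by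
    rw [hVc, Nat.cast_mul, Nat.cast_sub (by omega)]
  have hVbig : ρ * t0 * X / 2 ≤ V.card := by
    have h1 : (V1.card : ℝ) / 2 ≤ V.card := by
      rw [hVr]
      nlinarith
    linarith
  have hVbig2 : 1500 * ((A : ℝ) * m) * m * X ≤ V.card := by
    refine le_trans ?_ hVbig
    have := mul_le_mul_of_nonneg_right ht0 hX0.le
    nlinarith
  have hgood := hSM.trans_goodG R X hX1 hX (fun c hc => (hV1 c (hVV1 c hc)).2) k (A * m) (by
    exact_mod_cast hVbig2)
  obtain ⟨q, hqdef⟩ : ∃ q : ℝ, q = ∑ B ∈ V.powerset.filter (fun B => (k ≤ B.card ∧ B.card ≤ A * m) ∧ SM.TrG B),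
    lam B := ⟨_, rfl⟩
  rw [← hqdef] at hgood
  have h2 : q0 ≤ q := by
    have h3 := hSM.p_ge k hk hkm
    have h4 := hSM.p_large (A * m) (Nat.mul_pos hA (by omega))
    have h5 := hSM.trans_massG R X hX (fun c hc => (hV1 c (hVV1 c hc)).2)
    have h6 : ∑ B ∈ V.powerset.filter (fun B => k ≤ B.card), lam B ≤
        q + ∑ B ∈ V.powerset.filter (fun B => A * m < B.card), lam B +
          ∑ B ∈ V.powerset.filter (fun B => ¬ SM.TrG B), lam B := by
      rw [hqdef, Finset.sum_filter, Finset.sum_filter, Finset.sum_filter, Finset.sum_filter,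
        ← Finset.sum_add_distrib, ← Finset.sum_add_distrib]
      refine Finset.sum_le_sum fun B _ => ?_
      have h6 := hSM.nonneg B
      by_cases h7 : k ≤ B.card
      · rw [if_pos h7]
        by_cases h9 : SM.TrG B
        · by_cases h8 : B.card ≤ A * m
          · rw [if_pos ⟨⟨h7, h8⟩, h9⟩, if_neg (by omega), if_neg (by rw [not_not]; exact h9)]; linarith
          · rw [if_neg (fun h => h8 h.1.2), if_pos (by omega), if_neg (by rw [not_not]; exact h9)]; linarith
        · rw [if_neg (fun h => h9 h.2), if_pos h9]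
          split_ifs <;> linarith
      · rw [if_neg h7]
        apply add_nonneg
        · apply add_nonneg <;> split_ifs <;> first | exact h6 | exact le_rfl
        · split_ifs <;> first | exact h6 | exact le_rfl
    have h7 : 300000 * (m : ℝ) ^ 2 / ((A * m : ℕ) : ℝ) ^ 2 = 300000 / (A : ℝ) ^ 2 := by
      push_cast
      field_simp
    rw [h7] at h4
    have h8 : 250000 * (m : ℝ) ^ 2 * X / V.card ≤ 250000 / (1500 * A) := by
      have hVpos : (0 : ℝ) < V.card := by exact_mod_cast hSM.Vpos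
      rw [div_le_div_iff₀ hVpos (by positivity)]
      nlinarith
    linarith
  refine le_trans ?_ (hgood.trans ?_)
  · apply mul_le_mul_of_nonneg_right _ (Nat.cast_nonneg _)
    have := pow_le_pow_left₀ hq0 h2 2
    linarith
  · have h4 : ((Fintype.piFinset R).filter (fun g => ∃ B, lam B ≠ 0 ∧ k ≤ B.card ∧ ∀ c ∈ B, g c.1 = c.2)) ⊆
        ((Fintype.piFinset R).filter (HasPatG Gd k I)) := by
      intro f hf
      rw [Finset.mem_filter] at hf ⊢
      obtain ⟨hf1, B, h5, h6, h7⟩ := hf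
      obtain ⟨hBV, h8, h9⟩ := hlam B h5
      rw [← hV] at hBV
      exact ⟨hf1, hasPat_ofG k I f B _ (by congr!) h9 h8 h6 (fun c hc => (hV1 c (hVV1 c (hBV hc))).1) h7⟩
    exact_mod_cast Finset.card_le_card h4


end Pool.Agent.H522
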