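import Mathlib
import Pool.Agent.H522.TransG1

/-! H522: random transversals, generic version, the final theorem. -/

set_option autoImplicit false

open Finset

namespace Pool.Agent.H522

variable {β : Type} [DecidableEq β]

theorem HasPatG.mono {Gd : Finset β → Prop} {ι : Type} {k : ℕ} {I J : Finset ι} {g : ι → β} (h : I ⊆ J) (h' : HasPatG Gd k I g) :
    HasPatG Gd k J g := by
  obtain ⟨B, h1, h2, h3⟩ := h'
  refine ⟨B, h1, h2, fun b hb => ?_⟩
  obtain ⟨i, hi, h4⟩ := h3 b hb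
  exact ⟨i, h hi, h4⟩

theorem HasPatG.congr {Gd : Finset β → Prop} {ι : Type} {k : ℕ} {I : Finset ι} {g g' : ι → β} (h : ∀ i ∈ I, g i = g' i)
    (h' : HasPatG Gd k I g) : HasPatG Gd k I g' := by
  obtain ⟨B, h1, h2, h3⟩ := h'
  refine ⟨B, h1, h2, fun b hb => ?_⟩
  obtain ⟨i, hi, h4⟩ := h3 b hb
  exact ⟨i, hi, by rw [← h i hi]; exact h4⟩

open Classical in
theorem amplifyG {Gd : Finset β → Prop} (k t t0 X : ℕ) (c : ℝ) (hc1 : c ≤ 1) (R : Fin t → Finset β)
    (hX1 : 1 ≤ X) (hX : ∀ i, (R i).card = X)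
    (hblock : ∀ I : Finset (Fin t), I.card = t0 →
      c * ((X ^ t : ℕ) : ℝ) ≤ (((Fintype.piFinset R).filter (HasPatG Gd k I)).card : ℝ)) :
    ∀ s, s * t0 ≤ t → (((Fintype.piFinset R).filter (fun g => ∀ j < s, ¬ HasPatG Gd k (blk t t0 j) g)).card : ℝ) ≤
      (1 - c) ^ s * ((X ^ t : ℕ) : ℝ) := by
  have hcard : (Fintype.piFinset R).card = X ^ t := by
    rw [Fintype.card_piFinset]
    simp [hX]
  have hN : (0 : ℝ) < ((X ^ t : ℕ) : ℝ) := by
    have : 0 < X ^ t := Nat.pow_pos (by omega)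
    exact_mod_cast this
  intro s
  induction s with
  | zero =>
    intro _
    simp only [pow_zero, one_mul]
    rw [← hcard]
    exact_mod_cast Finset.card_filter_le _ _
  | succ s ih =>
    intro hs
    have hs' : s * t0 + t0 ≤ t := by
      have : (s + 1) * t0 = s * t0 + t0 := by ring
      omega
    have h1 := ih (by omega)
    obtain ⟨P, hP⟩ : ∃ P : (Fin t → β) → Prop, P = fun g => ¬ HasPatG Gd k (blk t t0 s) g := ⟨_, rfl⟩
    obtain ⟨Q, hQ⟩ : ∃ Q : (Fin t → β) → Prop, Q = fun g => ∀ j < s, ¬ HasPatG Gd k (blk t t0 j) g := ⟨_, rfl⟩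
    have h2 := indep_le R (blk t t0 s) P Q (by
      intro h h' hh hp
      rw [hP] at hp ⊢
      intro hcon
      exact hp (hcon.congr fun i hi => (hh i hi).symm)) (by
      intro h h' hh hq
      rw [hQ] at hq ⊢
      intro j hj hcon
      refine hq j hj (hcon.congr fun i hi => (hh i fun hi' => ?_).symm)
      simp only [blk, Finset.mem_filter, Finset.mem_univ, true_and] at hi hi'
      have : (j + 1) * t0 ≤ s * t0 := Nat.mul_le_mul_right _ hj
      omega)
    rw [hcard] at h2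
    have h3 : (Fintype.piFinset R).filter (fun g => ∀ j < s + 1, ¬ HasPatG Gd k (blk t t0 j) g) =
        (Fintype.piFinset R).filter (fun g => P g ∧ Q g) := by
      apply Finset.filter_congr
      intro g _
      rw [hP, hQ]
      constructor
      · intro h
        exact ⟨h s (by omega), fun j hj => h j (by omega)⟩
      · rintro ⟨h4, h5⟩ j hj
        by_cases hjs : j = s
        · rw [hjs]; exact h4
        · exact h5 j (by omega)
    rw [h3]
    have h4 : (((Fintype.piFinset R).filter P).card : ℝ) ≤ (1 - c) * ((X ^ t : ℕ) : ℝ) := by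
      have h5 := hblock (blk t t0 s) (blk_card t t0 s (by
        have : (s + 1) * t0 = s * t0 + t0 := by ring
        omega))
      have h6 : (((Fintype.piFinset R).filter (HasPatG Gd k (blk t t0 s))).card : ℝ) +
          (((Fintype.piFinset R).filter P).card : ℝ) = ((X ^ t : ℕ) : ℝ) := by
        have e := Finset.card_filter_add_card_filter_not (s := Fintype.piFinset R) (HasPatG Gd k (blk t t0 s))
        have e2 : ((Fintype.piFinset R).filter P).card =
            ((Fintype.piFinset R).filter (fun a => ¬ HasPatG Gd k (blk t t0 s) a)).card := by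
          rw [hP]
          congr!
        rw [hcard, ← e2] at e
        exact_mod_cast e
      linarith
    have h5 : (((Fintype.piFinset R).filter (fun g => P g ∧ Q g)).card : ℝ) * ((X ^ t : ℕ) : ℝ) ≤
        (((Fintype.piFinset R).filter P).card : ℝ) * (((Fintype.piFinset R).filter Q).card : ℝ) := by
      exact_mod_cast h2
    have h1' : (((Fintype.piFinset R).filter Q).card : ℝ) ≤ (1 - c) ^ s * ((X ^ t : ℕ) : ℝ) := by
      rw [hQ]; convert h1
    have h6 : (((Fintype.piFinset R).filter (fun g => P g ∧ Q g)).card : ℝ) * ((X ^ t : ℕ) : ℝ) ≤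
        ((1 - c) ^ (s + 1) * ((X ^ t : ℕ) : ℝ)) * ((X ^ t : ℕ) : ℝ) := by
      calc (((Fintype.piFinset R).filter (fun g => P g ∧ Q g)).card : ℝ) * ((X ^ t : ℕ) : ℝ)
          ≤ (((Fintype.piFinset R).filter P).card : ℝ) * (((Fintype.piFinset R).filter Q).card : ℝ) := h5
        _ ≤ ((1 - c) * ((X ^ t : ℕ) : ℝ)) * ((1 - c) ^ s * ((X ^ t : ℕ) : ℝ)) :=
          mul_le_mul h4 h1' (Nat.cast_nonneg _) (mul_nonneg (by linarith) hN.le)
        _ = _ := by rw [pow_succ]; ring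
    exact le_of_mul_le_mul_right h6 hN

open Classical in
theorem amplify_allG {Gd : Finset β → Prop} (k t t0 X : ℕ) (ht0 : 1 ≤ t0) (c : ℝ) (hc0 : 0 ≤ c) (hc1 : c ≤ 1 / 2)
    (R : Fin t → Finset β) (hX1 : 1 ≤ X) (hX : ∀ i, (R i).card = X)
    (hblock : ∀ I : Finset (Fin t), I.card = t0 →
      c * ((X ^ t : ℕ) : ℝ) ≤ (((Fintype.piFinset R).filter (HasPatG Gd k I)).card : ℝ)) :
    (((Fintype.piFinset R).filter (fun g => ¬ HasPatG Gd k univ g)).card : ℝ) ≤
      2 * Real.exp (-(c * (t / t0))) * ((X ^ t : ℕ) : ℝ) := by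
  have ht0r : (0 : ℝ) < t0 := by exact_mod_cast ht0
  obtain ⟨s, hs⟩ : ∃ s, s = t / t0 := ⟨_, rfl⟩
  have hs1 : s * t0 ≤ t := by rw [hs]; exact Nat.div_mul_le_self _ _
  have hs2 : t < s * t0 + t0 := by
    rw [hs]; exact Nat.lt_div_mul_add (by omega)
  have hs2r : (t : ℝ) < s * t0 + t0 := by exact_mod_cast hs2
  have h1 := amplifyG k t t0 X c (by linarith) R hX1 hX hblock s hs1
  have h2 : (((Fintype.piFinset R).filter (fun g => ¬ HasPatG Gd k univ g)).card : ℝ) ≤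
      (((Fintype.piFinset R).filter (fun g => ∀ j < s, ¬ HasPatG Gd k (blk t t0 j) g)).card : ℝ) := by
    apply Nat.cast_le.2
    apply Finset.card_le_card
    intro g hg
    rw [Finset.mem_filter] at hg ⊢
    exact ⟨hg.1, fun j _ hcon => hg.2 (hcon.mono (Finset.subset_univ _))⟩
  refine h2.trans (h1.trans ?_)
  apply mul_le_mul_of_nonneg_right _ (Nat.cast_nonneg _)
  calc (1 - c) ^ s ≤ (Real.exp (-c)) ^ s := by
        apply pow_le_pow_left₀ (by linarith)
        have := Real.add_one_le_exp (-c)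
        linarith
    _ = Real.exp (-(c * s)) := by rw [← Real.exp_nat_mul]; congr 1; ring
    _ ≤ Real.exp (c - c * (t / t0)) := by
        apply Real.exp_le_exp.2
        have h6 : (t : ℝ) / t0 ≤ s + 1 := by
          rw [div_le_iff₀ ht0r]
          linarith
        nlinarith
    _ = Real.exp c * Real.exp (-(c * (t / t0))) := by
        rw [← Real.exp_add]; congr 1
    _ ≤ 2 * Real.exp (-(c * (t / t0))) := by
        apply mul_le_mul_of_nonneg_right _ (Real.exp_pos _).le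
        have h7 : Real.exp c ≤ Real.exp (1 / 2) := Real.exp_le_exp.2 hc1
        have h8 : Real.exp (1 / 2 : ℝ) ≤ 2 := by
          have h9 : Real.exp (1 / 2 : ℝ) ^ 2 = Real.exp 1 := by
            rw [← Real.exp_nat_mul]; congr 1; norm_num
          have h10 := Real.exp_one_lt_d9
          nlinarith [Real.exp_pos (1 / 2 : ℝ)]
        linarith

open Classical in
/-- the main bound with the loss `ρ` -/
theorem main_rhoG {Gd : Finset β → Prop} (hsp : HasSP0 Gd) (d : ℝ) (hd0 : 0 < d) (hd1 : d ≤ 1) (A : ℕ) (hA : 100000000000 / d ^ 2 ≤ A) (k m : ℕ) (hk : 1 ≤ k)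
    (hm : m = ⌈(1 + d / 8) * k⌉₊ + 2) (ρ : ℝ) (hρ : 0 < ρ) (hρ1 : ρ ≤ 1) (t : ℕ) (R : Fin t → Finset β)
    (hR : ∀ i, ⌈4 * (⌈Real.exp (4 * (m : ℝ) + 29 / 50)⌉₊ : ℝ) / ρ⌉₊ ≤ (R i).card) :
    (((Fintype.piFinset R).filter (fun g => ¬ HasPatG Gd k univ g)).card : ℝ) ≤
      2 * Real.exp (-((d ^ 2 / 153600000) ^ 2 / 2 * (t / (⌈3000 * (A : ℝ) * (m : ℝ) ^ 2 / ρ⌉₊ : ℝ)))) *
      ∏ i, ((R i).card : ℝ) := by
  have hk' : (1 : ℝ) ≤ k := by exact_mod_cast hk
  obtain ⟨X, hX⟩ : ∃ X, X = ⌈4 * (⌈Real.exp (4 * (m : ℝ) + 29 / 50)⌉₊ : ℝ) / ρ⌉₊ := ⟨_, rfl⟩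
  rw [← hX] at hR
  obtain ⟨t0, ht0⟩ : ∃ t0, t0 = ⌈3000 * (A : ℝ) * (m : ℝ) ^ 2 / ρ⌉₊ := ⟨_, rfl⟩
  rw [← ht0]
  obtain ⟨q0, hq0⟩ : ∃ q0 : ℝ, q0 = d ^ 2 / 153600000 := ⟨_, rfl⟩
  rw [← hq0]
  have hd2 : d ^ 2 ≤ 1 := pow_le_one₀ hd0.le hd1
  have hd2p : 0 < d ^ 2 := by positivity
  have hq0pos : 0 < q0 := by rw [hq0]; positivity
  have hq01 : q0 ≤ 1 := by rw [hq0]; linarith
  have hA1 : (1 : ℝ) ≤ A := by
    refine le_trans ?_ hA
    rw [le_div_iff₀ hd2p]
    linarith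
  have hA1' : 1 ≤ A := by exact_mod_cast hA1
  have hm2 : 2 ≤ m := by omega
  have hm' : (2 : ℝ) ≤ m := by exact_mod_cast hm2
  have hml : (1 + d / 8) * k + 2 ≤ m := by
    rw [hm]; push_cast
    have := Nat.le_ceil ((1 + d / 8) * (k : ℝ))
    linarith
  have hkm : k ≤ m := by
    have : (k : ℝ) ≤ m := by nlinarith
    exact_mod_cast this
  have hmpos : (0 : ℝ) < m := by linarith
  have hq : q0 ≤ ((m : ℝ) - k + 1) ^ 2 / (300000 * (m : ℝ) ^ 2) - 300000 / (A : ℝ) ^ 2 - 250000 / (1500 * A) := by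
    have h1 : d / 16 * m ≤ (m : ℝ) - k + 1 := by
      have e1 : (1 - d / 16) * ((1 + d / 8) * k + 2) ≤ (1 - d / 16) * m :=
        mul_le_mul_of_nonneg_left hml (by linarith)
      have e2 : 0 ≤ d * k := by positivity
      have e3 : 0 ≤ d * k * (1 - d) := mul_nonneg e2 (by linarith)
      have e4 : (1 - d / 16) * ((1 + d / 8) * k + 2) = k + 2 - d / 8 + (d * k * (1 - d)) / 128 + 7 / 128 * (d * k) := by
        ring
      rw [e4] at e1
      linarith
    have h2 : d ^ 2 / 76800000 ≤ ((m : ℝ) - k + 1) ^ 2 / (300000 * (m : ℝ) ^ 2) := by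
      rw [le_div_iff₀ (by positivity)]
      have h3 := pow_le_pow_left₀ (by positivity) h1 2
      have h4 : d ^ 2 / 76800000 * (300000 * (m : ℝ) ^ 2) = (d / 16 * m) ^ 2 := by ring
      rw [h4]
      exact h3
    have hAp : (0 : ℝ) < A := by linarith
    have hA' : 100000000000 ≤ A * d ^ 2 := by
      rw [div_le_iff₀ hd2p] at hA
      exact hA
    have h3 : 250000 / (1500 * (A : ℝ)) ≤ d ^ 2 / 500000000 := by
      rw [div_le_div_iff₀ (by positivity) (by positivity)]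
      nlinarith
    have h4 : 300000 / (A : ℝ) ^ 2 ≤ d ^ 2 / 500000000 := by
      rw [div_le_div_iff₀ (by positivity) (by positivity)]
      have h5 : (A : ℝ) ≤ (A : ℝ) ^ 2 := by nlinarith
      have h6 : d ^ 2 * A ≤ d ^ 2 * (A : ℝ) ^ 2 := mul_le_mul_of_nonneg_left h5 hd2p.le
      have h7 : (10 : ℝ) ^ 11 ≤ A := by
        have : A * d ^ 2 ≤ A * 1 := mul_le_mul_of_nonneg_left hd2 hAp.le
        linarith
      have h8 : A * d ^ 2 * 10 ^ 11 ≤ A * d ^ 2 * A := mul_le_mul_of_nonneg_left h7 (by positivity)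
      nlinarith
    rw [hq0]
    have h5 : d ^ 2 / 153600000 + d ^ 2 / 500000000 + d ^ 2 / 500000000 ≤ d ^ 2 / 76800000 := by
      have : d ^ 2 / 153600000 + d ^ 2 / 500000000 + d ^ 2 / 500000000 =
        d ^ 2 * (1 / 153600000 + 1 / 500000000 + 1 / 500000000) := by ring
      rw [this]
      have : d ^ 2 / 76800000 = d ^ 2 * (1 / 76800000) := by ring
      rw [this]
      apply mul_le_mul_of_nonneg_left _ hd2p.le
      norm_num
    linarith
  have hXr : 4 * (⌈Real.exp (4 * (m : ℝ) + 29 / 50)⌉₊ : ℝ) ≤ ρ * X := by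
    have h1 : 4 * (⌈Real.exp (4 * (m : ℝ) + 29 / 50)⌉₊ : ℝ) / ρ ≤ X := by rw [hX]; exact Nat.le_ceil _
    rw [div_le_iff₀ hρ] at h1
    linarith
  have hX1 : 1 ≤ X := by
    have h1 : (0 : ℝ) < ⌈Real.exp (4 * (m : ℝ) + 29 / 50)⌉₊ := by
      exact_mod_cast Nat.ceil_pos.2 (Real.exp_pos _)
    have h2 : (0 : ℝ) < X := by
      by_contra hcon
      have h0 : (X : ℝ) = 0 := le_antisymm (not_lt.1 hcon) (Nat.cast_nonneg _)
      rw [h0] at hXr
      linarith
    exact_mod_cast h2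
  have ht0r : 3000 * (A : ℝ) * (m : ℝ) ^ 2 ≤ ρ * t0 := by
    have h1 : 3000 * (A : ℝ) * (m : ℝ) ^ 2 / ρ ≤ t0 := by rw [ht0]; exact Nat.le_ceil _
    rw [div_le_iff₀ hρ] at h1
    linarith
  have ht01 : 1 ≤ t0 := by
    have h2 : (0 : ℝ) < t0 := by
      by_contra hcon
      have h0 : (t0 : ℝ) = 0 := le_antisymm (not_lt.1 hcon) (Nat.cast_nonneg _)
      rw [h0] at ht0r
      have : 0 < 3000 * (A : ℝ) * (m : ℝ) ^ 2 := by positivity
      linarith
    exact_mod_cast h2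
  have hc1 : q0 ^ 2 / 2 ≤ 1 / 2 := by
    have : q0 ^ 2 ≤ 1 := pow_le_one₀ hq0pos.le hq01
    linarith
  have hmain := resample R X hX1 hR (fun g => ¬ HasPatG Gd k univ g)
    (2 * Real.exp (-(q0 ^ 2 / 2 * (t / t0)))) (by
      intro R' hR' hR'c
      rw [Fintype.card_fin]
      refine amplify_allG k t t0 X ht01 (q0 ^ 2 / 2) (by positivity) hc1 R' hX1 hR'c ?_
      intro I hI
      have hV2 : ρ * (I.card : ℝ) * X ≤ (((I.biUnion (fun i => (R' i).image (fun x => (i, x)))).card : ℕ) : ℝ) := by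
        have h1 : (I.biUnion (fun i => (R' i).image (fun x => (i, x)))).card = I.card * X := by
          rw [Finset.card_biUnion]
          · have h2 : ∀ i ∈ I, ((R' i).image (fun x => (i, x))).card = X := by
              intro i _
              rw [Finset.card_image_of_injective _ (fun a b h => (Prod.ext_iff.1 h).2)]
              exact hR'c i
            rw [Finset.sum_congr rfl h2, Finset.sum_const, smul_eq_mul]
          · intro i _ j _ hij
            rw [Function.onFun, Finset.disjoint_left]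
            intro c hc hc'
            rw [Finset.mem_image] at hc hc'
            obtain ⟨x, _, rfl⟩ := hc
            obtain ⟨y, _, h⟩ := hc'
            exact hij (Prod.ext_iff.1 h).1.symm
        rw [h1]
        push_cast
        have h3 : (0 : ℝ) ≤ (I.card : ℝ) * X := by positivity
        nlinarith
      have h1 := blockG hsp m k A hm2 hk hkm hA1' q0 hq0pos.le hq ρ hρ hρ1 R' X hR'c hXr I (by rw [hI]; exact ht0r)
        (I.biUnion (fun i => (R' i).image (fun x => (i, x)))) (by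
          intro c hc
          rw [Finset.mem_biUnion] at hc
          obtain ⟨i, hi, hc⟩ := hc
          rw [Finset.mem_image] at hc
          obtain ⟨x, hx, rfl⟩ := hc
          exact ⟨hi, hx⟩) hV2
      rw [Fintype.card_fin] at h1
      exact h1)
  exact hmain


open Classical in
/-- random transversals -/
theorem trans_mainG (δ : ℝ) (hδ : 0 < δ) : ∃ C : ℝ, 0 < C ∧ ∀ (β : Type) [DecidableEq β]
    (Gd : Finset β → Prop), HasSP0 Gd → ∀ (k t : ℕ) (R : Fin t → Finset β), 1 ≤ k →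
    (∀ i, Real.exp ((4 + δ) * k + C) ≤ (R i).card) →
    (((Fintype.piFinset R).filter (fun g => ¬ HasPatG Gd k univ g)).card : ℝ) ≤
      2 * Real.exp (-(t / (C * (k : ℝ) ^ 2))) * ∏ i, ((R i).card : ℝ) := by
  obtain ⟨c', hc'0, hc'1⟩ : ∃ c' : ℝ, 0 < c' ∧ c' ≤ 1 := ⟨1, one_pos, le_rfl⟩
  obtain ⟨d, hd0, hd1, hdδ⟩ : ∃ d : ℝ, 0 < d ∧ d ≤ 1 ∧ d ≤ δ :=
    ⟨min 1 δ, lt_min one_pos hδ, min_le_left _ _, min_le_right _ _⟩
  obtain ⟨A, hA⟩ : ∃ A : ℕ, A = ⌈100000000000 / d ^ 2⌉₊ := ⟨_, rfl⟩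
  have hAr : 100000000000 / d ^ 2 ≤ A := by rw [hA]; exact Nat.le_ceil _
  have hd2 : d ^ 2 ≤ 1 := pow_le_one₀ hd0.le hd1
  have hd2p : 0 < d ^ 2 := by positivity
  have hA1 : (1 : ℝ) ≤ A := by
    refine le_trans ?_ hAr
    rw [le_div_iff₀ hd2p]
    linarith
  have hAp : (0 : ℝ) < A := by linarith
  obtain ⟨q, hq⟩ : ∃ q : ℝ, q = (d ^ 2 / 153600000) ^ 2 / 2 := ⟨_, rfl⟩
  have hq0 : 0 < q := by rw [hq]; positivity
  obtain ⟨C, hC⟩ : ∃ C : ℝ, C = 2000000 * A / (c' * q) + 402 / (c' * d) + 20 := ⟨_, rfl⟩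
  have hCa : 2000000 * A / (c' * q) ≤ C := by
    rw [hC]
    have : 0 ≤ 402 / (c' * d) := by positivity
    linarith
  have hCb : 402 / (c' * d) + 20 ≤ C := by
    rw [hC]
    have : 0 ≤ 2000000 * A / (c' * q) := by positivity
    linarith
  have hC0 : 0 < C := by
    have : 0 ≤ 402 / (c' * d) := by positivity
    linarith
  refine ⟨C, hC0, ?_⟩
  intro β _ Gd hsp k t R hk hR
  have hk' : (1 : ℝ) ≤ k := by exact_mod_cast hk
  obtain ⟨m, hm⟩ : ∃ m : ℕ, m = ⌈(1 + d / 8) * k⌉₊ + 2 := ⟨_, rfl⟩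
  have hm2 : 2 ≤ m := by omega
  have hm2r : (2 : ℝ) ≤ m := by exact_mod_cast hm2
  have hmu : (m : ℝ) ≤ (1 + d / 8) * k + 3 := by
    rw [hm]; push_cast
    have := (Nat.ceil_lt_add_one (a := (1 + d / 8) * (k : ℝ)) (by positivity)).le
    linarith
  have hm5 : (m : ℝ) ≤ 5 * k := by nlinarith
  have hmk : 4 * (m : ℝ) + 29 / 50 ≤ (4 + d / 2) * k + 13 := by linarith
  -- the bound for the sizes
  have hexp : Real.exp (4 * (m : ℝ) + 29 / 50) ≤ Real.exp ((4 + d / 2) * k + 13) := Real.exp_le_exp.2 hmk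
  have hK : (⌈Real.exp (4 * (m : ℝ) + 29 / 50)⌉₊ : ℝ) ≤ 2 * Real.exp ((4 + d / 2) * k + 13) := by
    have h1 := (K1_prop m hm2).2.2
    have h2 : 1 ≤ Real.exp (4 * (m : ℝ) + 29 / 50) := Real.one_le_exp (by positivity)
    linarith
  have hkd : (k : ℝ) ≤ 2 / d * Real.exp (d / 2 * k) := by
    have h1 := Real.add_one_le_exp (d / 2 * (k : ℝ))
    have h2 : d / 2 * k ≤ Real.exp (d / 2 * k) := by linarith
    calc (k : ℝ) = 2 / d * (d / 2 * k) := by field_simp
      _ ≤ _ := mul_le_mul_of_nonneg_left h2 (by positivity)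
  have hsize : ∀ ρ : ℝ, c' / (25 * k) ≤ ρ → 0 < ρ →
      4 * (⌈Real.exp (4 * (m : ℝ) + 29 / 50)⌉₊ : ℝ) / ρ + 1 ≤ Real.exp ((4 + δ) * k + C) := by
    intro ρ hρ hρ0
    have h1 : 1 / ρ ≤ 25 * k / c' := by
      rw [div_le_div_iff₀ hρ0 hc'0]
      rw [div_le_iff₀ (by positivity)] at hρ
      linarith
    have h2 : 4 * (⌈Real.exp (4 * (m : ℝ) + 29 / 50)⌉₊ : ℝ) / ρ ≤
        (8 * Real.exp ((4 + d / 2) * k + 13)) * (25 * k / c') := by
      calc 4 * (⌈Real.exp (4 * (m : ℝ) + 29 / 50)⌉₊ : ℝ) / ρ =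
            (4 * (⌈Real.exp (4 * (m : ℝ) + 29 / 50)⌉₊ : ℝ)) * (1 / ρ) := by ring
        _ ≤ _ := mul_le_mul (by linarith) h1 (by positivity) (by positivity)
    have h3 : (8 * Real.exp ((4 + d / 2) * k + 13)) * (25 * k / c') ≤
        400 / (c' * d) * Real.exp ((4 + d) * k + 13) := by
      have e1 : Real.exp ((4 + d) * (k : ℝ) + 13) = Real.exp ((4 + d / 2) * k + 13) * Real.exp (d / 2 * k) := by
        rw [← Real.exp_add]; congr 1; ring
      rw [e1]
      calc (8 * Real.exp ((4 + d / 2) * k + 13)) * (25 * k / c') =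
            (200 / c' * Real.exp ((4 + d / 2) * k + 13)) * k := by ring
        _ ≤ (200 / c' * Real.exp ((4 + d / 2) * k + 13)) * (2 / d * Real.exp (d / 2 * k)) :=
            mul_le_mul_of_nonneg_left hkd (by positivity)
        _ = _ := by field_simp; ring
    have h4 : 1 ≤ 2 / (c' * d) * Real.exp ((4 + d) * k + 13) := by
      have h5 : 1 ≤ Real.exp ((4 + d) * (k : ℝ) + 13) := Real.one_le_exp (by positivity)
      have h6 : 1 ≤ 2 / (c' * d) := by
        rw [le_div_iff₀ (by positivity)]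
        nlinarith
      calc (1 : ℝ) = 1 * 1 := by ring
        _ ≤ _ := mul_le_mul h6 h5 (by norm_num) (by positivity)
    have h5 : 400 / (c' * d) * Real.exp ((4 + d) * k + 13) + 2 / (c' * d) * Real.exp ((4 + d) * k + 13) =
        402 / (c' * d) * Real.exp ((4 + d) * k + 13) := by ring
    have h6 : 402 / (c' * d) ≤ Real.exp (402 / (c' * d)) := by
      have := Real.add_one_le_exp (402 / (c' * d))
      linarith
    calc 4 * (⌈Real.exp (4 * (m : ℝ) + 29 / 50)⌉₊ : ℝ) / ρ + 1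
        ≤ 402 / (c' * d) * Real.exp ((4 + d) * k + 13) := by linarith
      _ ≤ Real.exp (402 / (c' * d)) * Real.exp ((4 + d) * k + 13) :=
          mul_le_mul_of_nonneg_right h6 (Real.exp_pos _).le
      _ = Real.exp (402 / (c' * d) + ((4 + d) * k + 13)) := by rw [← Real.exp_add]
      _ ≤ _ := by
          apply Real.exp_le_exp.2
          nlinarith
  have hceil : ∀ ρ : ℝ, c' / (25 * k) ≤ ρ → 0 < ρ → ∀ i,
      ⌈4 * (⌈Real.exp (4 * (m : ℝ) + 29 / 50)⌉₊ : ℝ) / ρ⌉₊ ≤ (R i).card := by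
    intro ρ hρ hρ0 i
    have h1 := (Nat.ceil_lt_add_one (a := 4 * (⌈Real.exp (4 * (m : ℝ) + 29 / 50)⌉₊ : ℝ) / ρ) (by positivity)).le
    have h2 := (h1.trans (hsize ρ hρ hρ0)).trans (hR i)
    exact_mod_cast h2
  have hprod : 0 ≤ ∏ i, ((R i).card : ℝ) := Finset.prod_nonneg fun i _ => Nat.cast_nonneg _
  have hCq : 2000000 * A ≤ C * (c' * q) := by
    rwa [div_le_iff₀ (by positivity)] at hCa
  have ht0r : (0 : ℝ) ≤ t := Nat.cast_nonneg _
  have hAm : (1 : ℝ) ≤ A * (k : ℝ) ^ 2 := by nlinarith [sq_nonneg (k : ℝ)]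
  have hρ2 : c' / (25 * (k : ℝ)) ≤ 1 := by
    rw [div_le_one (by positivity)]; linarith
  have h1 := main_rhoG hsp d hd0 hd1 A hAr k m hk hm 1 one_pos le_rfl t R (hceil _ hρ2 one_pos)
  refine h1.trans ?_
  apply mul_le_mul_of_nonneg_right _ hprod
  apply mul_le_mul_of_nonneg_left _ (by norm_num)
  apply Real.exp_le_exp.2
  apply neg_le_neg
  rw [← hq]
  obtain ⟨t0, ht0⟩ : ∃ t0 : ℝ, t0 = (⌈3000 * (A : ℝ) * (m : ℝ) ^ 2 / 1⌉₊ : ℝ) := ⟨_, rfl⟩
  rw [← ht0]
  have h2 : t0 ≤ 3000 * (A : ℝ) * (m : ℝ) ^ 2 / 1 + 1 := by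
    rw [ht0]; exact (Nat.ceil_lt_add_one (by positivity)).le
  have h3 : 0 < t0 := by
    rw [ht0]
    have h9 : 0 < ⌈3000 * (A : ℝ) * (m : ℝ) ^ 2 / 1⌉₊ := Nat.ceil_pos.2 (by positivity)
    exact_mod_cast h9
  have h4 : t0 ≤ 80000 * A * (k : ℝ) ^ 2 := by
    have h5 : (m : ℝ) ^ 2 ≤ 25 * (k : ℝ) ^ 2 := by
      have := pow_le_pow_left₀ (by linarith : (0 : ℝ) ≤ m) hm5 2
      calc (m : ℝ) ^ 2 ≤ (5 * (k : ℝ)) ^ 2 := this
        _ = _ := by ring
    have h6 : (A : ℝ) * (m : ℝ) ^ 2 ≤ A * (25 * (k : ℝ) ^ 2) := mul_le_mul_of_nonneg_left h5 (by linarith)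
    rw [div_one] at h2
    linarith
  have h5 : (t : ℝ) / (C * (k : ℝ) ^ 2) ≤ t / (t0 / q) := by
    apply div_le_div_of_nonneg_left ht0r (by positivity)
    rw [div_le_iff₀ hq0]
    have h6 : t0 * c' ≤ C * (k : ℝ) ^ 2 * q * c' := by
      have h7 : 2000000 * A * (k : ℝ) ^ 2 ≤ C * (c' * q) * (k : ℝ) ^ 2 :=
        mul_le_mul_of_nonneg_right hCq (by positivity)
      have h8 : 0 ≤ (A : ℝ) * (k : ℝ) ^ 2 := by positivity
      have h9 : t0 * c' ≤ t0 * 1 := mul_le_mul_of_nonneg_left hc'1 h3.le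
      have h10 : C * (c' * q) * (k : ℝ) ^ 2 = C * (k : ℝ) ^ 2 * q * c' := by ring
      have h11 : 0 ≤ (A : ℝ) * (k : ℝ) ^ 2 := by positivity
      linarith
    exact le_of_mul_le_mul_right h6 hc'0
  refine h5.trans (le_of_eq ?_)
  field_simp


end Pool.Agent.H522
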